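import Pool.Statements.S00302
import Pool.Agent.Lib.MP_8e46bf_ag.Roots

set_option autoImplicit false
open Pool Pool.MP_8e46bf_ag

namespace Pool.Agent.S00302

open Pool.Agent.Lib.MP_8e46bf_ag in
/-- The case `n = 7` fails.  Put `z = (700, 707, 714, -700, -707, -714, t)`.  For a product of
differences `P` one has `P(70000)^2 ≤ K P(0)^2 + M P(700000)^2` with explicit `K`, `M`, whereas the
exact values of the discriminant at `t = 0, 70000, 700000` violate this inequality. -/
theorem result :
    ¬ (∀ n : ℕ, 2 ≤ n →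
      ∃ (m : ℕ) (c : Fin m → ℝ) (E : Fin m → List (Fin n × Fin n)),
        (∀ k, 0 ≤ c k) ∧
        ∀ (z : Fin n → ℂ) (r : Fin (n - 1) → ℂ),
          Polynomial.derivative (∏ i : Fin n, (Polynomial.X - Polynomial.C (z i))) =
              Polynomial.C (n : ℂ) * ∏ j : Fin (n - 1), (Polynomial.X - Polynomial.C (r j)) →
            (n : ℂ) ^ (2 * n - 4) * ∏ a : Fin (n - 1), ∏ b ∈ Finset.Ioi a, (r a - r b) ^ 2 =
              ∑ k : Fin m, ((c k : ℝ) : ℂ) * (((E k).map (fun p => z p.1 - z p.2)).prod) ^ 2) := by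
  intro hall
  obtain ⟨m, c, E, hc, hz⟩ := hall 7 (by norm_num)
  -- the value of the sum of squares at parameter `t`, as a real number
  have hcast : ∀ t : ℝ, (∑ k : Fin m, ((c k : ℝ) : ℂ) *
      (((E k).map (fun p => ((zc t p.1 : ℝ) : ℂ) - ((zc t p.2 : ℝ) : ℂ))).prod) ^ 2) =
      ((∑ k : Fin m, c k * (prodf t (E k)) ^ 2 : ℝ) : ℂ) := by
    intro t
    push_cast
    refine Finset.sum_congr rfl fun k _ => ?_
    congr 2
    rw [prodf, ← Complex.ofRealHom_eq_coe, map_list_prod, List.map_map]
    congr 1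
    refine List.map_congr_left fun p _ => ?_
    simp [fac]
  have hval : ∀ (t : ℝ) (N : ℝ), (∀ r : Fin 6 → ℂ,
      Polynomial.derivative (∏ i : Fin 7, (Polynomial.X - Polynomial.C ((zc t i : ℝ) : ℂ))) =
      Polynomial.C ((7 : ℕ) : ℂ) * ∏ j : Fin 6, (Polynomial.X - Polynomial.C (r j)) →
      ∏ a : Fin 6, ∏ b ∈ Finset.Ioi a, (r a - r b) ^ 2 = (N : ℂ)) →
      ∑ k : Fin m, c k * (prodf t (E k)) ^ 2 = 7 ^ 10 * N := by
    intro t N hN
    obtain ⟨r, hr⟩ := exists_roots t
    have h1 := hz (fun i => ((zc t i : ℝ) : ℂ)) r hr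
    have h2 := hN r hr
    have h3 : ((7 : ℕ) : ℂ) ^ (2 * 7 - 4) *
        ∏ a : Fin 6, ∏ b ∈ Finset.Ioi a, (r a - r b) ^ 2 =
        ((∑ k : Fin m, c k * (prodf t (E k)) ^ 2 : ℝ) : ℂ) := by
      rw [← hcast t]
      exact h1
    rw [h2] at h3
    have h4 : ((∑ k : Fin m, c k * (prodf t (E k)) ^ 2 : ℝ) : ℂ) = ((7 ^ 10 * N : ℝ) : ℂ) := by
      rw [← h3]
      push_cast
      norm_num
    exact_mod_cast h4
  have hA := hval 0 22125558845833736355533586337250706521053141321498383072648483369725202923520000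
    (fun r hr => by
      have := valueA r hr
      rw [this]
      push_cast
      rfl)
  have hB := hval 70000 2573931854437100717353696585699588537178623740056682123883905150076976134656058104072508281323520000
    (fun r hr => by
      have := valueB r hr
      rw [this]
      push_cast
      rfl)
  have hC := hval 700000 25747697329954890717594505724064540097122716978643930485040001140521864586305972295565894713648033042923520000
    (fun r hr => by
      have := valueC r hr
      rw [this]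
      push_cast
      rfl)
  have hineq : ∑ k : Fin m, c k * (prodf 70000 (E k)) ^ 2 ≤
      ((70714 / 700 : ℝ) ^ 2) ^ 5 * ∑ k : Fin m, c k * (prodf 0 (E k)) ^ 2 +
      ((70714 / 700714 : ℝ) ^ 2) ^ 6 * ∑ k : Fin m, c k * (prodf 700000 (E k)) ^ 2 := by
    rw [Finset.mul_sum, Finset.mul_sum, ← Finset.sum_add_distrib]
    refine Finset.sum_le_sum fun k _ => ?_
    have h1 := mul_le_mul_of_nonneg_left (prodf_bound (E k)) (hc k)
    linarith
  rw [hA, hB, hC] at hineq
  norm_num at hineq

end Pool.Agent.S00302
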