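import Pool.Statements.S00741
import Pool.Agent.Lib.MP_0f8bf3_al.Action

set_option autoImplicit false
open Pool Pool.MP_0f8bf3_al

namespace Pool.Agent.S00741

open Pool.Agent.Lib.MP_0f8bf3_al

noncomputable section

/-- Continuous piecewise linear functions. -/
def CPL (u : E4 → ℝ) : Prop := Continuous u ∧ PL u

theorem CPL.add {u v : E4 → ℝ} (hu : CPL u) (hv : CPL v) : CPL (fun x => u x + v x) :=
  ⟨hu.1.add hv.1, hu.2.add hv.2⟩
theorem CPL.sub {u v : E4 → ℝ} (hu : CPL u) (hv : CPL v) : CPL (fun x => u x - v x) :=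
  ⟨hu.1.sub hv.1, hu.2.sub hv.2⟩
theorem CPL.neg {u : E4 → ℝ} (hu : CPL u) : CPL (fun x => - u x) :=
  ⟨hu.1.neg, hu.2.neg⟩
theorem CPL.max {u v : E4 → ℝ} (hu : CPL u) (hv : CPL v) : CPL (fun x => Max.max (u x) (v x)) :=
  ⟨hu.1.max hv.1, hu.2.maxx hv.2⟩
theorem CPL.min {u v : E4 → ℝ} (hu : CPL u) (hv : CPL v) : CPL (fun x => Min.min (u x) (v x)) :=
  ⟨hu.1.min hv.1, hu.2.minn hv.2⟩
theorem CPL.abs {u : E4 → ℝ} (hu : CPL u) : CPL (fun x => |u x|) :=
  ⟨hu.1.abs, hu.2.abs⟩
theorem CPL.const_mul {u : E4 → ℝ} (hu : CPL u) (c : ℝ) : CPL (fun x => c * u x) :=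
  ⟨continuous_const.mul hu.1, hu.2.const_mul c⟩
theorem CPL.const (c : ℝ) : CPL (fun _ => c) := ⟨continuous_const, PL.const c⟩
theorem CPL.coord (i : Fin 4) : CPL (fun x => x i) := ⟨continuous_apply i, PL.coord i⟩

theorem CPL.disp_fst {ρ σ x y : E4 → ℝ} (hρ : CPL ρ) (hσ : CPL σ) (hx : CPL x) (hy : CPL y) :
    CPL (fun z => (disp (ρ z) (σ z) (x z) (y z)).1) := by
  unfold disp
  exact (hx.sub ((hx.add hρ).min ((CPL.const 0).max ((hy.add hσ).sub hρ)))).add
    ((hρ.sub hx).min ((CPL.const 0).max ((hy.neg.add hσ).sub hρ)))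

theorem CPL.disp_snd {ρ σ x y : E4 → ℝ} (hρ : CPL ρ) (hσ : CPL σ) (hx : CPL x) (hy : CPL y) :
    CPL (fun z => (disp (ρ z) (σ z) (x z) (y z)).2) := by
  unfold disp
  exact (hy.add ((hρ.sub hy).min ((CPL.const 0).max ((hx.add hσ).sub hρ)))).sub
    ((hρ.add hy).min ((CPL.const 0).max ((hx.neg.add hσ).sub hρ)))

theorem CPL.norm_fst : CPL (fun z => ‖fstP z‖) := by
  have e : (fun z : E4 => ‖fstP z‖) = fun z => Max.max |z 0| |z 1| := by
    ext z; rw [Prod.norm_def]; rfl
  rw [e]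
  exact (CPL.coord 0).abs.max (CPL.coord 1).abs

theorem CPL.norm_snd : CPL (fun z => ‖sndP z‖) := by
  have e : (fun z : E4 => ‖sndP z‖) = fun z => Max.max |z 2| |z 3| := by
    ext z; rw [Prod.norm_def]; rfl
  rw [e]
  exact (CPL.coord 2).abs.max (CPL.coord 3).abs

/-- Self-maps of the sphere induced by continuous piecewise linear maps of the ambient space. -/
def Good (σ : Metric.sphere (0 : E4) 1 → Metric.sphere (0 : E4) 1) : Prop :=
  ∃ F : E4 → E4, Continuous F ∧ PL F ∧ ∀ x : Metric.sphere (0 : E4) 1, (σ x : E4) = F x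

theorem Good.comp {σ τ : Metric.sphere (0 : E4) 1 → Metric.sphere (0 : E4) 1} (hσ : Good σ)
    (hτ : Good τ) : Good (fun x => σ (τ x)) := by
  obtain ⟨F, hF, hF', hF''⟩ := hσ
  obtain ⟨G, hG, hG', hG''⟩ := hτ
  exact ⟨fun x => F (G x), hF.comp hG, hF'.comp hG', fun x => by rw [hF'', hG'']⟩

theorem Good.id : Good (fun x => x) :=
  ⟨fun x => x, continuous_id, PL.affine (AffineMap.id ℝ E4), fun _ => rfl⟩

theorem cpl_mk4 {a b c d : E4 → ℝ} (ha : CPL a) (hb : CPL b) (hc : CPL c) (hd : CPL d) :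
    Continuous (fun z => mk4 (a z, b z) (c z, d z)) ∧ PL (fun z => mk4 (a z, b z) (c z, d z)) := by
  constructor
  · apply continuous_pi
    intro i
    fin_cases i
    · exact ha.1
    · exact hb.1
    · exact hc.1
    · exact hd.1
  · apply PL.pi
    intro i
    fin_cases i
    · exact ha.2
    · exact hb.2
    · exact hc.2
    · exact hd.2

/-- The self-map of the sphere rotating the first factor by `t`. -/
def rotL (t : ℝ) (x : Metric.sphere (0 : E4) 1) : Metric.sphere (0 : E4) 1 :=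
  ⟨mk4 (rot t (fstP x)) (sndP x), by
    rw [mem_sphere_zero_iff_norm, norm_mk4, norm_rot, ← norm_mk4, mk4_fstP_sndP]
    exact mem_sphere_zero_iff_norm.1 x.2⟩

/-- The self-map of the sphere rotating the second factor by an amount depending on the point. -/
def rotR (k : E4 → ℝ) (x : Metric.sphere (0 : E4) 1) : Metric.sphere (0 : E4) 1 :=
  ⟨mk4 (fstP x) (rot (k x) (sndP x)), by
    rw [mem_sphere_zero_iff_norm, norm_mk4, norm_rot, ← norm_mk4, mk4_fstP_sndP]
    exact mem_sphere_zero_iff_norm.1 x.2⟩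

theorem good_rotL_small {t : ℝ} (h0 : 0 ≤ t) (h2 : t ≤ 2) : Good (rotL t) := by
  have h := cpl_mk4 (CPL.disp_fst CPL.norm_fst (CPL.norm_fst.const_mul t) (CPL.coord 0)
    (CPL.coord 1)) (CPL.disp_snd CPL.norm_fst (CPL.norm_fst.const_mul t) (CPL.coord 0)
    (CPL.coord 1)) (CPL.coord 2) (CPL.coord 3)
  refine ⟨_, h.1, h.2, fun x => ?_⟩
  show mk4 (rot t (fstP x)) (sndP x) = _
  rw [rot_eq_disp h0 h2, mul_comm]
  rfl

theorem rotL_rotL (s t : ℝ) (x : Metric.sphere (0 : E4) 1) : rotL s (rotL t x) = rotL (t + s) x := by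
  apply Subtype.ext
  show mk4 (rot s (fstP (mk4 (rot t (fstP x)) (sndP x)))) (sndP (mk4 (rot t (fstP x)) (sndP x))) = _
  rw [fstP_mk4, sndP_mk4, rot_rot]
  rfl

theorem good_rotL (t : ℝ) : Good (rotL t) := by
  obtain ⟨k, s, h0, h2, rfl⟩ : ∃ (k : ℤ) (s : ℝ), 0 ≤ s ∧ s ≤ 2 ∧ t = 4 * s + 8 * k := by
    refine ⟨⌊t / 8⌋, (t - 8 * ⌊t / 8⌋) / 4, ?_, ?_, by ring⟩
    · have := Int.floor_le (t / 8)
      apply div_nonneg _ (by norm_num)
      linarith
    · have := Int.lt_floor_add_one (t / 8)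
      rw [div_le_iff₀ (by norm_num)]
      linarith
  have h := good_rotL_small h0 h2
  have h4 := h.comp (h.comp (h.comp h))
  have e : (fun x => rotL s (rotL s (rotL s (rotL s x)))) = rotL (4 * s + 8 * k) := by
    ext x : 2
    rw [rotL_rotL, rotL_rotL, rotL_rotL]
    show mk4 (rot _ _) _ = mk4 (rot _ _) _
    rw [rot_add_eight]
    congr 2
    ring
  rwa [e] at h4

theorem good_rotR {k σ : E4 → ℝ} (hσ : CPL σ)
    (h : ∀ x : Metric.sphere (0 : E4) 1, 0 ≤ k x ∧ k x ≤ 2 ∧ ‖sndP x‖ * k x = σ x) :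
    Good (rotR k) := by
  have h' := cpl_mk4 (CPL.coord 0) (CPL.coord 1)
    (CPL.disp_fst CPL.norm_snd hσ (CPL.coord 2) (CPL.coord 3))
    (CPL.disp_snd CPL.norm_snd hσ (CPL.coord 2) (CPL.coord 3))
  refine ⟨_, h'.1, h'.2, fun x => ?_⟩
  obtain ⟨h0, h2, he⟩ := h x
  show mk4 (fstP x) (rot (k x) (sndP x)) = _
  rw [rot_eq_disp h0 h2, he]
  rfl

theorem good_rotR_const {t : ℝ} (h0 : 0 ≤ t) (h2 : t ≤ 2) : Good (rotR fun _ => t) :=
  good_rotR (CPL.norm_snd.const_mul t) fun _ => ⟨h0, h2, mul_comm _ _⟩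

theorem fst_ge (x : Metric.sphere (0 : E4) 1) : 0 ≤ 1 + (fstP x).1 := by
  have h1 : ‖(x : E4)‖ = 1 := mem_sphere_zero_iff_norm.1 x.2
  have h2 := norm_le_pi_norm (x : E4) 0
  rw [h1, Real.norm_eq_abs, abs_le] at h2
  have : (fstP (x : E4)).1 = (x : E4) 0 := rfl
  rw [this]
  linarith [h2.1]

theorem kap_bounds {p : ℝ × ℝ} {ρ : ℝ} (hρ : 0 ≤ ρ) (hp : 0 ≤ 1 + p.1) :
    0 ≤ kap p ρ ∧ kap p ρ ≤ 2 ∧ ρ * kap p ρ = min (2 * ρ) (1 + p.1) := by
  unfold kap
  rcases eq_or_lt_of_le hρ with rfl | h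
  · simp [hp]
  · refine ⟨div_nonneg (le_min (by positivity) hp) hρ, ?_, ?_⟩
    · rw [div_le_iff₀ h]
      exact min_le_left _ _
    · field_simp

/-- The displacement function of the basic shear. -/
def kfun (x : E4) : ℝ := kap (fstP x) ‖sndP x‖

theorem cpl_h : CPL (fun x => min (2 * ‖sndP x‖) (1 + (fstP x).1)) := by
  have h1 : CPL (fun x => (fstP x).1) := CPL.coord 0
  exact (CPL.norm_snd.const_mul 2).min ((CPL.const 1).add h1)

theorem good_shear : Good (rotR kfun) :=
  good_rotR cpl_h fun x => kap_bounds (norm_nonneg _) (fst_ge x)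

theorem good_shear' : Good (rotR fun x => 2 - kfun x) := by
  refine good_rotR ((CPL.norm_snd.const_mul 2).sub cpl_h) fun x => ?_
  obtain ⟨h0, h2, he⟩ := kap_bounds (norm_nonneg (sndP (x : E4))) (fst_ge x)
  refine ⟨by unfold kfun; linarith, by unfold kfun; linarith, ?_⟩
  rw [mul_sub]
  unfold kfun
  rw [he]
  ring

theorem good_shear_inv : Good (rotR fun x => - kfun x) := by
  have h2 := good_rotR_const (t := 2) (by norm_num) le_rfl
  have h := h2.comp (h2.comp (h2.comp good_shear'))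
  have e : (fun x => rotR (fun _ => 2) (rotR (fun _ => 2) (rotR (fun _ => 2)
      (rotR (fun x => 2 - kfun x) x)))) = rotR fun x => - kfun x := by
    ext x : 2
    simp only [rotR, fstP_mk4, sndP_mk4, rot_rot]
    congr 1
    have : 2 - kfun x + 2 + 2 + 2 = - kfun x + 8 * ((1 : ℤ) : ℝ) := by push_cast; ring
    rw [this, rot_add_eight]
  rwa [e] at h

variable {α : Fin 4 → ℝ}

theorem tot_single (p : ℝ × ℝ) (ρ : ℝ) (c : ℤ) :
    tot α (fun w => if w = 0 then c else 0) p ρ = c * kap p ρ := by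
  unfold tot
  rw [finsum_eq_single _ 0]
  · simp [lin_zero, rot_zero]
  · intro w hw
    simp [hw]

theorem good_psi (g : W) : Good (psi α g) ∧ Good (psi α g⁻¹) := by
  obtain ⟨g, hg⟩ := g
  induction hg using Subgroup.closure_induction with
  | mem x hx =>
    rcases hx with rfl | ⟨i, rfl⟩
    · constructor
      · have := good_shear
        rw [psi_eq α _ (repS : Rep genS)]
        have e : (fun x => (repS.perm α) x) = rotR kfun := by
          ext x : 2
          rw [Rep.perm_apply]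
          show mk4 (rot (lin α 0) _) (rot (tot α _ _ _) _) = mk4 _ (rot _ _)
          rw [lin_zero, rot_zero]
          congr 2
          have := tot_single (α := α) (fstP (x : E4)) ‖sndP (x : E4)‖ 1
          rw [Int.cast_one, one_mul] at this
          exact this
        have e2 : ⇑(repS.perm α) = rotR kfun := e
        rw [e2]
        exact this
      · have := good_shear_inv
        rw [psi_eq α _ ((repS : Rep genS).inv : Rep genS⁻¹)]
        have e : (fun x => ((repS.inv).perm α) x) = rotR fun x => - kfun x := by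
          ext x : 2
          rw [Rep.perm_apply]
          show mk4 (rot (lin α (-0)) _) (rot (tot α (fun w => - (if w - 0 = 0 then 1 else 0)) _ _) _)
            = mk4 _ (rot _ _)
          rw [neg_zero, lin_zero, rot_zero]
          congr 2
          have h1 := tot_single (α := α) (fstP (x : E4)) ‖sndP (x : E4)‖ (-1)
          have h2 : (fun w : Fin 4 → ℤ => if w = 0 then (-1 : ℤ) else 0) =
              fun w => - (if w - 0 = 0 then 1 else 0) := by
            ext w
            by_cases hw : w = 0 <;> simp [hw]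
          rw [h2] at h1
          rw [h1]
          unfold kfun
          push_cast
          ring
        have e2 : ⇑((repS.inv).perm α) = rotR fun x => - kfun x := e
        rw [e2]
        exact this
    · constructor
      · rw [psi_eq α _ (repT i : Rep (genT i))]
        have e2 : ⇑((repT i).perm α) = rotL (lin α (Pi.single i 1)) := by
          ext x : 2
          rw [Rep.perm_apply]
          show mk4 (rot (lin α (Pi.single i 1)) _) (rot (tot α 0 _ _) _) = mk4 (rot _ _) _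
          rw [tot_zero, rot_zero]
        rw [e2]
        exact good_rotL _
      · rw [psi_eq α _ ((repT i : Rep (genT i)).inv : Rep (genT i)⁻¹)]
        have e2 : ⇑((repT i).inv.perm α) = rotL (lin α (-Pi.single i 1)) := by
          ext x : 2
          rw [Rep.perm_apply]
          show mk4 (rot (lin α (-Pi.single i 1)) _) (rot (tot α (fun w => -0) _ _) _)
            = mk4 (rot _ _) _
          have : (fun _ : Fin 4 → ℤ => (-0 : ℤ)) = 0 := by ext; simp
          rw [this, tot_zero, rot_zero]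
        rw [e2]
        exact good_rotL _
  | one =>
    have h1 : (⟨1, Subgroup.one_mem _⟩ : W) = 1 := rfl
    rw [h1, inv_one, map_one]
    exact ⟨Good.id, Good.id⟩
  | mul x y hx hy h1 h2 =>
    have h3 : (⟨x * y, Subgroup.mul_mem _ hx hy⟩ : W) = ⟨x, hx⟩ * ⟨y, hy⟩ := rfl
    rw [h3, mul_inv_rev, map_mul, map_mul]
    exact ⟨h1.1.comp h2.1, h2.2.comp h1.2⟩
  | inv x hx h =>
    have h3 : (⟨x⁻¹, Subgroup.inv_mem _ hx⟩ : W) = (⟨x, hx⟩ : W)⁻¹ := rfl
    rw [h3, inv_inv]
    exact ⟨h.2, h.1⟩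

/-- Existence of parameters without integral relations. -/
theorem exists_params : ∃ α : Fin 4 → ℝ, ∀ w : Fin 4 → ℤ, (∃ m : ℤ, lin α w = m) → w = 0 := by
  have htr : Transcendental ℤ (liouvilleNumber ((2 : ℕ) : ℝ)) := transcendental_liouvilleNumber le_rfl
  set τ := liouvilleNumber ((2 : ℕ) : ℝ) with hτ
  refine ⟨fun i => τ ^ ((i : ℕ) + 1), fun w ⟨m, hm⟩ => ?_⟩
  by_contra hne
  apply htr
  obtain ⟨i, hi⟩ := Function.ne_iff.1 hne
  simp only [Pi.zero_apply] at hi
  let P : Polynomial ℤ := (∑ j : Fin 4, Polynomial.C (w j) * Polynomial.X ^ ((j : ℕ) + 1))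
    - Polynomial.C m
  refine ⟨P, ?_, ?_⟩
  · intro h0
    have hc : P.coeff ((i : ℕ) + 1) = w i := by
      simp only [P, Polynomial.coeff_sub, Polynomial.coeff_C, Polynomial.finsetSum_coeff,
        Polynomial.coeff_C_mul, Polynomial.coeff_X_pow]
      rw [Finset.sum_eq_single i]
      · simp
      · intro j _ hj
        have hij : ¬ ((i : ℕ) + 1 = (j : ℕ) + 1) := by
          intro h
          apply hj
          exact Fin.ext (by omega)
        rw [if_neg hij, mul_zero]
      · intro h; exact absurd (Finset.mem_univ i) h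
    rw [h0, Polynomial.coeff_zero] at hc
    exact hi hc.symm
  · simp only [P, map_sub, map_sum, map_mul, map_pow, Polynomial.aeval_X]
    have hm' : ∑ j : Fin 4, τ ^ ((j : ℕ) + 1) * (w j : ℝ) = m := hm
    have h1 : ∀ z : ℤ, (Polynomial.aeval τ) (Polynomial.C z) = (z : ℝ) := by
      intro z
      rw [Polynomial.aeval_C]
      simp
    simp only [h1]
    rw [← hm']
    rw [sub_eq_zero]
    exact Finset.sum_congr rfl fun j _ => mul_comm _ _

theorem main (g : W) : Continuous (psi α g) ∧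
    ∃ m : ℕ, ∃ C : Fin m → Set (Fin 4 → ℝ),
      ∃ A : Fin m → ((Fin 4 → ℝ) →ᵃ[ℝ] (Fin 4 → ℝ)),
        (∀ j, ∃ s : Finset (Fin 4 → ℝ), C j = convexHull ℝ (↑s : Set (Fin 4 → ℝ))) ∧
        (∀ x : ↥(Metric.sphere (0 : Fin 4 → ℝ) 1), ∃ j, (↑x : Fin 4 → ℝ) ∈ C j) ∧
        (∀ j, ∀ x : ↥(Metric.sphere (0 : Fin 4 → ℝ) 1), (↑x : Fin 4 → ℝ) ∈ C j →
          (↑((psi α g) x) : Fin 4 → ℝ) = A j (↑x : Fin 4 → ℝ)) := by
  obtain ⟨F, hF, hF', hF''⟩ := (good_psi (α := α) g).1
  constructor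
  · rw [continuous_induced_rng]
    have : (Subtype.val ∘ ⇑((psi α) g)) = fun x : Metric.sphere (0 : E4) 1 => F x := by
      ext x : 1
      exact hF'' x
    rw [this]
    exact hF.comp continuous_subtype_val
  · obtain ⟨m, C, A, h1, h2, h3⟩ := hF'.exists_polytopes
    refine ⟨m, C, A, h1, h2, fun j x hx => ?_⟩
    rw [← h3 j x hx]
    exact hF'' x

/-- For some n, the restricted wreath product Z wr Z^n (built as its faithful permutation group on Z^n × Z) embeds as a group into the piecewise-linear homeomorphisms of the boundary of the n-cube, a PL (n-1)-sphere. -/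
theorem result :
    ∃ n : ℕ, ∃ ψ : ↥(Subgroup.closure
        (insert
          (Equiv.prodShear (Equiv.refl (Fin n → ℤ))
            (fun w => if w = 0 then Equiv.addRight (1 : ℤ) else Equiv.refl ℤ) :
              Equiv.Perm ((Fin n → ℤ) × ℤ))
          (Set.range fun i : Fin n =>
            (Equiv.prodCongr (Equiv.addRight (Pi.single i (1 : ℤ) : Fin n → ℤ)) (Equiv.refl ℤ) :
              Equiv.Perm ((Fin n → ℤ) × ℤ))))) →*
        Equiv.Perm ↥(Metric.sphere (0 : Fin n → ℝ) 1),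
      Function.Injective ψ ∧
        ∀ g, Continuous (ψ g) ∧
          ∃ m : ℕ, ∃ C : Fin m → Set (Fin n → ℝ),
            ∃ A : Fin m → ((Fin n → ℝ) →ᵃ[ℝ] (Fin n → ℝ)),
              (∀ j, ∃ s : Finset (Fin n → ℝ), C j = convexHull ℝ (↑s : Set (Fin n → ℝ))) ∧
              (∀ x : ↥(Metric.sphere (0 : Fin n → ℝ) 1), ∃ j, (↑x : Fin n → ℝ) ∈ C j) ∧
              (∀ j, ∀ x : ↥(Metric.sphere (0 : Fin n → ℝ) 1), (↑x : Fin n → ℝ) ∈ C j →
                (↑((ψ g) x) : Fin n → ℝ) = A j (↑x : Fin n → ℝ)) := by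
  obtain ⟨α, hα⟩ := exists_params
  exact ⟨4, psi α, psi_injective hα, fun g => main g⟩

end

end Pool.Agent.S00741
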