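import Pool.Statements.S01035
import Pool.Agent.Lib.MP_2b9f9a_al.DLB.All50
import Pool.Agent.Lib.MP_2b9f9a_al.DL.S35_32
import Pool.Agent.Lib.MP_2b9f9a_al.DLB.Ring28

set_option autoImplicit false
open Pool Pool.MP_2b9f9a_al

namespace Pool.Agent.S01035

/-- For all h, d there is N such that any finite group G with a Frobenius automorphism group FH (∣H∣=h), F acting fixed-point-freely on G, and C_G(H) of derived length at most d, has derived length at most N. -/
theorem result :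
    ∀ (h d : ℕ), ∃ N : ℕ, ∀ (G : Type) [Group G] [Finite G] (F H : Subgroup (MulAut G)),
      (∀ x ∈ H, ∀ y ∈ F, x * y * x⁻¹ ∈ F) →
      F ⊓ H = ⊥ → F ≠ ⊥ → H ≠ ⊥ →
      (∀ x ∈ H, x ≠ 1 → ∀ y ∈ F, x * y = y * x → y = 1) →
      (∀ y ∈ F, y ≠ 1 → ∀ g : G, y g = g → g = 1) →
      Nat.card H = h →
      (∀ C : Subgroup G, (∀ g : G, g ∈ C ↔ ∀ x ∈ H, x g = g) → derivedSeries C d = ⊥) →
      derivedSeries G N = ⊥ := by
  exact Pool.Agent.DL78.s35_32 (Pool.Agent.DLB.stPrD_50 (Pool.Agent.DLB.stRing_28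
    Pool.Agent.DL17.stGL_78 Pool.Agent.PX.stFpf_28 Pool.Agent.PX.stCov_28))

end Pool.Agent.S01035
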