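import Pool.Statements.S01455
import Pool.Agent.Lib.MP_51fc07_al.GV.End57
import Pool.Agent.Lib.MP_51fc07_al.GV.AxEnd9
import Pool.Agent.Lib.MP_51fc07_al.GV.R2_22
-- import your own Pool.Agent.* helpers here

set_option autoImplicit false
open Pool Pool.MP_51fc07_al

namespace Pool.Agent.S01455

/-- For a totally sign-skew-symmetric integer matrix B1 and a direction k, the g-vector g2 of any principal-coefficient cluster variable taken from the seed with matrix mu_k(B1) is obtained from its g-vector g1 taken from B1 by g2_k = -g1_k and g2_i = g1_i + [b_ik]_+ g1_k - b_ik min(g1_k,0). -/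
theorem result :
  ∀ n : ℕ,
  (fun (mu : Fin n → Matrix (Fin n) (Fin n) ℤ → Matrix (Fin n) (Fin n) ℤ)
       (step : (Fin n → FractionRing (MvPolynomial (Fin n ⊕ Fin n) ℚ)) × (Fin n ⊕ Fin n → Fin n → ℤ) →
          Fin n → (Fin n → FractionRing (MvPolynomial (Fin n ⊕ Fin n) ℚ)) × (Fin n ⊕ Fin n → Fin n → ℤ)) =>
    (fun (clvar : Matrix (Fin n) (Fin n) ℤ → List (Fin n) → Fin n → FractionRing (MvPolynomial (Fin n ⊕ Fin n) ℚ)) =>
      (fun (isG : Matrix (Fin n) (Fin n) ℤ → FractionRing (MvPolynomial (Fin n ⊕ Fin n) ℚ) → (Fin n → ℤ) → Prop) =>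
        ∀ B1 : Matrix (Fin n) (Fin n) ℤ,
          (∀ w : List (Fin n), ∀ i j : Fin n,
            (fun M : Matrix (Fin n) (Fin n) ℤ => (M i j = 0 ∧ M j i = 0) ∨ M i j * M j i < 0)
              (List.foldl (fun M k => mu k M) B1 w)) →
          ∀ k a : Fin n, ∀ w : List (Fin n), ∀ g1 g2 : Fin n → ℤ,
            isG B1 (clvar B1 w a) g1 →
            isG (mu k B1) (clvar (mu k B1) (k :: w) a) g2 →
            g2 k = -g1 k ∧
              ∀ i : Fin n, i ≠ k → g2 i = g1 i + max (B1 i k) 0 * g1 k - B1 i k * min (g1 k) 0)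
      (fun (B : Matrix (Fin n) (Fin n) ℤ) (f : FractionRing (MvPolynomial (Fin n ⊕ Fin n) ℚ)) (g : Fin n → ℤ) =>
        ∃ P Q : MvPolynomial (Fin n ⊕ Fin n) ℚ, ∃ p q : Fin n → ℤ,
          P ≠ 0 ∧ Q ≠ 0 ∧
          P.IsWeightedHomogeneous
            (Sum.elim (fun i => (Pi.single i (1:ℤ) : Fin n → ℤ)) (fun j i => -B i j)) p ∧
          Q.IsWeightedHomogeneous
            (Sum.elim (fun i => (Pi.single i (1:ℤ) : Fin n → ℤ)) (fun j i => -B i j)) q ∧
          p = q + g ∧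
          f * algebraMap (MvPolynomial (Fin n ⊕ Fin n) ℚ) (FractionRing (MvPolynomial (Fin n ⊕ Fin n) ℚ)) Q
            = algebraMap (MvPolynomial (Fin n ⊕ Fin n) ℚ) (FractionRing (MvPolynomial (Fin n ⊕ Fin n) ℚ)) P))
    (fun (B : Matrix (Fin n) (Fin n) ℤ) (w : List (Fin n)) (a : Fin n) =>
      (List.foldl step
        ((fun j => algebraMap (MvPolynomial (Fin n ⊕ Fin n) ℚ) (FractionRing (MvPolynomial (Fin n ⊕ Fin n) ℚ))
            (MvPolynomial.X (Sum.inl j))),
         (Sum.elim (fun i j => B i j) (fun i j => if i = j then (1:ℤ) else 0) : Fin n ⊕ Fin n → Fin n → ℤ))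
        w).1 a))
  (fun (k : Fin n) (B : Matrix (Fin n) (Fin n) ℤ) =>
    Matrix.of (fun i j => if i = k ∨ j = k then -B i j
      else B i j + max (B i k) 0 * max (B k j) 0 - max (-B i k) 0 * max (-B k j) 0))
  (fun (s : (Fin n → FractionRing (MvPolynomial (Fin n ⊕ Fin n) ℚ)) × (Fin n ⊕ Fin n → Fin n → ℤ)) (k : Fin n) =>
    ((fun j => if j = k then
        ((∏ i : Fin n ⊕ Fin n,
            (Sum.elim s.1 (fun m => algebraMap (MvPolynomial (Fin n ⊕ Fin n) ℚ)
              (FractionRing (MvPolynomial (Fin n ⊕ Fin n) ℚ)) (MvPolynomial.X (Sum.inr m))) i) ^ (s.2 i k).toNat)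
         + ∏ i : Fin n ⊕ Fin n,
            (Sum.elim s.1 (fun m => algebraMap (MvPolynomial (Fin n ⊕ Fin n) ℚ)
              (FractionRing (MvPolynomial (Fin n ⊕ Fin n) ℚ)) (MvPolynomial.X (Sum.inr m))) i) ^ (-s.2 i k).toNat)
        / s.1 k
      else s.1 j),
     (fun i j => if i = Sum.inl k ∨ j = k then -s.2 i j
        else s.2 i j + max (s.2 i k) 0 * max (s.2 (Sum.inl k) j) 0
          - max (-s.2 i k) 0 * max (-s.2 (Sum.inl k) j) 0))) := by
  exact Pool.Agent.Lib.MP_51fc07_al.GV.end57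
    (Pool.Agent.Lib.MP_51fc07_al.GV.stInt9 Pool.Agent.Lib.MP_51fc07_al.GV.stR2_22)

end Pool.Agent.S01455
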