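import Pool.Statements.S01599

set_option autoImplicit false
open Pool Pool.MP_5cdc7f_al

namespace Pool.Agent.S01599

/-! The example: over `F = ZMod 3` put `V = F^4` and let
`Q = V x L3 V x L2 V x L4 V` (exterior powers in coordinates). -/

abbrev F := ZMod 3
abbrev V := Fin 4 → F
abbrev W := Fin 4 → F
abbrev B := Fin 6 → F
abbrev Q := V × W × B × F

/-- wedge of two vectors -/
def w11 (v w : V) : B :=
  ![v 0 * w 1 - v 1 * w 0, v 0 * w 2 - v 2 * w 0, v 0 * w 3 - v 3 * w 0,
    v 1 * w 2 - v 2 * w 1, v 1 * w 3 - v 3 * w 1, v 2 * w 3 - v 3 * w 2]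

/-- wedge of two bivectors -/
def w22 (a b : B) : F :=
  a 0 * b 5 - a 1 * b 4 + a 2 * b 3 + a 3 * b 2 - a 4 * b 1 + a 5 * b 0

/-- wedge of a vector and a trivector -/
def w13 (v : V) (t : W) : F :=
  v 0 * t 3 - v 1 * t 2 + v 2 * t 1 - v 3 * t 0

/-- wedge of a bivector and a vector -/
def w21 (a : B) (y : V) : W :=
  ![a 0 * y 2 - a 1 * y 1 + a 3 * y 0, a 0 * y 3 - a 2 * y 1 + a 4 * y 0,
    a 1 * y 3 - a 2 * y 2 + a 5 * y 0, a 3 * y 3 - a 4 * y 2 + a 5 * y 1]

/-- the commutative cochain whose associator is the triple wedge -/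
def f1 (v w : V) : W :=
  ![(v 2 - w 2) * (v 0 * w 1 - v 1 * w 0), (v 3 - w 3) * (v 0 * w 1 - v 1 * w 0),
    (v 3 - w 3) * (v 0 * w 2 - v 2 * w 0), (v 3 - w 3) * (v 1 * w 2 - v 2 * w 1)]

def mul (x y : Q) : Q :=
  (x.1 + y.1, x.2.1 + y.2.1 + f1 x.1 y.1, x.2.2.1 + y.2.2.1 - w11 x.1 y.1,
    x.2.2.2 + y.2.2.2 + w22 (y.2.2.1 - x.2.2.1) (w11 x.1 y.1) - w13 x.1 y.2.1)

/-- the explicit inner maps -/
def hm (b : V) (o : B) (q : V → F) (x : Q) : Q :=
  (x.1, x.2.1 + w21 o x.1, x.2.2.1 + w11 b x.1, x.2.2.2 - w13 b x.2.1 - w22 o x.2.2.1 + q x.1)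

theorem key (b : V) (o : B) (y : V) : w13 b (w21 o y) = w22 o (w11 b y) := by
  simp only [w13, w21, w22, w11, Matrix.cons_val]
  ring

theorem w13_add (b : V) (s t : W) : w13 b (s + t) = w13 b s + w13 b t := by
  simp only [w13, Pi.add_apply]; ring

theorem w22_add (b : B) (s t : B) : w22 b (s + t) = w22 b s + w22 b t := by
  simp only [w22, Pi.add_apply]; ring

theorem hm_comm (b b' : V) (o o' : B) (q q' : V → F) (x : Q) :
    hm b o q (hm b' o' q' x) = hm b' o' q' (hm b o q x) := by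
  refine Prod.ext rfl (Prod.ext ?_ (Prod.ext ?_ ?_))
  · simp only [hm]; abel
  · simp only [hm]; abel
  · simp only [hm, w13_add, w22_add, key]; ring

theorem three : (3 : F) = 0 := by decide

/-- associator of `f1` -/
theorem f1_assoc (v w y : V) :
    f1 w y + f1 v (w + y) = f1 v w + f1 (v + w) y + w21 (- w11 v w) y := by
  have h3 := three
  ext i
  fin_cases i <;> simp only [f1, w21, w11, Pi.add_apply, Pi.neg_apply, Matrix.cons_val,
    Fin.zero_eta, Fin.mk_one, Fin.reduceFinMk]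
  · linear_combination (w 2 * y 0 * v 1 - w 2 * y 1 * v 0) * h3
  · linear_combination (w 3 * y 0 * v 1 - w 3 * y 1 * v 0) * h3
  · linear_combination (w 3 * y 0 * v 2 - w 3 * y 2 * v 0) * h3
  · linear_combination (w 3 * y 1 * v 2 - w 3 * y 2 * v 1) * h3

theorem f1_comm (v w : V) : f1 v w = f1 w v := by
  ext i
  fin_cases i <;> simp only [f1, Matrix.cons_val,
    Fin.zero_eta, Fin.mk_one, Fin.reduceFinMk] <;> ring

/-- the other form, for `R_x L_y` -/
theorem f1_assoc' (v w y : V) :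
    f1 w y + f1 (w + y) v = f1 w v + f1 (w + v) y + w21 (w11 w v) y := by
  have h := f1_assoc v w y
  rw [f1_comm (w + y) v, h, f1_comm w v, add_comm w v]
  congr 2
  ext i
  fin_cases i <;> simp only [w11, Pi.neg_apply, Matrix.cons_val,
    Fin.zero_eta, Fin.mk_one, Fin.reduceFinMk] <;> ring

/-- left translations: `L_x L_y = L_{xy} h` -/
theorem left_left (x y : Q) : ∃ (b : V) (o : B) (q : V → F), ∀ u : Q,
    mul x (mul y u) = mul (mul x y) (hm b o q u) := by
  refine ⟨0, - w11 x.1 y.1, fun u => (mul x (mul y (u, 0, 0, 0))).2.2.2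
      - (mul (mul x y) (hm 0 (- w11 x.1 y.1) 0 (u, 0, 0, 0))).2.2.2, ?_⟩
  rintro ⟨u, r1, r2, z⟩
  obtain ⟨v, s1, s2, zx⟩ := x
  obtain ⟨w, t1, t2, zy⟩ := y
  refine Prod.ext ?_ (Prod.ext ?_ (Prod.ext ?_ ?_))
  · simp only [mul, hm]; abel
  · have h := f1_assoc v w u
    simp only [mul, hm]
    calc s1 + (t1 + r1 + f1 w u) + f1 v (w + u)
        = s1 + t1 + r1 + (f1 w u + f1 v (w + u)) := by abel
      _ = _ := by rw [h]; abel
  · simp only [mul, hm]
    ext i
    fin_cases i <;>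
    simp [w11] <;> ring
  · simp only [mul, hm, w13, w22, w11, w21, f1, Pi.add_apply, Pi.sub_apply, Pi.neg_apply,
      Pi.zero_apply, Matrix.cons_val]
    ring

/-- right translations: `R_x L_y = L_{yx} h` -/
theorem right_left (x y : Q) : ∃ (b : V) (o : B) (q : V → F), ∀ u : Q,
    mul (mul y u) x = mul (mul y x) (hm b o q u) := by
  refine ⟨- x.1, w11 y.1 x.1, fun u => (mul (mul y (u, 0, 0, 0)) x).2.2.2
      - (mul (mul y x) (hm (- x.1) (w11 y.1 x.1) 0 (u, 0, 0, 0))).2.2.2, ?_⟩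
  rintro ⟨u, r1, r2, z⟩
  obtain ⟨v, s1, s2, zx⟩ := x
  obtain ⟨w, t1, t2, zy⟩ := y
  refine Prod.ext ?_ (Prod.ext ?_ (Prod.ext ?_ ?_))
  · simp only [mul, hm]; abel
  · have h := f1_assoc' v w u
    simp only [mul, hm]
    calc (t1 + r1 + f1 w u) + s1 + f1 (w + u) v
        = s1 + t1 + r1 + (f1 w u + f1 (w + u) v) := by abel
      _ = _ := by rw [h]; abel
  · simp only [mul, hm]
    have h3 := three
    ext i
    fin_cases i <;> simp only [w11, Pi.add_apply, Pi.sub_apply, Pi.neg_apply, Matrix.cons_val,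
    Fin.zero_eta, Fin.mk_one, Fin.reduceFinMk]
    · linear_combination (u 1 * v 0 - u 0 * v 1) * h3
    · linear_combination (u 2 * v 0 - u 0 * v 2) * h3
    · linear_combination (u 3 * v 0 - u 0 * v 3) * h3
    · linear_combination (u 2 * v 1 - u 1 * v 2) * h3
    · linear_combination (u 3 * v 1 - u 1 * v 3) * h3
    · linear_combination (u 3 * v 2 - u 2 * v 3) * h3
  · simp only [mul, hm, w13, w22, w11, w21, f1, Pi.add_apply, Pi.sub_apply, Pi.neg_apply,
      Pi.zero_apply, Matrix.cons_val]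
    ring

theorem w11_zero_left (v : V) : w11 0 v = 0 := by
  ext i; fin_cases i <;> simp [w11]

theorem w11_zero_right (v : V) : w11 v 0 = 0 := by
  ext i; fin_cases i <;> simp [w11]

theorem f1_zero_left (v : V) : f1 0 v = 0 := by
  ext i; fin_cases i <;> simp [f1]

theorem f1_zero_right (v : V) : f1 v 0 = 0 := by
  ext i; fin_cases i <;> simp [f1]

theorem w22_zero_right (v : B) : w22 v 0 = 0 := by simp [w22]

theorem w22_zero_left (v : B) : w22 0 v = 0 := by simp [w22]

theorem w13_zero_right (v : V) : w13 v 0 = 0 := by simp [w13]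

theorem w13_zero_left (v : W) : w13 0 v = 0 := by simp [w13]

theorem w21_zero_left (v : V) : w21 0 v = 0 := by
  ext i; fin_cases i <;> simp [w21]

theorem w21_zero_right (o : B) : w21 o 0 = 0 := by
  ext i; fin_cases i <;> simp [w21]

theorem one_mul' (x : Q) : mul 0 x = x := by
  refine Prod.ext ?_ (Prod.ext ?_ (Prod.ext ?_ ?_)) <;>
  simp [mul, w11_zero_left, f1_zero_left, w22_zero_right, w13_zero_left]

theorem mul_one' (x : Q) : mul x 0 = x := by
  refine Prod.ext ?_ (Prod.ext ?_ (Prod.ext ?_ ?_)) <;>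
  simp [mul, w11_zero_right, f1_zero_right, w22_zero_right, w13_zero_right]

theorem left_div (a b : Q) : ∃! x, mul a x = b := by
  obtain ⟨a1, a2, a3, a4⟩ := a
  obtain ⟨b1, b2, b3, b4⟩ := b
  refine ⟨(b1 - a1, b2 - a2 - f1 a1 (b1 - a1), b3 - a3 + w11 a1 (b1 - a1),
    b4 - a4 - w22 (b3 - a3 + w11 a1 (b1 - a1) - a3) (w11 a1 (b1 - a1))
      + w13 a1 (b2 - a2 - f1 a1 (b1 - a1))), ?_, ?_⟩
  · refine Prod.ext ?_ (Prod.ext ?_ (Prod.ext ?_ ?_)) <;> simp only [mul] <;> abel
  · rintro ⟨x1, x2, x3, x4⟩ h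
    simp only [mul, Prod.mk.injEq] at h
    obtain ⟨h1, h2, h3, h4⟩ := h
    have e1 : x1 = b1 - a1 := by rw [← h1]; abel
    subst e1
    have e2 : x2 = b2 - a2 - f1 a1 (b1 - a1) := by rw [← h2]; abel
    subst e2
    have e3 : x3 = b3 - a3 + w11 a1 (b1 - a1) := by rw [← h3]; abel
    subst e3
    have e4 : x4 = b4 - a4 - w22 (b3 - a3 + w11 a1 (b1 - a1) - a3) (w11 a1 (b1 - a1))
      + w13 a1 (b2 - a2 - f1 a1 (b1 - a1)) := by rw [← h4]; abel
    subst e4
    rfl

theorem right_div (a b : Q) : ∃! x, mul x a = b := by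
  obtain ⟨a1, a2, a3, a4⟩ := a
  obtain ⟨b1, b2, b3, b4⟩ := b
  refine ⟨(b1 - a1, b2 - a2 - f1 (b1 - a1) a1, b3 - a3 + w11 (b1 - a1) a1,
    b4 - a4 - w22 (a3 - (b3 - a3 + w11 (b1 - a1) a1)) (w11 (b1 - a1) a1)
      + w13 (b1 - a1) a2), ?_, ?_⟩
  · refine Prod.ext ?_ (Prod.ext ?_ (Prod.ext ?_ ?_)) <;> simp only [mul] <;> abel
  · rintro ⟨x1, x2, x3, x4⟩ h
    simp only [mul, Prod.mk.injEq] at h
    obtain ⟨h1, h2, h3, h4⟩ := h
    have e1 : x1 = b1 - a1 := by rw [← h1]; abel
    subst e1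
    have e2 : x2 = b2 - a2 - f1 (b1 - a1) a1 := by rw [← h2]; abel
    subst e2
    have e3 : x3 = b3 - a3 + w11 (b1 - a1) a1 := by rw [← h3]; abel
    subst e3
    have e4 : x4 = b4 - a4 - w22 (a3 - (b3 - a3 + w11 (b1 - a1) a1)) (w11 (b1 - a1) a1)
      + w13 (b1 - a1) a2 := by rw [← h4]; abel
    subst e4
    rfl

theorem w21_add (a b : B) (y : V) : w21 (a + b) y = w21 a y + w21 b y := by
  ext i; fin_cases i <;> simp [w21] <;> ring

theorem w11_add (a b : V) (y : V) : w11 (a + b) y = w11 a y + w11 b y := by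
  ext i; fin_cases i <;> simp [w11] <;> ring

theorem w13_add_left (a b : V) (t : W) : w13 (a + b) t = w13 a t + w13 b t := by
  simp only [w13, Pi.add_apply]; ring

theorem w22_add_left (a b : B) (t : B) : w22 (a + b) t = w22 a t + w22 b t := by
  simp only [w22, Pi.add_apply]; ring

theorem hm_comp (b b' : V) (o o' : B) (q q' : V → F) :
    ∃ q'' : V → F, ∀ u, hm b o q (hm b' o' q' u) = hm (b + b') (o + o') q'' u := by
  refine ⟨fun v => q' v + q v - w13 b (w21 o' v) - w22 o (w11 b' v), ?_⟩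
  rintro ⟨u, r1, r2, z⟩
  refine Prod.ext rfl (Prod.ext ?_ (Prod.ext ?_ ?_))
  · simp only [hm, w21_add]; abel
  · simp only [hm, w11_add]; abel
  · simp only [hm, w13_add, w22_add, w13_add_left, w22_add_left]; ring

theorem hm_inv (b : V) (o : B) (q : V → F) :
    ∃ (b' : V) (o' : B) (q' : V → F), ∀ u, hm b o q (hm b' o' q' u) = u := by
  refine ⟨-b, -o, fun v => - q v + w13 b (w21 (-o) v) + w22 o (w11 (-b) v), ?_⟩
  rintro ⟨u, r1, r2, z⟩
  have h1 : w21 (-o) u = - w21 o u := by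
    have := w21_add (-o) o u
    rw [neg_add_cancel, w21_zero_left] at this
    exact eq_neg_of_add_eq_zero_left this.symm
  have h2 : w11 (-b) u = - w11 b u := by
    have := w11_add (-b) b u
    rw [neg_add_cancel, w11_zero_left] at this
    exact eq_neg_of_add_eq_zero_left this.symm
  have h3 : ∀ t, w13 (-b) t = - w13 b t := by
    intro t
    have := w13_add_left (-b) b t
    rw [neg_add_cancel, w13_zero_left] at this
    exact eq_neg_of_add_eq_zero_left this.symm
  have h4 : ∀ t, w22 (-o) t = - w22 o t := by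
    intro t
    have := w22_add_left (-o) o t
    rw [neg_add_cancel, w22_zero_left] at this
    exact eq_neg_of_add_eq_zero_left this.symm
  refine Prod.ext rfl (Prod.ext ?_ (Prod.ext ?_ ?_))
  · simp only [hm, h1]; abel
  · simp only [hm, h2]; abel
  · simp only [hm, w13_add, w22_add, h3, h4]; ring

/-- the admissible maps `L_y h` -/
def Adm (g : Q → Q) : Prop :=
  ∃ (y : Q) (b : V) (o : B) (q : V → F), ∀ u, g u = mul y (hm b o q u)

theorem adm_left (x : Q) (g : Q → Q) (hg : Adm g) : Adm (fun u => mul x (g u)) := by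
  obtain ⟨y, b, o, q, h⟩ := hg
  obtain ⟨b', o', q', h'⟩ := left_left x y
  obtain ⟨q'', h''⟩ := hm_comp b' b o' o q' q
  exact ⟨mul x y, b' + b, o' + o, q'', fun u => by simp only [h, h', h'']⟩

theorem adm_right (x : Q) (g : Q → Q) (hg : Adm g) : Adm (fun u => mul (g u) x) := by
  obtain ⟨y, b, o, q, h⟩ := hg
  obtain ⟨b', o', q', h'⟩ := right_left x y
  obtain ⟨q'', h''⟩ := hm_comp b' b o' o q' q
  exact ⟨mul y x, b' + b, o' + o, q'', fun u => by simp only [h, h', h'']⟩

theorem adm_left_inv (x : Q) (g k : Q → Q) (hg : Adm g) (hk : ∀ u, mul x (k u) = g u) :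
    Adm k := by
  obtain ⟨y, b, o, q, h⟩ := hg
  obtain ⟨y', hy', -⟩ := left_div x y
  obtain ⟨b', o', q', h'⟩ := left_left x y'
  obtain ⟨b2, o2, q2, h2⟩ := hm_inv b' o' q'
  obtain ⟨q'', h''⟩ := hm_comp b2 b o2 o q2 q
  refine ⟨y', b2 + b, o2 + o, q'', fun u => ?_⟩
  refine (left_div x (g u)).unique (hk u) ?_
  rw [h', ← h'', h2, h]
  rw [hy']

theorem adm_right_inv (x : Q) (g k : Q → Q) (hg : Adm g) (hk : ∀ u, mul (k u) x = g u) :
    Adm k := by
  obtain ⟨y, b, o, q, h⟩ := hg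
  obtain ⟨y', hy', -⟩ := right_div x y
  obtain ⟨b', o', q', h'⟩ := right_left x y'
  obtain ⟨b2, o2, q2, h2⟩ := hm_inv b' o' q'
  obtain ⟨q'', h''⟩ := hm_comp b2 b o2 o q2 q
  refine ⟨y', b2 + b, o2 + o, q'', fun u => ?_⟩
  refine (right_div x (g u)).unique (hk u) ?_
  rw [h', ← h'', h2, h]
  rw [hy']

theorem adm_fix (g : Q → Q) (hg : Adm g) (h0 : g 0 = 0) :
    ∃ (b : V) (o : B) (q : V → F), ∀ u, g u = hm b o q u := by
  obtain ⟨y, b, o, q, h⟩ := hg
  have h1 : hm b o q 0 = (0, 0, 0, q 0) := by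
    refine Prod.ext rfl (Prod.ext ?_ (Prod.ext ?_ ?_)) <;>
    simp [hm, w21_zero_right, w11_zero_right, w13_zero_right, w22_zero_right]
  have h2 : mul y (0, 0, 0, q 0) = 0 := by rw [← h1, ← h, h0]
  obtain ⟨y1, y2, y3, y4⟩ := y
  simp only [mul, w11_zero_right, f1_zero_right, w22_zero_right, w13_zero_right,
    add_zero, sub_zero] at h2
  have e1 : y1 = 0 := congrArg (fun p : Q => p.1) h2
  have e2 : y2 = 0 := congrArg (fun p : Q => p.2.1) h2
  have e3 : y3 = 0 := congrArg (fun p : Q => p.2.2.1) h2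
  have e4 : y4 + q 0 = 0 := congrArg (fun p : Q => p.2.2.2) h2
  subst e1 e2 e3
  refine ⟨b, o, fun v => q v + y4, fun u => ?_⟩
  rw [h]
  refine Prod.ext ?_ (Prod.ext ?_ (Prod.ext ?_ ?_))
  · simp [mul, hm]
  · simp [mul, hm, f1_zero_left]
  · simp [mul, hm, w11_zero_left]
  · simp only [mul, hm, w11_zero_left, w22_zero_right, w13_zero_left]; ring

/-- transported product -/
noncomputable def en : Q ≃ Fin (Fintype.card Q) := Fintype.equivFin Q

noncomputable def mulF (a b : Fin (Fintype.card Q)) : Fin (Fintype.card Q) :=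
  en (mul (en.symm a) (en.symm b))

theorem adm_closure (σ : Equiv.Perm (Fin (Fintype.card Q)))
    (hσ : σ ∈ Subgroup.closure
      {π : Equiv.Perm (Fin (Fintype.card Q)) |
        ∃ a, (∀ x, π x = mulF a x) ∨ (∀ x, π x = mulF x a)}) :
    Adm (fun u => en.symm (σ (en u))) := by
  induction hσ using Subgroup.closure_induction_left with
  | one =>
    refine ⟨0, 0, 0, fun _ => 0, fun u => ?_⟩
    rw [one_mul']
    refine Prod.ext ?_ (Prod.ext ?_ (Prod.ext ?_ ?_)) <;>
    simp [hm, w21_zero_left, w11_zero_left, w13_zero_left, w22_zero_left]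
  | mul_left π hπ σ hσ ih =>
    obtain ⟨a, ha | ha⟩ := hπ
    · have := adm_left (en.symm a) _ ih
      refine cast (congrArg Adm (funext fun u => ?_)) this
      simp [ha, mulF]
    · have := adm_right (en.symm a) _ ih
      refine cast (congrArg Adm (funext fun u => ?_)) this
      simp [ha, mulF]
  | inv_mul_cancel π hπ σ hσ ih =>
    obtain ⟨a, ha | ha⟩ := hπ
    · refine adm_left_inv (en.symm a) _ _ ih (fun u => ?_)
      have : π (π⁻¹ (σ (en u))) = σ (en u) := by simp
      rw [ha] at this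
      simp only [mulF] at this
      rw [← this]
      simp
    · refine adm_right_inv (en.symm a) _ _ ih (fun u => ?_)
      have : π (π⁻¹ (σ (en u))) = σ (en u) := by simp
      rw [ha] at this
      simp only [mulF] at this
      rw [← this]
      simp

theorem not_central_comm (c : Q)
    (hc : ∀ u v, mul c u = mul u c ∧
              mul (mul c u) v = mul c (mul u v) ∧
              mul (mul u c) v = mul u (mul c v) ∧
              mul (mul u v) c = mul u (mul v c))
    (h : mul (![1, 0, 0, 0], 0, 0, 0) (![0, 1, 0, 0], 0, 0, 0) =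
      mul (mul (![0, 1, 0, 0], 0, 0, 0) (![1, 0, 0, 0], 0, 0, 0)) c) : False := by
  obtain ⟨c1, c2, c3, c4⟩ := c
  have e1 : c1 = 0 := by
    have := congrArg (fun p : Q => p.1) h
    simp only [mul] at this
    have h2 : (![1, 0, 0, 0] : V) + ![0, 1, 0, 0] = ![0, 1, 0, 0] + ![1, 0, 0, 0] := add_comm _ _
    rw [h2] at this
    exact left_eq_add.mp this
  subst e1
  have e3 : c3 0 = 1 := by
    have := congrArg (fun p : Q => p.2.2.1 0) h
    simp only [mul, w11, Pi.add_apply, Pi.sub_apply, Pi.zero_apply, Matrix.cons_val] at this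
    have h3 := three
    linear_combination (-1 : F) * this - h3
  have h1 := (hc (![0, 0, 1, 0], 0, 0, 0) (![0, 0, 0, 1], 0, 0, 0)).2.1
  have := congrArg (fun p : Q => p.2.2.2) h1
  simp only [mul, w11, w13, w22, f1, Pi.add_apply, Pi.sub_apply, Pi.zero_apply, Matrix.cons_val] at this
  have h4 : c3 0 = 0 := by linear_combination (-1 : F) * this
  rw [e3] at h4
  exact absurd h4 (by decide)

theorem card_odd : Odd (Fintype.card Q) := by
  have : Fintype.card Q = 3 ^ 4 * (3 ^ 4 * (3 ^ 6 * 3)) := by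
    simp [Fintype.card_prod, ZMod.card]
  rw [this]
  decide

/-- There is a finite loop of odd order whose inner mapping group (identity-stabilizer in the group generated by all translations) is abelian, yet the quotient by its centre is not an abelian group, i.e. its nilpotency class is not at most two. -/
theorem result :
    ∃ (n : ℕ) (mul : Fin n → Fin n → Fin n) (e : Fin n),
      Odd n ∧
      (∀ x, mul e x = x ∧ mul x e = x) ∧
      (∀ a b, ∃! x, mul a x = b) ∧
      (∀ a b, ∃! y, mul y a = b) ∧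
      (∀ σ ∈ Subgroup.closure
          {π : Equiv.Perm (Fin n) | ∃ a, (∀ x, π x = mul a x) ∨ (∀ x, π x = mul x a)},
        ∀ τ ∈ Subgroup.closure
          {π : Equiv.Perm (Fin n) | ∃ a, (∀ x, π x = mul a x) ∨ (∀ x, π x = mul x a)},
          σ e = e → τ e = e → σ * τ = τ * σ) ∧
      ¬ ((∀ x y, ∃ c,
            (∀ u v, mul c u = mul u c ∧
              mul (mul c u) v = mul c (mul u v) ∧
              mul (mul u c) v = mul u (mul c v) ∧
              mul (mul u v) c = mul u (mul v c)) ∧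
            mul x y = mul (mul y x) c) ∧
         (∀ x y w, ∃ c,
            (∀ u v, mul c u = mul u c ∧
              mul (mul c u) v = mul c (mul u v) ∧
              mul (mul u c) v = mul u (mul c v) ∧
              mul (mul u v) c = mul u (mul v c)) ∧
            mul (mul x y) w = mul (mul x (mul y w)) c)) := by
  refine ⟨Fintype.card Q, mulF, en 0, card_odd, ?_, ?_, ?_, ?_, ?_⟩
  · intro x
    constructor
    · simp [mulF, one_mul']
    · simp [mulF, mul_one']
  · intro a b
    obtain ⟨x, hx, hu⟩ := left_div (en.symm a) (en.symm b)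
    refine ⟨en x, ?_, ?_⟩
    · simp only [mulF, Equiv.symm_apply_apply]
      rw [hx, Equiv.apply_symm_apply]
    · intro y hy
      have : en.symm y = x := hu _ (by
        rw [← hy]
        simp only [mulF, Equiv.symm_apply_apply])
      rw [← this, Equiv.apply_symm_apply]
  · intro a b
    obtain ⟨x, hx, hu⟩ := right_div (en.symm a) (en.symm b)
    refine ⟨en x, ?_, ?_⟩
    · simp only [mulF, Equiv.symm_apply_apply]
      rw [hx, Equiv.apply_symm_apply]
    · intro y hy
      have : en.symm y = x := hu _ (by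
        rw [← hy]
        simp only [mulF, Equiv.symm_apply_apply])
      rw [← this, Equiv.apply_symm_apply]
  · intro σ hσ τ hτ h1 h2
    obtain ⟨b, o, q, h⟩ := adm_fix _ (adm_closure σ hσ) (by simp [h1])
    obtain ⟨b', o', q', h'⟩ := adm_fix _ (adm_closure τ hτ) (by simp [h2])
    have k1 : ∀ u, σ (en u) = en (hm b o q u) := fun u => by
      rw [← h, Equiv.apply_symm_apply]
    have k2 : ∀ u, τ (en u) = en (hm b' o' q' u) := fun u => by
      rw [← h', Equiv.apply_symm_apply]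
    ext x : 1
    obtain ⟨u, rfl⟩ := en.surjective x
    rw [Equiv.Perm.mul_apply, Equiv.Perm.mul_apply, k2, k1, k1, k2, hm_comm]
  · rintro ⟨hcomm, -⟩
    obtain ⟨c, hc, h⟩ := hcomm (en (![1, 0, 0, 0], 0, 0, 0)) (en (![0, 1, 0, 0], 0, 0, 0))
    obtain ⟨c, rfl⟩ := en.surjective c
    refine not_central_comm c (fun u v => ?_) ?_
    · obtain ⟨g1, g2, g3, g4⟩ := hc (en u) (en v)
      simp only [mulF, Equiv.symm_apply_apply, EmbeddingLike.apply_eq_iff_eq] at g1 g2 g3 g4
      exact ⟨g1, g2, g3, g4⟩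
    · simpa only [mulF, Equiv.symm_apply_apply, EmbeddingLike.apply_eq_iff_eq] using h

end Pool.Agent.S01599
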