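import Pool.Statements.S01662
import Pool.Agent.Lib.Rossi.Hilb
import Pool.Agent.Lib.Rossi.Toric

set_option autoImplicit false
open Pool Pool.MP_60a13f_al

namespace Pool.Agent.S01662

open Pool.Agent.Rossi

theorem t30 : pc 17 (D 30 35) = 1643 := by decide +kernel

theorem t31 : pc 17 (D 31 36) = 1642 := by decide +kernel

/-- The negation of the preceding statement: For every field k and every numerical semigroup whose toric ideal over k is generated by edim−1 polynomials, the tangent-cone Hilbert function h(j) = #(jM minus (j+1)M), M the nonzero elements, satisfies h(j) ≤ h(j+1) for all j. -/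
theorem result :
    ¬ (∀ (k : Type) [Field k] (Γ : AddSubmonoid ℕ), Set.Finite ((Γ : Set ℕ)ᶜ) →
    (∃ s : Finset (MvPolynomial {a : ℕ // a ∈ Γ ∧ a ≠ 0 ∧ ∀ b ∈ Γ, ∀ c ∈ Γ, b + c = a → b = 0 ∨ c = 0} k),
       s.card + 1 ≤ Nat.card {a : ℕ // a ∈ Γ ∧ a ≠ 0 ∧ ∀ b ∈ Γ, ∀ c ∈ Γ, b + c = a → b = 0 ∨ c = 0} ∧
       Ideal.span (s : Set (MvPolynomial {a : ℕ // a ∈ Γ ∧ a ≠ 0 ∧ ∀ b ∈ Γ, ∀ c ∈ Γ, b + c = a → b = 0 ∨ c = 0} k)) =
         RingHom.ker (MvPolynomial.aeval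
           (fun a : {a : ℕ // a ∈ Γ ∧ a ≠ 0 ∧ ∀ b ∈ Γ, ∀ c ∈ Γ, b + c = a → b = 0 ∨ c = 0} =>
              (Polynomial.X : Polynomial k) ^ a.val))) →
    ∀ j : ℕ,
      Set.ncard ({n : ℕ | ∃ f : Fin j → ℕ, (∀ i, f i ∈ Γ ∧ f i ≠ 0) ∧ n = ∑ i, f i} \
                 {n : ℕ | ∃ f : Fin (j + 1) → ℕ, (∀ i, f i ∈ Γ ∧ f i ≠ 0) ∧ n = ∑ i, f i})
      ≤
      Set.ncard ({n : ℕ | ∃ f : Fin (j + 1) → ℕ, (∀ i, f i ∈ Γ ∧ f i ≠ 0) ∧ n = ∑ i, f i} \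
                 {n : ℕ | ∃ f : Fin (j + 2) → ℕ, (∀ i, f i ∈ Γ ∧ f i ≠ 0) ∧ n = ∑ i, f i})) := by
  intro H
  have h := H ℚ Gam finite_compl ⟨gens ℚ, ?_, span_eq_ker ℚ⟩ 30
  · have e30 : Set.ncard (JM 30 \ JM 31) = 1643 := by
      rw [ncard_eq 30 35 17 (by norm_num) (by norm_num) (by norm_num), t30]
    have e31 : Set.ncard (JM 31 \ JM 32) = 1642 := by
      rw [ncard_eq 31 36 17 (by norm_num) (by norm_num) (by norm_num), t31]
    have h' : Set.ncard (JM 30 \ JM 31) ≤ Set.ncard (JM 31 \ JM 32) := h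
    rw [e30, e31] at h'
    omega
  · have h1 : Nat.card {a : ℕ // a ∈ Gam ∧ a ≠ 0 ∧ ∀ b ∈ Gam, ∀ c ∈ Gam, b + c = a → b = 0 ∨ c = 0} = 7 := by
      rw [← Nat.card_congr eqv]
      simp
    rw [h1]
    have := gens_card ℚ
    omega


end Pool.Agent.S01662
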