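import Pool.Statements.S01913
set_option autoImplicit false
set_option linter.unusedSimpArgs false
set_option linter.style.haveILetI false
open Pool Pool.MP_73474e_al

namespace Pool.Agent.S01913

open Matrix

abbrev L := GaloisField 2 3
abbrev Mt := Matrix (Fin 5) (Fin 5) L

/-- unitriangular with prescribed superdiagonal -/
structure T (M : Mt) (v : L) : Prop where
  d0 : M 0 0 = 1
  d1 : M 1 1 = 1
  d2 : M 2 2 = 1
  d3 : M 3 3 = 1
  d4 : M 4 4 = 1
  z10 : M 1 0 = 0
  z20 : M 2 0 = 0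
  z21 : M 2 1 = 0
  z30 : M 3 0 = 0
  z31 : M 3 1 = 0
  z32 : M 3 2 = 0
  z40 : M 4 0 = 0
  z41 : M 4 1 = 0
  z42 : M 4 2 = 0
  z43 : M 4 3 = 0
  s0 : M 0 1 = v
  s1 : M 1 2 = v
  s2 : M 2 3 = v
  s3 : M 3 4 = v ^ 4

theorem T.mul {M M' : Mt} {v v' : L} (h : T M v) (h' : T M' v') : T (M * M') (v + v') := by
  have h4 : (v + v') ^ 4 = v ^ 4 + v' ^ 4 := by
    have := add_pow_char_pow (R := L) (p := 2) (n := 2) v v'
    simpa using this
  constructor <;>
  simp [Matrix.mul_apply, Fin.sum_univ_succ, h.d0, h.d1, h.d2, h.d3, h.d4, h.z10, h.z20, h.z21, h.z30, h.z31,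
    h.z32, h.z40, h.z41, h.z42, h.z43, h.s0, h.s1, h.s2, h.s3,
    h'.d0, h'.d1, h'.d2, h'.d3, h'.d4, h'.z10, h'.z20, h'.z21, h'.z30, h'.z31,
    h'.z32, h'.z40, h'.z41, h'.z42, h'.z43, h'.s0, h'.s1, h'.s2, h'.s3]
  all_goals first | exact add_comm _ _ | rw [h4, add_comm]

theorem T.one : T 1 0 := by
  constructor <;> simp

theorem T.pow {M : Mt} {v : L} (h : T M v) (k : ℕ) : T (M ^ k) (k • v) := by
  induction k with
  | zero => simpa using T.one
  | succ k ih =>
    rw [pow_succ, succ_nsmul]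
    exact ih.mul h

/-- the central matrix -/
noncomputable def Z : Mt := 1 + Matrix.single 0 4 1

structure T2 (M : Mt) (v w : L) : Prop where
  d0 : M 0 0 = 1
  d1 : M 1 1 = 1
  d2 : M 2 2 = 1
  d3 : M 3 3 = 1
  d4 : M 4 4 = 1
  z10 : M 1 0 = 0
  z20 : M 2 0 = 0
  z21 : M 2 1 = 0
  z30 : M 3 0 = 0
  z31 : M 3 1 = 0
  z32 : M 3 2 = 0
  z40 : M 4 0 = 0
  z41 : M 4 1 = 0
  z42 : M 4 2 = 0
  z43 : M 4 3 = 0
  s0 : M 0 1 = 0
  s1 : M 1 2 = 0
  s2 : M 2 3 = 0
  s3 : M 3 4 = 0
  r0 : M 0 2 = v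
  r1 : M 1 3 = v
  r2 : M 2 4 = w

theorem two_self (x : L) : x + x = 0 := CharTwo.add_self_eq_zero x

theorem T.sq {M : Mt} {v : L} (h : T M v) : T2 (M * M) (v ^ 2) (v ^ 5) := by
  have h2 := two_self
  constructor <;>
  simp [Matrix.mul_apply, Fin.sum_univ_succ, h.d0, h.d1, h.d2, h.d3, h.d4, h.z10, h.z20, h.z21, h.z30, h.z31,
    h.z32, h.z40, h.z41, h.z42, h.z43, h.s0, h.s1, h.s2, h.s3, h2]
  · linear_combination h2 (M 0 2)
  · linear_combination h2 (M 1 3)
  · linear_combination h2 (M 2 4)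

theorem T2.sq {M : Mt} {v w : L} (h : T2 M v w) (hvw : v * w = 1) : M * M = Z := by
  have h2 := two_self
  ext i j
  fin_cases i <;> fin_cases j <;>
  simp [Z, Matrix.mul_apply, Fin.sum_univ_succ, h.d0, h.d1, h.d2, h.d3, h.d4, h.z10, h.z20, h.z21, h.z30, h.z31,
    h.z32, h.z40, h.z41, h.z42, h.z43, h.s0, h.s1, h.s2, h.s3, h.r0, h.r1, h.r2, h2]
  · linear_combination h2 (M 0 4) + hvw

theorem T.pow_four {M : Mt} {v : L} (h : T M v) (hv : v ≠ 0) : M ^ 4 = Z := by
  have h7 : v ^ 7 = 1 := by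
    have hc : Nat.card L = 2 ^ 3 := GaloisField.card 2 3 (by norm_num)
    haveI : Fintype L := Fintype.ofFinite L
    rw [Nat.card_eq_fintype_card] at hc
    have := FiniteField.pow_card_sub_one_eq_one v hv
    rw [hc] at this
    simpa using this
  have e : M ^ 4 = (M * M) * (M * M) := by
    rw [pow_succ, pow_succ, pow_two]; simp only [mul_assoc]
  rw [e]
  refine h.sq.sq ?_
  rw [← pow_add, h7]

theorem Z_sq : Z * Z = 1 := by
  have h1 : (Matrix.single 0 4 1 : Mt) * Matrix.single 0 4 1 = 0 :=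
    Matrix.single_mul_single_of_ne _ _ _ _ (by decide) _
  have h2 : (Matrix.single 0 4 1 : Mt) + Matrix.single 0 4 1 = 0 := by
    rw [← Matrix.single_add, two_self, Matrix.single_zero]
  rw [Z, add_mul, mul_add, mul_add, h1, one_mul, mul_one, one_mul, add_zero, add_assoc, h2, add_zero]

theorem Z_ne : Z ≠ 1 := by
  intro h
  have := congrFun (congrFun h 0) 4
  simp [Z] at this

theorem T.comm_Z {M : Mt} {v : L} (h : T M v) : M * Z = Z * M := by
  ext i j
  simp only [Z, mul_add, add_mul, mul_one, one_mul, Matrix.add_apply]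
  congr 1
  fin_cases i <;> fin_cases j <;>
  simp [Matrix.mul_apply, Fin.sum_univ_succ, Matrix.single_apply, h.d0, h.d1, h.d2, h.d3, h.d4, h.z10, h.z20, h.z21, h.z30, h.z31,
    h.z32, h.z40, h.z41, h.z42, h.z43, h.s0, h.s1, h.s2, h.s3]

/-! ### The finite group and the representation of the free group -/

abbrev U := Mtˣ

/-- generator matrices -/
noncomputable def gm (b : L) : Mt :=
  !![1, b, 0, 0, 0; 0, 1, b, 0, 0; 0, 0, 1, b, 0; 0, 0, 0, 1, b ^ 4; 0, 0, 0, 0, 1]

theorem gm_T (b : L) : T (gm b) b := by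
  constructor <;> simp [gm]

theorem gm_pow (b : L) (hb : b ≠ 0) : gm b ^ 8 = 1 := by
  have h := (gm_T b).pow_four hb
  calc gm b ^ 8 = gm b ^ 4 * gm b ^ 4 := by rw [← pow_add]
    _ = 1 := by rw [h, Z_sq]

noncomputable def gu (b : L) (hb : b ≠ 0) : U where
  val := gm b
  inv := gm b ^ 7
  val_inv := by rw [← pow_succ', gm_pow b hb]
  inv_val := by rw [← pow_succ, gm_pow b hb]

noncomputable def zeta : U := ⟨Z, Z, Z_sq, Z_sq⟩

theorem finrank_L : Module.finrank (ZMod 2) L = 3 := GaloisField.finrank 2 (by norm_num)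

noncomputable def bs : Module.Basis (Fin 3) (ZMod 2) L :=
  Module.finBasisOfFinrankEq (ZMod 2) L finrank_L

abbrev FG := FreeGroup (Fin 3)

noncomputable def rho : FG →* U := FreeGroup.lift (fun i => gu (bs i) (bs.ne_zero i))

noncomputable def beta : FG →* Multiplicative L :=
  FreeGroup.lift (fun i => Multiplicative.ofAdd (bs i))

theorem rho_T (x : FG) : T (rho x : Mt) (Multiplicative.toAdd (beta x)) := by
  induction x using FreeGroup.induction_on with
  | C1 => simpa using T.one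
  | of i => simpa [rho, beta, gu] using gm_T (bs i)
  | inv_of i ih =>
    have h := (gm_T (bs i)).pow 7
    have h1 : (7 : ℕ) • bs i = - bs i := by
      have := two_self (bs i)
      have h2 : bs i = - bs i := eq_neg_of_add_eq_zero_left this
      have : (7 : ℕ) • bs i = (bs i + bs i) + (bs i + bs i) + (bs i + bs i) + bs i := by
        simp only [succ_nsmul, zero_nsmul]; abel
      rw [this]
      simp only [two_self, zero_add]
      exact h2
    rw [h1] at h
    simpa [rho, beta, gu] using h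
  | mul x y hx hy =>
    simpa using hx.mul hy

theorem beta_ne (α : MulAut FG) : Multiplicative.toAdd (beta (α (FreeGroup.of 1))) ≠ 0 := by
  intro h0
  let chi : FG →* Multiplicative (ZMod 2) :=
    FreeGroup.lift (fun i => Multiplicative.ofAdd (if i = 1 then (1 : ZMod 2) else 0))
  let psi : FG →* Multiplicative (ZMod 2) := chi.comp (α⁻¹ : MulAut FG).toMonoidHom
  let l : L →ₗ[ZMod 2] ZMod 2 :=
    bs.constr (ZMod 2) (fun i => Multiplicative.toAdd (psi (FreeGroup.of i)))
  have hl : psi = (AddMonoidHom.toMultiplicative l.toAddMonoidHom).comp beta := by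
    ext i
    simp [beta, l]
  have h1 : psi (α (FreeGroup.of 1)) = Multiplicative.ofAdd 1 := by
    simp [psi, chi]
  rw [hl] at h1
  simp only [MonoidHom.comp_apply] at h1
  have h2 : beta (α (FreeGroup.of 1)) = 1 := by
    apply Multiplicative.toAdd.injective
    simpa using h0
  rw [h2, map_one] at h1
  exact absurd h1 (by decide)

theorem rho_pow (α : MulAut FG) : rho (α (FreeGroup.of 1)) ^ 4 = zeta := by
  apply Units.ext
  rw [Units.val_pow_eq_pow_val]
  exact (rho_T _).pow_four (beta_ne α)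

theorem zeta_sq : zeta * zeta = 1 := Units.ext Z_sq

theorem zeta_ne : zeta ≠ 1 := fun h => Z_ne (congrArg Units.val h)

theorem rho_zeta (x : FG) : zeta * rho x = rho x * zeta :=
  Units.ext ((rho_T x).comm_Z).symm

/-! ### The affine group -/

section affine
variable (q : ℕ)

abbrev G := Equiv.Perm (U × ZMod q)

/-- affine permutations -/
def Aff (π : G q) (g : U) : Prop :=
  zeta * g = g * zeta ∧ ∃ c : U → ZMod q, (∀ u, c (zeta * u) = - c u) ∧
    ∀ u t, π (u, t) = (g * u, t + c u)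

variable {q}

theorem Aff.one : Aff q 1 1 := ⟨by simp, 0, by simp, by simp⟩

theorem Aff.mul {π π' : G q} {g g' : U} (h : Aff q π g) (h' : Aff q π' g') :
    Aff q (π * π') (g * g') := by
  obtain ⟨hz, c, hc, hp⟩ := h
  obtain ⟨hz', c', hc', hp'⟩ := h'
  refine ⟨by rw [← mul_assoc, hz, mul_assoc, hz', mul_assoc], fun u => c' u + c (g' * u), ?_, ?_⟩
  · intro u
    beta_reduce
    rw [hc', ← mul_assoc, ← hz', mul_assoc, hc]; ring
  · intro u t
    rw [Equiv.Perm.mul_apply, hp', hp, mul_assoc, add_assoc]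

theorem Aff.inv {π : G q} {g : U} (h : Aff q π g) : Aff q π⁻¹ g⁻¹ := by
  obtain ⟨hz, c, hc, hp⟩ := h
  have hz' : zeta * g⁻¹ = g⁻¹ * zeta := by
    rw [eq_inv_mul_iff_mul_eq, ← mul_assoc, ← hz]; simp
  refine ⟨hz', fun u => - c (g⁻¹ * u), ?_, ?_⟩
  · intro u
    beta_reduce
    rw [← mul_assoc, ← hz', mul_assoc, hc]
  · intro u t
    rw [Equiv.Perm.inv_eq_iff_eq, hp]
    simp

theorem Aff.pow {π : G q} {g : U} (h : Aff q π g) (k : ℕ) : Aff q (π ^ k) (g ^ k) := by
  induction k with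
  | zero => simpa using Aff.one
  | succ k ih => rw [pow_succ, pow_succ]; exact ih.mul h

theorem Aff.sq_zeta {π : G q} (h : Aff q π zeta) : π ^ 2 = 1 := by
  obtain ⟨hz, c, hc, hp⟩ := h
  ext1 ⟨u, t⟩
  rw [pow_two, Equiv.Perm.mul_apply, hp, hp, hc, ← mul_assoc, zeta_sq]
  simp

variable (q)

open Classical in
noncomputable def phi (u : U) : ZMod q := if u = 1 then 1 else if u = zeta then -1 else 0

theorem phi_one : phi q 1 = 1 := by simp [phi]

theorem phi_zeta : phi q zeta = -1 := by simp [phi, zeta_ne]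

theorem phi_other (u : U) (h1 : u ≠ 1) (h2 : u ≠ zeta) : phi q u = 0 := by simp [phi, h1, h2]

theorem phi_anti (u : U) : phi q (zeta * u) = - phi q u := by
  have h1 : zeta * u = 1 ↔ u = zeta := by
    constructor
    · intro h
      rw [← mul_right_inj zeta, h, zeta_sq]
    · rintro rfl; exact zeta_sq
  have h2 : zeta * u = zeta ↔ u = 1 := by
    constructor
    · intro h; exact mul_eq_left.mp h
    · rintro rfl; simp
  by_cases a : u = 1
  · rw [a, mul_one, phi_zeta, phi_one]
  · by_cases b : u = zeta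
    · rw [b, zeta_sq, phi_zeta, phi_one, neg_neg]
    · rw [phi_other q u a b, phi_other q (zeta * u) (fun h => b (h1.mp h)) (fun h => a (h2.mp h)),
        neg_zero]

/-- the basic affine permutations -/
noncomputable def ap (g : U) (c : U → ZMod q) : G q where
  toFun p := (g * p.1, p.2 + c p.1)
  invFun p := (g⁻¹ * p.1, p.2 - c (g⁻¹ * p.1))
  left_inv p := by simp
  right_inv p := by simp

noncomputable def fq : FG →* G q :=
  FreeGroup.lift (fun i => ap q (rho (FreeGroup.of i)) (if i = 0 then phi q else 0))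

theorem fq_aff (x : FG) : Aff q (fq q x) (rho x) := by
  have gen : ∀ i, Aff q (fq q (FreeGroup.of i)) (rho (FreeGroup.of i)) := by
    intro i
    refine ⟨rho_zeta _, (if i = 0 then phi q else 0), ?_, ?_⟩
    · intro u
      by_cases hi : i = 0
      · simp [hi, phi_anti]
      · simp [hi]
    · intro u t
      simp [fq, ap]
  induction x using FreeGroup.induction_on with
  | C1 => simpa using Aff.one
  | of i => exact gen i
  | inv_of i ih => rw [map_inv, map_inv]; exact (gen i).inv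
  | mul x y hx hy => rw [map_mul, map_mul]; exact hx.mul hy

theorem fq_prim (α : MulAut FG) : fq q (α (FreeGroup.of 1)) ^ 8 = 1 := by
  have h := (fq_aff q (α (FreeGroup.of 1))).pow 4
  rw [rho_pow] at h
  have := h.sq_zeta
  rwa [← pow_mul] at this

end affine

/-! ### The word `w = x0^4 x1^-4` -/

noncomputable def w : FG := FreeGroup.of 0 ^ 4 * (FreeGroup.of 1 ^ 4)⁻¹

theorem fq_one_pow (q : ℕ) (u : U) (t : ZMod q) :
    (fq q (FreeGroup.of 1) ^ 4) (u, t) = (zeta * u, t) := by
  have h : ∀ (u : U) (t : ZMod q), fq q (FreeGroup.of 1) (u, t) = (rho (FreeGroup.of 1) * u, t) := by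
    intro u t
    simp [fq, ap]
  have h4 := rho_pow (1 : MulAut FG)
  simp only [MulAut.one_apply] at h4
  simp only [pow_succ, pow_zero, one_mul, Equiv.Perm.mul_apply, h]
  rw [← h4]
  simp only [pow_succ, pow_zero, one_mul, mul_assoc]

theorem fq_zero (q : ℕ) (u : U) (t : ZMod q) :
    fq q (FreeGroup.of 0) (u, t) = (rho (FreeGroup.of 0) * u, t + phi q u) := by
  simp [fq, ap]

theorem rho_zero_pow : rho (FreeGroup.of 0) ^ 4 = zeta := by
  apply Units.ext
  rw [Units.val_pow_eq_pow_val]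
  refine (rho_T _).pow_four ?_
  have : Multiplicative.toAdd (beta (FreeGroup.of 0)) = bs 0 := by simp [beta]
  rw [this]
  exact bs.ne_zero 0

theorem beta_zero : Multiplicative.toAdd (beta (FreeGroup.of 0)) = bs 0 := by simp [beta]

theorem r1 : rho (FreeGroup.of 0) ≠ 1 ∧ rho (FreeGroup.of 0) ≠ zeta := by
  have h := rho_T (FreeGroup.of 0)
  rw [beta_zero] at h
  have hb := bs.ne_zero 0
  constructor
  · intro e
    have := h.s0
    rw [e] at this
    exact hb (by simpa using this.symm)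
  · intro e
    have := h.s0
    rw [e] at this
    exact hb (by simpa [zeta, Z, Matrix.single_apply] using this.symm)

theorem r3 : rho (FreeGroup.of 0) ^ 3 ≠ 1 ∧ rho (FreeGroup.of 0) ^ 3 ≠ zeta := by
  have h := (rho_T (FreeGroup.of 0)).pow 3
  rw [beta_zero] at h
  have h3 : (3 : ℕ) • bs 0 = bs 0 := by
    simp only [succ_nsmul, zero_nsmul, zero_add, two_self]
  rw [h3] at h
  have hb := bs.ne_zero 0
  constructor
  · intro e
    have := h.s0
    rw [← Units.val_pow_eq_pow_val, e] at this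
    exact hb (by simpa using this.symm)
  · intro e
    have := h.s0
    rw [← Units.val_pow_eq_pow_val, e] at this
    exact hb (by simpa [zeta, Z, Matrix.single_apply] using this.symm)

theorem r2 : rho (FreeGroup.of 0) ^ 2 ≠ 1 ∧ rho (FreeGroup.of 0) ^ 2 ≠ zeta := by
  have h := (rho_T (FreeGroup.of 0)).sq
  rw [beta_zero, ← pow_two] at h
  have hb : bs 0 ^ 2 ≠ 0 := pow_ne_zero 2 (bs.ne_zero 0)
  constructor
  · intro e
    have := h.r0
    rw [← Units.val_pow_eq_pow_val, e] at this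
    exact hb (by simpa using this.symm)
  · intro e
    have := h.r0
    rw [← Units.val_pow_eq_pow_val, e] at this
    exact hb (by simpa [zeta, Z, Matrix.single_apply] using this.symm)

theorem fq_zero_step (q k : ℕ) (t : ZMod q) (h1 : rho (FreeGroup.of 0) ^ k ≠ 1)
    (h2 : rho (FreeGroup.of 0) ^ k ≠ zeta) :
    fq q (FreeGroup.of 0) (rho (FreeGroup.of 0) ^ k, t) = (rho (FreeGroup.of 0) ^ (k + 1), t) := by
  rw [fq_zero, phi_other q _ h1 h2, add_zero, ← pow_succ']

theorem fq_zero_pow_one (q : ℕ) (t : ZMod q) :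
    (fq q (FreeGroup.of 0) ^ 4) (1, t) = (zeta, t + 1) := by
  have e1 : fq q (FreeGroup.of 0) (1, t) = (rho (FreeGroup.of 0) ^ 1, t + 1) := by
    rw [fq_zero, phi_one, mul_one, pow_one]
  have e2 := fq_zero_step q 1 (t + 1) (by rw [pow_one]; exact r1.1) (by rw [pow_one]; exact r1.2)
  have e3 := fq_zero_step q 2 (t + 1) r2.1 r2.2
  have e4 := fq_zero_step q 3 (t + 1) r3.1 r3.2
  have e : fq q (FreeGroup.of 0) ^ 4 = fq q (FreeGroup.of 0) * (fq q (FreeGroup.of 0) *
      (fq q (FreeGroup.of 0) * fq q (FreeGroup.of 0))) := by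
    rw [pow_succ', pow_succ', pow_two]
  rw [e, Equiv.Perm.mul_apply, Equiv.Perm.mul_apply, Equiv.Perm.mul_apply, e1, e2, e3, e4,
    rho_zero_pow]

theorem fq_zero_pow_zeta (q : ℕ) (t : ZMod q) :
    (fq q (FreeGroup.of 0) ^ 4) (zeta, t) = (1, t - 1) := by
  obtain ⟨hz, c, hc, hp⟩ := (fq_aff q (FreeGroup.of 0)).pow 4
  have h1 := fq_zero_pow_one q t
  rw [hp] at h1
  have h2 : c 1 = 1 := by
    have := congrArg Prod.snd h1
    simpa using this
  have h3 : c zeta = - 1 := by rw [← h2, ← hc, mul_one]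
  rw [hp, h3, rho_zero_pow, zeta_sq, sub_eq_add_neg]

theorem fq_w (q : ℕ) (t : ZMod q) : fq q w (1, t) = (1, t - 1) ∧ fq q w (zeta, t) = (zeta, t + 1) := by
  have h : ∀ (u : U) (t : ZMod q), (fq q (FreeGroup.of 1) ^ 4)⁻¹ (u, t) = (zeta * u, t) := by
    intro u t
    rw [Equiv.Perm.inv_eq_iff_eq, fq_one_pow, ← mul_assoc, zeta_sq, one_mul]
  have e : fq q w = fq q (FreeGroup.of 0) ^ 4 * (fq q (FreeGroup.of 1) ^ 4)⁻¹ := by
    simp [w]
  constructor
  · rw [e, Equiv.Perm.mul_apply, h, mul_one, fq_zero_pow_zeta]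
  · rw [e, Equiv.Perm.mul_apply, h, zeta_sq, fq_zero_pow_one]

theorem fq_w_pow (q k : ℕ) : (fq q w ^ k) (1, 0) = (1, - (k : ZMod q)) ∧
    (fq q w ^ k) (zeta, 0) = (zeta, (k : ZMod q)) := by
  induction k with
  | zero => simp
  | succ k ih =>
    rw [pow_succ', Equiv.Perm.mul_apply, Equiv.Perm.mul_apply, ih.1, ih.2, (fq_w q _).1, (fq_w q _).2]
    constructor
    · push_cast; congr 1; ring
    · push_cast; rfl

theorem two_mul_eq_zero_of_comm (q k : ℕ)
    (h : fq q (w ^ k) * fq q (FreeGroup.of 1) = fq q (FreeGroup.of 1) * fq q (w ^ k)) :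
    (q : ℕ) ∣ 2 * k := by
  have h4 : Commute (fq q w ^ k) (fq q (FreeGroup.of 1) ^ 4) := by
    rw [map_pow] at h
    exact (show Commute (fq q w ^ k) (fq q (FreeGroup.of 1)) from h).pow_right 4
  have h5 := congrArg (fun π : G q => π (1, 0)) h4.eq
  simp only [Equiv.Perm.mul_apply] at h5
  rw [fq_one_pow, (fq_w_pow q k).1, fq_one_pow, mul_one, (fq_w_pow q k).2] at h5
  have h6 : (k : ZMod q) = - (k : ZMod q) := congrArg Prod.snd h5
  have h7 : ((2 * k : ℕ) : ZMod q) = 0 := by
    push_cast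
    linear_combination h6
  exact (ZMod.natCast_eq_zero_iff _ _).mp h7

/-! ### The finite quotients -/

/-- homomorphisms killing the eighth powers of all primitive elements -/
def X (q : ℕ) : Type := {f : FG →* G q // ∀ α : MulAut FG, f (α (FreeGroup.of 1)) ^ 8 = 1}

theorem finite_L : Finite L := by infer_instance

theorem finite_X (q : ℕ) [NeZero q] : Finite (X q) := by
  have : Finite (FG →* G q) := Finite.of_equiv _ (FreeGroup.lift (α := Fin 3) (β := G q))
  unfold X
  infer_instance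

noncomputable instance (q : ℕ) : MulAction (MulAut FG) (X q) where
  smul α f := ⟨f.1.comp (α⁻¹ : MulAut FG).toMonoidHom, fun β => by
    have := f.2 (α⁻¹ * β)
    simpa using this⟩
  one_smul f := by
    apply Subtype.ext
    apply MonoidHom.ext
    intro x
    rfl
  mul_smul α β f := by
    apply Subtype.ext
    apply MonoidHom.ext
    intro x
    rfl

theorem smul_apply (q : ℕ) (α : MulAut FG) (f : X q) (x : FG) : (α • f).1 x = f.1 (α⁻¹ x) := rfl

/-- the Nielsen move -/
noncomputable def sg : MulAut FG :=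
  MonoidHom.toMulEquiv
    (FreeGroup.lift (fun i : Fin 3 => if i = 0 then FreeGroup.of 1 * FreeGroup.of 0 else FreeGroup.of i))
    (FreeGroup.lift (fun i : Fin 3 => if i = 0 then (FreeGroup.of 1)⁻¹ * FreeGroup.of 0 else FreeGroup.of i))
    (by
      ext i
      by_cases hi : i = 0
      · subst hi; simp
      · simp [hi])
    (by
      ext i
      by_cases hi : i = 0
      · subst hi; simp
      · simp [hi])

theorem sg_of (i : Fin 3) : sg (FreeGroup.of i) =
    if i = 0 then FreeGroup.of 1 * FreeGroup.of 0 else FreeGroup.of i := by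
  simp [sg]

theorem sg_pow (k : ℕ) (i : Fin 3) : (sg ^ k) (FreeGroup.of i) =
    if i = 0 then (FreeGroup.of 1) ^ k * FreeGroup.of 0 else FreeGroup.of i := by
  induction k with
  | zero => by_cases hi : i = 0 <;> simp [hi]
  | succ k ih =>
    rw [pow_succ', MulAut.mul_apply, ih]
    by_cases hi : i = 0
    · rw [if_pos hi, if_pos hi, map_mul, map_pow, sg_of, sg_of, if_neg (by decide), if_pos rfl,
        ← mul_assoc, ← pow_succ]
    · rw [if_neg hi, if_neg hi, sg_of, if_neg hi]

theorem sg_smul (q : ℕ) (f : X q) : (sg ^ 8) • f = f := by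
  have h : (sg ^ 8)⁻¹ • f = f := by
    apply Subtype.ext
    apply FreeGroup.ext_hom
    intro i
    rw [smul_apply, inv_inv, sg_pow]
    by_cases hi : i = 0
    · rw [if_pos hi, map_mul, map_pow]
      have := f.2 1
      rw [MulAut.one_apply] at this
      rw [this, one_mul, hi]
    · rw [if_neg hi]
  exact (inv_smul_eq_iff.mp h).symm

abbrev NC : Subgroup (MulAut FG) := Subgroup.normalClosure ({sg ^ 8} : Set (MulAut FG))

noncomputable def Phi (q : ℕ) : MulAut FG ⧸ NC →* Equiv.Perm (X q) :=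
  QuotientGroup.lift NC (MulAction.toPermHom (MulAut FG) (X q)) (by
    intro a ha
    have : NC ≤ (MulAction.toPermHom (MulAut FG) (X q)).ker := by
      apply Subgroup.normalClosure_le_normal
      rintro _ rfl
      rw [SetLike.mem_coe, MonoidHom.mem_ker]
      ext f
      exact sg_smul q f
    exact this ha)

noncomputable def f0 (q : ℕ) : X q := ⟨fq q, fq_prim q⟩

theorem main_bound (q k : ℕ) (h : (QuotientGroup.mk (MulAut.conj w) : MulAut FG ⧸ NC) ^ k ∈ (Phi q).ker) :
    q ∣ 2 * k := by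
  apply two_mul_eq_zero_of_comm
  rw [MonoidHom.mem_ker, ← QuotientGroup.mk_pow] at h
  have h1 : (MulAut.conj w) ^ k • (f0 q) = f0 q :=
    congrArg (fun π : Equiv.Perm (X q) => π (f0 q)) h
  rw [← map_pow] at h1
  have h2 : f0 q = (MulAut.conj (w ^ k))⁻¹ • f0 q := (inv_smul_eq_iff.mpr h1.symm).symm
  have h3 : fq q (FreeGroup.of 1) = fq q ((MulAut.conj (w ^ k))⁻¹⁻¹ (FreeGroup.of 1)) :=
    congrArg (fun f : X q => f.1 (FreeGroup.of 1)) h2
  rw [inv_inv, MulAut.conj_apply, map_mul, map_mul, map_inv] at h3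
  rw [eq_mul_inv_iff_mul_eq] at h3
  exact h3.symm

theorem pow_mem_of_dvd {H : Type} [Group H] (N : Subgroup H) [N.Normal] (g : H) (E : ℕ)
    (h : N.index ∣ E) : g ^ E ∈ N := by
  obtain ⟨d, rfl⟩ := h
  rw [pow_mul]
  exact Subgroup.pow_mem _ (Subgroup.pow_index_mem N g) _

/-- There exist n ≥ 3, m ≥ 1 and a Nielsen move σ of the free group of rank n such that the quotient of Aut(F_n) by the normal closure of σ^m has infinitely many normal subgroups of finite index. -/
theorem result :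
    ∃ n : ℕ, 3 ≤ n ∧ ∃ m : ℕ, 1 ≤ m ∧
      ∃ σ : MulAut (FreeGroup (Fin n)), ∃ i j : Fin n, i ≠ j ∧
        σ (FreeGroup.of i) = FreeGroup.of j * FreeGroup.of i ∧
        (∀ k : Fin n, k ≠ i → σ (FreeGroup.of k) = FreeGroup.of k) ∧
        Set.Infinite
          {N : Subgroup (MulAut (FreeGroup (Fin n)) ⧸
              Subgroup.normalClosure ({σ ^ m} : Set (MulAut (FreeGroup (Fin n))))) |
            N.Normal ∧ N.FiniteIndex} := by
  refine ⟨3, le_rfl, 8, by norm_num, sg, 0, 1, by decide, ?_, ?_, ?_⟩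
  · rw [sg_of, if_pos rfl]
  · intro k hk
    rw [sg_of, if_neg hk]
  · intro hfin
    let E : ℕ := ∏ N ∈ hfin.toFinset, N.index
    have hE : E ≠ 0 := by
      refine Finset.prod_ne_zero_iff.mpr (fun N hN => ?_)
      have h := (hfin.mem_toFinset.mp hN)
      exact h.2.index_ne_zero
    have hq : NeZero (2 * E + 1) := ⟨by omega⟩
    have hX := finite_X (2 * E + 1)
    have hmem : (Phi (2 * E + 1)).ker ∈ {N : Subgroup (MulAut FG ⧸ NC) | N.Normal ∧ N.FiniteIndex} := by
      refine ⟨inferInstance, ?_⟩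
      exact Subgroup.finiteIndex_ker _
    have hdvd : (Phi (2 * E + 1)).ker.index ∣ E :=
      Finset.dvd_prod_of_mem _ (hfin.mem_toFinset.mpr hmem)
    have hpow := pow_mem_of_dvd (Phi (2 * E + 1)).ker (QuotientGroup.mk (MulAut.conj w)) E hdvd
    have := Nat.le_of_dvd (by omega) (main_bound _ _ hpow)
    omega

end Pool.Agent.S01913
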