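import Pool.Statements.S02600
import Mathlib

set_option autoImplicit false
open Pool Pool.MP_a761b9_al

namespace Pool.Agent.S02600

open Filter Topology

/-!
The counterexample. Let `X` be the automorphism group of the rooted binary tree, acting on the
boundary `D` of the tree, and give `X` the topology of pointwise convergence on `D`, where `D` is
seen as a discrete set. This topology is finer than the profinite topology, so the group is
maximally almost periodic, and it is not compact (point stabilizers are open of infinite index).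

* Every Hausdorff group topology on `X` contains the profinite one: a vertex stabilizer is cut
  out by commutation relations (`stab_iff`), so it is closed, and it has finite index.
* A Hausdorff group topology on `X` which is coarser than the topology of pointwise convergence
  either makes all point stabilizers open or is the profinite topology (`profinite_case`).
* In both cases the group is complete, so its image in any Hausdorff group is closed
  (`isClosed_range_of`).
-/

/-- The boundary of the rooted binary tree, seen as a discrete set. -/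
def D : Type := ℕ → Bool

instance : TopologicalSpace D := ⊥
instance : DiscreteTopology D := ⟨rfl⟩

/-- `E n a b` says that `a` and `b` agree up to level `n` of the tree. -/
def E (n : ℕ) (a b : D) : Prop := ∀ i, i < n → a i = b i

lemma E.refl (n : ℕ) (a : D) : E n a a := fun _ _ => rfl
lemma E.symm {n : ℕ} {a b : D} (h : E n a b) : E n b a := fun i hi => (h i hi).symm
lemma E.trans {n : ℕ} {a b c : D} (h : E n a b) (h' : E n b c) : E n a c :=
  fun i hi => (h i hi).trans (h' i hi)
lemma E.mono {m n : ℕ} {a b : D} (hmn : m ≤ n) (h : E n a b) : E m a b :=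
  fun i hi => h i (lt_of_lt_of_le hi hmn)
lemma eq_of_E {a b : D} (h : ∀ n, E n a b) : a = b :=
  funext fun i => h (i + 1) i (Nat.lt_succ_self i)

/-- The automorphism group of the rooted binary tree, acting on its boundary. -/
def X : Subgroup (Equiv.Perm D) where
  carrier := {g | ∀ n a b, E n (g a) (g b) ↔ E n a b}
  mul_mem' := by
    intro g h hg hh n a b
    simp only [Equiv.Perm.coe_mul, Function.comp_apply]
    rw [hg, hh]
  one_mem' := by
    intro n a b
    simp
  inv_mem' := by
    intro g hg n a b
    have h1 := hg n (g⁻¹ a) (g⁻¹ b)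
    have h2 : ∀ z, g (g⁻¹ z) = z := fun z => by simp
    rw [h2, h2] at h1
    exact h1.symm

/-- Evaluation. -/
def ev (g : X) (z : D) : D := (g : Equiv.Perm D) z

@[simp] lemma ev_one (z : D) : ev 1 z = z := rfl
@[simp] lemma ev_mul (g h : X) (z : D) : ev (g * h) z = ev g (ev h z) := rfl
@[simp] lemma ev_inv_self (g : X) (z : D) : ev g⁻¹ (ev g z) = z := by
  simp [ev]
@[simp] lemma ev_self_inv (g : X) (z : D) : ev g (ev g⁻¹ z) = z := by
  simp [ev]
lemma ev_E (g : X) (n : ℕ) (a b : D) : E n (ev g a) (ev g b) ↔ E n a b := g.2 n a b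
lemma ev_injective (g : X) : Function.Injective (ev g) := (g : Equiv.Perm D).injective
lemma X_ext {g h : X} (H : ∀ z, ev g z = ev h z) : g = h :=
  Subtype.ext (Equiv.ext H)

/-- Restriction of an element of a level stabilizer to a saturated set. -/
lemma exists_restr (t : X) (N : ℕ) (ht : ∀ z, E N (ev t z) z) (S : Set D)
    (hS : ∀ a b, E N a b → a ∈ S → b ∈ S) :
    ∃ r : X, (∀ z ∈ S, ev r z = ev t z) ∧ (∀ z, z ∉ S → ev r z = z) := by
  classical
  have ht' : ∀ z, E N (ev t⁻¹ z) z := by
    intro z
    have := ht (ev t⁻¹ z)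
    rw [ev_self_inv] at this
    exact this.symm
  have h1 : ∀ z, z ∈ S → ev t z ∈ S := fun z hz => hS z _ (ht z).symm hz
  have h2 : ∀ z, z ∈ S → ev t⁻¹ z ∈ S := fun z hz => hS z _ (ht' z).symm hz
  let r : Equiv.Perm D :=
    { toFun := fun z => if z ∈ S then ev t z else z
      invFun := fun z => if z ∈ S then ev t⁻¹ z else z
      left_inv := by
        intro z
        by_cases hz : z ∈ S
        · simp [hz, h1 z hz]
        · simp [hz]
      right_inv := by
        intro z
        by_cases hz : z ∈ S
        · simp [hz, h2 z hz]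
        · simp [hz] }
  have hr1 : ∀ z ∈ S, r z = ev t z := fun z hz => by
    change (if z ∈ S then ev t z else z) = _
    rw [if_pos hz]
  have hr2 : ∀ z, z ∉ S → r z = z := fun z hz => by
    change (if z ∈ S then ev t z else z) = _
    rw [if_neg hz]
  have hrN : ∀ z, E N (r z) z := by
    intro z
    by_cases hz : z ∈ S
    · rw [hr1 z hz]; exact ht z
    · rw [hr2 z hz]; exact E.refl _ _
  refine ⟨⟨r, ?_⟩, hr1, hr2⟩
  intro n a b
  by_cases hn : n ≤ N
  · have ha : E n (r a) a := (hrN a).mono hn
    have hb : E n (r b) b := (hrN b).mono hn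
    exact ⟨fun h => (ha.symm.trans h).trans hb, fun h => (ha.trans h).trans hb.symm⟩
  · push Not at hn
    by_cases ha : a ∈ S
    · by_cases hb : b ∈ S
      · rw [hr1 a ha, hr1 b hb]; exact ev_E t n a b
      · constructor
        · intro h
          exfalso
          apply hb
          apply hS a b _ ha
          exact ((hrN a).symm.trans (h.mono hn.le)).trans (hrN b)
        · intro h
          exfalso
          exact hb (hS a b (h.mono hn.le) ha)
    · by_cases hb : b ∈ S
      · constructor
        · intro h
          exfalso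
          apply ha
          apply hS b a _ hb
          exact ((hrN b).symm.trans (h.mono hn.le).symm).trans (hrN a)
        · intro h
          exfalso
          exact ha (hS b a (h.mono hn.le).symm hb)
      · rw [hr2 a ha, hr2 b hb]

/-- Coordinatewise exclusive or with a fixed sequence. -/
def xorPerm (c : D) : Equiv.Perm D where
  toFun := fun z i => Bool.xor (z i) (c i)
  invFun := fun z i => Bool.xor (z i) (c i)
  left_inv := fun z => by funext i; simp
  right_inv := fun z => by funext i; simp

/-- The translation by `c`, as an element of the group. -/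
def tr (c : D) : X := ⟨xorPerm c, by
  intro n a b
  constructor
  · intro h i hi
    have := h i hi
    change Bool.xor (a i) (c i) = Bool.xor (b i) (c i) at this
    simpa using this
  · intro h i hi
    change Bool.xor (a i) (c i) = Bool.xor (b i) (c i)
    rw [h i hi]⟩

lemma ev_tr (c z : D) (i : ℕ) : ev (tr c) z i = Bool.xor (z i) (c i) := rfl

lemma exists_move (a b : D) : ∃ k : X, ev k a = b := by
  refine ⟨tr (fun i => Bool.xor (a i) (b i)), ?_⟩
  funext i
  change Bool.xor (a i) (Bool.xor (a i) (b i)) = b i
  simp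

/-- Two non-commuting elements supported in a given cylinder. -/
lemma exists_noncomm (a : D) (n : ℕ) :
    ∃ u p : X, (∀ z, ¬ E n z a → ev u z = z) ∧ (∀ z, ¬ E n z a → ev p z = z) ∧
      u * p ≠ p * u := by
  classical
  let c1 : D := fun i => decide (i = n)
  let c2 : D := fun i => decide (i = n + 1)
  have hc1 : ∀ z, E n (ev (tr c1) z) z := by
    intro z i hi
    rw [ev_tr]
    have : i ≠ n := by omega
    simp [c1, this]
  have hc2 : ∀ z, E (n + 1) (ev (tr c2) z) z := by
    intro z i hi
    rw [ev_tr]
    have : i ≠ n + 1 := by omega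
    simp [c2, this]
  obtain ⟨u, hu1, hu2⟩ := exists_restr (tr c1) n hc1 {z | E n z a}
    (fun x y hxy hx => hxy.symm.trans hx)
  obtain ⟨p, hp1, hp2⟩ := exists_restr (tr c2) (n + 1) hc2 {z | E n z a ∧ z n = false}
    (fun x y hxy hx => ⟨(hxy.mono (Nat.le_succ n)).symm.trans hx.1, by
      rw [← hxy n (Nat.lt_succ_self n)]; exact hx.2⟩)
  refine ⟨u, p, fun z hz => hu2 z hz, fun z hz => hp2 z (fun h => hz h.1), ?_⟩
  intro hup
  let z : D := fun i => if i < n then a i else false
  have hz : E n z a := by
    intro i hi
    change (if i < n then a i else false) = a i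
    rw [if_pos hi]
  have hzn : z n = false := by
    change (if n < n then a n else false) = false
    rw [if_neg (lt_irrefl n)]
  have h1 : ev (u * p) z = ev (p * u) z := by rw [hup]
  rw [ev_mul, ev_mul, hu1 z hz] at h1
  have h2 : ev p (ev (tr c1) z) = ev (tr c1) z := by
    apply hp2
    rintro ⟨_, h⟩
    rw [ev_tr, hzn] at h
    simp [c1] at h
  rw [h2, hp1 z ⟨hz, hzn⟩] at h1
  have h3 : E n (ev (tr c2) z) a := ((hc2 z).mono (Nat.le_succ n)).trans hz
  rw [hu1 _ h3] at h1
  have h4 := congrFun h1 (n + 1)
  rw [ev_tr, ev_tr, ev_tr] at h4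
  simp [c1, c2] at h4

/-- Characterization of the stabilizer of a vertex by commutation relations. -/
lemma stab_iff (n : ℕ) (a : D) (g : X) :
    E n (ev g a) a ↔ ∀ h p : X, (∀ z, ¬ E n z a → ev h z = z) → (∀ z, E n z a → ev p z = z) →
      (g * h * g⁻¹) * p = p * (g * h * g⁻¹) := by
  constructor
  · intro hg h p hh hp
    have key : ∀ z, ¬ E n z a → ev (g * h * g⁻¹) z = z := by
      intro z hz
      rw [ev_mul, ev_mul, hh, ev_self_inv]
      intro h1
      apply hz
      have h2 := (ev_E g n _ _).2 h1
      rw [ev_self_inv] at h2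
      exact h2.trans hg
    have key2 : ∀ z, E n z a → E n (ev (g * h * g⁻¹) z) a := by
      intro z hz
      by_contra hcon
      have h1 := key _ hcon
      have h2 := ev_injective _ h1
      rw [h2] at hcon
      exact hcon hz
    have key3 : ∀ z, ¬ E n z a → ¬ E n (ev p z) a := by
      intro z hz hcon
      have h1 := hp _ hcon
      have h2 := ev_injective _ h1
      rw [h2] at hcon
      exact hz hcon
    apply X_ext
    intro z
    by_cases hz : E n z a
    · rw [ev_mul (g * h * g⁻¹) p, hp z hz, ev_mul p, hp _ (key2 z hz)]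
    · rw [ev_mul (g * h * g⁻¹) p, key _ (key3 z hz), ev_mul p, key z hz]
  · intro H
    by_contra hg
    obtain ⟨u, p, hu, hp, hup⟩ := exists_noncomm (ev g a) n
    apply hup
    have h1 := H (g⁻¹ * u * g) p ?_ ?_
    · have h2 : g * (g⁻¹ * u * g) * g⁻¹ = u := by group
      rw [h2] at h1
      exact h1
    · intro z hz
      rw [ev_mul, ev_mul, hu, ev_inv_self]
      intro h1
      exact hz ((ev_E g n _ _).1 h1)
    · intro z hz
      apply hp
      intro h1
      exact hg (h1.symm.trans hz)

/-- Vertex stabilizers are closed in every Hausdorff group topology. -/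
lemma isClosed_vertex [TopologicalSpace X] [IsTopologicalGroup X] [T2Space X] (n : ℕ) (a : D) :
    IsClosed {g : X | E n (ev g a) a} := by
  have : {g : X | E n (ev g a) a} = ⋂ (h : X) (p : X) (_ : ∀ z, ¬ E n z a → ev h z = z)
      (_ : ∀ z, E n z a → ev p z = z),
      {g : X | (g * h * g⁻¹) * p = p * (g * h * g⁻¹)} := by
    ext g
    simp only [Set.mem_ofPred_eq, Set.mem_iInter]
    rw [stab_iff]
  rw [this]
  refine isClosed_iInter fun h => isClosed_iInter fun p => isClosed_iInter fun _ =>
    isClosed_iInter fun _ => isClosed_eq ?_ ?_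
  · fun_prop
  · fun_prop

/-- Restriction of an infinite sequence to the first `n` coordinates. -/
def res (n : ℕ) (z : D) : Fin n → Bool := fun i => z i

/-- Extension of a finite sequence by `false`. -/
def ext (n : ℕ) (w : Fin n → Bool) : D := fun i => if h : i < n then w ⟨i, h⟩ else false

lemma res_ext (n : ℕ) (w : Fin n → Bool) : res n (ext n w) = w := by
  funext i
  simp [res, ext]

lemma res_eq_iff (n : ℕ) (a b : D) : res n a = res n b ↔ E n a b := by
  constructor
  · intro h i hi
    exact congrFun h ⟨i, hi⟩
  · intro h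
    funext i
    exact h i i.2

lemma E_ext_res (n : ℕ) (z : D) : E n (ext n (res n z)) z := by
  rw [← res_eq_iff, res_ext]

/-- The action on the `n`-th level. -/
@[reducible] def act (n : ℕ) : MulAction X (Fin n → Bool) where
  smul g w := res n (ev g (ext n w))
  one_smul w := by
    change res n (ev 1 (ext n w)) = w
    rw [ev_one, res_ext]
  mul_smul g h w := by
    change res n (ev (g * h) (ext n w)) = res n (ev g (ext n (res n (ev h (ext n w)))))
    rw [res_eq_iff, ev_mul, ev_E]
    exact (E_ext_res n _).symm

/-- The homomorphism to the permutations of the `n`-th level. -/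
def rho (n : ℕ) : X →* Equiv.Perm (Fin n → Bool) := @MulAction.toPermHom X (Fin n → Bool) _ (act n)

lemma rho_apply (n : ℕ) (g : X) (w : Fin n → Bool) : rho n g w = res n (ev g (ext n w)) := rfl

lemma mem_ker_rho (n : ℕ) (g : X) : g ∈ (rho n).ker ↔ ∀ z, E n (ev g z) z := by
  rw [MonoidHom.mem_ker]
  constructor
  · intro h z
    have h1 : rho n g (res n z) = res n z := by rw [h]; rfl
    rw [rho_apply, res_eq_iff] at h1
    exact ((ev_E g n _ _).2 (E_ext_res n z).symm).trans h1
  · intro h
    ext1 w
    rw [rho_apply]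
    have := h (ext n w)
    rw [← res_eq_iff, res_ext] at this
    rw [this]
    rfl

/-- Level stabilizers are open in every Hausdorff group topology. -/
lemma isOpen_level [TopologicalSpace X] [IsTopologicalGroup X] [T2Space X] (n : ℕ) :
    IsOpen ((rho n).ker : Set X) := by
  apply Subgroup.isOpen_of_isClosed_of_finiteIndex
  have : ((rho n).ker : Set X) = ⋂ z : D, {g : X | E n (ev g z) z} := by
    ext g
    simp only [SetLike.mem_coe, mem_ker_rho, Set.mem_iInter, Set.mem_ofPred_eq]
  rw [this]
  exact isClosed_iInter fun z => isClosed_vertex n z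

/-- The stabilizer of a boundary point. -/
def W (z : D) : Subgroup X where
  carrier := {g | ev g z = z}
  mul_mem' := by
    intro g h hg hh
    change ev g z = z at hg
    change ev h z = z at hh
    change ev (g * h) z = z
    rw [ev_mul, hh, hg]
  one_mem' := rfl
  inv_mem' := by
    intro g hg
    change ev g z = z at hg
    change ev g⁻¹ z = z
    conv_lhs => rw [← hg]
    exact ev_inv_self g z

lemma mem_W (z : D) (g : X) : g ∈ W z ↔ ev g z = z := Iff.rfl

lemma isClosed_W [TopologicalSpace X] [IsTopologicalGroup X] [T2Space X] (z : D) :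
    IsClosed (W z : Set X) := by
  have : (W z : Set X) = ⋂ n : ℕ, {g : X | E n (ev g z) z} := by
    ext g
    simp only [SetLike.mem_coe, mem_W, Set.mem_iInter, Set.mem_ofPred_eq]
    exact ⟨fun h n => by rw [h]; exact E.refl _ _, fun h => eq_of_E h⟩
  rw [this]
  exact isClosed_iInter fun n => isClosed_vertex n z

/-- If no point stabilizer is open, then a coarser topology is the profinite one. -/
lemma profinite_case [TopologicalSpace X] [IsTopologicalGroup X] [T2Space X]
    (hτ : ∀ U ∈ 𝓝 (1 : X), ∃ B : Finset D, ∀ g : X, (∀ z ∈ B, ev g z = z) → g ∈ U)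
    (hno : ∀ z, ¬ IsOpen (W z : Set X)) (U : Set X) (hU : U ∈ 𝓝 (1 : X)) :
    ∃ N : ℕ, ∀ s : X, (∀ z, E N (ev s z) z) → s ∈ U := by
  classical
  obtain ⟨V, hV, hVU⟩ := exists_nhds_one_split4 hU
  have hV' : V ∩ V⁻¹ ∈ 𝓝 (1 : X) := inter_mem hV (inv_mem_nhds_one X hV)
  obtain ⟨B, hB⟩ := hτ _ hV'
  -- a level separating the points of `B`
  obtain ⟨n, hn⟩ : ∃ n : ℕ, ∀ a ∈ B, ∀ b ∈ B, E n a b → a = b := by
    have h1 : ∀ p : D × D, ∃ n : ℕ, E n p.1 p.2 → p.1 = p.2 := by
      intro p
      by_cases h : p.1 = p.2
      · exact ⟨0, fun _ => h⟩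
      · by_contra hcon
        push Not at hcon
        exact h (eq_of_E fun n => (hcon n).1)
    choose k hk using h1
    refine ⟨(B ×ˢ B).sup k, ?_⟩
    intro a ha b hb hab
    apply hk (a, b)
    apply hab.mono
    exact Finset.le_sup (f := k) (Finset.mk_mem_product ha hb)
  -- a small element moving every point of `B`
  have hdense : ∀ C : Finset D, IsOpen {g : X | ∀ z ∈ C, ev g z ≠ z} ∧
      Dense {g : X | ∀ z ∈ C, ev g z ≠ z} := by
    intro C
    induction C using Finset.induction_on with
    | empty => simp
    | insert z C hz ih =>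
      have h1 : {g : X | ∀ w ∈ insert z C, ev g w ≠ w} =
          (W z : Set X)ᶜ ∩ {g : X | ∀ w ∈ C, ev g w ≠ w} := by
        ext g
        simp [mem_W]
      rw [h1]
      have h2 : IsOpen (W z : Set X)ᶜ := (isClosed_W z).isOpen_compl
      have h3 : Dense (W z : Set X)ᶜ := by
        rw [← interior_eq_empty_iff_dense_compl]
        by_contra hne
        obtain ⟨g, hg⟩ := Set.nonempty_iff_ne_empty.2 hne
        exact hno z (Subgroup.isOpen_of_mem_nhds (W z) (mem_interior_iff_mem_nhds.1 hg))
      exact ⟨h2.inter ih.1, h3.inter_of_isOpen_left ih.2 h2⟩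
  have hV'' : (V ∩ V⁻¹) ∩ ((rho n).ker : Set X) ∈ 𝓝 (1 : X) :=
    inter_mem hV' ((isOpen_level n).mem_nhds (one_mem _))
  obtain ⟨g, hgV, hgB⟩ : ∃ g : X, g ∈ (V ∩ V⁻¹) ∩ ((rho n).ker : Set X) ∧
      ∀ z ∈ B, ev g z ≠ z := by
    obtain ⟨g, hg⟩ := (hdense B).2.inter_nhds_nonempty hV''
    exact ⟨g, hg.2, hg.1⟩
  have hgn : ∀ z, E n (ev g z) z := (mem_ker_rho n g).1 hgV.2
  -- a level at which this is visible
  obtain ⟨N, hnN, hN⟩ : ∃ N : ℕ, n ≤ N ∧ ∀ z ∈ B, ¬ E N (ev g z) z := by
    have h1 : ∀ z : D, ∃ m : ℕ, z ∈ B → ¬ E m (ev g z) z := by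
      intro z
      by_contra hcon
      push Not at hcon
      exact hgB z (hcon 0).1 (eq_of_E fun m => (hcon m).2)
    choose k hk using h1
    refine ⟨max n (B.sup k), le_max_left _ _, ?_⟩
    intro z hz h
    apply hk z hz
    apply h.mono
    exact le_trans (Finset.le_sup (f := k) hz) (le_max_right _ _)
  refine ⟨N, ?_⟩
  intro s hs
  have ht : ∀ z, E N (ev (g⁻¹ * s * g) z) z := by
    intro z
    rw [ev_mul, ev_mul]
    have h1 := (ev_E g⁻¹ N _ _).2 (hs (ev g z))
    rw [ev_inv_self] at h1
    exact h1
  obtain ⟨b, hb1, hb2⟩ := exists_restr (g⁻¹ * s * g) N ht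
    {z | ∃ x ∈ B, E N z (ev g⁻¹ x)} (by
      rintro x y hxy ⟨w, hw, hxw⟩
      exact ⟨w, hw, hxy.symm.trans hxw⟩)
  have hbB : ∀ z ∈ B, ev b z = z := by
    intro z hz
    apply hb2
    rintro ⟨x, hx, hzx⟩
    have h1 : E n (ev g⁻¹ x) x := by
      have := hgn (ev g⁻¹ x)
      rw [ev_self_inv] at this
      exact this.symm
    have h2 : z = x := hn z hz x hx ((hzx.mono hnN).trans h1)
    subst h2
    have h3 := (ev_E g N _ _).2 hzx
    rw [ev_self_inv] at h3
    exact hN z hz h3
  have hbV := hB b hbB
  have hc : ∀ z ∈ B, ev ((g * b * g⁻¹)⁻¹ * s) z = z := by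
    intro z hz
    have h1 : ev (g * b * g⁻¹) z = ev s z := by
      rw [ev_mul, ev_mul, hb1 (ev g⁻¹ z) ⟨z, hz, E.refl _ _⟩]
      simp only [ev_mul, ev_self_inv]
    rw [ev_mul, ← h1, ev_inv_self]
  have hcV := hB _ hc
  have hginv : g⁻¹ ∈ V := hgV.1.2
  have := hVU hgV.1.1 hbV.1 hginv hcV.1
  have h5 : g * b * g⁻¹ * ((g * b * g⁻¹)⁻¹ * s) = s := by group
  rw [h5] at this
  exact this

/-- Compactness of the tree automorphism group in the profinite topology. -/
lemma exists_limit (u : Ultrafilter X) :
    ∃ g : X, ∀ n : ℕ, ∀ᶠ h : X in (u : Filter X), ∀ z, E n (ev h z) (ev g z) := by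
  classical
  have key : ∀ F : X → D, ∃ l : D, ∀ n : ℕ, ∀ᶠ h in (u : Filter X), E n (F h) l := by
    intro F
    refine ⟨fun i => decide (∀ᶠ h in (u : Filter X), F h i = true), ?_⟩
    intro n
    have h1 : ∀ i : ℕ, ∀ᶠ h in (u : Filter X),
        F h i = decide (∀ᶠ h in (u : Filter X), F h i = true) := by
      intro i
      by_cases hi : ∀ᶠ h in (u : Filter X), F h i = true
      · simp only [hi, decide_true]
      · have h2 : ∀ᶠ h in (u : Filter X), ¬ (F h i = true) := Ultrafilter.eventually_not.2 hi
        simp only [hi, decide_false]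
        filter_upwards [h2] with h hh
        simpa using hh
    have h3 : ∀ᶠ h in (u : Filter X), ∀ i ∈ Finset.range n,
        F h i = decide (∀ᶠ h in (u : Filter X), F h i = true) :=
      (Filter.eventually_all_finset (Finset.range n)).2 fun i _ => h1 i
    filter_upwards [h3] with h hh i hi
    exact hh i (Finset.mem_range.2 hi)
  choose L hL using fun z : D => key fun h => ev h z
  choose L' hL' using fun z : D => key fun h => ev h⁻¹ z
  have hll : ∀ z, L' (L z) = z := by
    intro z
    apply eq_of_E
    intro n
    obtain ⟨h, h1, h2⟩ := ((hL z n).and (hL' (L z) n)).exists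
    have h3 := (ev_E h⁻¹ n _ _).2 h1
    rw [ev_inv_self] at h3
    exact (h3.trans h2).symm
  have hrr : ∀ z, L (L' z) = z := by
    intro z
    apply eq_of_E
    intro n
    obtain ⟨h, h1, h2⟩ := ((hL' z n).and (hL (L' z) n)).exists
    have h3 := (ev_E h n _ _).2 h1
    rw [ev_self_inv] at h3
    exact (h3.trans h2).symm
  let g : Equiv.Perm D := ⟨L, L', hll, hrr⟩
  have hg : g ∈ X := by
    intro n a b
    obtain ⟨h, h1, h2⟩ := ((hL a n).and (hL b n)).exists
    change E n (L a) (L b) ↔ E n a b
    rw [← ev_E h n a b]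
    exact ⟨fun h3 => (h1.trans h3).trans h2.symm, fun h3 => (h1.symm.trans h3).trans h2⟩
  refine ⟨⟨g, hg⟩, ?_⟩
  intro n
  have h3 : ∀ᶠ h in (u : Filter X), ∀ w : Fin n → Bool, E n (ev h (ext n w)) (L (ext n w)) :=
    Filter.eventually_all.2 fun w => hL (ext n w) n
  filter_upwards [h3] with h hh z
  have h4 : E n (ev h z) (ev h (ext n (res n z))) := (ev_E h n _ _).2 (E_ext_res n z).symm
  have h5 : E n (ev ⟨g, hg⟩ (ext n (res n z))) (ev ⟨g, hg⟩ z) :=
    (ev_E ⟨g, hg⟩ n _ _).2 (E_ext_res n z)
  exact (h4.trans (hh (res n z))).trans h5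

/-- The main theorem: the image is closed. -/
theorem isClosed_range_of {Y : Type} [Group Y] [TopologicalSpace Y] [IsTopologicalGroup Y]
    [T2Space Y] (f : X →* Y) (hf : Function.Injective f)
    (hτ : ∀ U ∈ 𝓝 (1 : Y), ∃ B : Finset D, ∀ g : X, (∀ z ∈ B, ev g z = z) → f g ∈ U) :
    IsClosed (Set.range f) := by
  classical
  let σ : TopologicalSpace X := TopologicalSpace.induced f inferInstance
  have : IsTopologicalGroup X := topologicalGroup_induced f
  have hfc : Continuous f := continuous_induced_dom
  have : T2Space X := T2Space.of_injective_continuous hf hfc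
  have hτ' : ∀ U ∈ 𝓝 (1 : X), ∃ B : Finset D, ∀ g : X, (∀ z ∈ B, ev g z = z) → g ∈ U := by
    intro U hU
    rw [nhds_induced, map_one] at hU
    obtain ⟨O, hO, hOU⟩ := hU
    obtain ⟨B, hB⟩ := hτ O hO
    exact ⟨B, fun g hg => hOU (hB g hg)⟩
  refine isClosed_of_closure_subset fun y hy => ?_
  have hne : (comap f (𝓝 y)).NeBot := by
    rw [comap_neBot_iff_frequently]
    exact mem_closure_iff_frequently.1 hy
  let u : Ultrafilter X := Ultrafilter.of (comap f (𝓝 y))
  have hu : Tendsto f (u : Filter X) (𝓝 y) :=
    tendsto_comap.mono_left (Ultrafilter.of_le _)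
  obtain ⟨g, hg⟩ := exists_limit u
  have main : ∀ U ∈ 𝓝 (1 : X), ∀ᶠ h in (u : Filter X), g⁻¹ * h ∈ U := by
    intro U hU
    by_cases hno : ∀ z, ¬ IsOpen (W z : Set X)
    · obtain ⟨N, hN⟩ := profinite_case hτ' hno U hU
      filter_upwards [hg N] with h hh
      apply hN
      intro z
      have h1 := (ev_E g⁻¹ N _ _).2 (hh z)
      rw [ev_inv_self] at h1
      exact h1
    · push Not at hno
      obtain ⟨z0, hz0⟩ := hno
      have hopen : ∀ z, IsOpen (W z : Set X) := by
        intro z
        obtain ⟨k, hk⟩ := exists_move z z0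
        have h1 : (W z : Set X) = (fun g : X => k * g * k⁻¹) ⁻¹' (W z0 : Set X) := by
          ext g
          simp only [SetLike.mem_coe, mem_W, Set.mem_preimage, ev_mul]
          rw [← hk, ev_inv_self]
          exact (ev_injective k).eq_iff.symm
        rw [h1]
        exact hz0.preimage (by fun_prop)
      obtain ⟨B, hB⟩ := hτ' U hU
      have key : ∀ z, ∀ᶠ h in (u : Filter X), ev h z = ev g z := by
        intro z
        have h1 : (W z : Set X) ∈ 𝓝 (1 : X) := (hopen z).mem_nhds (one_mem _)
        rw [nhds_induced, map_one] at h1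
        obtain ⟨O, hO, hOW⟩ := h1
        have h2 : Tendsto (fun p : Y × Y => p.1⁻¹ * p.2) (𝓝 y ×ˢ 𝓝 y) (𝓝 1) := by
          rw [← nhds_prod_eq]
          have h3 : Continuous (fun p : Y × Y => p.1⁻¹ * p.2) := by fun_prop
          have h4 := h3.tendsto (y, y)
          simpa using h4
        have h5 := h2 hO
        rw [mem_map, mem_prod_same_iff] at h5
        obtain ⟨M, hM, hMO⟩ := h5
        have h6 : ∀ᶠ h in (u : Filter X), f h ∈ M := hu hM
        obtain ⟨h0, hh0⟩ := h6.exists
        have h7 : ∀ h : X, f h ∈ M → ev h z = ev h0 z := by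
          intro h hh
          have h8 : h⁻¹ * h0 ∈ (W z : Set X) := by
            apply hOW
            change f (h⁻¹ * h0) ∈ O
            rw [map_mul, map_inv]
            exact hMO (Set.mk_mem_prod hh hh0)
          have h9 : ev (h⁻¹ * h0) z = z := h8
          rw [ev_mul] at h9
          rw [← ev_self_inv h (ev h0 z), h9]
        have h10 : ev h0 z = ev g z := by
          apply eq_of_E
          intro n
          obtain ⟨h, h11, h12⟩ := (h6.and (hg n)).exists
          rw [← h7 h h11]
          exact h12 z
        filter_upwards [h6] with h hh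
        rw [h7 h hh, h10]
      have h13 : ∀ᶠ h in (u : Filter X), ∀ z ∈ B, ev h z = ev g z :=
        (Filter.eventually_all_finset B).2 fun z _ => key z
      filter_upwards [h13] with h hh
      apply hB
      intro z hz
      rw [ev_mul, hh z hz, ev_inv_self]
  have h14 : Tendsto (fun h => g⁻¹ * h) (u : Filter X) (𝓝 1) := fun U hU => main U hU
  have h15 : Tendsto (fun h : X => h) (u : Filter X) (𝓝 g) := by
    have h16 := h14.const_mul g
    simpa using h16
  have h17 : Tendsto f (u : Filter X) (𝓝 (f g)) := (hfc.tendsto g).comp h15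
  exact ⟨g, tendsto_nhds_unique h17 hu⟩

/-- The topology of pointwise convergence on the boundary, seen as a discrete set. -/
@[reducible] def tau : TopologicalSpace X := TopologicalSpace.induced ev Pi.topologicalSpace

lemma continuous_ev (z : D) : @Continuous X D tau _ (fun g => ev g z) := by
  let _ : TopologicalSpace X := tau
  exact (continuous_apply z).comp continuous_induced_dom

lemma tau_group : @IsTopologicalGroup X tau _ := by
  let _ : TopologicalSpace X := tau
  have hev : ∀ z, Continuous (fun g : X => ev g z) := continuous_ev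
  have hev2 : Continuous (fun p : X × D => ev p.1 p.2) :=
    continuous_prod_of_discrete_right.2 hev
  refine { continuous_mul := ?_, continuous_inv := ?_ }
  · refine continuous_induced_rng.2 (continuous_pi fun z => ?_)
    exact hev2.comp (continuous_fst.prodMk ((hev z).comp continuous_snd))
  · refine continuous_induced_rng.2 (continuous_pi fun z => ?_)
    rw [continuous_discrete_rng]
    intro w
    have h1 : (fun g : X => (ev ∘ fun a : X => a⁻¹) g z) ⁻¹' {w} =
        (fun g : X => ev g w) ⁻¹' {z} := by
      ext g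
      simp only [Set.mem_preimage, Set.mem_singleton_iff, Function.comp_apply]
      constructor
      · rintro rfl
        exact ev_self_inv g z
      · rintro rfl
        exact ev_inv_self g w
    rw [h1]
    exact (isOpen_discrete _).preimage (hev w)

lemma tau_t2 : @T2Space X tau := by
  let _ : TopologicalSpace X := tau
  exact T2Space.of_injective_continuous (f := (ev : X → D → D))
    (fun g h hgh => X_ext fun z => congrFun hgh z) continuous_induced_dom

lemma tau_nhds (U : Set X) (hU : U ∈ @nhds X tau 1) :
    ∃ B : Finset D, ∀ g : X, (∀ z ∈ B, ev g z = z) → g ∈ U := by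
  classical
  rw [nhds_induced] at hU
  obtain ⟨O, hO, hOU⟩ := hU
  rw [nhds_pi, Filter.mem_pi] at hO
  obtain ⟨I, hI, t, ht, htO⟩ := hO
  refine ⟨hI.toFinset, fun g hg => hOU (htO ?_)⟩
  intro z hz
  have h1 : ev g z = ev 1 z := hg z (hI.mem_toFinset.2 hz)
  rw [h1]
  exact mem_of_mem_nhds (ht z)

lemma tau_not_compact : ¬ @CompactSpace X tau := by
  let _ : TopologicalSpace X := tau
  intro hc
  let z0 : D := fun _ => false
  have h1 : IsCompact (Set.range fun g : X => ev g z0) := isCompact_range (continuous_ev z0)
  have h2 : (Set.range fun g : X => ev g z0) = Set.univ := by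
    apply Set.eq_univ_of_forall
    intro z
    obtain ⟨k, hk⟩ := exists_move z0 z
    exact ⟨k, hk⟩
  rw [h2] at h1
  have h3 : (Set.univ : Set D).Finite := isCompact_iff_finite.1 h1
  have h4 : Finite D := Set.finite_univ_iff.1 h3
  have h5 : Infinite (ℕ → Bool) := inferInstance
  exact h5.1 h4

/-- The compact group in which the group embeds: the product of the symmetric groups of all
levels, with its product topology. -/
abbrev K : Type := ∀ n : ℕ, Equiv.Perm (Fin n → Bool)

@[reducible] def topK : TopologicalSpace K :=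
  @Pi.topologicalSpace ℕ (fun n => Equiv.Perm (Fin n → Bool)) (fun _ => ⊥)

lemma K_facts : @IsTopologicalGroup K topK _ ∧ @CompactSpace K topK ∧ @T2Space K topK := by
  let _ : ∀ n : ℕ, TopologicalSpace (Equiv.Perm (Fin n → Bool)) := fun _ => ⊥
  have : ∀ n : ℕ, DiscreteTopology (Equiv.Perm (Fin n → Bool)) := fun _ => ⟨rfl⟩
  refine ⟨?_, ?_, ?_⟩
  · infer_instance
  · infer_instance
  · infer_instance

/-- The embedding in the compact group. -/
def toK : X →* K := MonoidHom.pi rho

lemma toK_injective : Function.Injective toK := by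
  rw [injective_iff_map_eq_one]
  intro g hg
  apply X_ext
  intro z
  rw [ev_one]
  apply eq_of_E
  intro n
  have h1 : g ∈ (rho n).ker := by
    rw [MonoidHom.mem_ker]
    exact congrFun hg n
  exact (mem_ker_rho n g).1 h1 z

lemma toK_continuous : @Continuous X K tau topK toK := by
  let _ : TopologicalSpace X := tau
  let _ : ∀ n : ℕ, TopologicalSpace (Equiv.Perm (Fin n → Bool)) := fun _ => ⊥
  have : ∀ n : ℕ, DiscreteTopology (Equiv.Perm (Fin n → Bool)) := fun _ => ⟨rfl⟩
  refine continuous_pi fun n => ?_
  change Continuous (fun g => rho n g)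
  rw [continuous_discrete_rng]
  intro p
  have h1 : (fun g : X => rho n g) ⁻¹' {p} =
      ⋂ w : Fin n → Bool, (fun g : X => ev g (ext n w)) ⁻¹' {z | res n z = p w} := by
    ext g
    simp only [Set.mem_preimage, Set.mem_singleton_iff, Set.mem_iInter, Set.mem_ofPred_eq]
    constructor
    · rintro rfl w
      rfl
    · intro h
      ext1 w
      exact h w
  rw [h1]
  exact isOpen_iInter_of_finite fun w => (isOpen_discrete _).preimage (continuous_ev _)

/-- The negation of the preceding statement: Every Hausdorff topological group that injects continuously into some compact group, and whose image under every continuous injective homomorphism into a Hausdorff group is closed, is compact. -/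
theorem result :
    ¬ (∀ (X : Type) [Group X] [TopologicalSpace X] [IsTopologicalGroup X] [T2Space X],
      (∀ (Y : Type) [Group Y] [TopologicalSpace Y] [IsTopologicalGroup Y] [T2Space Y]
          (f : X →* Y), Continuous f → Function.Injective f → IsClosed (Set.range f)) →
      (∃ (K : Type) (_ : Group K) (_ : TopologicalSpace K) (_ : IsTopologicalGroup K)
          (_ : CompactSpace K) (_ : T2Space K) (f : X →* K),
          Continuous f ∧ Function.Injective f) →
      CompactSpace X) := by
  intro H
  apply tau_not_compact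
  refine @H X _ tau tau_group tau_t2 ?_ ?_
  · intro Y _ _ _ _ f hfc hfi
    apply isClosed_range_of f hfi
    intro U hU
    apply tau_nhds
    let _ : TopologicalSpace X := tau
    have h1 : f ⁻¹' U ∈ 𝓝 (1 : X) := by
      apply hfc.continuousAt.preimage_mem_nhds
      rw [map_one]
      exact hU
    exact h1
  · exact ⟨K, inferInstance, topK, K_facts.1, K_facts.2.1, K_facts.2.2, toK, toK_continuous,
      toK_injective⟩

end Pool.Agent.S02600
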