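-- Proof of the frozen statement S03083.
import Pool.Statements.S03083
import Pool.Agent.Lib.MP_cd53cf_al.Main

set_option autoImplicit false
open Pool Pool.MP_cd53cf_al

namespace Pool.Agent.S03083

/-- Over any artin algebra, an indecomposable pure-injective module that is the only such module (up to isomorphism) in some rep-Zariski basic open set given by a pp-pair has finite length over its endomorphism ring. -/
theorem result :
  ∀ (k R : Type) [CommRing k] [IsArtinianRing k] [Ring R] [Algebra k R] [Module.Finite k R]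
    (N : Type) [AddCommGroup N] [Module R N],
    (Nontrivial N ∧ ∀ A B : Submodule R N, IsCompl A B → A = ⊥ ∨ B = ⊥) →
    (∀ (I J : Type) (a : J → I →₀ R) (b : J → N),
      (∀ F : Finset J, ∃ x : I → N, ∀ j ∈ F, ((a j).sum fun i r => r • x i) = b j) →
      ∃ x : I → N, ∀ j, ((a j).sum fun i r => r • x i) = b j) →
    (∃ (n m p m' p' : ℕ) (A : Fin m → Fin n → R) (B : Fin m → Fin p → R)
        (C : Fin m' → Fin n → R) (D : Fin m' → Fin p' → R),
      (∀ x : Fin n → N,
        (∃ y : Fin p → N, ∀ i, (∑ j, A i j • x j) + ∑ l, B i l • y l = 0) →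
        (∃ y : Fin p' → N, ∀ i, (∑ j, C i j • x j) + ∑ l, D i l • y l = 0)) ∧
      ∀ (M : Type) [AddCommGroup M] [Module R M],
        (Nontrivial M ∧ ∀ A' B' : Submodule R M, IsCompl A' B' → A' = ⊥ ∨ B' = ⊥) →
        (∀ (I J : Type) (a : J → I →₀ R) (b : J → M),
          (∀ F : Finset J, ∃ x : I → M, ∀ j ∈ F, ((a j).sum fun i r => r • x i) = b j) →
          ∃ x : I → M, ∀ j, ((a j).sum fun i r => r • x i) = b j) →
        (∀ x : Fin n → M,
          (∃ y : Fin p → M, ∀ i, (∑ j, A i j • x j) + ∑ l, B i l • y l = 0) →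
          (∃ y : Fin p' → M, ∀ i, (∑ j, C i j • x j) + ∑ l, D i l • y l = 0)) →
        Nonempty (M ≃ₗ[R] N)) →
    IsFiniteLength (Module.End R N) N := by
  intro k R _ _ _ _ _ N _ _ hindec hac hex
  obtain ⟨n, m, p, m', p', A, B, C, D, hN, huniq⟩ := hex
  obtain ⟨φ, hφ⟩ := Pool.Agent.RZ.exists_matrix A B
  obtain ⟨ψ, hψ⟩ := Pool.Agent.RZ.exists_matrix C D
  refine Pool.Agent.RZ.finite_endolength (k := k) φ ψ ⟨hindec, hac, ?_, ?_⟩
  · intro v hv
    rw [hφ] at hv
    rw [hψ]
    exact hN v hv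
  · intro M _ _ hM1 hM2 hM3
    refine huniq M hM1 hM2 ?_
    intro x hx
    rw [← hφ] at hx
    rw [← hψ]
    exact hM3 x hx

end Pool.Agent.S03083
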