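import Pool.Statements.S03090
import Pool.Agent.Lib.MP_cdb312_al.Final
-- import your own Pool.Agent.* helpers here

set_option autoImplicit false
open Pool Pool.MP_cdb312_al

namespace Pool.Agent.S03090

/-- The negation of the preceding statement: There is l such that every finitely presented soluble group has a finite-index subgroup with a normal series of length l whose successive factors are all nilpotent. -/
theorem result :
    ¬ (∃ l : ℕ, ∀ (G : Type) [Group G], IsSolvable G →
      (∃ (n : ℕ) (φ : FreeGroup (Fin n) →* G), Function.Surjective φ ∧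
        ∃ S : Finset (FreeGroup (Fin n)),
          Subgroup.normalClosure (↑S : Set (FreeGroup (Fin n))) = φ.ker) →
      ∃ H : Subgroup G, H.index ≠ 0 ∧
        ∃ K : ℕ → Subgroup G, K 0 = ⊥ ∧ K l = H ∧
          (∀ i, K i ≤ H) ∧
          (∀ i, ∀ h ∈ H, ∀ k ∈ K i, h * k * h⁻¹ ∈ K i) ∧
          ∀ i, i < l → K i ≤ K (i + 1) ∧
            ∃ c : ℕ, ∃ L : ℕ → Subgroup G, L 0 = K (i + 1) ∧
              (∀ j, L (j + 1) = ⁅L j, K (i + 1)⁆) ∧ L c ≤ K i) := by
  rintro ⟨l, hl⟩
  obtain ⟨E, _, _, C, -, hS, p, -, hDD⟩ := Pool.Agent.MP_cdb312_al.levels l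
  obtain ⟨H, hH, K, h0, hKl, -, hnorm, hnil⟩ := hl _ hS (Pool.Agent.MP_cdb312_al.fp_form C)
  obtain ⟨y, hy, e, hEv, he, -⟩ := hDD H hH (fun i => K (l - i)) (by simpa using hKl)
    (fun i _ h hh k hk => hnorm _ h hh k hk) (fun i hi => by
      obtain ⟨-, c, L, hL0, hL, hLc⟩ := hnil (l - (i + 1)) (by omega)
      have e1 : l - (i + 1) + 1 = l - i := by omega
      rw [e1] at hL0 hL
      exact ⟨c, L, hL0, hL, hLc⟩)
  simp only [Nat.sub_self] at hy
  rw [h0, Subgroup.mem_bot] at hy
  subst hy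
  exact he (hEv.unique Pool.Agent.MP_cdb312_al.Ev_one)

end Pool.Agent.S03090
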