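/-
Frozen statement S03180 (the negation, problem MP_d4d493_al).

Counterexample: `A = ℂ((t))`, `s : A → A` the automorphism `t ↦ 2 t`, and the Lie algebra
`L = A × A` with bracket `[(f, a), (g, b)] = (0, f s(g) - s(f) g)`.
It is nilpotent of index 2, its centre is `0 × A`, the centralizer of a non-central `(f, a)` is
`ℂ f × A` (so it is one dimensional modulo the centre), because the fixed field of `s` is `ℂ`.
Every ideal `I` of finite codimension contains the centre: for `g` in the projection `R` of `I`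
and `f` in `A` we have `f s(g) ≡ s(f) g` modulo `J = {a : (0, a) ∈ I}`; using this twice on
`x s(g₁) s(g₂)` we get `s(x) (s²(g₁) g₂ - s²(g₂) g₁) ∈ J` for all `x`, and the second factor is
nonzero when `g₁ / g₂` is not constant, so that `J = A`.
-/
import Mathlib
import Pool.Statements.S03180
-- import your own Pool.Agent.* helpers here

set_option autoImplicit false
open Pool Pool.MP_d4d493_al

namespace Pool.Agent.S03180


open HahnSeries

/-- the field of Laurent series -/
abbrev A : Type := HahnSeries ℤ ℂ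

/-- the scaling endomorphism `t ↦ c t` on coefficient level -/
noncomputable def scaleFun (c : ℂ) (f : A) : A where
  coeff := fun n => c ^ n * f.coeff n
  isPWO_support' := f.isPWO_support.mono (fun n hn => by
    simp only [Function.mem_support, ne_eq, mul_eq_zero, not_or] at hn
    exact hn.2)

theorem scaleFun_coeff (c : ℂ) (f : A) (n : ℤ) :
    (scaleFun c f).coeff n = c ^ n * f.coeff n := rfl

theorem scaleFun_support (c : ℂ) (hc : c ≠ 0) (f : A) : (scaleFun c f).support = f.support := by
  ext n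
  simp [scaleFun_coeff, hc, zpow_ne_zero]

noncomputable def scale (c : ℂ) (hc : c ≠ 0) : A →+* A where
  toFun := scaleFun c
  map_one' := by
    ext n
    rw [scaleFun_coeff, HahnSeries.coeff_one]
    split_ifs with h
    · simp [h]
    · simp
  map_mul' := fun f g => by
    ext n
    rw [scaleFun_coeff, HahnSeries.coeff_mul, HahnSeries.coeff_mul, Finset.mul_sum]
    simp only [scaleFun_support c hc]
    refine Finset.sum_congr rfl fun ij hij => ?_
    rw [Finset.mem_antidiagonal] at hij
    rw [scaleFun_coeff, scaleFun_coeff, ← hij.2.2, zpow_add₀ hc]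
    ring
  map_zero' := by
    ext n
    simp [scaleFun_coeff]
  map_add' := fun f g => by
    ext n
    simp [scaleFun_coeff, mul_add]

theorem scale_coeff (c : ℂ) (hc : c ≠ 0) (f : A) (n : ℤ) :
    (scale c hc f).coeff n = c ^ n * f.coeff n := rfl

/-- the automorphism `t ↦ 2 t` -/
noncomputable def s : A →+* A := scale 2 two_ne_zero

theorem s_coeff (f : A) (n : ℤ) : (s f).coeff n = 2 ^ n * f.coeff n := rfl

theorem s_surj (f : A) : ∃ g, s g = f := by
  refine ⟨scale (2⁻¹) (inv_ne_zero two_ne_zero) f, ?_⟩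
  ext n
  rw [s_coeff, scale_coeff, ← mul_assoc, ← mul_zpow]
  simp

theorem s_smul (c : ℂ) (f : A) : s (c • f) = c • s f := by
  ext n
  simp only [s_coeff, HahnSeries.coeff_smul, smul_eq_mul]
  ring

theorem fixed_of_s (f : A) (h : s f = f) : ∃ c : ℂ, f = c • (1 : A) := by
  refine ⟨f.coeff 0, ?_⟩
  ext n
  simp only [HahnSeries.coeff_smul, HahnSeries.coeff_one, smul_eq_mul]
  split_ifs with hn
  · simp [hn]
  · have h1 : (2 : ℂ) ^ n * f.coeff n = f.coeff n := by
      rw [← s_coeff, h]
    have h2 : ((2 : ℂ) ^ n - 1) * f.coeff n = 0 := by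
      rw [sub_mul, h1]; ring
    rcases mul_eq_zero.mp h2 with h3 | h3
    · exfalso
      have h4 : (2 : ℂ) ^ n = 1 := sub_eq_zero.mp h3
      have h5 : ((2 : ℝ) ^ n : ℝ) = 1 := by
        have := congrArg norm h4
        rw [norm_zpow] at this
        simpa using this
      rw [zpow_eq_one_iff_right₀ (by norm_num) (by norm_num)] at h5
      exact hn h5
    · rw [h3]; simp

theorem fixed_of_ss (f : A) (h : s (s f) = f) : ∃ c : ℂ, f = c • (1 : A) := by
  refine ⟨f.coeff 0, ?_⟩
  ext n
  simp only [HahnSeries.coeff_smul, HahnSeries.coeff_one, smul_eq_mul]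
  split_ifs with hn
  · simp [hn]
  · have h1 : (2 : ℂ) ^ n * ((2 : ℂ) ^ n * f.coeff n) = f.coeff n := by
      rw [← s_coeff, ← s_coeff, h]
    have h2 : (((2 : ℂ) ^ n) * ((2 : ℂ) ^ n) - 1) * f.coeff n = 0 := by
      rw [sub_mul, mul_assoc, h1]; ring
    rcases mul_eq_zero.mp h2 with h3 | h3
    · exfalso
      have h4 : (2 : ℂ) ^ (n + n) = 1 := by
        rw [zpow_add₀ two_ne_zero]; exact sub_eq_zero.mp h3
      have h5 : ((2 : ℝ) ^ (n + n) : ℝ) = 1 := by
        have := congrArg norm h4
        rw [norm_zpow] at this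
        simpa using this
      rw [zpow_eq_one_iff_right₀ (by norm_num) (by norm_num)] at h5
      omega
    · rw [h3]; simp

/-- The Lie algebra `L = A × A`, with bracket `[(f,a),(g,b)] = (0, f s(g) - s(f) g)`. -/
@[ext] structure L : Type where
  fst : A
  snd : A

namespace L

noncomputable def equiv : L ≃ A × A where
  toFun := fun x => (x.fst, x.snd)
  invFun := fun x => ⟨x.1, x.2⟩
  left_inv := fun _ => rfl
  right_inv := fun _ => rfl

noncomputable instance : AddCommGroup L := equiv.addCommGroup
noncomputable instance : Module ℂ L := equiv.module ℂ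

theorem add_fst (x y : L) : (x + y).fst = x.fst + y.fst := rfl
theorem add_snd (x y : L) : (x + y).snd = x.snd + y.snd := rfl
theorem zero_fst : (0 : L).fst = 0 := rfl
theorem zero_snd : (0 : L).snd = 0 := rfl
theorem smul_fst (c : ℂ) (x : L) : (c • x).fst = c • x.fst := rfl
theorem smul_snd (c : ℂ) (x : L) : (c • x).snd = c • x.snd := rfl

noncomputable instance : Bracket L L where
  bracket := fun x y => ⟨0, x.fst * s y.fst - s x.fst * y.fst⟩

theorem bracket_fst (x y : L) : (⁅x, y⁆ : L).fst = 0 := rfl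
theorem bracket_snd (x y : L) : (⁅x, y⁆ : L).snd = x.fst * s y.fst - s x.fst * y.fst := rfl

noncomputable instance : LieRing L where
  add_lie := fun x y z => by
    ext1
    · simp [bracket_fst, add_fst]
    · simp only [bracket_snd, add_fst, add_snd, map_add]; ring
  lie_add := fun x y z => by
    ext1
    · simp [bracket_fst, add_fst]
    · simp only [bracket_snd, add_fst, add_snd, map_add]; ring
  lie_self := fun x => by
    ext1
    · simp [bracket_fst, zero_fst]
    · simp only [bracket_snd, zero_snd]; ring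
  leibniz_lie := fun x y z => by
    ext1
    · simp [bracket_fst, add_fst]
    · simp only [bracket_snd, bracket_fst, add_snd, map_zero]; ring

noncomputable instance : LieAlgebra ℂ L where
  lie_smul := fun c x y => by
    ext1
    · simp [bracket_fst, smul_fst]
    · simp only [bracket_snd, smul_fst, smul_snd, s_smul, smul_sub]
      simp only [← HahnSeries.C_mul_eq_smul]
      ring

noncomputable def fstL : L →ₗ[ℂ] A where
  toFun := fun x => x.fst
  map_add' := fun _ _ => rfl
  map_smul' := fun _ _ => rfl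

theorem triple (x y z : L) : ⁅x, ⁅y, z⁆⁆ = 0 := by
  ext1
  · simp [bracket_fst, zero_fst]
  · simp [bracket_snd, bracket_fst, zero_snd]

end L

open L

theorem ratio {f g : A} (hf : f ≠ 0) (h : s (s g) * f = s (s f) * g) :
    ∃ c : ℂ, g = c • f := by
  have hsf : s (s f) ≠ 0 := by
    intro h0
    apply hf
    have h1 := s.injective (by simpa using h0 : s (s f) = s 0)
    exact s.injective (by simpa using h1 : s f = s 0)
  obtain ⟨c, hc⟩ := fixed_of_ss (g / f) (by
    rw [map_div₀, map_div₀]
    rw [div_eq_div_iff hsf hf, h]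
    ring)
  refine ⟨c, ?_⟩
  rw [div_eq_iff hf] at hc
  rw [hc, ← HahnSeries.C_mul_eq_smul, ← HahnSeries.C_mul_eq_smul, mul_one]

theorem ratio1 {f g : A} (hf : f ≠ 0) (h : f * s g - s f * g = 0) :
    ∃ c : ℂ, g = c • f := by
  have hsf : s f ≠ 0 := by
    intro h0
    apply hf
    exact s.injective (by simpa using h0 : s f = s 0)
  obtain ⟨c, hc⟩ := fixed_of_s (g / f) (by
    rw [map_div₀, div_eq_div_iff hsf hf]
    linear_combination h)
  refine ⟨c, ?_⟩
  rw [div_eq_iff hf] at hc
  rw [hc, ← HahnSeries.C_mul_eq_smul, ← HahnSeries.C_mul_eq_smul, mul_one]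

theorem key (I : LieIdeal ℂ L) (hI : FiniteDimensional ℂ (L ⧸ (I : Submodule ℂ L))) (y : A) :
    (⟨0, y⟩ : L) ∈ I := by
  -- relation (*)
  have hstar : ∀ (f : A) (g : L), g ∈ I → (⟨0, f * s g.fst - s f * g.fst⟩ : L) ∈ I := by
    intro f g hg
    exact lie_mem_right ℂ L I ⟨f, 0⟩ g hg
  have hrel : ∀ (x : A) (g₁ g₂ : L), g₁ ∈ I → g₂ ∈ I →
      (⟨0, s x * (s (s g₁.fst) * g₂.fst - s (s g₂.fst) * g₁.fst)⟩ : L) ∈ I := by
    intro x g₁ g₂ h₁ h₂
    have e1 := hstar (x * s g₁.fst) g₂ h₂
    have e2 := hstar (x * s g₂.fst) g₁ h₁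
    have e3 := I.sub_mem e2 e1
    have e4 : (⟨0, s x * (s (s g₁.fst) * g₂.fst - s (s g₂.fst) * g₁.fst)⟩ : L) =
        ⟨0, x * s g₂.fst * s g₁.fst - s (x * s g₂.fst) * g₁.fst⟩ -
        ⟨0, x * s g₁.fst * s g₂.fst - s (x * s g₁.fst) * g₂.fst⟩ := by
      ext1
      · show (0 : A) = 0 - 0
        simp
      · show _ = (x * s g₂.fst * s g₁.fst - s (x * s g₂.fst) * g₁.fst) -
          (x * s g₁.fst * s g₂.fst - s (x * s g₁.fst) * g₂.fst)
        simp only [map_mul]
        ring
    rw [e4]
    exact e3
  -- find `g₁, g₂` in `I` with nonzero determinant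
  obtain ⟨g₁, g₂, h₁, h₂, hD⟩ : ∃ g₁ g₂ : L, g₁ ∈ I ∧ g₂ ∈ I ∧
      s (s g₁.fst) * g₂.fst - s (s g₂.fst) * g₁.fst ≠ 0 := by
    by_contra hcon
    push Not at hcon
    -- the projection of `I` to `A`
    let R : Submodule ℂ A := Submodule.map fstL (I : Submodule ℂ L)
    have hR : ∃ g : A, R ≤ Submodule.span ℂ {g} := by
      by_cases h0 : ∃ g₂ : L, g₂ ∈ I ∧ g₂.fst ≠ 0
      · obtain ⟨g₂, h₂, hne⟩ := h0
        refine ⟨g₂.fst, ?_⟩
        rintro _ ⟨g₁, h₁, rfl⟩
        have := hcon g₁ g₂ h₁ h₂
        obtain ⟨c, hc⟩ := ratio hne (sub_eq_zero.mp this)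
        rw [Submodule.mem_span_singleton]
        exact ⟨c, hc.symm⟩
      · push Not at h0
        refine ⟨0, ?_⟩
        rintro _ ⟨g₁, h₁, rfl⟩
        have : fstL g₁ = 0 := h0 g₁ h₁
        rw [this]
        exact Submodule.zero_mem _
    obtain ⟨g, hg⟩ := hR
    have : FiniteDimensional ℂ R := Submodule.finiteDimensional_of_le hg
    have : FiniteDimensional ℂ (A ⧸ R) := by
      have hs : Function.Surjective
          (Submodule.mapQ (I : Submodule ℂ L) R fstL (Submodule.le_comap_map _ _)) := by
        intro q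
        obtain ⟨a, rfl⟩ := Submodule.Quotient.mk_surjective R q
        exact ⟨Submodule.Quotient.mk (⟨a, 0⟩ : L), rfl⟩
      exact Module.Finite.of_surjective _ hs
    have : FiniteDimensional ℂ A := Module.Finite.of_submodule_quotient R
    have hli : LinearIndependent ℂ (fun n : ℤ => (HahnSeries.single n (1 : ℂ) : A)) := by
      rw [linearIndependent_iff']
      intro t c hc i hi
      have h1 := congrArg (fun f : A => f.coeff i) hc
      simp only [HahnSeries.coeff_sum, HahnSeries.coeff_smul, HahnSeries.coeff_zero] at h1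
      rw [Finset.sum_eq_single i] at h1
      · simpa using h1
      · intro j _ hj
        rw [HahnSeries.coeff_single_of_ne (Ne.symm hj)]
        simp
      · intro h; exact absurd hi h
    exact Module.Finite.not_linearIndependent_of_infinite _ hli
  obtain ⟨x, hx⟩ := s_surj (y / (s (s g₁.fst) * g₂.fst - s (s g₂.fst) * g₁.fst))
  have h3 := hrel x g₁ g₂ h₁ h₂
  rw [hx, div_mul_cancel₀ _ hD] at h3
  exact h3


/-- The negation of the preceding statement: Let L be a 2-step nilpotent Lie algebra over an algebraically closed field, where each non-central element's centralizer lies in a finite-dimensional subspace plus the center. Then every nonzero element lies outside some Lie ideal of finite codimension. -/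
theorem result :
    ¬ (∀ (K : Type) (L : Type) [Field K] [IsAlgClosed K] [LieRing L] [LieAlgebra K L],
      (∀ x y z : L, ⁅x, ⁅y, z⁆⁆ = 0) →
      (∀ x : L, (∃ y : L, ⁅x, y⁆ ≠ 0) →
        ∃ W : Submodule K L, FiniteDimensional K W ∧
          ∀ y : L, ⁅x, y⁆ = 0 →
            ∃ w ∈ W, ∃ z : L, (∀ u : L, ⁅z, u⁆ = 0) ∧ y = w + z) →
      ∀ x : L, x ≠ 0 →
        ∃ I : LieIdeal K L, x ∉ I ∧ FiniteDimensional K (L ⧸ (I : Submodule K L))) := by
  intro H
  obtain ⟨I, hI, hfin⟩ := H ℂ L L.triple (by
    intro x hx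
    refine ⟨Submodule.span ℂ {(⟨x.fst, 0⟩ : L)}, inferInstance, ?_⟩
    intro y hy
    have hxf : x.fst ≠ 0 := by
      intro h0
      obtain ⟨y, hy⟩ := hx
      apply hy
      ext1
      · rfl
      · simp [bracket_snd, zero_snd, h0]
    have h1 : x.fst * s y.fst - s x.fst * y.fst = 0 := congrArg L.snd hy
    obtain ⟨c, hc⟩ := ratio1 hxf h1
    refine ⟨⟨y.fst, 0⟩, ?_, ⟨0, y.snd⟩, ?_, ?_⟩
    · rw [Submodule.mem_span_singleton]
      refine ⟨c, ?_⟩
      ext1
      · exact hc.symm
      · simp [smul_snd]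
    · intro u
      ext1
      · rfl
      · simp [bracket_snd, zero_snd]
    · ext1
      · simp [add_fst]
      · simp [add_snd]) ⟨0, 1⟩ (by
    intro h
    have : (1 : A) = 0 := congrArg L.snd h
    exact one_ne_zero this)
  exact hI (key I hfin 1)

end Pool.Agent.S03180
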