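import Pool.Statements.S03247
import Pool.Agent.Lib.MP_db08e8_al.Model

set_option autoImplicit false
open Filter Topology
open Pool Pool.MP_db08e8_al

namespace Pool.Agent.S03247

/-- There is a field with a Hausdorff field topology that is not locally bounded (no neighborhood of 0 is bounded), such that every Hausdorff field topology coarser than it equals it. -/
theorem result :
    ∃ (K : Type) (_ : Field K) (t : TopologicalSpace K),
      IsTopologicalDivisionRing K ∧ T2Space K ∧
      (¬ ∃ U ∈ 𝓝 (0 : K), ∀ V ∈ 𝓝 (0 : K), ∃ W ∈ 𝓝 (0 : K),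
          ∀ w ∈ W, ∀ u ∈ U, w * u ∈ V) ∧
      ∀ t' : TopologicalSpace K,
        @IsTopologicalDivisionRing K _ t' → @T2Space K t' → t ≤ t' → t' = t := by
  exact ⟨Pool.Agent.MP_db08e8_al.K, inferInstance,
    Pool.Agent.MP_db08e8_al.abstract_result Pool.Agent.MP_db08e8_al.model⟩

end Pool.Agent.S03247
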