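import Pool.Statements.S03346
import Pool.Agent.Lib.MP_e2b313_al.Fin

set_option autoImplicit false
open Pool Pool.MP_e2b313_al

namespace Pool.Agent.S03346

/-- The negation of the preceding statement: Every subgroup of isometries of a geodesic Gromov-hyperbolic metric space that contains two independent loxodromic isometries (general type) has a maximal proper subgroup. -/
theorem result :
    ¬ (∀ (S : Type) [MetricSpace S],
      (∀ x y : S, ∃ γ : ℝ → S, γ 0 = x ∧ γ (dist x y) = y ∧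
          ∀ s ∈ Set.Icc (0:ℝ) (dist x y), ∀ t ∈ Set.Icc (0:ℝ) (dist x y),
            dist (γ s) (γ t) = |s - t|) →
      (∃ δ : ℝ, ∀ x y z w : S,
          min ((dist w x + dist w y - dist x y) / 2) ((dist w y + dist w z - dist y z) / 2) - δ
            ≤ (dist w x + dist w z - dist x z) / 2) →
      ∀ G : Subgroup (S ≃ᵢ S),
        (∃ g ∈ G, ∃ h ∈ G, ∃ x : S, ∃ c : ℝ, 0 < c ∧
          (∀ n : ℕ, c * (n : ℝ) ≤ dist x ((g ^ n) x) ∧ c * (n : ℝ) ≤ dist x ((h ^ n) x)) ∧
          ∃ C : ℝ, ∀ n m : ℤ,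
            (dist x ((g ^ n) x) + dist x ((h ^ m) x) - dist ((g ^ n) x) ((h ^ m) x)) / 2 ≤ C) →
        ∃ M : Subgroup G, IsCoatom M) := by
  intro H
  obtain ⟨G, hG, hno⟩ := Pool.Agent.NoMax.final
  obtain ⟨M, hM⟩ := H Pool.Agent.NoMax.HS Pool.Agent.NoMax.HS_geodesic
    ⟨Real.log 48, Pool.Agent.NoMax.HS_hyp⟩ G hG
  exact hno M hM

end Pool.Agent.S03346
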