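import Pool.Statements.S03577
-- import your own Pool.Agent.* helpers here
import Pool.Agent.Lib.MP_f6e9c2_al.PropB

set_option autoImplicit false
open Pool Pool.MP_f6e9c2_al

namespace Pool.Agent.S03577

/-- There exist a field K, a finite set S of Lie identities over K, and n such that the Lie variety defined by all n-variable identities of the variety defined by S cannot be defined by any finite set of identities. -/
theorem result :
    ∃ (K : Type) (_ : Field K) (S : Finset (FreeLieAlgebra K ℕ)) (n : ℕ),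
      ¬ ∃ T : Finset (FreeLieAlgebra K ℕ),
        ∀ (L : Type) [LieRing L] [LieAlgebra K L],
          (∀ g ∈ T, ∀ φ : ℕ → L, FreeLieAlgebra.lift K φ g = 0) ↔
          (∀ g ∈ Set.range
              (⇑(FreeLieAlgebra.lift K (fun i : Fin n => FreeLieAlgebra.of K (i : ℕ)))),
            (∀ (M : Type) [LieRing M] [LieAlgebra K M],
              (∀ h ∈ S, ∀ ψ : ℕ → M, FreeLieAlgebra.lift K ψ h = 0) →
                ∀ ψ : ℕ → M, FreeLieAlgebra.lift K ψ g = 0) →
            ∀ φ : ℕ → L, FreeLieAlgebra.lift K φ g = 0) := by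
  obtain ⟨Λ, b, hb, hC, hΛ⟩ := MP_f6e9c2_al_work.exists_functionals
  refine ⟨ZMod 3, inferInstance, {MP_f6e9c2_al_work.hh (FreeLieAlgebra.of (ZMod 3))}, 2, ?_⟩
  exact MP_f6e9c2_al_work.assembly (ZMod 3) Λ
    (fun f hf => MP_f6e9c2_al_work.propA Λ b hb hC hΛ f hf)
    (fun s0 => ⟨max s0 1, le_max_left _ _,
      MP_f6e9c2_al_work.propB Λ b hb hΛ (max s0 1) (le_max_right _ _)⟩)
    hC

end Pool.Agent.S03577
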