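import Pool.Statements.S03691
import Pool.Agent.Lib.MP_03b26c_an.RedE

set_option autoImplicit false
open Pool Pool.MP_03b26c_an

namespace Pool.Agent.S03691

/-- For every planar quadrilateral (two triangles glued along an interior diagonal), its first nonzero Neumann eigenvalue, defined via the Rayleigh quotient, times its area is at most that eigenvalue of the unit square. -/
theorem result :
    ∀ μ : Set (EuclideanSpace ℝ (Fin 2)) → ℝ,
      (∀ Ω : Set (EuclideanSpace ℝ (Fin 2)),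
        μ Ω = sInf {r : ℝ | ∃ f : EuclideanSpace ℝ (Fin 2) → ℝ,
          ContDiff ℝ (⊤ : ℕ∞) f ∧ (∫ x in Ω, f x) = 0 ∧ 0 < (∫ x in Ω, f x ^ 2) ∧
          r = (∫ x in Ω, ‖fderiv ℝ f x‖ ^ 2) / (∫ x in Ω, f x ^ 2)}) →
      ∀ a b c d : EuclideanSpace ℝ (Fin 2),
        ((b 0 - a 0) * (c 1 - a 1) - (b 1 - a 1) * (c 0 - a 0)) *
          ((d 0 - a 0) * (c 1 - a 1) - (d 1 - a 1) * (c 0 - a 0)) < 0 →
        μ (interior (convexHull ℝ {a, b, c} ∪ convexHull ℝ {a, c, d})) *
            (MeasureTheory.volume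
              (interior (convexHull ℝ {a, b, c} ∪ convexHull ℝ {a, c, d}))).toReal ≤
          μ {x : EuclideanSpace ℝ (Fin 2) | 0 < x 0 ∧ x 0 < 1 ∧ 0 < x 1 ∧ x 1 < 1} := by
  intro μ hμ a b c d h
  have h1 := Pool.Agent.Lib.MP_03b26c_an.quad_upper a b c d h
  have h2 := Pool.Agent.Lib.MP_03b26c_an.square_lower
  rw [hμ, hμ]
  exact le_trans h1 h2

end Pool.Agent.S03691
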