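import Pool.Statements.S03718
import Pool.Agent.Lib.MP_05e272_an.Final
import Pool.Agent.Lib.MP_05e272_an.Assembly
import Pool.Agent.Lib.MP_05e272_an.GadgetOf
import Pool.Agent.Lib.MP_05e272_an.WeightsFin
import Pool.Agent.Lib.MP_05e272_an.GeoStep
import Pool.Agent.Lib.MP_05e272_an.SepStep
import Pool.Agent.Lib.MP_05e272_an.LowStep

set_option autoImplicit false
open Pool Pool.MP_05e272_an

namespace Pool.Agent.S03718

/-- The negation of the preceding statement: For every open connected D in ℂ and points z_j in D, if there are uniformly bounded holomorphic F_j on D with F_j(z_j)=1 and F_j(z_k)=0 for k≠j, then every bounded sequence is interpolated at the z_j by a bounded holomorphic function on D. -/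
theorem result :
    ¬ (∀ (D : Set ℂ), IsOpen D → IsConnected D →
      ∀ (z : ℕ → ℂ), (∀ j, z j ∈ D) →
        (∃ C : ℝ, ∃ F : ℕ → ℂ → ℂ,
            (∀ j, DifferentiableOn ℂ (F j) D) ∧
            (∀ j, ∀ w ∈ D, ‖F j w‖ ≤ C) ∧
            (∀ j, F j (z j) = 1) ∧
            (∀ j k, k ≠ j → F j (z k) = 0)) →
        ∀ α : ℕ → ℂ, (∃ M : ℝ, ∀ j, ‖α j‖ ≤ M) →
          ∃ G : ℂ → ℂ, DifferentiableOn ℂ G D ∧
            (∃ M : ℝ, ∀ w ∈ D, ‖G w‖ ≤ M) ∧
            ∀ j, G (z j) = α j) :=
  MP05e272.final_neg (MP05e272.assembly (MP05e272.gadgetOf MP05e272.ring MP05e272.weights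
    MP05e272.geoStep MP05e272.sepStep MP05e272.lowStep))

end Pool.Agent.S03718
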