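import Pool.Statements.S04153
-- import your own Pool.Agent.* helpers here
import Pool.Agent.Lib.MP_29b974_an.Assemble

set_option autoImplicit false
open Pool Pool.MP_29b974_an

namespace Pool.Agent.S04153

/-- For every n>1 there is a function holomorphic on the Euclidean unit ball of C^n, nonzero somewhere there, whose limit along the radius toward z/∣z∣ is 0 for Lebesgue-almost every z, i.e. for almost every sphere direction. -/
theorem result :
    ∀ n : ℕ, 1 < n → ∃ f : (Fin n → ℂ) → ℂ,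
      DifferentiableOn ℂ f {z : Fin n → ℂ | ∑ i, ‖z i‖ ^ 2 < 1} ∧
      (∃ z : Fin n → ℂ, ∑ i, ‖z i‖ ^ 2 < 1 ∧ f z ≠ 0) ∧
      ∀ᵐ z ∂(MeasureTheory.volume : MeasureTheory.Measure (Fin n → ℂ)),
        Filter.Tendsto
          (fun r : ℝ => f (((r / Real.sqrt (∑ i, ‖z i‖ ^ 2) : ℝ) : ℂ) • z))
          (nhdsWithin (1 : ℝ) (Set.Iio 1)) (nhds (0 : ℂ)) := by
  intro n hn
  obtain ⟨f, G, hd, h0, hcone, hvol, hbd⟩ := Pool.Agent.Lib.MP_29b974_an.main_V n
  have hnorm : ∀ w : Fin n → ℂ, Real.sqrt (∑ i, ‖w i‖ ^ 2) = ‖Pool.Agent.Lib.MP_29b974_an.T w‖ := by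
    intro w
    rw [EuclideanSpace.norm_eq]
  have hT : Differentiable ℂ (fun w : Fin n → ℂ => Pool.Agent.Lib.MP_29b974_an.T w) :=
    (PiLp.continuousLinearEquiv 2 ℂ (fun _ : Fin n => ℂ)).symm.differentiable
  refine ⟨fun w => f (Pool.Agent.Lib.MP_29b974_an.T w), ?_, ?_, ?_⟩
  · intro w hw
    apply DifferentiableAt.differentiableWithinAt
    have h1 : ‖Pool.Agent.Lib.MP_29b974_an.T w‖ < 1 := by
      rw [← hnorm, Real.sqrt_lt' one_pos, one_pow]
      exact hw
    exact (hd _ h1).comp w (hT w)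
  · refine ⟨0, by simp, ?_⟩
    have h1 : Pool.Agent.Lib.MP_29b974_an.T (0 : Fin n → ℂ) = 0 := by
      simp [Pool.Agent.Lib.MP_29b974_an.T]
    simp only [h1]
    exact h0
  · have : Nonempty (Fin n) := ⟨⟨0, by omega⟩⟩
    have hz : ∀ᵐ w ∂(MeasureTheory.volume : MeasureTheory.Measure (Fin n → ℂ)), w ≠ 0 := by
      rw [MeasureTheory.ae_iff]
      simp only [not_not]
      exact MeasureTheory.measure_singleton (0 : Fin n → ℂ)
    have hbc := MeasureTheory.ae_eventually_notMem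
      (μ := (MeasureTheory.volume : MeasureTheory.Measure (Fin n → ℂ)))
      (s := fun j : ℕ => {w : Fin n → ℂ | Pool.Agent.Lib.MP_29b974_an.T w ∈ G j ∧
        ‖Pool.Agent.Lib.MP_29b974_an.T w‖ < (j : ℝ) + 1}) (by
        refine ne_top_of_le_ne_top ?_ (ENNReal.tsum_le_tsum hvol)
        rw [← ENNReal.ofReal_tsum_of_nonneg (fun j => by positivity) summable_geometric_two]
        exact ENNReal.ofReal_ne_top)
    filter_upwards [hz, hbc] with w hw0 hwG
    have hTw0 : 0 < ‖Pool.Agent.Lib.MP_29b974_an.T w‖ := by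
      rw [norm_pos_iff]
      intro h
      apply hw0
      have := congrArg (WithLp.ofLp) h
      simpa using this
    -- eventually T w is not in G j
    have hev : ∀ᶠ j in Filter.atTop, Pool.Agent.Lib.MP_29b974_an.T w ∉ G j := by
      obtain ⟨j0, hj0⟩ := exists_nat_gt ‖Pool.Agent.Lib.MP_29b974_an.T w‖
      filter_upwards [hwG, Filter.eventually_ge_atTop j0] with j hj hj'
      intro hmem
      apply hj
      refine ⟨hmem, ?_⟩
      have : (j0 : ℝ) ≤ j := by exact_mod_cast hj'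
      linarith
    obtain ⟨J, hJ⟩ := Filter.eventually_atTop.mp hev
    rw [Metric.tendsto_nhds]
    intro ε hε
    obtain ⟨K0, hK0⟩ := exists_pow_lt_of_lt_one hε (show (1 / 2 : ℝ) < 1 by norm_num)
    set K : ℕ := max J K0 with hK
    have hIoo : Set.Ico (Pool.Agent.Lib.MP_29b974_an.rr (K + 1)) 1 ∈
        nhdsWithin (1 : ℝ) (Set.Iio 1) := by
      apply Ico_mem_nhdsLT
      exact Pool.Agent.Lib.MP_29b974_an.rr_lt_one _
    filter_upwards [hIoo] with r hr
    obtain ⟨k, hk1, hk2, hk3⟩ :=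
      Pool.Agent.Lib.MP_29b974_an.exists_between_rr (K + 1) r hr.1 hr.2
    obtain ⟨l, rfl⟩ : ∃ l, k = l + 1 := ⟨k - 1, by omega⟩
    have hr0 : 0 < r := (Pool.Agent.Lib.MP_29b974_an.rr_pos _).trans_le hr.1
    rw [hnorm w]
    set t : ℝ := r / ‖Pool.Agent.Lib.MP_29b974_an.T w‖ with ht
    have ht0 : 0 < t := by positivity
    have hTs : Pool.Agent.Lib.MP_29b974_an.T ((t : ℂ) • w) =
        (t : ℂ) • Pool.Agent.Lib.MP_29b974_an.T w := by
      simp [Pool.Agent.Lib.MP_29b974_an.T]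
    have hn : ‖(t : ℂ) • Pool.Agent.Lib.MP_29b974_an.T w‖ = r := by
      rw [norm_smul, Complex.norm_real, Real.norm_eq_abs, abs_of_pos ht0, ht]
      field_simp
    rw [dist_zero_right, hTs]
    have hb := hbd l ((t : ℂ) • Pool.Agent.Lib.MP_29b974_an.T w) (by rw [hn]; exact hk2)
      (by rw [hn]; exact hk3)
      (by rw [hcone l t ht0]; exact hJ l (by omega))
      (by rw [hcone (l + 1) t ht0]; exact hJ (l + 1) (by omega))
    refine hb.trans_lt (lt_of_le_of_lt ?_ hK0)
    exact pow_le_pow_of_le_one (by norm_num) (by norm_num) (by omega)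

end Pool.Agent.S04153
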