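import Pool.Statements.S04275
import Pool.Agent.Lib.MP_325c33_an.Spec2
import Pool.Agent.Lib.MP_325c33_an.Key

set_option autoImplicit false
open Pool Pool.MP_325c33_an

namespace Pool.Agent.S04275

/-- Let S be the set of z such that, for some ±1 sequence b, the operator x ↦ b(n−1)x(n−1)+x(n+1) minus z is not a bijection of ℓ²(ℤ). This is the Feinberg–Zee spectrum, and the claim is that S equals the closure of its interior. -/
theorem result :
    ∀ S : Set ℂ,
      S = {z : ℂ | ∃ b : ℤ → ℂ, (∀ n : ℤ, b n = 1 ∨ b n = -1) ∧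
            ¬ (∀ y : ℤ → ℂ, Memℓp y 2 →
                ∃! x : ℤ → ℂ, Memℓp x 2 ∧
                  ∀ n : ℤ, b (n - 1) * x (n - 1) + x (n + 1) - z * x n = y n)} →
      closure (interior S) = S := by
  intro S hS
  have hSB : S = Pool.Agent.Lib.MP_325c33_an.Bset := by
    rw [hS]
    exact Pool.Agent.Lib.MP_325c33_an.spec_eq
  rw [hSB]
  exact Set.Subset.antisymm
    (closure_minimal interior_subset Pool.Agent.Lib.MP_325c33_an.isClosed_Bset)
    Pool.Agent.Lib.MP_325c33_an.Bset_subset_closure

end Pool.Agent.S04275
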