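import Pool.Statements.S04518

set_option autoImplicit false
open MeasureTheory
open scoped Pointwise
open Pool Pool.MP_4442a2_an

namespace Pool.Agent.S04518

/-- The coordinate box with side lengths `u`. -/
def Box {N : ℕ} (u : Fin N → ℝ) : Set (EuclideanSpace ℝ (Fin N)) :=
  {x | ∀ l, 0 ≤ x l ∧ x l ≤ u l}

/-- The minimal Riesz energy with exponent `-1/2`. -/
noncomputable def en {N : ℕ} (K : Set (EuclideanSpace ℝ (Fin N))) : ENNReal :=
  ⨅ (μ : Measure (EuclideanSpace ℝ (Fin N))) (_ : IsProbabilityMeasure μ) (_ : μ Kᶜ = 0),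
    ∫⁻ x, ∫⁻ y, (edist x y) ^ (-(1 / 2 : ℝ)) ∂μ ∂μ

lemma en_anti {N : ℕ} {A B : Set (EuclideanSpace ℝ (Fin N))} (h : A ⊆ B) : en B ≤ en A := by
  unfold en
  refine le_iInf fun μ => le_iInf fun hμ => le_iInf fun hA => ?_
  refine iInf_le_of_le μ (iInf_le_of_le hμ (iInf_le_of_le ?_ le_rfl))
  exact measure_mono_null (Set.compl_subset_compl.mpr h) hA

lemma box_convex {N : ℕ} (u : Fin N → ℝ) : Convex ℝ (Box u) := by
  intro x hx y hy a b ha hb hab l
  have h1 := hx l
  have h2 := hy l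
  simp only [PiLp.add_apply, PiLp.smul_apply, smul_eq_mul]
  constructor
  · have := mul_nonneg ha h1.1
    have := mul_nonneg hb h2.1
    linarith
  · have e1 := mul_le_mul_of_nonneg_left h1.2 ha
    have e2 := mul_le_mul_of_nonneg_left h2.2 hb
    have : a * u l + b * u l = u l := by rw [← add_mul, hab, one_mul]
    linarith

lemma box_eq {N : ℕ} (u : Fin N → ℝ) :
    Box u = (EuclideanSpace.equiv (Fin N) ℝ) ⁻¹' (Set.Icc 0 u) := by
  ext x
  simp only [Box, Set.mem_ofPred_eq, Set.mem_preimage, Set.mem_Icc, Pi.le_def, Pi.zero_apply]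
  constructor
  · intro h
    exact ⟨fun i => (h i).1, fun i => (h i).2⟩
  · intro h l
    exact ⟨h.1 l, h.2 l⟩

lemma box_compact {N : ℕ} (u : Fin N → ℝ) : IsCompact (Box u) := by
  rw [box_eq]
  exact (EuclideanSpace.equiv (Fin N) ℝ).toHomeomorph.isClosedEmbedding.isCompact_preimage
    isCompact_Icc

lemma box_interior {N : ℕ} (u : Fin N → ℝ) (hu : ∀ l, 0 < u l) :
    (interior (Box u)).Nonempty := by
  rw [box_eq]
  have hopen : IsOpen ((EuclideanSpace.equiv (Fin N) ℝ) ⁻¹' (Set.pi Set.univ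
      fun l => Set.Ioo (0 : ℝ) (u l))) :=
    (isOpen_set_pi Set.finite_univ fun i _ => isOpen_Ioo).preimage
      (EuclideanSpace.equiv (Fin N) ℝ).continuous
  have hsub : (EuclideanSpace.equiv (Fin N) ℝ) ⁻¹' (Set.pi Set.univ
      fun l => Set.Ioo (0 : ℝ) (u l)) ⊆ (EuclideanSpace.equiv (Fin N) ℝ) ⁻¹' (Set.Icc 0 u) := by
    intro x hx
    simp only [Set.mem_preimage, Set.mem_pi, Set.mem_univ, true_imp_iff, Set.mem_Ioo] at hx
    simp only [Set.mem_preimage, Set.mem_Icc, Pi.le_def, Pi.zero_apply]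
    exact ⟨fun i => (hx i).1.le, fun i => (hx i).2.le⟩
  refine ⟨(EuclideanSpace.equiv (Fin N) ℝ).symm fun l => u l / 2, ?_⟩
  refine interior_maximal hsub hopen ?_
  simp only [Set.mem_preimage, ContinuousLinearEquiv.apply_symm_apply, Set.mem_pi, Set.mem_univ,
    true_imp_iff, Set.mem_Ioo]
  intro i
  have := hu i
  constructor <;> linarith

/-- The side lengths of the averaged boxes. -/
noncomputable def sides (N : ℕ) (ε : ℝ) : ℕ → ℕ → Fin N → ℝ
  | 0, j, l => ε + if l.val = j then 1 else 0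
  | k + 1, j, l => (1 / 2) * sides N ε k (2 * j + 1) l + (1 - 1 / 2) * sides N ε k (2 * j) l

lemma sides_pos (N : ℕ) (ε : ℝ) (hε : 0 < ε) (k : ℕ) : ∀ j l, 0 < sides N ε k j l := by
  induction k with
  | zero =>
    intro j l
    unfold sides
    split_ifs <;> linarith
  | succ k ih =>
    intro j l
    unfold sides
    have h1 := ih (2 * j + 1) l
    have h2 := ih (2 * j) l
    linarith

lemma sides_le (N : ℕ) (ε : ℝ) (k : ℕ) : ∀ j l, sides N ε k j l ≤
    ε + if j * 2 ^ k ≤ l.val ∧ l.val < (j + 1) * 2 ^ k then (1 / 2 : ℝ) ^ k else 0 := by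
  induction k with
  | zero =>
    intro j l
    unfold sides
    by_cases h : l.val = j
    · simp [h]
    · rw [if_neg h]
      split_ifs <;> norm_num
  | succ k ih =>
    intro j l
    unfold sides
    have h1 := ih (2 * j + 1) l
    have h2 := ih (2 * j) l
    by_cases hA : (2 * j + 1) * 2 ^ k ≤ l.val ∧ l.val < (2 * j + 1 + 1) * 2 ^ k
    · have hB : ¬ (2 * j * 2 ^ k ≤ l.val ∧ l.val < (2 * j + 1) * 2 ^ k) := by
        intro hB; exact absurd hA.1 (not_le.mpr hB.2)
      have hC : j * 2 ^ (k + 1) ≤ l.val ∧ l.val < (j + 1) * 2 ^ (k + 1) := by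
        rw [pow_succ]
        constructor
        · nlinarith [hA.1]
        · nlinarith [hA.2]
      rw [if_pos hA] at h1
      rw [if_neg hB] at h2
      rw [if_pos hC, pow_succ]
      linarith
    · by_cases hB : 2 * j * 2 ^ k ≤ l.val ∧ l.val < (2 * j + 1) * 2 ^ k
      · have hC : j * 2 ^ (k + 1) ≤ l.val ∧ l.val < (j + 1) * 2 ^ (k + 1) := by
          rw [pow_succ]
          constructor
          · nlinarith [hB.1]
          · nlinarith [hB.2]
        rw [if_neg hA] at h1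
        rw [if_pos hB] at h2
        rw [if_pos hC, pow_succ]
        linarith
      · rw [if_neg hA] at h1
        rw [if_neg hB] at h2
        have h3 : (0 : ℝ) ≤ if j * 2 ^ (k + 1) ≤ l.val ∧ l.val < (j + 1) * 2 ^ (k + 1) then
            (1 / 2 : ℝ) ^ (k + 1) else 0 := by
          split_ifs <;> positivity
        linarith

lemma box_avg {N : ℕ} (u v : Fin N → ℝ) :
    (1 / 2 : ℝ) • Box u + (1 - 1 / 2 : ℝ) • Box v ⊆
      Box (fun l => (1 / 2) * u l + (1 - 1 / 2) * v l) := by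
  rintro _ ⟨_, ⟨x, hx, rfl⟩, _, ⟨y, hy, rfl⟩, rfl⟩ l
  have h1 := hx l
  have h2 := hy l
  simp only [PiLp.add_apply, PiLp.smul_apply, smul_eq_mul]
  constructor <;> linarith


lemma half_int : ∫⁻ u in Set.Ioc (0:ℝ) 1, ENNReal.ofReal (u ^ (-(1/2:ℝ))) = 2 := by
  rw [← ofReal_integral_eq_lintegral_ofReal]
  · rw [← intervalIntegral.integral_of_le zero_le_one, integral_rpow (Or.inl (by norm_num))]
    norm_num
  · exact (intervalIntegral.intervalIntegrable_rpow' (by norm_num)).1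
  · filter_upwards [ae_restrict_mem measurableSet_Ioc] with u hu using Real.rpow_nonneg hu.1.le _

lemma half_int' : ∫⁻ u in Set.Icc (0:ℝ) 1, ‖u‖ₑ ^ (-(1/2:ℝ)) = 2 := by
  rw [← half_int, ← Measure.restrict_congr_set (Ioc_ae_eq_Icc (μ := volume) (a := (0:ℝ)) (b := 1))]
  refine setLIntegral_congr_fun measurableSet_Ioc ?_
  intro u hu
  simp only
  rw [← ofReal_norm, Real.norm_of_nonneg hu.1.le, ENNReal.ofReal_rpow_of_pos hu.1]

lemma half_int_neg : ∫⁻ u in Set.Icc (-1:ℝ) 0, ‖u‖ₑ ^ (-(1/2:ℝ)) = 2 := by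
  rw [← half_int', ← lintegral_indicator measurableSet_Icc, ← lintegral_indicator measurableSet_Icc,
    ← lintegral_neg_eq_self]
  refine lintegral_congr fun u => ?_
  by_cases h : u ∈ Set.Icc (0:ℝ) 1
  · rw [Set.indicator_of_mem h, Set.indicator_of_mem, enorm_neg]
    exact ⟨by linarith [h.2], by linarith [h.1]⟩
  · rw [Set.indicator_of_notMem h, Set.indicator_of_notMem]
    intro h'
    exact h ⟨by linarith [h'.2], by linarith [h'.1]⟩

lemma full_int : ∫⁻ u in Set.Icc (-1:ℝ) 1, ‖u‖ₑ ^ (-(1/2:ℝ)) ≤ 4 := by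
  have : Set.Icc (-1:ℝ) 1 = Set.Icc (-1:ℝ) 0 ∪ Set.Icc 0 1 := by
    rw [Set.Icc_union_Icc_eq_Icc] <;> norm_num
  rw [this]
  refine (lintegral_union_le _ _ _).trans ?_
  rw [half_int', half_int_neg]
  norm_num

lemma shift_int (t : ℝ) (ht : t ∈ Set.Icc (0:ℝ) 1) :
    ∫⁻ s in Set.Icc (0:ℝ) 1, (edist t s) ^ (-(1/2:ℝ)) ≤ 4 := by
  refine le_trans ?_ full_int
  rw [← lintegral_indicator measurableSet_Icc, ← lintegral_indicator measurableSet_Icc,
    ← lintegral_sub_right_eq_self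
      ((Set.Icc (-1 : ℝ) 1).indicator (fun u : ℝ => ‖u‖ₑ ^ (-(1/2:ℝ)))) t]
  refine lintegral_mono fun s => ?_
  by_cases h : s ∈ Set.Icc (0:ℝ) 1
  · rw [Set.indicator_of_mem h, Set.indicator_of_mem, edist_comm, edist_eq_enorm_sub]
    exact ⟨by linarith [h.1, ht.2], by linarith [h.2, ht.1]⟩
  · rw [Set.indicator_of_notMem h]
    exact zero_le


/-- The embedding of the real line as a coordinate axis. -/
noncomputable def emb {N : ℕ} (j : Fin N) (t : ℝ) : EuclideanSpace ℝ (Fin N) :=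
  EuclideanSpace.single j t

lemma emb_isometry {N : ℕ} (j : Fin N) : Isometry (emb j) := by
  refine Isometry.of_dist_eq fun x y => ?_
  unfold emb
  rw [PiLp.dist_single_same]

lemma emb_meas {N : ℕ} (j : Fin N) : Measurable (emb j) := (emb_isometry j).continuous.measurable

lemma en_le_four {N : ℕ} (j : Fin N) (u : Fin N → ℝ) (hu : ∀ l, 0 ≤ u l) (huj : 1 ≤ u j) :
    en (Box u) ≤ 4 := by
  have hme : MeasurableEmbedding (emb j) := (emb_isometry j).isClosedEmbedding.measurableEmbedding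
  have hprob0 : IsProbabilityMeasure ((volume : Measure ℝ).restrict (Set.Icc 0 1)) :=
    ⟨by simp⟩
  have hprob : IsProbabilityMeasure (((volume : Measure ℝ).restrict (Set.Icc 0 1)).map (emb j)) :=
    Measure.isProbabilityMeasure_map (emb_meas j).aemeasurable
  unfold en
  refine iInf_le_of_le (((volume : Measure ℝ).restrict (Set.Icc 0 1)).map (emb j))
    (iInf_le_of_le hprob (iInf_le_of_le ?_ ?_))
  · rw [Measure.map_apply (emb_meas j) (box_compact u).isClosed.measurableSet.compl,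
      Measure.restrict_apply ((box_compact u).isClosed.measurableSet.compl.preimage (emb_meas j))]
    convert measure_empty (μ := (volume : Measure ℝ))
    ext t
    simp only [Set.mem_inter_iff, Set.mem_preimage, Set.mem_compl_iff, Set.mem_empty_iff_false,
      iff_false, not_and, not_not]
    intro h1 h2
    apply h1
    intro l
    unfold emb
    by_cases hl : l = j
    · subst hl
      simp only [PiLp.single_apply, if_true]
      exact ⟨h2.1, h2.2.trans huj⟩
    · simp only [PiLp.single_apply, if_neg hl]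
      exact ⟨le_rfl, hu l⟩
  · rw [hme.lintegral_map]
    calc ∫⁻ a in Set.Icc (0:ℝ) 1, ∫⁻ y, edist (emb j a) y ^ (-(1 / 2 : ℝ))
            ∂((volume : Measure ℝ).restrict (Set.Icc 0 1)).map (emb j)
        = ∫⁻ a in Set.Icc (0:ℝ) 1, ∫⁻ s in Set.Icc (0:ℝ) 1, edist a s ^ (-(1 / 2 : ℝ)) := by
          refine lintegral_congr fun a => ?_
          rw [hme.lintegral_map]
          refine lintegral_congr fun s => ?_
          rw [(emb_isometry j).edist_eq]
      _ ≤ ∫⁻ a in Set.Icc (0:ℝ) 1, 4 := by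
          refine setLIntegral_mono measurable_const fun a ha => shift_int a ha
      _ = 4 := by simp

lemma le_en {N : ℕ} (K : Set (EuclideanSpace ℝ (Fin N))) (R : ENNReal)
    (hK : ∀ x ∈ K, ∀ y ∈ K, edist x y ≤ R) : R ^ (-(1 / 2 : ℝ)) ≤ en K := by
  unfold en
  refine le_iInf fun μ => le_iInf fun hμ => le_iInf fun hA => ?_
  have hae : ∀ᵐ x ∂μ, x ∈ K := by
    rw [ae_iff]
    exact hA
  calc R ^ (-(1 / 2 : ℝ)) = ∫⁻ x, ∫⁻ y, R ^ (-(1 / 2 : ℝ)) ∂μ ∂μ := by simp
    _ ≤ ∫⁻ x, ∫⁻ y, (edist x y) ^ (-(1 / 2 : ℝ)) ∂μ ∂μ := by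
        refine lintegral_mono_ae ?_
        filter_upwards [hae] with x hx
        refine lintegral_mono_ae ?_
        filter_upwards [hae] with y hy
        rw [ENNReal.rpow_neg, ENNReal.rpow_neg]
        exact ENNReal.inv_le_inv.mpr (ENNReal.rpow_le_rpow (hK x hx y hy) (by norm_num))

lemma box_diam {N : ℕ} (u : Fin N → ℝ) (b : ℝ) (hb : 0 ≤ b) (hu : ∀ l, u l ≤ b) :
    ∀ x ∈ Box u, ∀ y ∈ Box u, edist x y ≤ ENNReal.ofReal (Real.sqrt (N * b ^ 2)) := by
  intro x hx y hy
  rw [edist_dist]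
  refine ENNReal.ofReal_le_ofReal ?_
  rw [EuclideanSpace.dist_eq]
  refine Real.sqrt_le_sqrt ?_
  calc ∑ i, dist (x i) (y i) ^ 2 ≤ ∑ _i : Fin N, b ^ 2 := by
        refine Finset.sum_le_sum fun i _ => ?_
        have h1 := hx i
        have h2 := hy i
        have h3 := hu i
        refine pow_le_pow_left₀ dist_nonneg ?_ 2
        rw [Real.dist_eq, abs_le]
        constructor <;> linarith
    _ = N * b ^ 2 := by simp

/-- The negation of the preceding statement: For N≥2, 0<α<N, with α-Riesz capacity = inverse of minimal energy ∬∣x−y∣^{α−N} over probability measures on K, Cap^{1/(N−α)} is concave under Minkowski combinations of convex bodies in ℝ^N. -/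
theorem result :
    ¬ (∀ (N : ℕ) (α : ℝ), 2 ≤ N → 0 < α → α < (N : ℝ) →
    ∀ Cap : Set (EuclideanSpace ℝ (Fin N)) → ENNReal,
      (∀ K : Set (EuclideanSpace ℝ (Fin N)),
        Cap K = (⨅ (μ : Measure (EuclideanSpace ℝ (Fin N)))
                  (_ : IsProbabilityMeasure μ) (_ : μ Kᶜ = 0),
                  ∫⁻ x, ∫⁻ y, (edist x y) ^ (α - (N : ℝ)) ∂μ ∂μ)⁻¹) →
      ∀ K₀ K₁ : Set (EuclideanSpace ℝ (Fin N)),
        IsCompact K₀ → Convex ℝ K₀ → (interior K₀).Nonempty →
        IsCompact K₁ → Convex ℝ K₁ → (interior K₁).Nonempty →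
        ∀ t : ℝ, 0 ≤ t → t ≤ 1 →
          ENNReal.ofReal t * Cap K₁ ^ (1 / ((N : ℝ) - α))
            + ENNReal.ofReal (1 - t) * Cap K₀ ^ (1 / ((N : ℝ) - α))
            ≤ Cap (t • K₁ + (1 - t) • K₀) ^ (1 / ((N : ℝ) - α))) := by
  intro H
  obtain ⟨N, hN⟩ : ∃ N : ℕ, N = 2 ^ 12 := ⟨_, rfl⟩
  have hNR : (N : ℝ) = 4096 := by rw [hN]; norm_num
  have h0 := H N (N - 1 / 2) (by rw [hN]; norm_num) (by rw [hNR]; norm_num) (by linarith)
    (fun K => (en K)⁻¹) (by
      intro K
      unfold en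
      have : ((N : ℝ) - 1 / 2 - (N : ℝ)) = -(1 / 2 : ℝ) := by ring
      rw [this])
  have hexp : (1 / ((N : ℝ) - ((N : ℝ) - 1 / 2))) = 2 := by
    have : ((N : ℝ) - ((N : ℝ) - 1 / 2)) = 1 / 2 := by ring
    rw [this]; norm_num
  rw [hexp] at h0
  obtain ⟨ε, hε⟩ : ∃ ε : ℝ, ε = 1 / 4096 := ⟨_, rfl⟩
  have hεpos : 0 < ε := by rw [hε]; norm_num
  -- the induction
  have key : ∀ k j, (j + 1) * 2 ^ k ≤ N →
      (1 / 16 : ENNReal) ≤ (en (Box (sides N ε k j)))⁻¹ ^ (2 : ℝ) := by
    intro k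
    induction k with
    | zero =>
      intro j hj
      have hjN : j < N := by omega
      have h1 := en_le_four (⟨j, hjN⟩ : Fin N) (sides N ε 0 j)
        (fun l => (sides_pos N ε hεpos 0 j l).le) (by unfold sides; simp; linarith)
      have h2 : (4 : ENNReal)⁻¹ ≤ (en (Box (sides N ε 0 j)))⁻¹ := ENNReal.inv_le_inv.mpr h1
      refine le_trans ?_ (ENNReal.rpow_le_rpow h2 (by norm_num))
      rw [ENNReal.rpow_ofNat, ← ENNReal.inv_pow, one_div]
      norm_num
    | succ k ih =>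
      intro j hj
      have h1 := ih (2 * j + 1) (by rw [pow_succ] at hj; nlinarith)
      have h2 := ih (2 * j) (by rw [pow_succ] at hj; nlinarith)
      have h3 := h0 (Box (sides N ε k (2 * j))) (Box (sides N ε k (2 * j + 1)))
        (box_compact _) (box_convex _) (box_interior _ (sides_pos N ε hεpos k _))
        (box_compact _) (box_convex _) (box_interior _ (sides_pos N ε hεpos k _))
        (1 / 2) (by norm_num) (by norm_num)
      have h4 := box_avg (sides N ε k (2 * j + 1)) (sides N ε k (2 * j))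
      have h5 : (en ((1 / 2 : ℝ) • Box (sides N ε k (2 * j + 1)) +
          (1 - 1 / 2 : ℝ) • Box (sides N ε k (2 * j))))⁻¹ ≤
          (en (Box (sides N ε (k + 1) j)))⁻¹ := ENNReal.inv_le_inv.mpr (en_anti h4)
      refine le_trans ?_ (h3.trans (ENNReal.rpow_le_rpow h5 (by norm_num)))
      have h6 : (1 / 16 : ENNReal) =
          ENNReal.ofReal (1 / 2) * (1 / 16) + ENNReal.ofReal (1 - 1 / 2) * (1 / 16) := by
        rw [← add_mul, ← ENNReal.ofReal_add (by norm_num) (by norm_num)]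
        norm_num
      rw [h6]
      gcongr
  have hfin := key 12 0 (by rw [hN]; norm_num)
  have hb : ∀ l, sides N ε 12 0 l ≤ 1 / 2048 := by
    intro l
    refine (sides_le N ε 12 0 l).trans ?_
    rw [hε]
    split_ifs <;> norm_num
  have hd := box_diam (sides N ε 12 0) (1 / 2048) (by norm_num) hb
  have hsq : Real.sqrt (N * (1 / 2048) ^ 2) = 1 / 32 := by
    rw [hNR, show ((4096 : ℝ) * (1 / 2048) ^ 2) = (1 / 32) ^ 2 by norm_num,
      Real.sqrt_sq (by norm_num)]
  rw [hsq] at hd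
  have hl := le_en _ _ hd
  have hl2 : (en (Box (sides N ε 12 0)))⁻¹ ^ (2 : ℝ) ≤ ENNReal.ofReal (1 / 32) := by
    have h1 : (en (Box (sides N ε 12 0)))⁻¹ ≤ (ENNReal.ofReal (1 / 32)) ^ (1 / 2 : ℝ) := by
      rw [ENNReal.inv_le_iff_inv_le, ← ENNReal.rpow_neg]
      exact hl
    refine (ENNReal.rpow_le_rpow h1 (by norm_num)).trans ?_
    rw [← ENNReal.rpow_mul]
    norm_num
  have hc := hfin.trans hl2
  have h16 : (1 / 16 : ENNReal) = ENNReal.ofReal (1 / 16) := by
    rw [ENNReal.ofReal_div_of_pos (by norm_num)]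
    norm_num
  rw [h16, ENNReal.ofReal_le_ofReal_iff (by norm_num)] at hc
  norm_num at hc

end Pool.Agent.S04518
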