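import Pool.Statements.S04676

set_option autoImplicit false
open Pool Pool.MP_529e31_an

namespace Pool.Agent.S04676

/-- The radii of the circles. -/
noncomputable def rad (n : ℕ) : ℝ := (5 : ℝ) ^ (5 ^ n)

/-- The exponents of the monomials. -/
def mexp (n : ℕ) : ℕ := (5 ^ (5 ^ n)) ^ 3

lemma rad_succ (n : ℕ) : rad (n + 1) = rad n ^ 5 := by
  unfold rad
  rw [← pow_mul, pow_succ]

lemma five_le_rad (n : ℕ) : 5 ≤ rad n := by
  unfold rad
  have h : (5 : ℝ) ^ 1 ≤ (5 : ℝ) ^ (5 ^ n) := by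
    apply pow_le_pow_right₀ (by norm_num)
    exact Nat.one_le_pow _ _ (by norm_num)
  simpa using h

lemma rad_mono : Monotone rad := by
  intro a b hab
  unfold rad
  apply pow_le_pow_right₀ (by norm_num)
  exact Nat.pow_le_pow_right (by norm_num) hab

lemma mexp_eq (n : ℕ) : (mexp n : ℝ) = rad n ^ 3 := by
  unfold mexp rad
  push_cast
  rfl

lemma tendsto_rad : Filter.Tendsto rad Filter.atTop Filter.atTop := by
  unfold rad
  apply (tendsto_pow_atTop_atTop_of_one_lt (by norm_num : (1 : ℝ) < 5)).comp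
  exact tendsto_pow_atTop_atTop_of_one_lt (by norm_num : 1 < 5)

/-- The union of the circles. -/
def circles : Set ℂ := {z | ∃ n : ℕ, ‖z‖ = rad n}

/-- The monomials. -/
noncomputable def mono (n : ℕ) (z : ℂ) : ℂ := (z / (rad n : ℂ)) ^ (mexp n)

lemma norm_mono (n : ℕ) (z : ℂ) : ‖mono n z‖ = (‖z‖ / rad n) ^ (mexp n) := by
  unfold mono
  rw [norm_pow, norm_div, Complex.norm_real, Real.norm_of_nonneg]
  linarith [five_le_rad n]

lemma mono_le_on_circles (n : ℕ) (z : ℂ) (hz : z ∈ circles) :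
    ‖mono n z‖ ≤ Real.exp ‖z‖ := by
  obtain ⟨j, hj⟩ := hz
  have hn := five_le_rad n
  rw [norm_mono]
  rcases le_or_gt j n with hjn | hjn
  · have h1 : (‖z‖ / rad n) ^ (mexp n) ≤ 1 := by
      apply pow_le_one₀ (by positivity)
      rw [div_le_one (by linarith), hj]
      exact rad_mono hjn
    exact h1.trans (Real.one_le_exp (norm_nonneg z))
  · obtain ⟨i, rfl⟩ : ∃ i, j = i + 1 := ⟨j - 1, by omega⟩
    have hin : n ≤ i := by omega
    have hs := five_le_rad i
    have hni := rad_mono hin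
    set s := rad i with hsdef
    have hzs : ‖z‖ = s ^ 5 := by rw [hj, rad_succ]
    have h1 : ‖z‖ / rad n ≤ s ^ 5 := by
      rw [hzs]
      exact div_le_self (by positivity) (by linarith)
    have h2 : s ≤ Real.exp s := by
      linarith [Real.add_one_le_exp s]
    have h3 : ‖z‖ / rad n ≤ Real.exp (5 * s) := by
      calc ‖z‖ / rad n ≤ s ^ 5 := h1
        _ ≤ (Real.exp s) ^ 5 := by gcongr
        _ = Real.exp (5 * s) := by rw [← Real.exp_nat_mul]; norm_num
    calc (‖z‖ / rad n) ^ (mexp n) ≤ (Real.exp (5 * s)) ^ (mexp n) := by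
          have : 0 ≤ ‖z‖ / rad n := by positivity
          gcongr
      _ = Real.exp ((mexp n : ℝ) * (5 * s)) := by rw [← Real.exp_nat_mul]
      _ ≤ Real.exp ‖z‖ := by
          apply Real.exp_le_exp.mpr
          rw [mexp_eq, hzs]
          have h4 : rad n ^ 3 ≤ s ^ 3 := by gcongr
          calc rad n ^ 3 * (5 * s) ≤ s ^ 3 * (5 * s) := by gcongr
            _ ≤ s ^ 3 * (s * s) := by gcongr
            _ = s ^ 5 := by ring

lemma differentiable_mono (n : ℕ) : Differentiable ℂ (mono n) := by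
  unfold mono
  fun_prop

lemma mono_growth (n : ℕ) : ∃ B : ℝ, 0 < B ∧ ∀ z : ℂ, ‖mono n z‖ ≤ B * Real.exp ‖z‖ := by
  refine ⟨(mexp n).factorial, by positivity, fun z => ?_⟩
  rw [norm_mono]
  have hn := five_le_rad n
  have h1 : (‖z‖ / rad n) ^ (mexp n) ≤ ‖z‖ ^ (mexp n) := by
    have : 0 ≤ ‖z‖ / rad n := by positivity
    gcongr
    exact div_le_self (norm_nonneg z) (by linarith)
  refine h1.trans ?_
  have h2 := Real.pow_div_factorial_le_exp ‖z‖ (norm_nonneg z) (mexp n)
  rw [div_le_iff₀ (by positivity)] at h2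
  linarith

lemma circles_detect (f : ℂ → ℂ) (hf : Differentiable ℂ f) :
    Bornology.IsBounded (f '' circles) ↔ Bornology.IsBounded (Set.range f) := by
  constructor
  · intro h
    obtain ⟨M, hM⟩ := h.exists_norm_le
    rw [isBounded_iff_forall_norm_le]
    refine ⟨M, ?_⟩
    rintro _ ⟨w, rfl⟩
    obtain ⟨n, hn⟩ := (tendsto_rad.eventually_gt_atTop ‖w‖).exists
    have hr : rad n ≠ 0 := by linarith [five_le_rad n]
    refine Complex.norm_le_of_forall_mem_frontier_norm_le (U := Metric.ball 0 (rad n))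
      Metric.isBounded_ball hf.diffContOnCl ?_ ?_
    · intro z hz
      rw [frontier_ball (0 : ℂ) hr] at hz
      apply hM
      refine ⟨z, ⟨n, ?_⟩, rfl⟩
      simpa using hz
    · apply subset_closure
      simpa using hn
  · intro h
    exact h.subset (Set.image_subset_range f circles)

/-- The weight. -/
noncomputable def wt (z : ℂ) : ℝ := Real.exp (‖z‖ ^ 2)

lemma continuous_wt : Continuous wt := by
  unfold wt
  fun_prop

lemma wt_little (A : ℝ) :
    Asymptotics.IsLittleO (Filter.cocompact ℂ)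
      (fun z : ℂ => Real.exp (A * ‖z‖ ^ (1 : ℝ))) wt := by
  unfold wt
  rw [Real.isLittleO_exp_comp_exp_comp]
  have h1 : Filter.Tendsto (fun t : ℝ => t * (t - A)) Filter.atTop Filter.atTop :=
    Filter.tendsto_id.atTop_mul_atTop₀ (Filter.tendsto_atTop_add_const_right _ _ Filter.tendsto_id)
  have h2 := h1.comp (tendsto_norm_cocompact_atTop (E := ℂ))
  refine h2.congr (fun z => ?_)
  simp only [Function.comp, Real.rpow_one]
  ring

/-- The negation of the preceding statement: For every ρ>0 and S in ℂ: if each entire f of order ρ finite type is bounded on S iff bounded on ℂ, then for each weight k in K_ρ there are k' in K_ρ and C>0 with ∣f∣≤k' on S implying ∣f∣≤Ck on ℂ (S sufficient). -/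
theorem result :
    ¬ (∀ ρ : ℝ, 0 < ρ → ∀ S : Set ℂ,
      (∀ f : ℂ → ℂ, Differentiable ℂ f →
        (∃ A B : ℝ, 0 < A ∧ 0 < B ∧ ∀ z : ℂ, ‖f z‖ ≤ B * Real.exp (A * ‖z‖ ^ ρ)) →
        (Bornology.IsBounded (f '' S) ↔ Bornology.IsBounded (Set.range f))) →
      ∀ k : ℂ → ℝ, Continuous k → (∀ z : ℂ, 0 < k z) →
        (∀ A : ℝ, 0 < A →
          Asymptotics.IsLittleO (Filter.cocompact ℂ) (fun z : ℂ => Real.exp (A * ‖z‖ ^ ρ)) k) →
        ∃ k' : ℂ → ℝ, Continuous k' ∧ (∀ z : ℂ, 0 < k' z) ∧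
          (∀ A : ℝ, 0 < A →
            Asymptotics.IsLittleO (Filter.cocompact ℂ) (fun z : ℂ => Real.exp (A * ‖z‖ ^ ρ)) k') ∧
          ∃ C : ℝ, 0 < C ∧
            ∀ f : ℂ → ℂ, Differentiable ℂ f →
              (∃ A B : ℝ, 0 < A ∧ 0 < B ∧ ∀ z : ℂ, ‖f z‖ ≤ B * Real.exp (A * ‖z‖ ^ ρ)) →
              (∀ z ∈ S, ‖f z‖ ≤ k' z) → ∀ z : ℂ, ‖f z‖ ≤ C * k z) := by
  intro H
  obtain ⟨k', hk'c, hk'pos, hk'o, C, hC, hmain⟩ := H 1 one_pos circles
    (fun f hf _ => circles_detect f hf) wt continuous_wt (fun z => Real.exp_pos _)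
    (fun A _ => wt_little A)
  -- a lower bound for k'
  obtain ⟨M, hMpos, hM⟩ : ∃ M : ℝ, 0 < M ∧ ∀ z : ℂ, Real.exp ‖z‖ ≤ M * k' z := by
    have hcont : Continuous (fun z : ℂ => Real.exp ‖z‖ / k' z) := by
      apply Continuous.div (by fun_prop) hk'c
      intro z
      exact (hk'pos z).ne'
    have hlim : Filter.Tendsto (fun z : ℂ => Real.exp ‖z‖ / k' z) (Filter.cocompact ℂ) (nhds 0) := by
      have := (hk'o 1 one_pos).tendsto_div_nhds_zero
      simpa using this
    have hg0 : 0 < Real.exp ‖(0 : ℂ)‖ / k' 0 := div_pos (Real.exp_pos _) (hk'pos 0)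
    obtain ⟨x, hx⟩ := hcont.exists_forall_ge' 0 (hlim.eventually_le_const hg0)
    refine ⟨Real.exp ‖x‖ / k' x, div_pos (Real.exp_pos _) (hk'pos x), fun z => ?_⟩
    have := hx z
    rwa [div_le_iff₀ (hk'pos z)] at this
  -- apply the sufficiency to the monomials
  have key : ∀ n : ℕ, (2 : ℝ) ^ (mexp n) ≤ M * (C * Real.exp (4 * rad n ^ 2)) := by
    intro n
    have h := hmain (fun z => (M : ℂ)⁻¹ * mono n z) ((differentiable_mono n).const_mul _) ?_ ?_
      ((2 * rad n : ℝ) : ℂ)
    · have hn := five_le_rad n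
      rw [norm_mul, norm_inv, Complex.norm_real, Real.norm_of_nonneg hMpos.le, norm_mono,
        Complex.norm_real, Real.norm_of_nonneg (by linarith : (0:ℝ) ≤ 2 * rad n)] at h
      have h2 : 2 * rad n / rad n = 2 := by
        field_simp
      rw [h2] at h
      unfold wt at h
      rw [Complex.norm_real, Real.norm_of_nonneg (by linarith : (0:ℝ) ≤ 2 * rad n)] at h
      rw [inv_mul_le_iff₀ hMpos] at h
      refine h.trans (le_of_eq ?_)
      ring_nf
    · obtain ⟨B, hB, hBz⟩ := mono_growth n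
      refine ⟨1, M⁻¹ * B, one_pos, by positivity, fun z => ?_⟩
      rw [norm_mul, norm_inv, Complex.norm_real, Real.norm_of_nonneg hMpos.le, Real.rpow_one,
        one_mul, mul_assoc]
      gcongr
      exact hBz z
    · intro z hz
      rw [norm_mul, norm_inv, Complex.norm_real, Real.norm_of_nonneg hMpos.le,
        inv_mul_le_iff₀ hMpos]
      exact (mono_le_on_circles n z hz).trans (hM z)
  -- asymptotic contradiction
  have hlim : Filter.Tendsto (fun n : ℕ => rad n ^ 2 * (rad n * (1 / 2) + (-4))) Filter.atTop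
      Filter.atTop := by
    apply Filter.Tendsto.atTop_mul_atTop₀
    · exact (Filter.tendsto_pow_atTop (by norm_num)).comp tendsto_rad
    · apply Filter.tendsto_atTop_add_const_right
      exact tendsto_rad.atTop_mul_const (by norm_num)
  obtain ⟨n, hn⟩ := (hlim.eventually_gt_atTop (Real.log (M * C))).exists
  have h1 := key n
  have h2 : Real.exp (rad n ^ 3 * (1 / 2)) ≤ (2 : ℝ) ^ (mexp n) := by
    have h3 : Real.exp (1 / 2) ≤ 2 := by
      have := Real.exp_one_lt_d9
      have h4 : Real.exp (1 / 2) ^ 2 = Real.exp 1 := by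
        rw [← Real.exp_nat_mul]; norm_num
      nlinarith [Real.exp_pos (1 / 2 : ℝ)]
    calc Real.exp (rad n ^ 3 * (1 / 2)) = Real.exp (1 / 2) ^ (mexp n) := by
          rw [← Real.exp_nat_mul, mexp_eq]
      _ ≤ 2 ^ (mexp n) := by gcongr
  have h5 : Real.exp (rad n ^ 3 * (1 / 2)) ≤ M * C * Real.exp (4 * rad n ^ 2) := by
    linarith
  have h6 : M * C = Real.exp (Real.log (M * C)) := (Real.exp_log (by positivity)).symm
  rw [h6, ← Real.exp_add, Real.exp_le_exp] at h5
  nlinarith

end Pool.Agent.S04676
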