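import Pool.Statements.S04799
import Pool.Agent.Lib.MP_5de7bf_an.Sob7

set_option autoImplicit false
open MeasureTheory Filter Topology
open Pool Pool.MP_5de7bf_an

namespace Pool.Agent.S04799

/-- For bounded open Ω in ℝ^N (N≥2) and 2<q<2*, there is ε>0 such that every critical value of ∫∣∇u∣² on the unit L^q-sphere of H^1_0(Ω) lying below λ₁+ε equals λ₁, where λ₁ is the constrained minimum. -/
theorem result :
  ∀ (N : ℕ), 2 ≤ N → ∀ (Ω : Set (EuclideanSpace ℝ (Fin N))), IsOpen Ω → Bornology.IsBounded Ω →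
  ∀ (q : ℝ), 2 < q → ((N : ℝ) - 2) * q < 2 * (N : ℝ) →
  ∀ (l1 : ℝ), l1 = sInf {t : ℝ | ∃ (u : EuclideanSpace ℝ (Fin N) → ℝ)
        (G : EuclideanSpace ℝ (Fin N) → EuclideanSpace ℝ (Fin N)),
        (MemLp u 2 volume ∧ MemLp G 2 volume ∧
          ∃ φ : ℕ → EuclideanSpace ℝ (Fin N) → ℝ,
            (∀ n, ContDiff ℝ (⊤ : ℕ∞) (φ n) ∧ HasCompactSupport (φ n) ∧ tsupport (φ n) ⊆ Ω) ∧
            Tendsto (fun n => eLpNorm (fun x => φ n x - u x) 2 volume) atTop (𝓝 0) ∧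
            Tendsto (fun n => eLpNorm (fun x => gradient (φ n) x - G x) 2 volume) atTop (𝓝 0)) ∧
        eLpNorm u (ENNReal.ofReal q) volume = 1 ∧
        t = ∫ x, ‖G x‖ ^ 2} →
  ∃ ε : ℝ, 0 < ε ∧
    ∀ (u : EuclideanSpace ℝ (Fin N) → ℝ)
      (G : EuclideanSpace ℝ (Fin N) → EuclideanSpace ℝ (Fin N)),
      (MemLp u 2 volume ∧ MemLp G 2 volume ∧
        ∃ φ : ℕ → EuclideanSpace ℝ (Fin N) → ℝ,
          (∀ n, ContDiff ℝ (⊤ : ℕ∞) (φ n) ∧ HasCompactSupport (φ n) ∧ tsupport (φ n) ⊆ Ω) ∧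
          Tendsto (fun n => eLpNorm (fun x => φ n x - u x) 2 volume) atTop (𝓝 0) ∧
          Tendsto (fun n => eLpNorm (fun x => gradient (φ n) x - G x) 2 volume) atTop (𝓝 0)) →
      eLpNorm u (ENNReal.ofReal q) volume = 1 →
      (∀ ψ : EuclideanSpace ℝ (Fin N) → ℝ, ContDiff ℝ (⊤ : ℕ∞) ψ → HasCompactSupport ψ →
        tsupport ψ ⊆ Ω →
        ∫ x, inner ℝ (G x) (gradient ψ x) =
          (∫ x, ‖G x‖ ^ 2) * ∫ x, |u x| ^ (q - 2) * u x * ψ x) →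
      (∫ x, ‖G x‖ ^ 2) < l1 + ε →
      (∫ x, ‖G x‖ ^ 2) = l1 := by
  intro N hN Ω hΩ hΩb q hq hqN l1 hl1
  exact Pool.Agent.MP_5de7bf_an.main_isolated hN hΩ hΩb hq hqN l1 hl1

end Pool.Agent.S04799
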