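import Pool.Statements.S05113
import Pool.Agent.Lib.MP_7a5dd1_an.Main
import Pool.Agent.Lib.MP_7a5dd1_an.Transfer
import Pool.Agent.Lib.MP_7a5dd1_an.C0

set_option autoImplicit false
open Pool Pool.MP_7a5dd1_an

namespace Pool.Agent.S05113

/-- The disc algebra (continuous functions on the closed unit disc, holomorphic inside, sup norm) is primary: for every bounded projection P on it, the range of P or the kernel of P is isomorphic to the whole disc algebra. -/
theorem result :
    ∀ A : Submodule ℂ (BoundedContinuousFunction (Metric.closedBall (0:ℂ) 1) ℂ),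
      (∀ f : BoundedContinuousFunction (Metric.closedBall (0:ℂ) 1) ℂ,
        f ∈ A ↔ ∃ g : ℂ → ℂ, DifferentiableOn ℂ g (Metric.ball (0:ℂ) 1) ∧
          ∀ z : Metric.closedBall (0:ℂ) 1, g (z : ℂ) = f z) →
      ∀ P : A →L[ℂ] A, P.comp P = P →
        (Nonempty (LinearMap.range P.toLinearMap ≃L[ℂ] A) ∨
          Nonempty (LinearMap.ker P.toLinearMap ≃L[ℂ] A)) :=
  Pool.Agent.MP_7a5dd1_an.final
    (Pool.Agent.MP_7a5dd1_an.main_of_c0 Pool.Agent.MP_7a5dd1_an.c0_complemented)

end Pool.Agent.S05113
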