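import Pool.Statements.S05131
import Pool.Agent.Lib.MP_7bc51d_an_s.FullAll16

set_option autoImplicit false
open Pool Pool.MP_7bc51d_an

namespace Pool.Agent.S05131

/-- For every n ≥ 3 and almost every n-tuple of points in convex position, every measurable direction-scale-invariant set invariant under the billiard flow in their convex hull is null or conull in the phase space. -/
theorem result :
  ∀ n : ℕ, 3 ≤ n →
    ∀ᵐ v ∂(MeasureTheory.volume : MeasureTheory.Measure (Fin n → ℂ)),
      ConvexIndependent ℝ v →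
      ∀ A : Set (ℂ × ℂ), MeasurableSet A →
        (∀ x w : ℂ, ∀ c : ℝ, 0 < c → ((x, w) ∈ A ↔ (x, (c : ℂ) * w) ∈ A)) →
        (∀ᵐ p ∂(MeasureTheory.volume : MeasureTheory.Measure (ℂ × ℂ)),
          p.1 ∈ interior (convexHull ℝ (Set.range v)) → p.2 ≠ 0 →
          ∀ τ : ℝ, 0 < τ →
            p.1 + (τ : ℂ) * p.2 ∈ frontier (convexHull ℝ (Set.range v)) →
            (∀ s : ℝ, 0 ≤ s → s < τ → (p ∈ A ↔ (p.1 + (s : ℂ) * p.2, p.2) ∈ A)) ∧
            (p.1 + (τ : ℂ) * p.2 ∉ Set.range v →
              ∀ i j : Fin n, i ≠ j → p.1 + (τ : ℂ) * p.2 ∈ segment ℝ (v i) (v j) →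
                ∀ σ : ℝ, 0 < σ →
                  p.1 + (τ : ℂ) * p.2 + (σ : ℂ) *
                      ((v j - v i) / (starRingEnd ℂ) (v j - v i) * (starRingEnd ℂ) p.2)
                    ∈ frontier (convexHull ℝ (Set.range v)) →
                  ∀ r : ℝ, 0 < r → r < σ →
                    (p ∈ A ↔
                      (p.1 + (τ : ℂ) * p.2 + (r : ℂ) *
                          ((v j - v i) / (starRingEnd ℂ) (v j - v i) * (starRingEnd ℂ) p.2),
                        (v j - v i) / (starRingEnd ℂ) (v j - v i) * (starRingEnd ℂ) p.2) ∈ A))) →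
        MeasureTheory.volume
            (A ∩ (interior (convexHull ℝ (Set.range v)) ×ˢ Metric.ball (0 : ℂ) 1)) = 0 ∨
          MeasureTheory.volume
            ((interior (convexHull ℝ (Set.range v)) ×ˢ Metric.ball (0 : ℂ) 1) \ A) = 0 := by
  exact Pool.Agent.Lib.BilX.Top16.ae_ergodic Pool.Agent.Lib.BilF.All16.const

end Pool.Agent.S05131
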