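import Pool.Statements.S05153
import Pool.Agent.Lib.MP_7d1258_an.Final

set_option autoImplicit false
open Pool Pool.MP_7d1258_an

namespace Pool.Agent.S05153

/-- For n>1, every compact subset K of the unit sphere in C^n that is locally a peak set for smooth-up-to-boundary holomorphic functions on the ball is itself a peak set: some such f equals 1 on K and has modulus below 1 elsewhere on the closed ball. -/
theorem result :
    ∀ n : ℕ, 1 < n → ∀ K : Set (EuclideanSpace ℂ (Fin n)), IsCompact K →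
      K ⊆ Metric.sphere (0 : EuclideanSpace ℂ (Fin n)) 1 →
      (∀ p ∈ K, ∃ V ∈ nhds p, ∃ f : EuclideanSpace ℂ (Fin n) → ℂ,
          ContDiff ℝ ((⊤ : ℕ∞) : WithTop ℕ∞) f ∧
          DifferentiableOn ℂ f (Metric.ball (0 : EuclideanSpace ℂ (Fin n)) 1) ∧
          (∀ z ∈ K ∩ closure V, f z = 1) ∧
          ∀ z ∈ Metric.closedBall (0 : EuclideanSpace ℂ (Fin n)) 1 \ (K ∩ closure V),
            ‖f z‖ < 1) →
      ∃ f : EuclideanSpace ℂ (Fin n) → ℂ,
        ContDiff ℝ ((⊤ : ℕ∞) : WithTop ℕ∞) f ∧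
        DifferentiableOn ℂ f (Metric.ball (0 : EuclideanSpace ℂ (Fin n)) 1) ∧
        (∀ z ∈ K, f z = 1) ∧
        ∀ z ∈ Metric.closedBall (0 : EuclideanSpace ℂ (Fin n)) 1 \ K, ‖f z‖ < 1 := by
  intro n hn K hK hKS hloc
  exact Pool.Agent.PeakLib.main_theorem n hn K hK hKS hloc

end Pool.Agent.S05153
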