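import Pool.Statements.S05913
import Pool.Agent.Lib.MP_b8c7e7_an.Ord

set_option autoImplicit false
open scoped BoundedContinuousFunction
open Pool Pool.MP_b8c7e7_an

namespace Pool.Agent.S05913

/-- For K the ordinal interval [0, omega^omega], every surjective algebra homomorphism from the bounded operators on C(K) onto the bounded operators on any nonzero complex Banach space is injective. -/
theorem result :
    ∀ (Y : Type) [NormedAddCommGroup Y] [NormedSpace ℂ Y] [CompleteSpace Y] [Nontrivial Y],
      ∀ ψ : ((Set.Iic (Ordinal.omega0 ^ Ordinal.omega0 : Ordinal.{0}) →ᵇ ℂ) →L[ℂ]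
              (Set.Iic (Ordinal.omega0 ^ Ordinal.omega0 : Ordinal.{0}) →ᵇ ℂ)) →ₐ[ℂ] (Y →L[ℂ] Y),
        Function.Surjective ψ → Function.Injective ψ := by
  intro Y _ _ _ _ ψ hψ
  exact Pool.Agent.Lib.SHAI.main hψ

end Pool.Agent.S05913
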