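import Pool.Statements.S05962
import Pool.Agent.Lib.MP_bd1451_an.Final

set_option autoImplicit false
open Filter Topology
open Pool Pool.MP_bd1451_an

namespace Pool.Agent.S05962

/-- The negation of the preceding statement: There are C and k(n)→∞ such that every n-dimensional real normed space has k(n) independent vectors spanning a subspace onto which some projection has norm ≤ C, and permuting and sign-changing coefficients in this basis increases norms at most by factor 2. -/
theorem result :
    ¬ (∃ C : ℝ, ∃ k : ℕ → ℕ, Tendsto k atTop atTop ∧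
      ∀ n : ℕ, ∀ (X : Type) [NormedAddCommGroup X] [NormedSpace ℝ X],
        Module.finrank ℝ X = n →
        ∃ e : Fin (k n) → X, LinearIndependent ℝ e ∧
          (∃ P : X →L[ℝ] X,
              (∀ x : X, P x ∈ Submodule.span ℝ (Set.range e)) ∧
              (∀ y ∈ Submodule.span ℝ (Set.range e), P y = y) ∧
              ‖P‖ ≤ C) ∧
          ∀ σ : Equiv.Perm (Fin (k n)), ∀ ε : Fin (k n) → ℝ,
            (∀ i, ε i = 1 ∨ ε i = -1) →
            ∀ a : Fin (k n) → ℝ,
              ‖∑ i, (ε i * a i) • e (σ i)‖ ≤ 2 * ‖∑ i, a i • e i‖) :=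
  Pool.Agent.Lib.MP_bd1451_an.not_main

end Pool.Agent.S05962
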