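import Pool.Statements.S06391
import Pool.Agent.Lib.QNL.Fin77
import Pool.Agent.Lib.QNL.Fin95
import Pool.Agent.Lib.QNL.RegD43
import Pool.Agent.Lib.QNL.End14

set_option autoImplicit false
open Pool Pool.MP_dd244f_an

namespace Pool.Agent.S06391

/-- For every real p ≥ 2, every n, and every Schwartz function f on the plane, the L^p norm of the Fourier multiplier (conj ξ/ξ)^n applied to f is at most (1−1/p)_n/(1/p)_n times the L^p norm of f, with (a)_n the rising Pochhammer symbol. -/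
theorem result :
    ∀ p : ℝ, 2 ≤ p → ∀ n : ℕ, ∀ f : SchwartzMap ℂ ℂ,
      MeasureTheory.eLpNorm
        (fun z : ℂ => ∫ ξ : ℂ,
          Complex.exp (2 * (Real.pi : ℂ) * Complex.I * (((z.re * ξ.re + z.im * ξ.im : ℝ)) : ℂ)) *
            ((starRingEnd ℂ ξ / ξ) ^ n *
              ∫ x : ℂ, Complex.exp (-(2 * (Real.pi : ℂ) * Complex.I *
                (((x.re * ξ.re + x.im * ξ.im : ℝ)) : ℂ))) * f x))
        (ENNReal.ofReal p) MeasureTheory.volume
      ≤ ENNReal.ofReal ((ascPochhammer ℝ n).eval (1 - 1 / p) / (ascPochhammer ℝ n).eval (1 / p))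
        * MeasureTheory.eLpNorm (⇑f) (ENNReal.ofReal p) MeasureTheory.volume := by
  intro p hp n f
  exact Pool.Agent.Lib.QNL.Low77.frz_of_certAll
    (Pool.Agent.Lib.QNL.CG.certAll3_of
      (Pool.Agent.Lib.QNL.CG.okIII.mono (by norm_num) le_rfl le_rfl)
      (Pool.Agent.Lib.QNL.CG.okIV.mono (by norm_num) le_rfl le_rfl)
      (Pool.Agent.Lib.QNL.End14.regVI.mono (by norm_num) le_rfl le_rfl)) n p hp f

end Pool.Agent.S06391
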