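-- Proof of frozen statement S06729.
import Pool.Statements.S06729
import Pool.Agent.Lib.MP_f5ec7d_an.Final

set_option autoImplicit false
open scoped ComplexOrder
open Pool Pool.MP_f5ec7d_an

namespace Pool.Agent.S06729

open Pool.Agent.Lib.F5 in
theorem cut_nice {f : ℝ → ℝ} (hf : ConcaveOn ℝ (Set.Ici 0) f) (hm : MonotoneOn f (Set.Ici 0))
    {k : ℝ} (hk : 0 < k) : Nice (fun t => min (f t - f 0) (k * t)) k where
  conc := by
    have h1 : ConcaveOn ℝ (Set.Ici 0) (fun t => f t - f 0) := by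
      refine ⟨convex_Ici 0, ?_⟩
      intro x hx y hy a b ha hb hab
      have := hf.2 hx hy ha hb hab
      simp only [smul_eq_mul] at this ⊢
      have h3 : a * (f x - f 0) + b * (f y - f 0) = a * f x + b * f y - (a + b) * f 0 := by ring
      rw [h3, hab]
      linarith
    have h2 : ConcaveOn ℝ (Set.Ici 0) (fun t : ℝ => k * t) := by
      refine ⟨convex_Ici 0, ?_⟩
      intro x _ y _ a b _ _ _
      simp only [smul_eq_mul]
      apply le_of_eq
      ring
    exact h1.inf h2
  mono := by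
    intro x hx y hy hxy
    exact min_le_min (by have := hm hx hy hxy; linarith) (mul_le_mul_of_nonneg_left hxy hk.le)
  zero := by simp
  Lpos := hk
  bound := fun t _ => min_le_right _ _

open Pool.Agent.Lib.F5 in
open Matrix in
theorem herm_decomp {n : ℕ} {A : Matrix (Fin n) (Fin n) ℂ} (hA : A.IsHermitian) :
    A = cj (hA.eigenvectorUnitary : Matrix (Fin n) (Fin n) ℂ) hA.eigenvalues := by
  have := hA.spectral_theorem
  rw [Unitary.conjStarAlgAut_apply] at this
  exact this

/-- For every concave monotone f on [0,∞) with f(0)≥0 and all complex PSD matrices A,B there are unitaries U,V with 0 ≤ f(A+B) − U f(A) U* ≤ V f(B) V* in the Loewner order. -/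
theorem result :
    ∀ (n : ℕ) (f : ℝ → ℝ), ConcaveOn ℝ (Set.Ici 0) f → MonotoneOn f (Set.Ici 0) → 0 ≤ f 0 →
      ∀ (A B : Matrix (Fin n) (Fin n) ℂ) (hA : A.PosSemidef) (hB : B.PosSemidef),
        ∃ U ∈ Matrix.unitaryGroup (Fin n) ℂ, ∃ V ∈ Matrix.unitaryGroup (Fin n) ℂ,
          ((((hA.add hB).isHermitian.eigenvectorUnitary : Matrix (Fin n) (Fin n) ℂ) *
              Matrix.diagonal (fun i => ((f ((hA.add hB).isHermitian.eigenvalues i) : ℝ) : ℂ)) *
              star ((hA.add hB).isHermitian.eigenvectorUnitary : Matrix (Fin n) (Fin n) ℂ)) -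
            U * ((hA.isHermitian.eigenvectorUnitary : Matrix (Fin n) (Fin n) ℂ) *
              Matrix.diagonal (fun i => ((f (hA.isHermitian.eigenvalues i) : ℝ) : ℂ)) *
              star (hA.isHermitian.eigenvectorUnitary : Matrix (Fin n) (Fin n) ℂ)) * star U).PosSemidef ∧
          (V * ((hB.isHermitian.eigenvectorUnitary : Matrix (Fin n) (Fin n) ℂ) *
              Matrix.diagonal (fun i => ((f (hB.isHermitian.eigenvalues i) : ℝ) : ℂ)) *
              star (hB.isHermitian.eigenvectorUnitary : Matrix (Fin n) (Fin n) ℂ)) * star V -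
            ((((hA.add hB).isHermitian.eigenvectorUnitary : Matrix (Fin n) (Fin n) ℂ) *
              Matrix.diagonal (fun i => ((f ((hA.add hB).isHermitian.eigenvalues i) : ℝ) : ℂ)) *
              star ((hA.add hB).isHermitian.eigenvectorUnitary : Matrix (Fin n) (Fin n) ℂ)) -
            U * ((hA.isHermitian.eigenvectorUnitary : Matrix (Fin n) (Fin n) ℂ) *
              Matrix.diagonal (fun i => ((f (hA.isHermitian.eigenvalues i) : ℝ) : ℂ)) *
              star (hA.isHermitian.eigenvectorUnitary : Matrix (Fin n) (Fin n) ℂ)) * star U)).PosSemidef := by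
  intro n f hf hm hf0 A B hA hB
  have hAB := hA.add hB
  -- eigenvalues
  have ha0 : ∀ i, 0 ≤ hA.isHermitian.eigenvalues i := fun i => hA.eigenvalues_nonneg i
  have hb0 : ∀ i, 0 ≤ hB.isHermitian.eigenvalues i := fun i => hB.eigenvalues_nonneg i
  have hc0 : ∀ i, 0 ≤ (hA.add hB).isHermitian.eigenvalues i :=
    fun i => (hA.add hB).eigenvalues_nonneg i
  generalize hEAd : (hA.isHermitian.eigenvectorUnitary : Matrix (Fin n) (Fin n) ℂ) = EA
  generalize hEBd : (hB.isHermitian.eigenvectorUnitary : Matrix (Fin n) (Fin n) ℂ) = EB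
  generalize hECd : ((hA.add hB).isHermitian.eigenvectorUnitary : Matrix (Fin n) (Fin n) ℂ) = EC
  have hEA : EA ∈ Matrix.unitaryGroup (Fin n) ℂ := by
    rw [← hEAd]; exact hA.isHermitian.eigenvectorUnitary.2
  have hEB : EB ∈ Matrix.unitaryGroup (Fin n) ℂ := by
    rw [← hEBd]; exact hB.isHermitian.eigenvectorUnitary.2
  have hEC : EC ∈ Matrix.unitaryGroup (Fin n) ℂ := by
    rw [← hECd]; exact (hA.add hB).isHermitian.eigenvectorUnitary.2
  have hAe := herm_decomp hA.isHermitian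
  have hBe := herm_decomp hB.isHermitian
  have hCe := herm_decomp (hA.add hB).isHermitian
  rw [hEAd] at hAe
  rw [hEBd] at hBe
  rw [hECd] at hCe
  generalize hA.isHermitian.eigenvalues = a at *
  generalize hB.isHermitian.eigenvalues = b at *
  generalize (hA.add hB).isHermitian.eigenvalues = c at *
  open Pool.Agent.Lib.F5 in
  open Matrix in
  -- the reduced function
  have hinc : ∀ t, 0 ≤ t → 0 ≤ f t - f 0 := by
    intro t ht
    have := hm (Set.mem_Ici.2 (le_refl (0:ℝ))) (Set.mem_Ici.2 ht) ht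
    linarith
  let S : (Fin n → ℝ) → ℝ := fun v => ∑ i, (f (v i) - f 0) / v i
  have hSnn : ∀ v : Fin n → ℝ, (∀ i, 0 ≤ v i) → 0 ≤ S v := fun v hv =>
    Finset.sum_nonneg (fun i _ => div_nonneg (hinc _ (hv i)) (hv i))
  have hSle : ∀ v : Fin n → ℝ, (∀ i, 0 ≤ v i) → ∀ i, (f (v i) - f 0) / v i ≤ S v := fun v hv i =>
    Finset.single_le_sum (f := fun i => (f (v i) - f 0) / v i)
      (fun i _ => div_nonneg (hinc _ (hv i)) (hv i)) (Finset.mem_univ i)
  set k : ℝ := 1 + S a + S b + S c with hk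
  have hkpos : 0 < k := by
    have h1 := hSnn a ha0
    have h2 := hSnn b hb0
    have h3 := hSnn c hc0
    rw [hk]; linarith
  have hcut : ∀ v : Fin n → ℝ, (∀ i, 0 ≤ v i) → S v ≤ k → ∀ i,
      min (f (v i) - f 0) (k * v i) = f (v i) - f 0 := by
    intro v hv hvk i
    apply min_eq_left
    rcases eq_or_lt_of_le (hv i) with h0 | h0
    · rw [← h0]; simp
    · have h1 := (hSle v hv i).trans hvk
      rwa [div_le_iff₀ h0] at h1
  have hca : ∀ i, min (f (a i) - f 0) (k * a i) = f (a i) - f 0 :=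
    hcut a ha0 (by have h2 := hSnn b hb0; have h3 := hSnn c hc0; rw [hk]; linarith)
  have hcb : ∀ i, min (f (b i) - f 0) (k * b i) = f (b i) - f 0 :=
    hcut b hb0 (by have h2 := hSnn a ha0; have h3 := hSnn c hc0; rw [hk]; linarith)
  have hcc : ∀ i, min (f (c i) - f 0) (k * c i) = f (c i) - f 0 :=
    hcut c hc0 (by have h2 := hSnn a ha0; have h3 := hSnn b hb0; rw [hk]; linarith)
  have hnice := cut_nice hf hm hkpos
  -- conjugate the equation `C = A + B`
  have hP : ECᴴ * EA ∈ Matrix.unitaryGroup (Fin n) ℂ :=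
    mul_mem (Unitary.star_mem hEC) hEA
  have hQ : ECᴴ * EB ∈ Matrix.unitaryGroup (Fin n) ℂ :=
    mul_mem (Unitary.star_mem hEC) hEB
  have hC : dg c = cj (ECᴴ * EA) a + cj (ECᴴ * EB) b := by
    rw [cj_mul, cj_mul, ← hAe, ← hBe, ← Matrix.add_mul, ← Matrix.mul_add]
    conv_rhs => rw [hCe]
    unfold cj
    have : ECᴴ * (EC * dg c * ECᴴ) * ECᴴᴴ = (ECᴴ * EC) * dg c * (ECᴴ * EC) := by
      rw [Matrix.conjTranspose_conjTranspose]
      simp only [Matrix.mul_assoc]
    rw [this, uu' hEC, Matrix.one_mul, Matrix.mul_one]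
  obtain ⟨U, hU, W, hW, x, hx0, hxb, hK⟩ := main_K hnice hP hQ ha0 hb0 hc0 hC
  simp only [hca, hcc] at hK
  have hK' : dg (fun i => f (c i)) - cj U (fun i => f (a i)) =
      cj W (fun i => min (f (x i) - f 0) (k * x i)) := by
    have hone : ∀ V ∈ Matrix.unitaryGroup (Fin n) ℂ, cj V (fun _ => f 0) = cj 1 (fun _ => f 0) := by
      intro V hV
      have h1 : dg (fun _ : Fin n => f 0) = ((f 0 : ℝ) : ℂ) • (1 : Matrix (Fin n) (Fin n) ℂ) := by
        unfold dg
        ext i j
        by_cases hij : i = j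
        · subst hij; simp
        · simp [Matrix.diagonal_apply_ne _ hij, Matrix.one_apply_ne hij]
      unfold cj
      rw [h1, Matrix.mul_smul, Matrix.smul_mul, Matrix.mul_one, uu hV]
      simp
    have hdg1 : ∀ v : Fin n → ℝ, dg v = cj 1 v := by
      intro v; unfold cj; simp
    rw [hdg1] at hK ⊢
    rw [← cj_sub, ← cj_sub, hone U hU] at hK
    have := sub_eq_iff_eq_add.1 hK
    rw [this]
    abel
  refine ⟨EC * U * EAᴴ, mul_mem (mul_mem hEC hU) (Unitary.star_mem hEA), EC * W * EBᴴ,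
    mul_mem (mul_mem hEC hW) (Unitary.star_mem hEB), ?_⟩
  have e1 : (EC * Matrix.diagonal (fun i => ((f (c i) : ℝ) : ℂ)) * star EC) -
      (EC * U * EAᴴ) * (EA * Matrix.diagonal (fun i => ((f (a i) : ℝ) : ℂ)) * star EA) *
        star (EC * U * EAᴴ) = cj (EC * W) (fun i => min (f (x i) - f 0) (k * x i)) := by
    rw [cj_mul, ← hK']
    show EC * dg (fun i => f (c i)) * ECᴴ - (EC * U * EAᴴ) * (EA * dg (fun i => f (a i)) * EAᴴ) *
        (EC * U * EAᴴ)ᴴ = _
    rw [Matrix.mul_sub, Matrix.sub_mul]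
    congr 1
    unfold cj
    rw [Matrix.conjTranspose_mul, Matrix.conjTranspose_mul, Matrix.conjTranspose_conjTranspose]
    calc EC * U * EAᴴ * (EA * dg (fun i => f (a i)) * EAᴴ) * (EA * (Uᴴ * ECᴴ))
        = EC * U * (EAᴴ * EA) * dg (fun i => f (a i)) * (EAᴴ * EA) * (Uᴴ * ECᴴ) := by
          simp only [Matrix.mul_assoc]
      _ = EC * (U * dg (fun i => f (a i)) * Uᴴ) * ECᴴ := by
          rw [uu' hEA, Matrix.mul_one, Matrix.mul_one]; simp only [Matrix.mul_assoc]
  have e2 : (EC * W * EBᴴ) * (EB * Matrix.diagonal (fun i => ((f (b i) : ℝ) : ℂ)) * star EB) *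
        star (EC * W * EBᴴ) = cj (EC * W) (fun i => f (b i)) := by
    show (EC * W * EBᴴ) * (EB * dg (fun i => f (b i)) * EBᴴ) * (EC * W * EBᴴ)ᴴ = _
    unfold cj
    rw [Matrix.conjTranspose_mul (EC * W) EBᴴ, Matrix.conjTranspose_conjTranspose]
    calc EC * W * EBᴴ * (EB * dg (fun i => f (b i)) * EBᴴ) * (EB * (EC * W)ᴴ)
        = EC * W * (EBᴴ * EB) * dg (fun i => f (b i)) * (EBᴴ * EB) * (EC * W)ᴴ := by
          simp only [Matrix.mul_assoc]
      _ = EC * W * dg (fun i => f (b i)) * (EC * W)ᴴ := by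
          rw [uu' hEB, Matrix.mul_one, Matrix.mul_one]
  have hx_nn : ∀ i, 0 ≤ min (f (x i) - f 0) (k * x i) := fun i =>
    le_min (hinc _ (hx0 i)) (mul_nonneg hkpos.le (hx0 i))
  constructor
  · rw [e1]
    exact cj_psd hx_nn
  · rw [e1, e2, cj_sub]
    apply cj_psd
    intro i
    have h1 : min (f (x i) - f 0) (k * x i) ≤ f (x i) - f 0 := min_le_left _ _
    have h2 : f (x i) ≤ f (b i) :=
      hm (Set.mem_Ici.2 (hx0 i)) (Set.mem_Ici.2 ((hx0 i).trans (hxb i))) (hxb i)
    linarith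

end Pool.Agent.S06729
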