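import Pool.Statements.S07416
import Pool.Agent.Lib.MP_1a5e21_co.Final

set_option autoImplicit false
open Pool Pool.MP_1a5e21_co

namespace Pool.Agent.S07416

/-- The negation of the preceding statement: There is c > 0 such that whenever m > w ≥ 1 and some permutation of the w-subsets of an m-set maps every disjoint pair to a non-disjoint pair (two edge-disjoint copies of KG(m,w) in K_N), then w ≥ c·m. -/
theorem result :
    ¬ (∃ c : ℝ, 0 < c ∧ ∀ m w : ℕ, 1 ≤ w → w < m →
      (∃ σ : Equiv.Perm {s : Finset (Fin m) // s.card = w},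
        ∀ s t : {s : Finset (Fin m) // s.card = w},
          Disjoint s.1 t.1 → ¬ Disjoint (σ s).1 (σ t).1) →
      c * (m : ℝ) ≤ (w : ℝ)) := by
  rintro ⟨c, hc, h⟩
  obtain ⟨D, hD⟩ := exists_nat_gt (1 / c)
  have hD1 : 1 ≤ D := by
    have h1 : (0 : ℝ) < 1 / c := by positivity
    have h2 : (0 : ℝ) < (D : ℝ) := h1.trans hD
    exact_mod_cast h2
  obtain ⟨m, w, hw1, hwm, hDw, hσ⟩ := Pool.Agent.Lib.MP_1a5e21_co.main D hD1
  have h3 := h m w hw1 hwm hσ
  have h4 : (1 : ℝ) < c * D := by
    have h5 := (div_lt_iff₀ hc).mp hD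
    linarith [mul_comm c (D : ℝ)]
  have h5 : ((D : ℝ) * w) < m := by exact_mod_cast hDw
  have h6 : (0 : ℝ) < w := by exact_mod_cast hw1
  have h7 : c * ((D : ℝ) * w) < c * m := mul_lt_mul_of_pos_left h5 hc
  have h8 : (w : ℝ) < c * ((D : ℝ) * w) := by
    have : c * ((D : ℝ) * w) = (c * D) * w := by ring
    rw [this]
    nlinarith
  linarith

end Pool.Agent.S07416
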