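import Pool.Statements.S08038
import Pool.Agent.Lib.MP_349e33_co.Hamming
import Pool.Agent.Lib.MP_349e33_co.CF

set_option autoImplicit false
open Pool Pool.MP_349e33_co

namespace Pool.Agent.S08038

open Pool.Agent.Lib.MP_349e33_co

/-- The negation of the preceding statement: There is c>0 such that for every finite graph F and every ε>0, for all large Δ, every finite F-free graph of maximum degree Δ has chromatic number at most (c+ε)Δ/log Δ. -/
theorem result :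
    ¬ (∃ c : ℝ, 0 < c ∧
      ∀ (k : ℕ) (F : SimpleGraph (Fin k)), ∀ ε : ℝ, 0 < ε →
        ∃ Δ₀ : ℕ, ∀ Δ : ℕ, Δ₀ ≤ Δ →
          ∀ (V : Type) [Fintype V] (G : SimpleGraph V) [DecidableRel G.Adj],
            F.Free G → G.maxDegree = Δ →
              ∃ n : ℕ, G.Colorable n ∧
                (n : ℝ) ≤ (c + ε) * ((Δ : ℝ) / Real.log (Δ : ℝ))) := by
  classical
  rintro ⟨c, hc, h⟩
  -- the clique size
  set m : ℕ := ⌈Real.exp (4 * (c + 1))⌉₊ + 2 with hm
  have hm2 : 2 ≤ m := by omega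
  have hm2' : (2 : ℝ) ≤ m := by exact_mod_cast hm2
  have hmlog : 4 * (c + 1) < Real.log m := by
    rw [Real.lt_log_iff_exp_lt (by linarith)]
    have h1 : Real.exp (4 * (c + 1)) ≤ ⌈Real.exp (4 * (c + 1))⌉₊ := Nat.le_ceil _
    have h2 : (m : ℝ) = ⌈Real.exp (4 * (c + 1))⌉₊ + 2 := by rw [hm]; push_cast; ring
    linarith
  obtain ⟨Δ₀, hΔ₀⟩ := h (m + 1) ⊤ 1 one_pos
  -- the graph
  set k : ℕ := Δ₀ + 4 with hk
  have hk1 : 1 ≤ k := by omega
  obtain ⟨n, B, G, hfree, hdeg, hcol⟩ := Hamming.main m hm2 k hk1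
  have hmk : k < m ^ k := Nat.lt_pow_self (by omega)
  -- the maximum degree is large
  have hbig : m ^ k ≤ G.maxDegree + 1 := by
    apply hcol
    apply colorable_of_degree_lt
    intro v
    exact Nat.lt_succ_of_le (G.degree_le_maxDegree v)
  have hΔ3 : 3 ≤ G.maxDegree := by omega
  have hΔΔ₀ : Δ₀ ≤ G.maxDegree := by omega
  have hΔle : G.maxDegree ≤ 4 * k * m ^ k :=
    SimpleGraph.maxDegree_le_of_forall_degree_le _ _ (fun v => hdeg v)
  obtain ⟨q, hq, hle⟩ := hΔ₀ G.maxDegree hΔΔ₀ _ G hfree rfl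
  have hq' : m ^ k ≤ q := hcol q hq
  have hq'' : ((m ^ k : ℕ) : ℝ) ≤ q := by exact_mod_cast hq'
  -- the estimate
  have h1 := div_log_mono hΔ3 hΔle
  have hmk' : (0 : ℝ) < ((m ^ k : ℕ) : ℝ) := by positivity
  have hk' : (0 : ℝ) < k := by exact_mod_cast hk1
  have hlogm : 0 < Real.log m := by linarith
  have h2 : (k : ℝ) * Real.log m ≤ Real.log ((4 * k * m ^ k : ℕ) : ℝ) := by
    rw [← Real.log_pow]
    apply Real.log_le_log (by positivity)
    have h3 : m ^ k ≤ 4 * k * m ^ k := by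
      calc m ^ k = 1 * m ^ k := (one_mul _).symm
        _ ≤ 4 * k * m ^ k := Nat.mul_le_mul_right _ (by omega)
    have h4 : ((m ^ k : ℕ) : ℝ) ≤ ((4 * k * m ^ k : ℕ) : ℝ) := by exact_mod_cast h3
    have h5 : ((m ^ k : ℕ) : ℝ) = (m : ℝ) ^ k := by push_cast; ring
    rw [← h5]
    exact h4
  have h3 : (((4 * k * m ^ k : ℕ) : ℝ) / Real.log ((4 * k * m ^ k : ℕ) : ℝ)) ≤
      ((4 * k * m ^ k : ℕ) : ℝ) / (k * Real.log m) :=
    div_le_div_of_nonneg_left (by positivity) (by positivity) h2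
  have h4 : ((4 * k * m ^ k : ℕ) : ℝ) / (k * Real.log m) =
      4 * ((m ^ k : ℕ) : ℝ) / Real.log m := by
    push_cast
    field_simp
  have h5 : (c + 1) * (4 * ((m ^ k : ℕ) : ℝ) / Real.log m) < ((m ^ k : ℕ) : ℝ) := by
    rw [mul_div_assoc', div_lt_iff₀ hlogm]
    nlinarith
  have h6 : (c + 1) * ((G.maxDegree : ℝ) / Real.log G.maxDegree) ≤
      (c + 1) * (4 * ((m ^ k : ℕ) : ℝ) / Real.log m) := by
    apply mul_le_mul_of_nonneg_left _ (by linarith)
    rw [← h4]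
    exact h1.trans h3
  linarith

end Pool.Agent.S08038
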