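import Pool.Statements.S08041
import Pool.Agent.Lib.MP_34cb91_co.Upper

set_option autoImplicit false
open Pool Pool.MP_34cb91_co

namespace Pool.Agent.S08041

/-- For every n, some latin square of order n is uniquely determined, among all latin squares, by its entries on exactly floor(n^2/4) cells, and no latin square is uniquely determined by its entries on fewer cells. -/
theorem result :
    ∀ n : ℕ,
      (∃ L : Fin n → Fin n → Fin n,
        (∀ i, Function.Injective (L i)) ∧
        (∀ j, Function.Injective (fun i => L i j)) ∧
        ∃ S : Finset (Fin n × Fin n), S.card = n ^ 2 / 4 ∧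
          ∀ M : Fin n → Fin n → Fin n,
            (∀ i, Function.Injective (M i)) →
            (∀ j, Function.Injective (fun i => M i j)) →
            (∀ p ∈ S, M p.1 p.2 = L p.1 p.2) → M = L) ∧
      (∀ L : Fin n → Fin n → Fin n,
        (∀ i, Function.Injective (L i)) →
        (∀ j, Function.Injective (fun i => L i j)) →
        ∀ S : Finset (Fin n × Fin n),
          (∀ M : Fin n → Fin n → Fin n,
            (∀ i, Function.Injective (M i)) →
            (∀ j, Function.Injective (fun i => M i j)) →
            (∀ p ∈ S, M p.1 p.2 = L p.1 p.2) → M = L) →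
          n ^ 2 / 4 ≤ S.card) := by
  intro n
  refine ⟨⟨Pool34cb91.back, (Pool34cb91.back_latin n).1, (Pool34cb91.back_latin n).2,
    Pool34cb91.cells n, Pool34cb91.card_cells n, ?_⟩, ?_⟩
  · intro M h1 h2 h
    exact Pool34cb91.upper n M ⟨h1, h2⟩ h
  · intro L h1 h2 S h
    exact Pool34cb91.lower n L ⟨h1, h2⟩ S (fun M hM hS => h M hM.1 hM.2 hS)

end Pool.Agent.S08041
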