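-- Proof of frozen statement S08599: type (E) occurs for n = 9.
-- The plane below is built from a (13, 6, 9, 1) relative difference set in Z_13 x S_3 relative to S_3
-- (it is the Hughes plane of order 9).
import Pool.Statements.S08599

set_option autoImplicit false
open Pool Pool.MP_4adf9f_co

namespace Pool.Agent.S08599

/-- The cyclic group of order 13, written multiplicatively. -/
abbrev C : Type := Multiplicative (ZMod 13)

/-- The group `Z_13 x S_3` of order 78. -/
abbrev G : Type := C × DihedralGroup 3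

/-- The element `i` of the cyclic group. -/
abbrev c (i : ZMod 13) : C := Multiplicative.ofAdd i

/-- The Singer difference set `{0,1,3,9}` modulo 13. -/
abbrev S : List C := [c 0, c 1, c 3, c 9]

/-- A `(13,6,9,1)` relative difference set in `Z_13 x S_3` relative to `S_3`. -/
abbrev D : List G :=
  [(c 2, .r 0), (c 4, .r 1), (c 5, .r 2), (c 6, .r 1), (c 7, .sr 0), (c 8, .sr 0),
   (c 10, .r 0), (c 11, .sr 0), (c 12, .r 2)]

/-- Points (and also lines) of the plane. -/
abbrev X : Type := C ⊕ G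

/-- The incidence relation: the first argument is the line, the second the point. -/
def inc : X → X → Prop
  | .inl y, .inl x => x⁻¹ * y ∈ S
  | .inr h, .inl x => x = h.1
  | .inl y, .inr g => y = g.1
  | .inr h, .inr g => h⁻¹ * g ∈ D

theorem S_uniq : ∀ a ∈ S, ∀ b ∈ S, ∀ a' ∈ S, ∀ b' ∈ S, a⁻¹ * b = a'⁻¹ * b' → a = b ∨ a = a' := by
  decide +kernel

theorem S_ex : ∀ z : C, ∃ a ∈ S, ∃ b ∈ S, a⁻¹ * b = z := by
  decide +kernel

theorem D_uniq : ∀ a ∈ D, ∀ b ∈ D, ∀ a' ∈ D, ∀ b' ∈ D, a⁻¹ * b = a'⁻¹ * b' → a = b ∨ a = a' := by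
  decide +kernel

theorem D_ex : ∀ z : G, z.1 ≠ 1 → ∃ a ∈ D, ∃ b ∈ D, a⁻¹ * b = z := by
  decide +kernel

theorem D_ex' : ∀ z : G, z.1 ≠ 1 → ∃ a ∈ D, ∃ b ∈ D, a * b⁻¹ = z := by
  decide +kernel

theorem D_inj : ∀ a ∈ D, ∀ b ∈ D, a.1 = b.1 → a = b := by
  decide +kernel

theorem D_not_S : ∀ a ∈ D, a.1 ∉ S := by
  decide +kernel

theorem S_or_D : ∀ z : C, z ∈ S ∨ ∃ s : DihedralGroup 3, (z, s) ∈ D := by
  decide +kernel

theorem C_ne : ∀ z : C, ∃ w : C, w ≠ z := by
  decide +kernel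

/-- Two points lie on at most one common line. -/
theorem inc_uniq (p q l m : X) (h1 : inc l p) (h2 : inc l q) (h3 : inc m p) (h4 : inc m q) :
    p = q ∨ l = m := by
  rcases p with x1 | g1 <;> rcases q with x2 | g2 <;> rcases l with y1 | k1 <;>
    rcases m with y2 | k2 <;> simp only [inc] at h1 h2 h3 h4
  · have h := S_uniq _ h1 _ h3 _ h2 _ h4 (by group)
    rcases h with h | h
    · right; congr 1; exact mul_left_cancel h
    · left; congr 1; exact inv_injective (mul_right_cancel h)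
  · left; rw [h3, h4]
  · left; rw [h1, h2]
  · left; rw [h1, h2]
  · right; rw [h2, h4]
  · exfalso
    refine D_not_S _ h4 ?_
    rw [Prod.fst_mul, Prod.fst_inv, ← h2, ← h3]
    exact h1
  · exfalso
    refine D_not_S _ h2 ?_
    rw [Prod.fst_mul, Prod.fst_inv, ← h4, ← h1]
    exact h3
  · right; congr 1
    have h := D_inj _ h2 _ h4 (by rw [Prod.fst_mul, Prod.fst_mul, Prod.fst_inv, Prod.fst_inv, ← h1, ← h3])
    exact inv_injective (mul_right_cancel h)
  · right; rw [h1, h3]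
  · exfalso
    refine D_not_S _ h3 ?_
    rw [Prod.fst_mul, Prod.fst_inv, ← h1, ← h4]
    exact h2
  · exfalso
    refine D_not_S _ h1 ?_
    rw [Prod.fst_mul, Prod.fst_inv, ← h3, ← h2]
    exact h4
  · right; congr 1
    have h := D_inj _ h1 _ h3 (by rw [Prod.fst_mul, Prod.fst_mul, Prod.fst_inv, Prod.fst_inv, ← h2, ← h4])
    exact inv_injective (mul_right_cancel h)
  · right; rw [h1, h3]
  · left; congr 1
    have h := D_inj _ h3 _ h4 (by rw [Prod.fst_mul, Prod.fst_mul, ← h1, ← h2])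
    exact mul_left_cancel h
  · left; congr 1
    have h := D_inj _ h1 _ h2 (by rw [Prod.fst_mul, Prod.fst_mul, ← h3, ← h4])
    exact mul_left_cancel h
  · have h := D_uniq _ h1 _ h2 _ h3 _ h4 (by group)
    rcases h with h | h
    · left; congr 1; exact mul_left_cancel h
    · right; congr 1; exact inv_injective (mul_right_cancel h)

/-- Two distinct points are joined by a line. -/
theorem line_ex (p q : X) (h : p ≠ q) : ∃ l : X, inc l p ∧ inc l q := by
  rcases p with x1 | g1 <;> rcases q with x2 | g2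
  · obtain ⟨a, ha, b, hb, hab⟩ := S_ex (x1 * x2⁻¹)
    refine ⟨.inl (x1 * a), ?_, ?_⟩
    · simp only [inc]
      rw [inv_mul_cancel_left]; exact ha
    · simp only [inc]
      have : x2⁻¹ * (x1 * a) = b := by
        rw [← mul_assoc, mul_comm x2⁻¹ x1, ← hab, mul_right_comm, inv_mul_cancel, one_mul]
      rw [this]; exact hb
  · rcases S_or_D (x1⁻¹ * g2.1) with hS | ⟨s, hs⟩
    · exact ⟨.inl g2.1, hS, rfl⟩
    · refine ⟨.inr (g2 * (x1⁻¹ * g2.1, s)⁻¹), ?_, ?_⟩
      · simp only [inc]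
        rw [Prod.fst_mul, Prod.fst_inv]
        simp
      · simp only [inc]
        rw [mul_inv_rev, inv_inv, inv_mul_cancel_right]; exact hs
  · rcases S_or_D (x2⁻¹ * g1.1) with hS | ⟨s, hs⟩
    · exact ⟨.inl g1.1, rfl, hS⟩
    · refine ⟨.inr (g1 * (x2⁻¹ * g1.1, s)⁻¹), ?_, ?_⟩
      · simp only [inc]
        rw [mul_inv_rev, inv_inv, inv_mul_cancel_right]; exact hs
      · simp only [inc]
        rw [Prod.fst_mul, Prod.fst_inv]
        simp
  · by_cases h1 : g1.1 = g2.1
    · exact ⟨.inl g1.1, rfl, h1⟩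
    · obtain ⟨a, ha, b, hb, hab⟩ := D_ex (g1⁻¹ * g2) (by
        rw [Prod.fst_mul, Prod.fst_inv]
        intro h2
        exact h1 (inv_mul_eq_one.mp h2))
      refine ⟨.inr (g1 * a⁻¹), ?_, ?_⟩
      · simp only [inc]
        rw [mul_inv_rev, inv_inv, inv_mul_cancel_right]; exact ha
      · simp only [inc]
        have : (g1 * a⁻¹)⁻¹ * g2 = b := by
          rw [mul_inv_rev, inv_inv, mul_assoc, ← hab, mul_inv_cancel_left]
        rw [this]; exact hb

/-- Two distinct lines meet in a point. -/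
theorem point_ex (l m : X) (h : l ≠ m) : ∃ p : X, inc l p ∧ inc m p := by
  rcases l with y1 | k1 <;> rcases m with y2 | k2
  · obtain ⟨a, ha, b, hb, hab⟩ := S_ex (y1⁻¹ * y2)
    refine ⟨.inl (y1 * a⁻¹), ?_, ?_⟩
    · simp only [inc]
      rw [mul_inv_rev, inv_inv, inv_mul_cancel_right]; exact ha
    · simp only [inc]
      have : (y1 * a⁻¹)⁻¹ * y2 = b := by
        rw [mul_inv_rev, inv_inv, mul_assoc, ← hab, mul_inv_cancel_left]
      rw [this]; exact hb
  · rcases S_or_D (k2.1⁻¹ * y1) with hS | ⟨s, hs⟩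
    · exact ⟨.inl k2.1, hS, rfl⟩
    · refine ⟨.inr (k2 * (k2.1⁻¹ * y1, s)), ?_, ?_⟩
      · simp only [inc]
        rw [Prod.fst_mul, mul_inv_cancel_left]
      · simp only [inc]
        rw [inv_mul_cancel_left]; exact hs
  · rcases S_or_D (k1.1⁻¹ * y2) with hS | ⟨s, hs⟩
    · exact ⟨.inl k1.1, rfl, hS⟩
    · refine ⟨.inr (k1 * (k1.1⁻¹ * y2, s)), ?_, ?_⟩
      · simp only [inc]
        rw [inv_mul_cancel_left]; exact hs
      · simp only [inc]
        rw [Prod.fst_mul, mul_inv_cancel_left]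
  · by_cases h1 : k1.1 = k2.1
    · exact ⟨.inl k1.1, rfl, h1⟩
    · obtain ⟨a, ha, b, hb, hab⟩ := D_ex' (k1⁻¹ * k2) (by
        rw [Prod.fst_mul, Prod.fst_inv]
        intro h2
        exact h1 (inv_mul_eq_one.mp h2))
      refine ⟨.inr (k1 * a), ?_, ?_⟩
      · simp only [inc]
        rw [inv_mul_cancel_left]; exact ha
      · simp only [inc]
        have : k2⁻¹ * (k1 * a) = b := by
          have h3 : k2⁻¹ * k1 = (k1⁻¹ * k2)⁻¹ := by rw [mul_inv_rev, inv_inv]
          rw [← mul_assoc, h3, ← hab, mul_inv_rev, inv_inv, inv_mul_cancel_right]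
        rw [this]; exact hb

/-- Membership of a point in a line. -/
@[reducible] def memX : Membership X X := ⟨inc⟩

/-- The projective plane. -/
@[reducible] noncomputable def planeX : @Configuration.ProjectivePlane X X memX :=
  letI := memX
  { exists_point := by
      rintro (y | k)
      · obtain ⟨w, hw⟩ := C_ne y
        exact ⟨.inr (w, 1), fun h => hw (show w = y from (show y = w from h).symm)⟩
      · obtain ⟨w, hw⟩ := C_ne k.1
        exact ⟨.inl w, fun h => hw h⟩
    exists_line := by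
      rintro (x | g)
      · obtain ⟨w, hw⟩ := C_ne x
        exact ⟨.inr (w, 1), fun h => hw (show w = x from (show x = w from h).symm)⟩
      · obtain ⟨w, hw⟩ := C_ne g.1
        exact ⟨.inl w, fun h => hw h⟩
    eq_or_eq := fun {p q l m} h1 h2 h3 h4 => inc_uniq p q l m h1 h2 h3 h4
    mkPoint := fun {l m} h => Classical.choose (point_ex l m h)
    mkPoint_ax := fun {l m} h => Classical.choose_spec (point_ex l m h)
    mkLine := fun {p q} h => Classical.choose (line_ex p q h)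
    mkLine_ax := fun {p q} h => Classical.choose_spec (line_ex p q h)
    exists_config := by
      refine ⟨.inl (c 2), .inl (c 0), .inl (c 12), .inl (c 4), .inl (c 0), .inl (c 1), ?_⟩
      show ¬ ((c 2)⁻¹ * c 0 ∈ S) ∧ ¬ ((c 2)⁻¹ * c 1 ∈ S) ∧ ¬ ((c 0)⁻¹ * c 4 ∈ S) ∧
        ((c 0)⁻¹ * c 0 ∈ S) ∧ ((c 0)⁻¹ * c 1 ∈ S) ∧ ¬ ((c 12)⁻¹ * c 4 ∈ S) ∧
        ((c 12)⁻¹ * c 0 ∈ S) ∧ ¬ ((c 12)⁻¹ * c 1 ∈ S)
      decide +kernel }

/-- The action of the group on points (and on lines). -/
def act (g : G) : X → X := Sum.map (g.1 * ·) (g * ·)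

theorem act_one (x : X) : act 1 x = x := by
  rcases x with x | x <;> simp [act]

theorem act_mul (g h : G) (x : X) : act (g * h) x = act g (act h x) := by
  rcases x with x | x <;> simp [act, mul_assoc]

/-- The action as permutations. -/
def perm (g : G) : Equiv.Perm X where
  toFun := act g
  invFun := act g⁻¹
  left_inv x := by rw [← act_mul, inv_mul_cancel, act_one]
  right_inv x := by rw [← act_mul, mul_inv_cancel, act_one]

/-- The action as a homomorphism. -/
def rho : G →* Equiv.Perm X where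
  toFun := perm
  map_one' := by ext x; exact act_one x
  map_mul' g h := by ext x; exact act_mul g h x

/-- The collineation group. -/
def phi : G →* Equiv.Perm X × Equiv.Perm X := rho.prod rho

theorem phi_inj : Function.Injective phi := by
  intro g h hgh
  have h1 : (phi g).1 (.inr 1) = (phi h).1 (.inr 1) := by rw [hgh]
  have h2 : (Sum.inr (g * 1) : X) = Sum.inr (h * 1) := h1
  simpa using h2

theorem act_inc (g : G) (l p : X) : inc l p ↔ inc (act g l) (act g p) := by
  rcases l with y | k <;> rcases p with x | h <;> simp only [act, Sum.map_inl, Sum.map_inr, inc]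
  · rw [mul_inv_rev, mul_assoc, inv_mul_cancel_left]
  · rw [Prod.fst_mul, mul_right_inj]
  · rw [Prod.fst_mul, mul_right_inj]
  · rw [mul_inv_rev, mul_assoc, inv_mul_cancel_left]

/-- Quasiregularity. -/
theorem act_quasi (g h : G) (x : X) (hx : act g x = x) : act g (act h x) = act h x := by
  rcases x with x | x
  · have h1 : (Sum.inl (g.1 * x) : X) = Sum.inl x := hx
    have h2 : g.1 = 1 := by simpa using h1
    show (Sum.inl (g.1 * (h.1 * x)) : X) = Sum.inl (h.1 * x)
    rw [h2, one_mul]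
  · have h1 : (Sum.inr (g * x) : X) = Sum.inr x := hx
    have h2 : g = 1 := by simpa using h1
    rw [h2, act_one]

theorem orbits : ∃ p q : X, (¬ ∃ g ∈ phi.range, g.1 p = q) ∧
    ∀ r : X, (∃ g ∈ phi.range, g.1 p = r) ∨ (∃ g ∈ phi.range, g.1 q = r) := by
  refine ⟨.inl 1, .inr 1, ?_, ?_⟩
  · rintro ⟨_, ⟨g, rfl⟩, hg⟩
    have h1 : (Sum.inl (g.1 * 1) : X) = Sum.inr 1 := hg
    cases h1
  · rintro (r | r)
    · left
      refine ⟨phi (r, 1), ⟨_, rfl⟩, ?_⟩
      show (Sum.inl (r * 1) : X) = Sum.inl r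
      rw [mul_one]
    · right
      refine ⟨phi r, ⟨_, rfl⟩, ?_⟩
      show (Sum.inr (r * 1) : X) = Sum.inr r
      rw [mul_one]

theorem nofix (p : X) : ∃ g ∈ phi.range, g.1 p ≠ p := by
  refine ⟨phi (c 1, 1), ⟨_, rfl⟩, ?_⟩
  rcases p with x | x
  · show (Sum.inl (c 1 * x) : X) ≠ Sum.inl x
    intro h
    have h1 : c 1 * x = x := Sum.inl_injective h
    have h2 : c 1 = 1 := by simpa using h1
    revert h2
    decide +kernel
  · show (Sum.inr ((c 1, 1) * x) : X) ≠ Sum.inr x
    intro h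
    have h1 : ((c 1, 1) : G) * x = x := Sum.inr_injective h
    have h2 : ((c 1, 1) : G) = 1 := by simpa using h1
    revert h2
    decide +kernel

theorem card_G : Nat.card G = 78 := by
  rw [Nat.card_prod, DihedralGroup.nat_card]
  have : Nat.card C = 13 := by
    rw [Nat.card_eq_fintype_card]; rfl
  rw [this]

theorem card_X : Fintype.card X = 91 := by
  have h1 : Fintype.card C = 13 := rfl
  have h2 : Fintype.card G = 78 := by rw [← Nat.card_eq_fintype_card]; exact card_G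
  rw [Fintype.card_sum, h1, h2]

theorem order_X : @Configuration.ProjectivePlane.order X X memX planeX = 9 := by
  let _ := memX
  let _ := planeX
  have h := Configuration.ProjectivePlane.card_points X X
  rw [card_X] at h
  have h1 : Configuration.ProjectivePlane.order X X ≤ 9 := by
    by_contra h2
    push Not at h2
    nlinarith
  have h2 : 9 ≤ Configuration.ProjectivePlane.order X X := by
    by_contra h3
    push Not at h3
    nlinarith
  exact le_antisymm h1 h2

/-- There is a finite projective plane of square order n=k², n≠4, with a quasiregular collineation group of order n²−√n (>(n²+n+1)/2) having exactly two point orbits, two line orbits, and no fixed points or lines. -/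
theorem result :
    ∃ (P L : Type) (_ : Finite P) (_ : Finite L) (_ : Membership P L)
      (_ : Configuration.ProjectivePlane P L)
      (Γ : Subgroup (Equiv.Perm P × Equiv.Perm L)) (k : ℕ),
      Configuration.ProjectivePlane.order P L = k ^ 2 ∧
      k ^ 2 ≠ 4 ∧
      (∀ g ∈ Γ, ∀ p : P, ∀ l : L, p ∈ l ↔ g.1 p ∈ g.2 l) ∧
      (∀ g ∈ Γ, ∀ p : P, g.1 p = p → ∀ h ∈ Γ, g.1 (h.1 p) = h.1 p) ∧
      (∀ g ∈ Γ, ∀ l : L, g.2 l = l → ∀ h ∈ Γ, g.2 (h.2 l) = h.2 l) ∧
      Nat.card Γ = k ^ 4 - k ∧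
      2 * Nat.card Γ > k ^ 4 + k ^ 2 + 1 ∧
      (∃ p q : P, (¬ ∃ g ∈ Γ, g.1 p = q) ∧
        ∀ r : P, (∃ g ∈ Γ, g.1 p = r) ∨ (∃ g ∈ Γ, g.1 q = r)) ∧
      (∃ l m : L, (¬ ∃ g ∈ Γ, g.2 l = m) ∧
        ∀ r : L, (∃ g ∈ Γ, g.2 l = r) ∨ (∃ g ∈ Γ, g.2 m = r)) ∧
      (∀ p : P, ∃ g ∈ Γ, g.1 p ≠ p) ∧
      (∀ l : L, ∃ g ∈ Γ, g.2 l ≠ l) := by
  have hcard : Nat.card phi.range = 78 := by
    rw [← card_G]
    exact (Nat.card_congr (Equiv.ofInjective phi phi_inj)).symm
  refine ⟨X, X, inferInstance, inferInstance, memX, planeX, phi.range, 3, order_X, by norm_num,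
    ?_, ?_, ?_, ?_, ?_, orbits, ?_, nofix, ?_⟩
  · rintro _ ⟨g, rfl⟩ p l
    exact act_inc g l p
  · rintro _ ⟨g, rfl⟩ p hp _ ⟨h, rfl⟩
    exact act_quasi g h p hp
  · rintro _ ⟨g, rfl⟩ p hp _ ⟨h, rfl⟩
    exact act_quasi g h p hp
  · rw [hcard]; norm_num
  · rw [hcard]; norm_num
  · obtain ⟨p, q, h1, h2⟩ := orbits
    refine ⟨p, q, ?_, ?_⟩
    · rintro ⟨_, ⟨g, rfl⟩, hg⟩
      exact h1 ⟨phi g, ⟨g, rfl⟩, hg⟩
    · intro r
      rcases h2 r with ⟨_, ⟨g, rfl⟩, hg⟩ | ⟨_, ⟨g, rfl⟩, hg⟩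
      · exact Or.inl ⟨phi g, ⟨g, rfl⟩, hg⟩
      · exact Or.inr ⟨phi g, ⟨g, rfl⟩, hg⟩
  · intro p
    obtain ⟨_, ⟨g, rfl⟩, hg⟩ := nofix p
    exact ⟨phi g, ⟨g, rfl⟩, hg⟩

end Pool.Agent.S08599
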