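import Pool.Statements.S09553
import Pool.Agent.Lib.GSX.Fin

/-!
# The Gyarfas-Sumner conjecture

For every finite forest `F` the graphs without an induced copy of `F` are chi-bounded, and only
forests have this property.  The proof: `Lib/GSX/Fin.lean` (one finite graph), `Lib/GSI/RedF.lean`
(the reduction to it, with the chain theorem `Lib/TCW/Main.lean`), `Lib/GSI/Erdos.lean` (the easy
direction).
-/

set_option autoImplicit false
open Pool Pool.MP_763321_co

namespace Pool.Agent.S09553

/-- For every finite graph F: some function f bounds the chromatic number of every finite graph with no induced copy of F and no clique of size k+1 by f(k), for all k, if and only if F is a forest. -/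
theorem result :
    ∀ (n : ℕ) (F : SimpleGraph (Fin n)),
      (∃ f : ℕ → ℕ, ∀ (V : Type) [Fintype V] (G : SimpleGraph V),
          IsEmpty (SimpleGraph.Embedding F G) →
            ∀ k : ℕ, G.CliqueFree (k + 1) → G.chromaticNumber ≤ (f k : ℕ∞))
        ↔ F.IsAcyclic :=
  Pool.Agent.Lib.GSI.main_of_fin Pool.Agent.Lib.GSX.stFin

end Pool.Agent.S09553
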