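import Pool.Statements.S09776

set_option autoImplicit false
open Pool Pool.MP_814928_co

namespace Pool.Agent.S09776

/-! A counterexample to the Katchalski-Lewis conjecture: eight translates of the square
`[0, 14]²`, any three of which have a common transversal, such that every line misses at least
three of them. -/

/-- horizontal coordinates of the translation vectors -/
def X : Fin 8 → ℤ := ![0, 1, 2, 5, 8, 16, 17, 20]
/-- vertical coordinates of the translation vectors -/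
def Y : Fin 8 → ℤ := ![51, 32, 17, 0, 69, 43, 28, 12]

/-- the translation vectors -/
noncomputable def pt (i : Fin 8) : EuclideanSpace ℝ (Fin 2) := !₂[(X i : ℝ), (Y i : ℝ)]

@[simp] theorem pt_zero (i : Fin 8) : pt i 0 = (X i : ℝ) := rfl
@[simp] theorem pt_one (i : Fin 8) : pt i 1 = (Y i : ℝ) := rfl

theorem pt_injective : Function.Injective pt := by
  intro i j h
  have h0 : (X i : ℝ) = X j := by rw [← pt_zero, ← pt_zero, h]
  have h0' : X i = X j := by exact_mod_cast h0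
  have : ∀ i j, X i = X j → i = j := by decide
  exact this i j h0'

/-- the square -/
def K : Set (EuclideanSpace ℝ (Fin 2)) := {x | (0 ≤ x 0 ∧ x 0 ≤ 14) ∧ (0 ≤ x 1 ∧ x 1 ≤ 14)}

theorem isClosed_K : IsClosed K := by
  have c0 : Continuous fun x : EuclideanSpace ℝ (Fin 2) => x 0 := by fun_prop
  have c1 : Continuous fun x : EuclideanSpace ℝ (Fin 2) => x 1 := by fun_prop
  exact ((isClosed_le continuous_const c0).inter (isClosed_le c0 continuous_const)).inter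
    ((isClosed_le continuous_const c1).inter (isClosed_le c1 continuous_const))

theorem isCompact_K : IsCompact K := by
  refine Metric.isCompact_of_isClosed_isBounded isClosed_K ?_
  refine (Metric.isBounded_closedBall (x := (0 : EuclideanSpace ℝ (Fin 2))) (r := 28)).subset ?_
  intro x hx
  obtain ⟨⟨h1, h2⟩, h3, h4⟩ := hx
  rw [mem_closedBall_zero_iff, EuclideanSpace.norm_eq, Fin.sum_univ_two]
  rw [Real.sqrt_le_left (by norm_num)]
  simp only [Real.norm_eq_abs, sq_abs]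
  nlinarith

theorem convex_K : Convex ℝ K := by
  intro x hx y hy a b ha hb hab
  obtain ⟨⟨h1, h2⟩, h3, h4⟩ := hx
  obtain ⟨⟨g1, g2⟩, g3, g4⟩ := hy
  have e0 : (a • x + b • y) 0 = a * x 0 + b * y 0 := by simp
  have e1 : (a • x + b • y) 1 = a * x 1 + b * y 1 := by simp
  have hb' : b = 1 - a := by linarith
  refine ⟨⟨?_, ?_⟩, ?_, ?_⟩
  · rw [e0]; positivity
  · rw [e0]; nlinarith
  · rw [e1]; positivity
  · rw [e1]; nlinarith

theorem mem_translate (i : Fin 8) (z : EuclideanSpace ℝ (Fin 2)) :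
    z ∈ (fun x => pt i + x) '' K ↔
      ((X i : ℝ) ≤ z 0 ∧ z 0 ≤ X i + 14) ∧ ((Y i : ℝ) ≤ z 1 ∧ z 1 ≤ Y i + 14) := by
  constructor
  · rintro ⟨k, ⟨⟨h1, h2⟩, h3, h4⟩, rfl⟩
    have e0 : (pt i + k) 0 = X i + k 0 := by simp
    have e1 : (pt i + k) 1 = Y i + k 1 := by simp
    rw [e0, e1]
    refine ⟨⟨?_, ?_⟩, ?_, ?_⟩ <;> linarith
  · rintro ⟨⟨h1, h2⟩, h3, h4⟩
    refine ⟨z - pt i, ?_, ?_⟩
    · have e0 : (z - pt i) 0 = z 0 - X i := by simp
      have e1 : (z - pt i) 1 = z 1 - Y i := by simp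
      refine ⟨⟨?_, ?_⟩, ?_, ?_⟩
      · rw [e0]; linarith
      · rw [e0]; linarith
      · rw [e1]; linarith
      · rw [e1]; linarith
    · simp

theorem disj_int : ∀ i j : Fin 8, i ≠ j →
    ¬ ((X i ≤ X j + 14 ∧ X j ≤ X i + 14) ∧ (Y i ≤ Y j + 14 ∧ Y j ≤ Y i + 14)) := by decide

/-- coefficients of twelve lines `a x + b y = c` -/
def la : Fin 12 → ℤ := ![1, 1, 2, 10, 19, 2, 2, 22, 2, 2, 4, 6]
/-- coefficients of twelve lines `a x + b y = c` -/
def lb : Fin 12 → ℤ := ![0, 1, -1, 1, 4, -1, -1, -1, 1, 1, 1, -1]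
/-- coefficients of twelve lines `a x + b y = c` -/
def lc : Fin 12 → ℤ := ![8, 59, 14, 203, 428, -25, -4, 415, 52, 62, 101, 63]

/-- the line `l` meets the square `i`, as an inequality between integers -/
def hit (l : Fin 12) (i : Fin 8) : Prop :=
  la l * X i + lb l * Y i + min 0 (14 * la l) + min 0 (14 * lb l) ≤ lc l ∧
    lc l ≤ la l * X i + lb l * Y i + max 0 (14 * la l) + max 0 (14 * lb l)

instance : DecidableRel hit := fun l i => by unfold hit; infer_instance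

theorem three_hit : ∀ i j k : Fin 8, ∃ l : Fin 12, hit l i ∧ hit l j ∧ hit l k := by decide

theorem l_ne : ∀ l, la l ≠ 0 ∨ lb l ≠ 0 := by decide

/-- a line with `hit` really meets the square -/
theorem exists_of_hit (a b c x y : ℝ)
    (h1 : a * x + b * y + min 0 (14 * a) + min 0 (14 * b) ≤ c)
    (h2 : c ≤ a * x + b * y + max 0 (14 * a) + max 0 (14 * b)) :
    ∃ z w : ℝ, (x ≤ z ∧ z ≤ x + 14) ∧ (y ≤ w ∧ w ≤ y + 14) ∧ a * z + b * w = c := by
  -- the corners where `a z + b w` is smallest and largest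
  obtain ⟨x1, x2, hx1, hx2, hx3⟩ : ∃ x1 x2 : ℝ, (x ≤ x1 ∧ x1 ≤ x + 14) ∧
      (x ≤ x2 ∧ x2 ≤ x + 14) ∧ (a * x1 = a * x + min 0 (14 * a) ∧
      a * x2 = a * x + max 0 (14 * a)) := by
    rcases le_total 0 a with h | h
    · refine ⟨x, x + 14, ⟨le_refl _, by linarith⟩, ⟨by linarith, le_refl _⟩, ?_, ?_⟩
      · rw [min_eq_left (by linarith)]; ring
      · rw [max_eq_right (by linarith)]; ring
    · refine ⟨x + 14, x, ⟨by linarith, le_refl _⟩, ⟨le_refl _, by linarith⟩, ?_, ?_⟩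
      · rw [min_eq_right (by linarith)]; ring
      · rw [max_eq_left (by linarith)]; ring
  obtain ⟨y1, y2, hy1, hy2, hy3⟩ : ∃ y1 y2 : ℝ, (y ≤ y1 ∧ y1 ≤ y + 14) ∧
      (y ≤ y2 ∧ y2 ≤ y + 14) ∧ (b * y1 = b * y + min 0 (14 * b) ∧
      b * y2 = b * y + max 0 (14 * b)) := by
    rcases le_total 0 b with h | h
    · refine ⟨y, y + 14, ⟨le_refl _, by linarith⟩, ⟨by linarith, le_refl _⟩, ?_, ?_⟩
      · rw [min_eq_left (by linarith)]; ring
      · rw [max_eq_right (by linarith)]; ring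
    · refine ⟨y + 14, y, ⟨by linarith, le_refl _⟩, ⟨le_refl _, by linarith⟩, ?_, ?_⟩
      · rw [min_eq_right (by linarith)]; ring
      · rw [max_eq_left (by linarith)]; ring
  have hlo : a * x1 + b * y1 ≤ c := by linarith [hx3.1, hy3.1]
  have hhi : c ≤ a * x2 + b * y2 := by linarith [hx3.2, hy3.2]
  -- intermediate value along the segment
  obtain ⟨t, ht0, ht1, ht⟩ : ∃ t : ℝ, 0 ≤ t ∧ t ≤ 1 ∧
      (a * x1 + b * y1) + t * ((a * x2 + b * y2) - (a * x1 + b * y1)) = c := by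
    rcases eq_or_lt_of_le (hlo.trans hhi) with h | h
    · exact ⟨0, le_refl _, zero_le_one, by linarith⟩
    · refine ⟨(c - (a * x1 + b * y1)) / ((a * x2 + b * y2) - (a * x1 + b * y1)), ?_, ?_, ?_⟩
      · apply div_nonneg <;> linarith
      · rw [div_le_one (by linarith)]; linarith
      · rw [div_mul_cancel₀ _ (by linarith)]; ring
  refine ⟨x1 + t * (x2 - x1), y1 + t * (y2 - y1), ⟨?_, ?_⟩, ⟨?_, ?_⟩, ?_⟩
  · nlinarith [hx1.1, hx2.1]
  · nlinarith [hx1.2, hx2.2]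
  · nlinarith [hy1.1, hy2.1]
  · nlinarith [hy1.2, hy2.2]
  · linarith

theorem line_of_hit (l : Fin 12) :
    ∃ p v : EuclideanSpace ℝ (Fin 2), v ≠ 0 ∧
      ∀ i, hit l i → ∃ s : ℝ, p + s • v ∈ (fun x => pt i + x) '' K := by
  have hne : ((la l : ℤ) : ℝ) ≠ 0 ∨ ((lb l : ℤ) : ℝ) ≠ 0 := by
    rcases l_ne l with h | h
    · left; exact_mod_cast h
    · right; exact_mod_cast h
  obtain ⟨a, ha⟩ : ∃ a : ℝ, a = ((la l : ℤ) : ℝ) := ⟨_, rfl⟩
  obtain ⟨b, hb⟩ : ∃ b : ℝ, b = ((lb l : ℤ) : ℝ) := ⟨_, rfl⟩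
  obtain ⟨c, hc⟩ : ∃ c : ℝ, c = ((lc l : ℤ) : ℝ) := ⟨_, rfl⟩
  rw [← ha, ← hb] at hne
  have hD : 0 < a ^ 2 + b ^ 2 := by
    rcases hne with h | h
    · have := pow_pos (abs_pos.2 h) 2
      rw [sq_abs] at this
      nlinarith [sq_nonneg b]
    · have := pow_pos (abs_pos.2 h) 2
      rw [sq_abs] at this
      nlinarith [sq_nonneg a]
  refine ⟨!₂[c * a / (a ^ 2 + b ^ 2), c * b / (a ^ 2 + b ^ 2)], !₂[-b, a], ?_, ?_⟩
  · intro h
    have h0 : (!₂[-b, a] : EuclideanSpace ℝ (Fin 2)) 0 = 0 := by rw [h]; rfl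
    have h1 : (!₂[-b, a] : EuclideanSpace ℝ (Fin 2)) 1 = 0 := by rw [h]; rfl
    have h0' : -b = 0 := h0
    have h1' : a = 0 := h1
    rcases hne with h | h
    · exact h h1'
    · exact h (by linarith)
  · intro i hi
    obtain ⟨h1, h2⟩ := hi
    have h1' : a * X i + b * Y i + min 0 (14 * a) + min 0 (14 * b) ≤ c := by
      rw [ha, hb, hc]; exact_mod_cast h1
    have h2' : c ≤ a * X i + b * Y i + max 0 (14 * a) + max 0 (14 * b) := by
      rw [ha, hb, hc]; exact_mod_cast h2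
    obtain ⟨z, w, hz, hw, hzw⟩ := exists_of_hit a b c (X i) (Y i) h1' h2'
    refine ⟨(-b * z + a * w) / (a ^ 2 + b ^ 2), ?_⟩
    rw [mem_translate]
    have e0 : (!₂[c * a / (a ^ 2 + b ^ 2), c * b / (a ^ 2 + b ^ 2)] +
        ((-b * z + a * w) / (a ^ 2 + b ^ 2)) • !₂[-b, a] : EuclideanSpace ℝ (Fin 2)) 0 = z := by
      have : (!₂[c * a / (a ^ 2 + b ^ 2), c * b / (a ^ 2 + b ^ 2)] +
        ((-b * z + a * w) / (a ^ 2 + b ^ 2)) • !₂[-b, a] : EuclideanSpace ℝ (Fin 2)) 0 =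
          c * a / (a ^ 2 + b ^ 2) + (-b * z + a * w) / (a ^ 2 + b ^ 2) * (-b) := rfl
      rw [this, ← hzw]
      field_simp
      ring
    have e1 : (!₂[c * a / (a ^ 2 + b ^ 2), c * b / (a ^ 2 + b ^ 2)] +
        ((-b * z + a * w) / (a ^ 2 + b ^ 2)) • !₂[-b, a] : EuclideanSpace ℝ (Fin 2)) 1 = w := by
      have : (!₂[c * a / (a ^ 2 + b ^ 2), c * b / (a ^ 2 + b ^ 2)] +
        ((-b * z + a * w) / (a ^ 2 + b ^ 2)) • !₂[-b, a] : EuclideanSpace ℝ (Fin 2)) 1 =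
          c * b / (a ^ 2 + b ^ 2) + (-b * z + a * w) / (a ^ 2 + b ^ 2) * a := rfl
      rw [this, ← hzw]
      field_simp
      ring
    rw [e0, e1]
    exact ⟨hz, hw⟩

/-! ### No line meets six of the squares -/

/-- certificates for lines whose normal vector has coordinates of the same sign -/
def certP : Fin 5 → Fin 8 × Fin 8 × Fin 8 × Fin 8 × ℕ × ℕ :=
  ![(4, 1, 5, 1, 2, 15), (4, 2, 6, 2, 1, 9), (4, 3, 7, 3, 1, 12), (5, 0, 5, 2, 1, 2),
    (6, 3, 7, 3, 1, 3)]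

/-- certificates for lines whose normal vector has coordinates of opposite signs -/
def certM : Fin 4 → Fin 8 × Fin 8 × Fin 8 × Fin 8 × ℕ × ℕ :=
  ![(7, 1, 7, 1, 1, 1), (3, 0, 5, 0, 1, 5), (6, 1, 6, 4, 8, 3), (7, 2, 7, 4, 1, 1)]

/-- validity of a certificate, with `e = 1` or `e = -1` -/
def valid (e : ℤ) (c : Fin 8 × Fin 8 × Fin 8 × Fin 8 × ℕ × ℕ) : Prop :=
  0 < (c.2.2.2.2.1 : ℤ) * (X c.1 - X c.2.1 - 14) +
      (c.2.2.2.2.2 : ℤ) * (X c.2.2.1 - X c.2.2.2.1 - 14) ∧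
  0 < (c.2.2.2.2.1 : ℤ) * (e * (Y c.1 - Y c.2.1) - 14) +
      (c.2.2.2.2.2 : ℤ) * (e * (Y c.2.2.1 - Y c.2.2.2.1) - 14)

instance (e : ℤ) (c : Fin 8 × Fin 8 × Fin 8 × Fin 8 × ℕ × ℕ) : Decidable (valid e c) := by
  unfold valid; infer_instance

theorem certP_valid : ∀ m, valid 1 (certP m) := by decide
theorem certM_valid : ∀ m, valid (-1) (certM m) := by decide

theorem certP_avoid : ∀ I : Finset (Fin 8), I.card ≤ 2 → ∃ m, (certP m).1 ∉ I ∧
    (certP m).2.1 ∉ I ∧ (certP m).2.2.1 ∉ I ∧ (certP m).2.2.2.1 ∉ I := by decide +kernel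
theorem certM_avoid : ∀ I : Finset (Fin 8), I.card ≤ 2 → ∃ m, (certM m).1 ∉ I ∧
    (certM m).2.1 ∉ I ∧ (certM m).2.2.1 ∉ I ∧ (certM m).2.2.2.1 ∉ I := by decide +kernel

/-- A certificate excludes a line. The line is `w₁ z₀ + e w₂ z₁ = c` with `w₁, w₂ ≥ 0`. -/
theorem no_line (e : ℤ) (he : e = 1 ∨ e = -1) (C : Fin 8 × Fin 8 × Fin 8 × Fin 8 × ℕ × ℕ)
    (hC : valid e C) (w1 w2 c : ℝ) (hw1 : 0 ≤ w1) (hw2 : 0 ≤ w2) (hw : w1 ≠ 0 ∨ w2 ≠ 0)
    (hit : ∀ i, i = C.1 ∨ i = C.2.1 ∨ i = C.2.2.1 ∨ i = C.2.2.2.1 →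
      ∃ z0 z1 : ℝ, ((X i : ℝ) ≤ z0 ∧ z0 ≤ X i + 14) ∧ ((Y i : ℝ) ≤ z1 ∧ z1 ≤ Y i + 14) ∧
        w1 * z0 + e * w2 * z1 = c) : False := by
  obtain ⟨i, j, k, l, lam, mu⟩ := C
  obtain ⟨v1, v2⟩ := hC
  simp only at v1 v2 hit
  -- difference bound for two squares that are hit
  have key : ∀ a b : Fin 8, (∃ z0 z1 : ℝ, ((X a : ℝ) ≤ z0 ∧ z0 ≤ X a + 14) ∧
        ((Y a : ℝ) ≤ z1 ∧ z1 ≤ Y a + 14) ∧ w1 * z0 + e * w2 * z1 = c) →
      (∃ z0 z1 : ℝ, ((X b : ℝ) ≤ z0 ∧ z0 ≤ X b + 14) ∧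
        ((Y b : ℝ) ≤ z1 ∧ z1 ≤ Y b + 14) ∧ w1 * z0 + e * w2 * z1 = c) →
      w1 * ((X a : ℝ) - X b - 14) + w2 * ((e : ℝ) * (Y a - Y b) - 14) ≤ 0 := by
    rintro a b ⟨z0, z1, ⟨p1, p2⟩, ⟨p3, p4⟩, p5⟩ ⟨y0, y1, ⟨q1, q2⟩, ⟨q3, q4⟩, q5⟩
    have m1 := mul_le_mul_of_nonneg_left p1 hw1
    have m2 := mul_le_mul_of_nonneg_left q2 hw1
    have m3 := mul_le_mul_of_nonneg_left p3 hw2
    have m4 := mul_le_mul_of_nonneg_left p4 hw2
    have m5 := mul_le_mul_of_nonneg_left q3 hw2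
    have m6 := mul_le_mul_of_nonneg_left q4 hw2
    rcases he with rfl | rfl
    · push_cast at p5 q5 ⊢
      linarith
    · push_cast at p5 q5 ⊢
      linarith
  have k1 := key i j (hit i (Or.inl rfl)) (hit j (Or.inr (Or.inl rfl)))
  have k2 := key k l (hit k (Or.inr (Or.inr (Or.inl rfl)))) (hit l (Or.inr (Or.inr (Or.inr rfl))))
  have hlam : (0 : ℝ) ≤ lam := Nat.cast_nonneg _
  have hmu : (0 : ℝ) ≤ mu := Nat.cast_nonneg _
  have s1 := mul_le_mul_of_nonneg_left k1 hlam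
  have s2 := mul_le_mul_of_nonneg_left k2 hmu
  have v1' : (0 : ℝ) < (lam : ℝ) * ((X i : ℝ) - X j - 14) + mu * ((X k : ℝ) - X l - 14) := by
    exact_mod_cast v1
  have v2' : (0 : ℝ) < (lam : ℝ) * ((e : ℝ) * (Y i - Y j) - 14) +
      mu * ((e : ℝ) * (Y k - Y l) - 14) := by
    exact_mod_cast v2
  have hsum : w1 * ((lam : ℝ) * ((X i : ℝ) - X j - 14) + mu * ((X k : ℝ) - X l - 14)) +
      w2 * ((lam : ℝ) * ((e : ℝ) * (Y i - Y j) - 14) + mu * ((e : ℝ) * (Y k - Y l) - 14)) ≤ 0 := by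
    linarith
  rcases hw with h | h
  · have hpos : 0 < w1 := lt_of_le_of_ne hw1 (Ne.symm h)
    have a1 := mul_pos hpos v1'
    have a2 := mul_nonneg hw2 v2'.le
    linarith
  · have hpos : 0 < w2 := lt_of_le_of_ne hw2 (Ne.symm h)
    have a1 := mul_pos hpos v2'
    have a2 := mul_nonneg hw1 v1'.le
    linarith

/-- No line `u₁ z₀ + u₂ z₁ = c` meets all squares outside a set of at most two indices. -/
theorem no_line_all (u1 u2 c : ℝ) (hu : u1 ≠ 0 ∨ u2 ≠ 0) (I : Finset (Fin 8)) (hI : I.card ≤ 2)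
    (hit : ∀ i, i ∉ I →
      ∃ z0 z1 : ℝ, ((X i : ℝ) ≤ z0 ∧ z0 ≤ X i + 14) ∧ ((Y i : ℝ) ≤ z1 ∧ z1 ≤ Y i + 14) ∧
        u1 * z0 + u2 * z1 = c) : False := by
  -- reduce to `0 ≤ u1`
  wlog h1 : 0 ≤ u1 generalizing u1 u2 c with H
  · refine H (-u1) (-u2) (-c) ?_ ?_ ?_
    · rcases hu with h | h
      · left; simpa using h
      · right; simpa using h
    · intro i hi
      obtain ⟨z0, z1, hz0, hz1, hz⟩ := hit i hi
      exact ⟨z0, z1, hz0, hz1, by rw [← hz]; ring⟩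
    · linarith
  rcases le_total 0 u2 with h2 | h2
  · obtain ⟨m, m1, m2, m3, m4⟩ := certP_avoid I hI
    refine no_line 1 (Or.inl rfl) (certP m) (certP_valid m) u1 u2 c h1 h2 hu ?_
    rintro i (rfl | rfl | rfl | rfl)
    · simpa using hit _ m1
    · simpa using hit _ m2
    · simpa using hit _ m3
    · simpa using hit _ m4
  · obtain ⟨m, m1, m2, m3, m4⟩ := certM_avoid I hI
    refine no_line (-1) (Or.inr rfl) (certM m) (certM_valid m) u1 (-u2) c h1 (by linarith)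
      (by rcases hu with h | h
          · left; exact h
          · right; simpa using h) ?_
    rintro i (rfl | rfl | rfl | rfl)
    · simpa using hit _ m1
    · simpa using hit _ m2
    · simpa using hit _ m3
    · simpa using hit _ m4

/-- The negation of the preceding statement: For any compact convex planar set K and finitely many pairwise disjoint translates of K, if every at most three of them are met by a common line, then some line meets all of them except at most two. -/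
theorem result :
    ¬ (∀ (K : Set (EuclideanSpace ℝ (Fin 2))), IsCompact K → Convex ℝ K →
      ∀ (T : Finset (EuclideanSpace ℝ (Fin 2))),
        (∀ a ∈ T, ∀ b ∈ T, a ≠ b →
          Disjoint ((fun x => a + x) '' K) ((fun x => b + x) '' K)) →
        (∀ S ⊆ T, S.card ≤ 3 →
          ∃ p v : EuclideanSpace ℝ (Fin 2), v ≠ 0 ∧
            ∀ a ∈ S, ∃ s : ℝ, p + s • v ∈ (fun x => a + x) '' K) →
        ∃ p v : EuclideanSpace ℝ (Fin 2), v ≠ 0 ∧
          ∃ E ⊆ T, E.card ≤ 2 ∧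
            ∀ a ∈ T \ E, ∃ s : ℝ, p + s • v ∈ (fun x => a + x) '' K) := by
  classical
  intro H
  have hdisj : ∀ a ∈ Finset.univ.image pt, ∀ b ∈ Finset.univ.image pt, a ≠ b →
      Disjoint ((fun x => a + x) '' K) ((fun x => b + x) '' K) := by
    intro a ha b hb hab
    rw [Finset.mem_image] at ha hb
    obtain ⟨i, -, rfl⟩ := ha
    obtain ⟨j, -, rfl⟩ := hb
    have hij : i ≠ j := fun h => hab (by rw [h])
    rw [Set.disjoint_left]
    intro z hz1 hz2
    rw [mem_translate] at hz1 hz2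
    obtain ⟨⟨a1, a2⟩, a3, a4⟩ := hz1
    obtain ⟨⟨b1, b2⟩, b3, b4⟩ := hz2
    apply disj_int i j hij
    refine ⟨⟨?_, ?_⟩, ?_, ?_⟩
    · have : (X i : ℝ) ≤ X j + 14 := by linarith
      exact_mod_cast this
    · have : (X j : ℝ) ≤ X i + 14 := by linarith
      exact_mod_cast this
    · have : (Y i : ℝ) ≤ Y j + 14 := by linarith
      exact_mod_cast this
    · have : (Y j : ℝ) ≤ Y i + 14 := by linarith
      exact_mod_cast this
  have htriple : ∀ S ⊆ Finset.univ.image pt, S.card ≤ 3 →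
      ∃ p v : EuclideanSpace ℝ (Fin 2), v ≠ 0 ∧
        ∀ a ∈ S, ∃ s : ℝ, p + s • v ∈ (fun x => a + x) '' K := by
    intro S hS hSc
    obtain ⟨I, hI, rfl⟩ : ∃ I : Finset (Fin 8), I.card ≤ 3 ∧ I.image pt = S := by
      refine ⟨Finset.univ.filter fun i => pt i ∈ S, ?_, ?_⟩
      · refine le_trans ?_ hSc
        rw [← Finset.card_image_of_injective _ pt_injective]
        apply Finset.card_le_card
        intro x hx
        rw [Finset.mem_image] at hx
        obtain ⟨i, hi, rfl⟩ := hx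
        exact (Finset.mem_filter.1 hi).2
      · ext x
        rw [Finset.mem_image]
        constructor
        · rintro ⟨i, hi, rfl⟩
          exact (Finset.mem_filter.1 hi).2
        · intro hx
          have hx' := hS hx
          rw [Finset.mem_image] at hx'
          obtain ⟨i, -, rfl⟩ := hx'
          exact ⟨i, Finset.mem_filter.2 ⟨Finset.mem_univ _, hx⟩, rfl⟩
    have hcov : ∀ I : Finset (Fin 8), I.card ≤ 3 →
        ∃ i j k : Fin 8, ∀ x ∈ I, x = i ∨ x = j ∨ x = k := by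
      decide +kernel
    obtain ⟨i, j, k, hijk⟩ := hcov I hI
    obtain ⟨l, l1, l2, l3⟩ := three_hit i j k
    obtain ⟨p, v, hv, hl⟩ := line_of_hit l
    refine ⟨p, v, hv, ?_⟩
    intro a ha
    rw [Finset.mem_image] at ha
    obtain ⟨m, hm, rfl⟩ := ha
    apply hl
    rcases hijk m hm with rfl | rfl | rfl
    · exact l1
    · exact l2
    · exact l3
  obtain ⟨p, v, hv, E, hE, hEc, hline⟩ :=
    H K isCompact_K convex_K (Finset.univ.image pt) hdisj htriple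
  have hu : (-(v 1)) ≠ 0 ∨ v 0 ≠ 0 := by
    by_contra hcon
    push Not at hcon
    apply hv
    ext i
    fin_cases i
    · simpa using hcon.2
    · simpa using hcon.1
  refine no_line_all (-(v 1)) (v 0) (-(v 1) * p 0 + v 0 * p 1) hu
    (Finset.univ.filter fun i => pt i ∈ E) ?_ ?_
  · refine le_trans ?_ hEc
    rw [← Finset.card_image_of_injective _ pt_injective]
    apply Finset.card_le_card
    intro x hx
    rw [Finset.mem_image] at hx
    obtain ⟨i, hi, rfl⟩ := hx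
    exact (Finset.mem_filter.1 hi).2
  · intro i hi
    have hi' : pt i ∉ E := fun h => hi (Finset.mem_filter.2 ⟨Finset.mem_univ _, h⟩)
    obtain ⟨s, hs⟩ := hline (pt i)
      (Finset.mem_sdiff.2 ⟨Finset.mem_image_of_mem _ (Finset.mem_univ _), hi'⟩)
    rw [mem_translate] at hs
    refine ⟨(p + s • v) 0, (p + s • v) 1, hs.1, hs.2, ?_⟩
    have e0 : (p + s • v) 0 = p 0 + s * v 0 := by simp
    have e1 : (p + s • v) 1 = p 1 + s * v 1 := by simp
    rw [e0, e1]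
    ring

end Pool.Agent.S09776
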