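import Pool.Statements.S09876
import Pool.Agent.Lib.MP_862149_co.Flow
import Pool.Agent.Lib.MP_862149_co.Graph
import Pool.Agent.Lib.MP_862149_co.Table

/-!
Disproof. Let `f D j` be the sum of the flow polynomials at `Q = 11 / 2` over all pairings of the half-edges
of one vertex of degree `D` and `j` cubic vertices. Deletion-contraction gives a recursion for `f`, and
`f 3 333 < 0`. So some cubic multigraph on 334 vertices has a negative value at `11 / 2`; gluing components
at a vertex and using that bridges give the value zero one gets a 2-edge-connected graph.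
-/

set_option autoImplicit false
open Pool Pool.MP_862149_co

namespace Pool.Agent.S09876

open Finset Pool.Agent.MP_862149_co

/-- Normalised real version of the integer table. -/
noncomputable def fR (D j : ℕ) : ℝ := (G j D : ℝ) / (Real.sqrt 2) ^ (D + 3 * j)

theorem sqrt2_sq : (Real.sqrt 2) ^ 2 = 2 := Real.sq_sqrt (by norm_num)

theorem sqrt2_ne : (Real.sqrt 2) ≠ 0 := by positivity

theorem fR_rec : Rec (11 / 2) fR where
  h00 := by simp [fR, G]
  h0 j := by
    have e : G (j + 1) 0 = G j 3 := by rw [G]
    unfold fR
    rw [e]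
    congr 2
    ring
  hD0 D := by
    have e : G 0 (D + 2) = 9 * (D + 1) * G 0 D := by rw [G]
    unfold fR
    rw [e, show D + 2 + 3 * 0 = (D + 3 * 0) + 2 by ring, pow_add, sqrt2_sq]
    have := pow_ne_zero (D + 3 * 0) sqrt2_ne
    push_cast
    field_simp
    ring
  h1 j := by
    have e : G (j + 1) 1 = 6 * (j + 1) * (G j 2 - (6 * (j + 1) + 3) * G j 0) := by rw [G]
    unfold fR
    rw [e, show 1 + 3 * (j + 1) = (0 + 3 * j) + 2 + 2 by ring,
      show 2 + 3 * j = (0 + 3 * j) + 2 by ring, pow_add _ (0 + 3 * j + 2), pow_add _ (0 + 3 * j),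
      sqrt2_sq]
    have := pow_ne_zero (0 + 3 * j) sqrt2_ne
    push_cast
    field_simp
    ring
  hD D j := by
    have e : G (j + 1) (D + 2) = 9 * (D + 1) * G (j + 1) D +
      6 * (j + 1) * (G j (D + 3) - (2 * (D + 2) + 6 * (j + 1) + 1) * G j (D + 1)) := by rw [G]
    unfold fR
    rw [e, show D + 2 + 3 * (j + 1) = (D + 1 + 3 * j) + 2 + 2 by ring,
      show D + 3 * (j + 1) = (D + 1 + 3 * j) + 2 by ring,
      show D + 3 + 3 * j = (D + 1 + 3 * j) + 2 by ring,
      pow_add _ (D + 1 + 3 * j + 2), pow_add _ (D + 1 + 3 * j), sqrt2_sq]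
    have := pow_ne_zero (D + 1 + 3 * j) sqrt2_ne
    push_cast
    field_simp
    ring

theorem fR_neg : fR 3 333 < 0 := by
  unfold fR
  apply div_neg_of_neg_of_pos
  · exact_mod_cast G_neg
  · positivity

/-- Total sum over all cubic pairings on 334 vertices. -/
theorem total_neg : S (H := Fin 334 × Fin 3) (V := Fin 334) Prod.fst (11 / 2) 501 Finset.univ ⊥ < 0 := by
  classical
  have hcard : (Finset.univ : Finset (Fin 334 × Fin 3)).card = 2 * 501 := by
    rw [card_univ, Fintype.card_prod, Fintype.card_fin, Fintype.card_fin]
  have hdeg : ∀ v : Fin 334, deg (H := Fin 334 × Fin 3) Prod.fst univ (⊥ : Setoid (Fin 334)) v = 3 := by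
    intro v
    unfold deg
    have : (univ.filter (fun x : Fin 334 × Fin 3 => (⊥ : Setoid (Fin 334)) x.1 v)) =
        ({v} : Finset (Fin 334)) ×ˢ (univ : Finset (Fin 3)) := by
      ext ⟨x, y⟩
      rw [mem_filter, mem_product, mem_singleton, Setoid.bot_def]
      simp only [mem_univ, true_and, and_true]
    rw [this, card_product, card_singleton, card_univ, Fintype.card_fin]
  have hT : T1 (H := Fin 334 × Fin 3) Prod.fst univ (⊥ : Setoid (Fin 334)) 0 3 333 := by
    refine ⟨hdeg 0, fun v _ => Or.inr (hdeg v), ?_⟩
    rw [hcard]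
  have h := (stmt_all (H := Fin 334 × Fin 3) (V := Fin 334) Prod.fst (11 / 2) fR fR_rec 501
    univ ⊥ hcard).1 0 3 333 hT
  rw [h]
  exact mul_neg_of_pos_of_neg (by positivity) fR_neg

/-- The negation of the preceding statement: For every finite multigraph (loops and parallel edges allowed) that is connected and stays connected after deleting any one edge, its flow polynomial, written as a signed sum over edge subsets, is positive at 5.5. -/
theorem result :
    ¬ (∀ (V E : Type) [Fintype V] [Fintype E] (ends : E → Sym2 V),
      (SimpleGraph.fromEdgeSet (Set.range ends)).Connected →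
      (∀ e : E, (SimpleGraph.fromEdgeSet (ends '' ({e}ᶜ : Set E))).Connected) →
      0 < ∑ A ∈ (Finset.univ : Finset E).powerset,
            (-1 : ℝ) ^ (Fintype.card E - A.card) *
              (11 / 2 : ℝ) ^ ((A.card +
                Nat.card (SimpleGraph.fromEdgeSet (ends '' (A : Set E))).ConnectedComponent)
                  - Fintype.card V)) := by
  classical
  intro hyp
  obtain ⟨p, hp⟩ := exists_Psi_neg (11 / 2) Prod.fst 501 univ ⊥ total_neg
  -- edges indexed by `Fin p.length`
  set a : Fin p.length → Fin 334 := fun i => (p.get i).1 with ha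
  set b : Fin p.length → Fin 334 := fun i => (p.get i).2 with hb
  have hpl : p = (List.finRange p.length).map (fun i => (a i, b i)) := by
    rw [ha, hb]
    simp only [Prod.mk.eta]
    exact (List.map_get_finRange p).symm
  have hPhi : Phi (11 / 2) a b univ ⊥ < 0 := by
    have h1 := Psi_eq_Phi (11 / 2) a b (List.finRange p.length) (List.nodup_finRange _) ⊥
    rw [← hpl] at h1
    have h2 : (List.finRange p.length).toFinset = univ := by
      ext i; simp
    rw [h2] at h1
    rw [← h1]; exact hp
  obtain ⟨r, hr, hneg⟩ := exists_connected (11 / 2) a b (by norm_num) univ _ ⊥ rfl hPhi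
  have hbr : ∀ e : Fin p.length, r ⊔ gen a b (univ.erase e) = ⊤ := by
    intro e
    by_contra hcon
    exact absurd (bridge (11 / 2) a b (mem_univ e) hr hcon) (ne_of_lt hneg)
  have : Fintype (Quotient r) := Fintype.ofFinite _
  have H := hyp (Quotient r) (Fin p.length) (endsQ a b r) ?_ ?_
  · have hsum : (11 / 2 : ℝ) ^ K r * ∑ A ∈ (Finset.univ : Finset (Fin p.length)).powerset,
            (-1 : ℝ) ^ (Fintype.card (Fin p.length) - A.card) *
              (11 / 2 : ℝ) ^ ((A.card +
                Nat.card (SimpleGraph.fromEdgeSet (endsQ a b r '' (A : Set (Fin p.length)))).ConnectedComponent)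
                  - Fintype.card (Quotient r)) = Phi (11 / 2) a b univ r := by
      unfold Phi
      rw [mul_sum]
      apply sum_congr rfl
      intro A _
      have hK : Fintype.card (Quotient r) = K r := by
        unfold K; rw [Nat.card_eq_fintype_card]
      have hle := K_le a b r A
      rw [card_comp, hK, card_univ]
      have : (11 / 2 : ℝ) ^ (A.card + K (r ⊔ gen a b A)) =
          (11 / 2 : ℝ) ^ K r * (11 / 2 : ℝ) ^ (A.card + K (r ⊔ gen a b A) - K r) := by
        rw [← pow_add]
        congr 1
        omega
      rw [this]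
      ring
    have hpos : 0 < (11 / 2 : ℝ) ^ K r := by positivity
    have := mul_pos hpos H
    rw [hsum] at this
    exact absurd hneg (not_lt.2 this.le)
  · have := connected_of_top a b r univ hr
    rwa [coe_univ, Set.image_univ] at this
  · intro e
    have := connected_of_top a b r (univ.erase e) (hbr e)
    have he : ((univ.erase e : Finset (Fin p.length)) : Set (Fin p.length)) = {e}ᶜ := by
      ext i; simp
    rwa [he] at this

end Pool.Agent.S09876
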