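import Pool.Statements.S10028
-- import your own Pool.Agent.* helpers here

set_option autoImplicit false
open Pool Pool.MP_8c7c0e_co

namespace Pool.Agent.S10028

section Helpers

open Matrix Polynomial

def Rz {ι : Type} [Fintype ι] [DecidableEq ι] {F : Type} [Field F]
    (P : ι → ι → Bool) (p : F[X]) : Prop :=
  ∃ A : Matrix ι ι F, (∀ i j, (A i j ≠ 0 ↔ P i j = true)) ∧ A.charpoly = p

def dsum {ι κ : Type} (P : ι → ι → Bool) (Q : κ → κ → Bool) : ι ⊕ κ → ι ⊕ κ → Bool
  | Sum.inl i, Sum.inl j => P i j
  | Sum.inr i, Sum.inr j => Q i j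
  | _, _ => false

theorem Rz_dsum {ι κ : Type} [Fintype ι] [DecidableEq ι] [Fintype κ] [DecidableEq κ]
    {F : Type} [Field F] {P : ι → ι → Bool} {Q : κ → κ → Bool} {p q : F[X]}
    (hp : Rz P p) (hq : Rz Q q) : Rz (dsum P Q) (p * q) := by
  obtain ⟨A, hA, rfl⟩ := hp
  obtain ⟨B, hB, rfl⟩ := hq
  refine ⟨Matrix.fromBlocks A 0 0 B, ?_, by simp⟩
  rintro (i | i) (j | j)
  · simpa [dsum] using hA i j
  · simp [dsum]
  · simp [dsum]
  · simpa [dsum] using hB i j

theorem Rz_equiv {ι κ : Type} [Fintype ι] [DecidableEq ι] [Fintype κ] [DecidableEq κ]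
    {F : Type} [Field F] {P : ι → ι → Bool} {p : F[X]} (e : ι ≃ κ)
    (hp : Rz P p) : Rz (fun i j => P (e.symm i) (e.symm j)) p := by
  obtain ⟨A, hA, rfl⟩ := hp
  refine ⟨Matrix.reindex e e A, ?_, Matrix.charpoly_reindex e A⟩
  intro i j
  simpa using hA (e.symm i) (e.symm j)

def cnt {ι : Type} [Fintype ι] (P : ι → ι → Bool) : ℕ := ∑ i, ∑ j, if P i j = true then 1 else 0

theorem cnt_eq {n : ℕ} (P : Matrix (Fin n) (Fin n) Bool) :
    (Finset.univ.filter (fun ij : Fin n × Fin n => P ij.1 ij.2 = true)).card = cnt P := by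
  rw [Finset.card_filter, Fintype.sum_prod_type]
  rfl

theorem cnt_dsum {ι κ : Type} [Fintype ι] [Fintype κ] (P : ι → ι → Bool) (Q : κ → κ → Bool) :
    cnt (dsum P Q) = cnt P + cnt Q := by
  simp only [cnt, dsum, Fintype.sum_sum_type]
  simp only [Bool.false_eq_true, if_false, Finset.sum_const_zero, add_zero, zero_add]
  rfl

theorem cnt_equiv {ι κ : Type} [Fintype ι] [Fintype κ] (P : ι → ι → Bool) (e : ι ≃ κ) :
    cnt (fun i j => P (e.symm i) (e.symm j)) = cnt P := by
  unfold cnt
  rw [← Equiv.sum_comp e]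
  apply Finset.sum_congr rfl
  intro i _
  rw [← Equiv.sum_comp e]
  simp

/-- the 4x4 block -/
def PA : Fin 4 → Fin 4 → Bool :=
  !![false, false, true, true; false, true, false, true; false, true, true, false; true, false, false, false]

theorem PA_real {F : Type} [Field F] {t a b u : F} (ht : t ≠ 0) (ha : a ≠ 0) (hb : b ≠ 0)
    (hu : u ≠ 0) : Rz PA ((X ^ 2 - C t) * (X - C a) * (X - C b) - C u) := by
  refine ⟨!![0, 0, u, t; 0, a, 0, 1; 0, 1, b, 0; 1, 0, 0, 0], ?_, ?_⟩
  · intro i j
    fin_cases i <;> fin_cases j <;> simp [PA, ht, ha, hb, hu]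
  · rw [Matrix.charpoly]
    simp [Matrix.charmatrix_apply, Matrix.det_succ_row_zero, Fin.sum_univ_succ, Fin.succAbove]
    ring

def PB : Fin 2 → Fin 2 → Bool := fun _ _ => true

theorem PB_real {F : Type} [Field F] [Infinite F] (x y : F) :
    Rz PB ((X - C x) * (X - C y)) := by
  classical
  -- matrix [[a, 1], [b, d]]: charpoly X^2 - (a+d) X + (a d - b)
  obtain ⟨a, ha⟩ := Infinite.exists_notMem_finset ({0, x + y, x, y} : Finset F)
  simp only [Finset.mem_insert, Finset.mem_singleton, not_or] at ha
  obtain ⟨h0, h1, h2, h3⟩ := ha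
  refine ⟨!![a, 1; a * (x + y - a) - x * y, x + y - a], ?_, ?_⟩
  · have hb : a * (x + y - a) - x * y ≠ 0 := by
      have : a * (x + y - a) - x * y = - ((a - x) * (a - y)) := by ring
      rw [this]
      exact neg_ne_zero.mpr (mul_ne_zero (sub_ne_zero.mpr h2) (sub_ne_zero.mpr h3))
    have hd : x + y - a ≠ 0 := by
      rw [sub_ne_zero]; exact fun h => h1 h.symm
    intro i j
    fin_cases i <;> fin_cases j <;> simp [PB, h0, hb, hd]
  · rw [Matrix.charpoly]
    simp [Matrix.charmatrix_apply, Matrix.det_succ_row_zero, Fin.sum_univ_succ, Fin.succAbove]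
    ring

theorem ms_cons {α : Type} {s : Multiset α} {n : ℕ} (h : s.card = n + 1) :
    ∃ a t, s = a ::ₘ t ∧ t.card = n := by
  obtain ⟨a, t, ht, hc⟩ := Multiset.card_eq_succ_iff.mp h
  exact ⟨a, t, ht.symm, hc⟩

theorem B_exists {F : Type} [Field F] [Infinite F] (m : ℕ) :
    ∃ Q : Fin (2 * m) → Fin (2 * m) → Bool, cnt Q = 4 * m ∧
      ∀ s : Multiset F, s.card = 2 * m → Rz Q ((s.map (fun x => X - C x)).prod) := by
  induction m with
  | zero =>
    refine ⟨fun _ _ => true, ?_, ?_⟩
    · simp [cnt]
    · intro s hs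
      have : s = 0 := by simpa using hs
      subst this
      refine ⟨0, ?_, ?_⟩
      · intro i; exact absurd i.2 (by simp)
      · simp [Matrix.charpoly]
  | succ m ih =>
    obtain ⟨Q, hQ, hQr⟩ := ih
    have e : Fin (2 * m) ⊕ Fin 2 ≃ Fin (2 * (m + 1)) := finSumFinEquiv
    refine ⟨fun i j => dsum Q PB (e.symm i) (e.symm j), ?_, ?_⟩
    · rw [cnt_equiv, cnt_dsum, hQ]
      have : cnt PB = 4 := by decide
      omega
    · intro s hs
      obtain ⟨x, t, rfl, ht⟩ := ms_cons (n := 2 * m + 1) hs
      obtain ⟨y, r, rfl, hr⟩ := ms_cons (n := 2 * m) ht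
      have := Rz_equiv e (Rz_dsum (hQr r hr) (PB_real x y))
      convert this using 1
      simp only [Multiset.map_cons, Multiset.prod_cons]
      ring

/-- The good 4-multisets of roots. -/
def Good {F : Type} [Field F] (s : Multiset F) : Prop :=
  Rz PA ((s.map (fun x => X - C x)).prod)

/-- Four equal roots, characteristic two. -/
theorem good_replicate {F : Type} [Field F] [Infinite F] [CharP F 2] (l : F) :
    Good (Multiset.replicate 4 l) := by
  classical
  obtain ⟨a, ha⟩ := Infinite.exists_notMem_finset ({0, l} : Finset F)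
  simp only [Finset.mem_insert, Finset.mem_singleton, not_or] at ha
  obtain ⟨h0, h1⟩ := ha
  have hal : a - l ≠ 0 := sub_ne_zero.mpr h1
  have key := PA_real (t := a ^ 2) (a := a) (b := a) (u := (a - l) ^ 4)
    (pow_ne_zero _ h0) h0 h0 (pow_ne_zero _ hal)
  have h2' : (2 : F[X]) = 0 := CharTwo.two_eq_zero
  unfold Good
  convert key using 1
  simp only [Multiset.map_replicate, Multiset.prod_replicate, C_pow, C_sub]
  linear_combination (-2 * C l * X ^ 3 + 3 * C l ^ 2 * X ^ 2 - 2 * C l ^ 3 * X + C a * X ^ 3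
    - C a ^ 3 * X + C a ^ 4 + C l ^ 4 - 2 * C a ^ 3 * C l + 3 * C a ^ 2 * C l ^ 2
    - 2 * C a * C l ^ 3) * h2'

/-- four roots with generic conditions. -/
theorem good_four {F : Type} [Field F] [IsAlgClosed F] {x y z w : F}
    (h1 : x + y + z + w ≠ 0)
    (h3 : x * y * z + x * y * w + x * z * w + y * z * w ≠ 0)
    (h12 : (x + y + z + w) * (x * y + x * z + x * w + y * z + y * w + z * w)
      - (x * y * z + x * y * w + x * z * w + y * z * w) ≠ 0)
    (hd : (x + y) * (x + z) * (x + w) * (y + z) * (y + w) * (z + w) ≠ 0) :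
    Good ({x, y, z, w} : Multiset F) := by
  set e1 := x + y + z + w with he1
  set e2 := x * y + x * z + x * w + y * z + y * w + z * w with he2
  set e3 := x * y * z + x * y * w + x * z * w + y * z * w with he3
  set e4 := x * y * z * w with he4
  -- t = - e3 / e1, a + b = e1, a * b = e2 - e3 / e1
  obtain ⟨a, ha⟩ : ∃ a : F, a ^ 2 - e1 * a + (e2 - e3 / e1) = 0 := by
    have := IsAlgClosed.exists_root (X ^ 2 - C e1 * X + C (e2 - e3 / e1) : F[X]) (by
      have : (X ^ 2 - C e1 * X + C (e2 - e3 / e1) : F[X]).degree = 2 := by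
        compute_degree!
      rw [this]; decide)
    obtain ⟨a, ha⟩ := this
    refine ⟨a, ?_⟩
    simpa [IsRoot] using ha
  have hab : a * (e1 - a) = e2 - e3 / e1 := by linear_combination -ha
  have hne : e2 - e3 / e1 ≠ 0 := by
    intro h
    apply h12
    field_simp at h
    linear_combination h
  have ha0 : a ≠ 0 := by
    rintro rfl; apply hne; rw [← hab]; ring
  have hb0 : e1 - a ≠ 0 := by
    intro h; apply hne; rw [← hab, h]; ring
  have ht0 : - (e3 / e1) ≠ 0 := neg_ne_zero.mpr (div_ne_zero h3 h1)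
  have hu0 : (e2 - e3 / e1) * (e3 / e1) - e4 ≠ 0 := by
    intro h
    apply hd
    have h' : (e1 * e2 - e3) * e3 - e4 * e1 ^ 2 = 0 := by
      field_simp at h
      linear_combination h
    rw [← h', he1, he2, he3, he4]
    ring
  have key := PA_real ht0 ha0 hb0 hu0
  unfold Good
  convert key using 1
  have hab' : C a * (C e1 - C a) = (C e2 - C (e3 / e1) : F[X]) := by
    rw [← C_sub, ← C_mul, ← C_sub, hab]
  have ht' : (C (e3 / e1) * C e1 : F[X]) = C e3 := by
    rw [← C_mul]; congr 1; field_simp
  have E1 : (C e1 : F[X]) = C x + C y + C z + C w := by simp [he1]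
  have E2 : (C e2 : F[X]) = C x * C y + C x * C z + C x * C w + C y * C z + C y * C w + C z * C w := by
    simp [he2]
  have E3 : (C e3 : F[X]) = C x * C y * C z + C x * C y * C w + C x * C z * C w + C y * C z * C w := by
    simp [he3]
  have E4 : (C e4 : F[X]) = C x * C y * C z * C w := by simp [he4]
  have hprod : (Multiset.map (fun x => X - C x) ({x, y, z, w} : Multiset F)).prod =
      (X ^ 4 - C e1 * X ^ 3 + C e2 * X ^ 2 - C e3 * X + C e4 : F[X]) := by
    rw [E1, E2, E3, E4]
    simp
    ring
  rw [hprod]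
  simp only [C_neg, C_sub, C_mul]
  linear_combination (-(X ^ 2 + C (e3 / e1))) * hab' + X * ht'

theorem exists_good {F : Type} [Field F] [IsAlgClosed F] [CharP F 2] (s : Multiset F)
    (hs : s.card = 22) : ∃ t ≤ s, t.card = 4 ∧ Good t := by
  classical
  by_cases h : ∃ l, 4 ≤ s.count l
  · obtain ⟨l, hl⟩ := h
    exact ⟨Multiset.replicate 4 l, Multiset.le_count_iff_replicate_le.mp hl, by simp,
      good_replicate l⟩
  · push Not at h
    have hcard : 8 ≤ s.toFinset.card := by
      by_contra hlt
      have h1 : s.card = ∑ a ∈ s.toFinset, s.count a := (Multiset.toFinset_sum_count_eq s).symm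
      have h2 : ∑ a ∈ s.toFinset, s.count a ≤ ∑ a ∈ s.toFinset, 3 :=
        Finset.sum_le_sum fun a _ => Nat.lt_succ_iff.mp (h a)
      rw [Finset.sum_const, smul_eq_mul] at h2
      omega
    set S := s.toFinset with hS
    -- pick x
    obtain ⟨x, hxS, hx⟩ : ∃ x ∈ S, x ∉ (∅ : Finset F) :=
      Finset.exists_mem_notMem_of_card_lt_card (by rw [Finset.card_empty]; omega)
    obtain ⟨y, hyS, hy⟩ : ∃ y ∈ S, y ∉ ({x} : Finset F) :=
      Finset.exists_mem_notMem_of_card_lt_card (by rw [Finset.card_singleton]; omega)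
    have hxy : x + y ≠ 0 := by
      intro hh
      apply hy
      rw [Finset.mem_singleton]
      exact (CharTwo.add_eq_zero.mp hh).symm
    obtain ⟨z, hzS, hz⟩ : ∃ z ∈ S, z ∉ ({x, y, -(x + y), -(x * y) / (x + y)} : Finset F) :=
      Finset.exists_mem_notMem_of_card_lt_card
        (lt_of_le_of_lt Finset.card_le_four (by omega))
    simp only [Finset.mem_insert, Finset.mem_singleton, not_or] at hz hy
    obtain ⟨hzx, hzy, hz1, hz2⟩ := hz
    set s1 := x + y + z with hs1
    set s2 := x * y + (x + y) * z with hs2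
    set s3 := x * y * z with hs3
    have hs1' : s1 ≠ 0 := by
      intro hh; apply hz1; linear_combination hh
    have hs2' : s2 ≠ 0 := by
      intro hh; apply hz2; rw [eq_div_iff hxy]; linear_combination hh
    set q : F[X] := C s1 * X ^ 2 + C (s1 ^ 2) * X + C (s1 * s2 - s3) with hq
    have hqdeg : q.natDegree ≤ 2 := by
      rw [hq]; compute_degree
    have hq0 : q ≠ 0 := by
      intro hh
      have h2 : q.coeff 2 = s1 := by
        rw [hq]
        simp only [coeff_add, coeff_C_mul, coeff_X_pow, coeff_X, coeff_C]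
        norm_num
      rw [hh, coeff_zero] at h2
      exact hs1' h2.symm
    have hcard2 : (({x, y, z, -s1, -s3 / s2} : Finset F) ∪ q.roots.toFinset).card < S.card := by
      calc _ ≤ ({x, y, z, -s1, -s3 / s2} : Finset F).card + q.roots.toFinset.card :=
            Finset.card_union_le _ _
        _ ≤ 5 + 2 := by
            apply add_le_add Finset.card_le_five
            exact (Multiset.toFinset_card_le _).trans ((card_roots' q).trans hqdeg)
        _ < S.card := by omega
    obtain ⟨w, hwS, hw⟩ := Finset.exists_mem_notMem_of_card_lt_card hcard2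
    simp only [Finset.mem_union, Finset.mem_insert, Finset.mem_singleton, not_or,
      Multiset.mem_toFinset, mem_roots hq0] at hw
    obtain ⟨⟨hwx, hwy, hwz, hw1, hw2⟩, hwq⟩ := hw
    have hne : ∀ {a b : F}, a ≠ b → b + a ≠ 0 := by
      intro a b hab hh
      exact hab (CharTwo.add_eq_zero.mp hh).symm
    refine ⟨{x, y, z, w}, ?_, by simp, ?_⟩
    · have hnd : ({x, y, z, w} : Multiset F).Nodup := by
        simp [Ne.symm hy, Ne.symm hzx, Ne.symm hzy, Ne.symm hwx, Ne.symm hwy, Ne.symm hwz]
      rw [Multiset.le_iff_subset hnd]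
      intro a ha
      simp only [Multiset.insert_eq_cons, Multiset.mem_cons, Multiset.mem_singleton] at ha
      rcases ha with rfl | rfl | rfl | rfl
      · exact Multiset.mem_toFinset.mp hxS
      · exact Multiset.mem_toFinset.mp hyS
      · exact Multiset.mem_toFinset.mp hzS
      · exact Multiset.mem_toFinset.mp hwS
    · apply good_four
      · intro hh; apply hw1; rw [hs1]; linear_combination hh
      · intro hh; apply hw2; rw [eq_div_iff hs2', hs2, hs3]; linear_combination hh
      · intro hh
        apply hwq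
        simp only [hq, IsRoot.def, eval_add, eval_mul, eval_C, eval_pow, eval_X]
        rw [hs1, hs2, hs3]
        linear_combination hh
      · refine mul_ne_zero (mul_ne_zero (mul_ne_zero (mul_ne_zero (mul_ne_zero ?_ ?_) ?_) ?_) ?_) ?_
        · exact hne hy
        · exact hne hzx
        · exact hne hwx
        · exact hne hzy
        · exact hne hwy
        · exact hne hwz

end Helpers

/-- The negation of the preceding statement: For every infinite field of nonzero characteristic, every n×n zero-nonzero pattern such that every monic degree-n polynomial is the characteristic polynomial of some matrix with exactly that pattern has at least 2n nonzero positions. -/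
theorem result :
    ¬ (∀ (F : Type) [Field F] [Infinite F], ringChar F ≠ 0 →
      ∀ (n : ℕ) (P : Matrix (Fin n) (Fin n) Bool),
        (∀ p : Polynomial F, p.Monic → p.natDegree = n →
          ∃ A : Matrix (Fin n) (Fin n) F,
            (∀ i j, (A i j ≠ 0 ↔ P i j = true)) ∧ A.charpoly = p) →
        2 * n ≤ (Finset.univ.filter (fun ij : Fin n × Fin n => P ij.1 ij.2 = true)).card) := by
  intro H
  let F := AlgebraicClosure (ZMod 2)
  have : CharP F 2 := inferInstance
  obtain ⟨Q, hQ, hQr⟩ := B_exists (F := F) 9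
  let e : Fin 4 ⊕ Fin (2 * 9) ≃ Fin 22 := finSumFinEquiv
  have hchar : ringChar F ≠ 0 := by
    rw [ringChar.eq F 2]; norm_num
  have := H F hchar 22 (fun i j => dsum PA Q (e.symm i) (e.symm j)) ?_
  · have h0 := cnt_eq (fun i j => dsum PA Q (e.symm i) (e.symm j))
    have h1 := this.trans_eq h0
    rw [cnt_equiv, cnt_dsum, hQ] at h1
    have h7 : cnt PA = 7 := by decide
    omega
  · intro p hp hdeg
    have hsplit : p = (p.roots.map (fun x => Polynomial.X - Polynomial.C x)).prod := by
      exact (IsAlgClosed.splits p).eq_prod_roots_of_monic hp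
    have hcard : p.roots.card = 22 := by
      rw [← hdeg]; exact (IsAlgClosed.splits p).natDegree_eq_card_roots.symm
    obtain ⟨t, hts, htc, htg⟩ := exists_good p.roots hcard
    obtain ⟨r, hr⟩ := Multiset.le_iff_exists_add.mp hts
    have hrc : r.card = 2 * 9 := by
      have := congrArg Multiset.card hr
      rw [Multiset.card_add, hcard, htc] at this
      omega
    have key := Rz_equiv e (Rz_dsum htg (hQr r hrc))
    obtain ⟨A, hA, hAp⟩ := key
    refine ⟨A, hA, ?_⟩
    rw [hAp]
    conv_rhs => rw [hsplit, hr, Multiset.map_add, Multiset.prod_add]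

end Pool.Agent.S10028
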