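import Pool.Statements.S10090

set_option autoImplicit false
open Pool Pool.MP_8e7993_co

namespace Pool.Agent.S10090

/-- Four hubs `inl i` and twelve vertices `inr (i, j)` of in-degree one. -/
abbrev W : Type := Fin 4 ⊕ (Fin 4 × Fin 3)

def adj : W → W → Prop
  | .inl i, .inr q => i = q.1
  | .inr q, .inl i => q.1 ≠ i
  | _, _ => False

def D : Digraph W := ⟨adj⟩

/-- A walk using one extra arc `(w, y)`. -/
theorem walk_split {V : Type} (R R' : V → V → Prop) (w y : V)
    (h : ∀ a b, R' a b → R a b ∨ (a = w ∧ b = y)) {a b : V} (hab : Relation.ReflTransGen R' a b) :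
    Relation.ReflTransGen R a b ∨
      (Relation.ReflTransGen R a w ∧ Relation.ReflTransGen R y b) := by
  induction hab with
  | refl => exact Or.inl .refl
  | tail _ hbc ih =>
    rcases h _ _ hbc with hR | ⟨rfl, rfl⟩
    · rcases ih with h1 | ⟨h1, h2⟩
      · exact Or.inl (h1.tail hR)
      · exact Or.inr ⟨h1, h2.tail hR⟩
    · rcases ih with h1 | ⟨h1, _⟩
      · exact Or.inr ⟨h1, .refl⟩
      · exact Or.inr ⟨h1, .refl⟩

/-- In an inclusion-minimal feedback arc set `F`, no arc leaves a vertex `w` all of whose in-arcs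
belong to `F`. -/
theorem no_through {V : Type} (G : Digraph V) (hloop : ∀ v, ¬ G.Adj v v) (F : Set (V × V))
    (hF : Minimal (fun S : Set (V × V) =>
              (∀ e ∈ S, G.Adj e.1 e.2) ∧
              ∀ v : V, ¬ Relation.TransGen (fun a b => G.Adj a b ∧ (a, b) ∉ S) v v) F)
    (w y : V) (hin : ∀ x, G.Adj x w → (x, w) ∈ F) (hy : (w, y) ∈ F) : False := by
  obtain ⟨⟨hsub, hacyc⟩, hmin⟩ := hF
  set R : V → V → Prop := fun a b => G.Adj a b ∧ (a, b) ∉ F with hR
  set R' : V → V → Prop := fun a b => G.Adj a b ∧ (a, b) ∉ F \ {(w, y)} with hR'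
  have hnot : ¬ (∀ v : V, ¬ Relation.TransGen R' v v) := by
    intro hall
    have hle := hmin (y := F \ {(w, y)}) ⟨fun e he => hsub e he.1, hall⟩ Set.sdiff_subset
    exact (hle hy).2 rfl
  push Not at hnot
  obtain ⟨v, hv⟩ := hnot
  have hstep : ∀ a b, R' a b → R a b ∨ (a = w ∧ b = y) := by
    intro a b hab
    by_cases h : (a, b) ∈ F
    · right
      by_contra hne
      apply hab.2
      refine ⟨h, ?_⟩
      intro heq
      rw [Set.mem_singleton_iff, Prod.mk.injEq] at heq
      exact hne heq
    · exact Or.inl ⟨hab.1, h⟩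
  -- a path from `y` to `w` avoiding `F`
  have hyw : Relation.ReflTransGen R y w := by
    obtain ⟨c, hvc, hcv⟩ := Relation.TransGen.tail'_iff.mp hv
    rcases walk_split R R' w y hstep hvc with h1 | ⟨h1, h2⟩
    · rcases hstep _ _ hcv with h3 | ⟨rfl, rfl⟩
      · exact absurd (Relation.TransGen.tail'_iff.mpr ⟨c, h1, h3⟩) (hacyc v)
      · exact h1
    · rcases hstep _ _ hcv with h3 | ⟨rfl, rfl⟩
      · exact (h2.tail h3).trans h1
      · exact h1
  have hne : y ≠ w := by
    intro h
    have := hsub _ hy
    rw [h] at this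
    exact hloop w this
  rcases Relation.ReflTransGen.cases_tail hyw with h | ⟨c, _, hc⟩
  · exact hne h.symm
  · exact hc.2 (hin c hc.1)

/-- The negation of the preceding statement: Every finite nonempty loopless digraph whose out-degrees are all at least k has an inclusion-minimal feedback arc set containing a directed path with k arcs on distinct vertices. -/
theorem result :
    ¬ (∀ (V : Type) [Finite V] [Nonempty V] (G : Digraph V),
      (∀ v, ¬ G.Adj v v) →
      ∀ k : ℕ, (∀ v : V, k ≤ Nat.card {w : V // G.Adj v w}) →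
        ∃ F : Set (V × V),
          Minimal (fun S : Set (V × V) =>
              (∀ e ∈ S, G.Adj e.1 e.2) ∧
              ∀ v : V, ¬ Relation.TransGen (fun a b => G.Adj a b ∧ (a, b) ∉ S) v v) F ∧
          ∃ p : Fin (k + 1) → V, Function.Injective p ∧
            ∀ i : Fin k, (p i.castSucc, p i.succ) ∈ F) := by
  intro hall
  have hloop : ∀ v, ¬ D.Adj v v := by
    intro v hv
    rcases v with i | q <;> exact hv
  have hdeg : ∀ v : W, 3 ≤ Nat.card {w : W // D.Adj v w} := by
    intro v
    classical
    rcases v with i | q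
    · let f : Fin 3 → {w : W // D.Adj (.inl i) w} := fun j => ⟨.inr (i, j), rfl⟩
      have hf : Function.Injective f := by
        intro a b hab
        have h1 : (Sum.inr (i, a) : W) = Sum.inr (i, b) := congrArg Subtype.val hab
        exact (Prod.mk.inj (Sum.inr.inj h1)).2
      calc 3 = Nat.card (Fin 3) := by simp
        _ ≤ _ := Nat.card_le_card_of_injective f hf
    · let f : {i : Fin 4 // q.1 ≠ i} → {w : W // D.Adj (.inr q) w} := fun i => ⟨.inl i.1, i.2⟩
      have hf : Function.Injective f := by
        intro a b hab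
        have h1 : (Sum.inl a.1 : W) = Sum.inl b.1 := congrArg Subtype.val hab
        exact Subtype.ext (Sum.inl.inj h1)
      calc 3 = Nat.card {i : Fin 4 // q.1 ≠ i} := by
            rw [Nat.card_eq_fintype_card]
            generalize q.1 = c
            revert c
            decide
        _ ≤ _ := Nat.card_le_card_of_injective f hf
  obtain ⟨F, hF, p, _, hpF⟩ := hall W D hloop 3 hdeg
  -- an inner vertex of in-degree one
  have key : ∀ (x : W) (q : Fin 4 × Fin 3) (y : W), (x, (Sum.inr q : W)) ∈ F →
      ((Sum.inr q : W), y) ∈ F → False := by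
    intro x q y h1 h2
    refine no_through D hloop F hF (Sum.inr q) y ?_ h2
    intro z hz
    have hx := hF.1.1 _ h1
    rcases x with i | q'
    · rcases z with i' | q''
      · have e1 : i = q.1 := hx
        have e2 : i' = q.1 := hz
        rw [e2, ← e1]; exact h1
      · exact absurd hz (by intro h; exact h)
    · exact absurd hx (by intro h; exact h)
  have h01 : (p 0, p 1) ∈ F := hpF 0
  have h12 : (p 1, p 2) ∈ F := hpF 1
  have h23 : (p 2, p 3) ∈ F := hpF 2
  rcases h1 : p 1 with i | q
  · rcases h2 : p 2 with i' | q'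
    · have := hF.1.1 _ h12
      rw [h1, h2] at this
      exact this
    · rw [h2] at h12 h23
      exact key _ _ _ h12 h23
  · rw [h1] at h01 h12
    exact key _ _ _ h01 h12

end Pool.Agent.S10090
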