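-- The negation, in dimension d = 48.  The animals are starSet ff (a set of cubes around the origin,
-- every one of whose cells, full or empty, is locked) and a single cube.
import Pool.Statements.S10104
import Pool.Agent.Lib.MP_8f7fef_co.Example

set_option autoImplicit false
open Pool Pool.MP_8f7fef_co

namespace Pool.Agent.S10104

/-- The negation of the preceding statement: For every d ≥ 3, any two finite sets of integer unit cubes in R^d whose union has boundary homeomorphic to the (d-1)-sphere can be joined by adding or removing one cube at a time, with every intermediate set also having sphere boundary. -/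
theorem result :
    ¬ (∀ d : ℕ, 3 ≤ d →
      ∀ P : Finset (Fin d → ℤ) → Prop,
        (∀ S : Finset (Fin d → ℤ), P S ↔
          Nonempty (↥(frontier (⋃ x ∈ S,
              {y : Fin d → ℝ | ∀ i : Fin d, ((x i : ℤ) : ℝ) ≤ y i ∧ y i ≤ ((x i : ℤ) : ℝ) + 1}))
            ≃ₜ ↥(Metric.sphere (0 : EuclideanSpace ℝ (Fin d)) 1))) →
        ∀ A B : Finset (Fin d → ℤ), P A → P B →
          Relation.ReflTransGen
            (fun X Y : Finset (Fin d → ℤ) => P X ∧ P Y ∧ (symmDiff X Y).card = 1) A B) := by
  classical
  intro h
  have : Nonempty (Fin 48) := ⟨0⟩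
  exact Pool.Agent.Lib.MP_8f7fef_co.not_reachable
    (h 48 (by norm_num) Pool.Agent.Lib.MP_8f7fef_co.PP (fun _ => Iff.rfl) _ _
      (Pool.Agent.Lib.MP_8f7fef_co.PP_of_good _ Pool.Agent.Lib.MP_8f7fef_co.good_ff)
      (Pool.Agent.Lib.MP_8f7fef_co.PP_of_good _
        (Pool.Agent.Lib.MP_8f7fef_co.good_single Pool.Agent.Lib.MP_8f7fef_co.w0)))

end Pool.Agent.S10104
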