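-- Frozen statement S10551, proved (helper49 and helper43). The statement below is byte-identical to the frozen
-- statement Pool.MP_a46439_co.PoolFrozen.S10551 (Pool/Statements/S10551.lean; the theorem Pool.MP_a46439_co.main).
import Pool.Statements.S10551
import Pool.Agent.Lib.MP_a46439_co.LeafFinal

set_option autoImplicit false
open Pool Pool.MP_a46439_co

namespace Pool.Agent.S10551

/-- Every connected 3-regular finite graph not isomorphic to K4 or K3,3 has a vertex set S of at most half the vertices where every vertex has a neighbour in S and distinct vertices outside S have distinct neighbourhoods in S. -/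
theorem result :
    ∀ (V : Type) [Fintype V] (G : SimpleGraph V) [DecidableRel G.Adj],
      G.Connected →
      G.IsRegularOfDegree 3 →
      IsEmpty (G ≃g (⊤ : SimpleGraph (Fin 4))) →
      IsEmpty (G ≃g completeBipartiteGraph (Fin 3) (Fin 3)) →
      ∃ S : Finset V,
        (∀ v : V, ∃ u ∈ S, G.Adj v u) ∧
        (∀ u v : V, u ∉ S → v ∉ S → u ≠ v → ∃ w ∈ S, ¬ (G.Adj u w ↔ G.Adj v w)) ∧
        2 * S.card ≤ Fintype.card V := by
  intro V _ G _ hconn hreg h4 h33
  classical
  have hdeg : ∀ v, Pool.Agent.LTD.E G {v} Finset.univ = 3 := by
    intro v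
    have h1 := hreg v
    have h2 : Pool.Agent.LTD.E G {v} Finset.univ =
        (Finset.univ.filter fun u => G.Adj v u).card := by
      rw [Finset.card_filter]; unfold Pool.Agent.LTD.E; rw [Finset.sum_singleton]
      refine Finset.sum_congr rfl fun u _ => ?_
      split_ifs <;> rfl
    rw [h2, ← h1, ← SimpleGraph.card_neighborFinset_eq_degree]
    congr 1
    ext u; simp
  exact Pool.Agent.LTD.ltd_cubic G hconn hdeg h4 h33

end Pool.Agent.S10551
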