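import Pool.Statements.S10921
-- import your own Pool.Agent.* helpers here
import Pool.Agent.Lib.TightTree.Seq

set_option autoImplicit false
open Pool Pool.MP_b4409b_co

namespace Pool.Agent.S10921

/-- For r≥2, every tight r-tree T with t edges, and every r-uniform hypergraph on n vertices with no copy of T, the number of edges is at most (t−1)/r times C(n, r−1). -/
theorem result :
    ∀ (r t : ℕ), 2 ≤ r → 1 ≤ t →
    ∀ (e : ℕ → Finset ℕ),
      (∀ i, i < t → (e i).card = r) →
      (∀ i, 0 < i → i < t →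
        ∃ v ∈ e i, (∀ j, j < i → v ∉ e j) ∧ ∃ j, j < i ∧ e i \ {v} ⊆ e j) →
    ∀ (n : ℕ) (H : Finset (Finset (Fin n))),
      (∀ h ∈ H, h.card = r) →
      (¬ ∃ f : ℕ → Fin n,
          Set.InjOn f {x : ℕ | ∃ i, i < t ∧ x ∈ e i} ∧
          ∀ i, i < t → (e i).image f ∈ H) →
      (H.card : ℝ) ≤ ((t : ℝ) - 1) / (r : ℝ) * ((n.choose (r - 1) : ℕ) : ℝ) := by
  intro r t hr ht e hcard hprop n H hH hno
  have ht1 : (1 : ℝ) ≤ t := by exact_mod_cast ht
  have hr0 : (0 : ℝ) < r := by
    have : 0 < r := by omega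
    exact_mod_cast this
  rcases Nat.eq_zero_or_pos n with hn | hn
  · subst hn
    have hH0 : H = ∅ := by
      apply Finset.eq_empty_of_forall_notMem
      intro h hh
      have h1 := hH h hh
      have h2 : h.card ≤ Fintype.card (Fin 0) := Finset.card_le_univ h
      rw [Fintype.card_fin] at h2
      omega
    subst hH0
    simp only [Finset.card_empty, Nat.cast_zero]
    apply mul_nonneg (div_nonneg (by linarith) hr0.le)
    positivity
  · have : Nonempty (Fin n) := ⟨⟨0, hn⟩⟩
    have h1 := Pool.Agent.Lib.TightTree.kalai (by omega : 1 ≤ r) e t ht hcard hprop H hH hno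
    rw [Fintype.card_fin] at h1
    have h2 : (r : ℝ) * (H.card : ℝ) ≤ ((t : ℝ) - 1) * ((n.choose (r - 1) : ℕ) : ℝ) := by
      have h3 : ((r * H.card : ℕ) : ℝ) ≤ (((t - 1) * n.choose (r - 1) : ℕ) : ℝ) := by
        exact_mod_cast h1
      rw [Nat.cast_mul, Nat.cast_mul, Nat.cast_sub ht] at h3
      simpa using h3
    rw [div_mul_eq_mul_div, le_div_iff₀ hr0]
    linarith

end Pool.Agent.S10921
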