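import Pool.Statements.S11432

set_option autoImplicit false
open Pool Pool.MP_ca83f8_co

namespace Pool.Agent.S11432

/-- The bowtie: two triangles sharing exactly the vertex `0`. -/
def bowtie : Finset (Finset (Fin 5)) :=
  {{0, 1}, {0, 2}, {1, 2}, {0, 3}, {0, 4}, {3, 4}}

section Upper

variable {n : ℕ} (G : Finset (Finset (Fin n)))

/-- edges of `G` inside `W` -/
def EW (W : Finset (Fin n)) : ℕ := (G.filter (fun e => e ⊆ W)).card

/-- degree of `v` inside `W` -/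
def dW (W : Finset (Fin n)) (v : Fin n) : ℕ := (W.filter (fun u => ({v, u} : Finset (Fin n)) ∈ G)).card

theorem not_self (h2 : ∀ e ∈ G, e.card = 2) (v : Fin n) : ({v, v} : Finset (Fin n)) ∉ G := by
  intro h
  have := h2 _ h
  simp at this

theorem EW_erase (h2 : ∀ e ∈ G, e.card = 2) (W : Finset (Fin n)) (v : Fin n) (hv : v ∈ W) :
    EW G W = EW G (W.erase v) + dW G W v := by
  classical
  unfold EW dW
  have hinj : Set.InjOn (fun u : Fin n => ({v, u} : Finset (Fin n)))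
      ((W.filter (fun u => ({v, u} : Finset (Fin n)) ∈ G) : Finset (Fin n)) : Set (Fin n)) := by
    intro a ha b hb hab
    simp only [Finset.coe_filter, Set.mem_ofPred_eq] at ha hb
    have hav : a ≠ v := by
      rintro rfl; exact not_self G h2 _ ha.2
    have hab' : ({v, a} : Finset (Fin n)) = {v, b} := hab
    have : a ∈ ({v, b} : Finset (Fin n)) := by rw [← hab']; simp
    simp only [Finset.mem_insert, Finset.mem_singleton] at this
    rcases this with h | h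
    · exact absurd h hav
    · exact h
  rw [← Finset.card_image_of_injOn hinj, ← Finset.card_union_of_disjoint]
  · congr 1
    ext e
    simp only [Finset.mem_filter, Finset.mem_union, Finset.mem_image]
    constructor
    · rintro ⟨he, hsub⟩
      by_cases hve : v ∈ e
      · right
        have hc := h2 e he
        obtain ⟨a, b, hab, rfl⟩ := Finset.card_eq_two.mp hc
        simp only [Finset.mem_insert, Finset.mem_singleton] at hve
        rcases hve with rfl | rfl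
        · exact ⟨b, ⟨hsub (by simp), he⟩, rfl⟩
        · refine ⟨a, ⟨hsub (by simp), ?_⟩, ?_⟩
          · rw [Finset.pair_comm]; exact he
          · rw [Finset.pair_comm]
      · left
        refine ⟨he, ?_⟩
        intro x hx
        rw [Finset.mem_erase]
        exact ⟨fun h => hve (h ▸ hx), hsub hx⟩
    · rintro (⟨he, hsub⟩ | ⟨u, ⟨huW, hu⟩, rfl⟩)
      · exact ⟨he, hsub.trans (Finset.erase_subset _ _)⟩
      · refine ⟨hu, ?_⟩
        intro x hx
        simp only [Finset.mem_insert, Finset.mem_singleton] at hx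
        rcases hx with rfl | rfl
        · exact hv
        · exact huW
  · rw [Finset.disjoint_left]
    intro e he he'
    simp only [Finset.mem_filter, Finset.mem_image] at he he'
    obtain ⟨u, -, rfl⟩ := he'
    have := he.2 (by simp : v ∈ ({v, u} : Finset (Fin n)))
    simp at this

/-- bowtie-freeness, unpacked -/
def BF : Prop := ∀ c a b d e : Fin n, ({c, a} : Finset (Fin n)) ∈ G → ({c, b} : Finset (Fin n)) ∈ G →
  ({a, b} : Finset (Fin n)) ∈ G → ({c, d} : Finset (Fin n)) ∈ G → ({c, e} : Finset (Fin n)) ∈ G →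
  ({d, e} : Finset (Fin n)) ∈ G → a ≠ d → a ≠ e → b ≠ d → b ≠ e → False

theorem BF_of_free (h2 : ∀ e ∈ G, e.card = 2)
    (hf : ¬ ∃ φ : Fin 5 ↪ Fin n, ∀ e ∈ bowtie, e.map φ ∈ G) : BF G := by
  intro c a b d e hca hcb hab hcd hce hde had hae hbd hbe
  apply hf
  have hne : ∀ x y : Fin n, ({x, y} : Finset (Fin n)) ∈ G → x ≠ y := by
    rintro x y h rfl
    exact not_self G h2 _ h
  have h1 := hne _ _ hca
  have h3 := hne _ _ hcb
  have h4 := hne _ _ hab
  have h5 := hne _ _ hcd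
  have h6 := hne _ _ hce
  have h7 := hne _ _ hde
  refine ⟨⟨![c, a, b, d, e], ?_⟩, ?_⟩
  · intro i j hij
    fin_cases i <;> fin_cases j <;> first | rfl | (exfalso; simp at hij; first | exact h1 hij | exact h1 hij.symm | exact h3 hij | exact h3 hij.symm | exact h4 hij | exact h4 hij.symm | exact h5 hij | exact h5 hij.symm | exact h6 hij | exact h6 hij.symm | exact h7 hij | exact h7 hij.symm | exact had hij | exact had hij.symm | exact hae hij | exact hae hij.symm | exact hbd hij | exact hbd hij.symm | exact hbe hij | exact hbe hij.symm)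
  · intro f hf'
    simp only [bowtie, Finset.mem_insert, Finset.mem_singleton] at hf'
    rcases hf' with rfl | rfl | rfl | rfl | rfl | rfl <;>
      simp [Finset.map_insert, Finset.map_singleton] <;> assumption


theorem dW_insert (h2 : ∀ e ∈ G, e.card = 2) (W : Finset (Fin n)) (v : Fin n) :
    dW G (insert v W) v = dW G W v := by
  unfold dW
  rw [Finset.filter_insert, if_neg (not_self G h2 v)]

theorem dW_insert' (W : Finset (Fin n)) (u v : Fin n) (hu : u ∉ W) :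
    dW G (insert u W) v = dW G W v + (decide (({v, u} : Finset (Fin n)) ∈ G)).toNat := by
  unfold dW
  rw [Finset.filter_insert]
  by_cases h : ({v, u} : Finset (Fin n)) ∈ G
  · rw [if_pos h, Finset.card_insert_of_notMem (by simp [hu])]
    simp [h]
  · rw [if_neg h]
    simp [h]

theorem EW_insert (h2 : ∀ e ∈ G, e.card = 2) (W : Finset (Fin n)) (v : Fin n) (hv : v ∉ W) :
    EW G (insert v W) = EW G W + dW G W v := by
  rw [EW_erase G h2 (insert v W) v (Finset.mem_insert_self _ _), Finset.erase_insert hv,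
    dW_insert G h2 W v]

theorem EW_empty (h2 : ∀ e ∈ G, e.card = 2) : EW G ∅ = 0 := by
  unfold EW
  rw [Finset.card_eq_zero, Finset.filter_eq_empty_iff]
  intro e he hsub
  have := h2 e he
  rw [Finset.subset_empty.mp hsub] at this
  simp at this

theorem bool_base : ∀ (p01 p02 p03 p04 p12 p13 p14 p23 p24 p34 : Bool),
    ((p01 && p02 && p12 && p03 && p04 && p34) ||
     (p01 && p03 && p13 && p02 && p04 && p24) ||
     (p01 && p04 && p14 && p02 && p03 && p23) ||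
     (p01 && p12 && p02 && p13 && p14 && p34) ||
     (p01 && p13 && p03 && p12 && p14 && p24) ||
     (p01 && p14 && p04 && p12 && p13 && p23) ||
     (p02 && p12 && p01 && p23 && p24 && p34) ||
     (p02 && p23 && p03 && p12 && p24 && p14) ||
     (p02 && p24 && p04 && p12 && p23 && p13) ||
     (p03 && p13 && p01 && p23 && p34 && p24) ||
     (p03 && p23 && p02 && p13 && p34 && p14) ||
     (p03 && p34 && p04 && p13 && p23 && p12) ||
     (p04 && p14 && p01 && p24 && p34 && p23) ||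
     (p04 && p24 && p02 && p14 && p34 && p13) ||
     (p04 && p34 && p03 && p14 && p24 && p12) ||
    decide (p01.toNat + p02.toNat + p03.toNat + p04.toNat + p12.toNat + p13.toNat + p14.toNat + p23.toNat
      + p24.toNat + p34.toNat ≤ 7)) = true := by
  decide +kernel

theorem base5 (h2 : ∀ e ∈ G, e.card = 2) (hBF : BF G) (W : Finset (Fin n)) (hW : W.card = 5) :
    EW G W ≤ 7 := by
  classical
  obtain ⟨x4, W4, h4, rfl, hW4⟩ := Finset.card_eq_succ.mp hW
  obtain ⟨x3, W3, h3, rfl, hW3⟩ := Finset.card_eq_succ.mp hW4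
  obtain ⟨x2, W2, h2', rfl, hW2⟩ := Finset.card_eq_succ.mp hW3
  obtain ⟨x1, W1, h1, rfl, hW1⟩ := Finset.card_eq_succ.mp hW2
  obtain ⟨x0, W0, h0, rfl, hW0⟩ := Finset.card_eq_succ.mp hW1
  rw [Finset.card_eq_zero] at hW0
  subst hW0
  have hd0 : ∀ v, dW G ∅ v = 0 := fun v => by simp [dW]
  rw [EW_insert G h2 _ _ h4, EW_insert G h2 _ _ h3, EW_insert G h2 _ _ h2', EW_insert G h2 _ _ h1,
    EW_insert G h2 _ _ h0, EW_empty G h2]
  rw [dW_insert' G _ _ _ h3, dW_insert' G _ _ _ h2', dW_insert' G _ _ _ h1, dW_insert' G _ _ _ h0,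
    dW_insert' G _ _ _ h2', dW_insert' G _ _ _ h1, dW_insert' G _ _ _ h0,
    dW_insert' G _ _ _ h1, dW_insert' G _ _ _ h0, dW_insert' G _ _ _ h0]
  simp only [hd0]
  have key := bool_base (decide (({x1, x0} : Finset (Fin n)) ∈ G)) (decide (({x2, x0} : Finset (Fin n)) ∈ G))
    (decide (({x3, x0} : Finset (Fin n)) ∈ G)) (decide (({x4, x0} : Finset (Fin n)) ∈ G))
    (decide (({x2, x1} : Finset (Fin n)) ∈ G)) (decide (({x3, x1} : Finset (Fin n)) ∈ G))
    (decide (({x4, x1} : Finset (Fin n)) ∈ G)) (decide (({x3, x2} : Finset (Fin n)) ∈ G))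
    (decide (({x4, x2} : Finset (Fin n)) ∈ G)) (decide (({x4, x3} : Finset (Fin n)) ∈ G))
  simp only [Finset.mem_insert, Finset.notMem_empty, or_false, not_or] at h4 h3 h2' h1
  have sw : ∀ {x y : Fin n}, ({x, y} : Finset (Fin n)) ∈ G → ({y, x} : Finset (Fin n)) ∈ G := by
    intro x y h; rw [Finset.pair_comm]; exact h
  obtain ⟨h43, h42, h41, h40⟩ := h4
  obtain ⟨h32, h31, h30⟩ := h3
  obtain ⟨h21, h20⟩ := h2'
  have B : ∀ c a b d e : Fin n, ({c, a} : Finset (Fin n)) ∈ G → ({c, b} : Finset (Fin n)) ∈ G →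
    ({a, b} : Finset (Fin n)) ∈ G → ({c, d} : Finset (Fin n)) ∈ G → ({c, e} : Finset (Fin n)) ∈ G →
    ({d, e} : Finset (Fin n)) ∈ G → a ≠ d → a ≠ e → b ≠ d → b ≠ e → False := hBF
  simp only [Bool.or_eq_true, Bool.and_eq_true, decide_eq_true_eq] at key
  rcases key with ((((((((((((((h | h) | h) | h) | h) | h) | h) | h) | h) | h) | h) | h) | h) | h) | h) | h
  · obtain ⟨⟨⟨⟨⟨e1, e2⟩, e3⟩, e4⟩, e5⟩, e6⟩ := h
    exact (B x0 x1 x2 x3 x4 (sw e1) (sw e2) (sw e3) (sw e4) (sw e5) (sw e6) (Ne.symm h31) (Ne.symm h41) (Ne.symm h32) (Ne.symm h42)).elim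
  · obtain ⟨⟨⟨⟨⟨e1, e2⟩, e3⟩, e4⟩, e5⟩, e6⟩ := h
    exact (B x0 x1 x3 x2 x4 (sw e1) (sw e2) (sw e3) (sw e4) (sw e5) (sw e6) (Ne.symm h21) (Ne.symm h41) h32 (Ne.symm h43)).elim
  · obtain ⟨⟨⟨⟨⟨e1, e2⟩, e3⟩, e4⟩, e5⟩, e6⟩ := h
    exact (B x0 x1 x4 x2 x3 (sw e1) (sw e2) (sw e3) (sw e4) (sw e5) (sw e6) (Ne.symm h21) (Ne.symm h31) h42 h43).elim
  · obtain ⟨⟨⟨⟨⟨e1, e2⟩, e3⟩, e4⟩, e5⟩, e6⟩ := h
    exact (B x1 x0 x2 x3 x4 e1 (sw e2) (sw e3) (sw e4) (sw e5) (sw e6) (Ne.symm h30) (Ne.symm h40) (Ne.symm h32) (Ne.symm h42)).elim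
  · obtain ⟨⟨⟨⟨⟨e1, e2⟩, e3⟩, e4⟩, e5⟩, e6⟩ := h
    exact (B x1 x0 x3 x2 x4 e1 (sw e2) (sw e3) (sw e4) (sw e5) (sw e6) (Ne.symm h20) (Ne.symm h40) h32 (Ne.symm h43)).elim
  · obtain ⟨⟨⟨⟨⟨e1, e2⟩, e3⟩, e4⟩, e5⟩, e6⟩ := h
    exact (B x1 x0 x4 x2 x3 e1 (sw e2) (sw e3) (sw e4) (sw e5) (sw e6) (Ne.symm h20) (Ne.symm h30) h42 h43).elim
  · obtain ⟨⟨⟨⟨⟨e1, e2⟩, e3⟩, e4⟩, e5⟩, e6⟩ := h
    exact (B x2 x0 x1 x3 x4 e1 e2 (sw e3) (sw e4) (sw e5) (sw e6) (Ne.symm h30) (Ne.symm h40) (Ne.symm h31) (Ne.symm h41)).elim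
  · obtain ⟨⟨⟨⟨⟨e1, e2⟩, e3⟩, e4⟩, e5⟩, e6⟩ := h
    exact (B x2 x0 x3 x1 x4 e1 (sw e2) (sw e3) e4 (sw e5) (sw e6) (Ne.symm h1) (Ne.symm h40) h31 (Ne.symm h43)).elim
  · obtain ⟨⟨⟨⟨⟨e1, e2⟩, e3⟩, e4⟩, e5⟩, e6⟩ := h
    exact (B x2 x0 x4 x1 x3 e1 (sw e2) (sw e3) e4 (sw e5) (sw e6) (Ne.symm h1) (Ne.symm h30) h41 h43).elim
  · obtain ⟨⟨⟨⟨⟨e1, e2⟩, e3⟩, e4⟩, e5⟩, e6⟩ := h
    exact (B x3 x0 x1 x2 x4 e1 e2 (sw e3) e4 (sw e5) (sw e6) (Ne.symm h20) (Ne.symm h40) (Ne.symm h21) (Ne.symm h41)).elim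
  · obtain ⟨⟨⟨⟨⟨e1, e2⟩, e3⟩, e4⟩, e5⟩, e6⟩ := h
    exact (B x3 x0 x2 x1 x4 e1 e2 (sw e3) e4 (sw e5) (sw e6) (Ne.symm h1) (Ne.symm h40) h21 (Ne.symm h42)).elim
  · obtain ⟨⟨⟨⟨⟨e1, e2⟩, e3⟩, e4⟩, e5⟩, e6⟩ := h
    exact (B x3 x0 x4 x1 x2 e1 (sw e2) (sw e3) e4 e5 (sw e6) (Ne.symm h1) (Ne.symm h20) h41 h42).elim
  · obtain ⟨⟨⟨⟨⟨e1, e2⟩, e3⟩, e4⟩, e5⟩, e6⟩ := h
    exact (B x4 x0 x1 x2 x3 e1 e2 (sw e3) e4 e5 (sw e6) (Ne.symm h20) (Ne.symm h30) (Ne.symm h21) (Ne.symm h31)).elim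
  · obtain ⟨⟨⟨⟨⟨e1, e2⟩, e3⟩, e4⟩, e5⟩, e6⟩ := h
    exact (B x4 x0 x2 x1 x3 e1 e2 (sw e3) e4 e5 (sw e6) (Ne.symm h1) (Ne.symm h30) h21 (Ne.symm h32)).elim
  · obtain ⟨⟨⟨⟨⟨e1, e2⟩, e3⟩, e4⟩, e5⟩, e6⟩ := h
    exact (B x4 x0 x3 x1 x2 e1 e2 (sw e3) e4 e5 (sw e6) (Ne.symm h1) (Ne.symm h20) h31 h32).elim
  · omega


theorem exists_low (h2 : ∀ e ∈ G, e.card = 2) (hBF : BF G) (W : Finset (Fin n)) (hW : 6 ≤ W.card) :
    ∃ v ∈ W, dW G W v ≤ W.card / 2 := by
  classical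
  by_contra hcon
  push Not at hcon
  set N : Fin n → Finset (Fin n) := fun v => W.filter (fun u => ({v, u} : Finset (Fin n)) ∈ G) with hN
  have hNc : ∀ v ∈ W, W.card / 2 < (N v).card := fun v hv => hcon v hv
  have hNs : ∀ v, N v ⊆ W := fun v => Finset.filter_subset _ _
  have sw : ∀ {x y : Fin n}, ({x, y} : Finset (Fin n)) ∈ G → ({y, x} : Finset (Fin n)) ∈ G := by
    intro x y h; rw [Finset.pair_comm]; exact h
  have hne : ∀ {x y : Fin n}, ({x, y} : Finset (Fin n)) ∈ G → x ≠ y := by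
    rintro x y h rfl
    exact not_self G h2 _ h
  have common : ∀ u ∈ W, ∀ v ∈ W, ({u, v} : Finset (Fin n)) ∈ G →
      ∃ w ∈ W, ({u, w} : Finset (Fin n)) ∈ G ∧ ({v, w} : Finset (Fin n)) ∈ G := by
    intro u hu v hv _
    have h1 := Finset.card_union_add_card_inter (N u) (N v)
    have h3 : (N u ∪ N v).card ≤ W.card := Finset.card_le_card (Finset.union_subset (hNs u) (hNs v))
    have h4 := hNc u hu
    have h5 := hNc v hv
    have h6 : 0 < (N u ∩ N v).card := by omega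
    obtain ⟨w, hw⟩ := Finset.card_pos.mp h6
    simp only [hN, Finset.mem_inter, Finset.mem_filter] at hw
    exact ⟨w, hw.1.1, hw.1.2, hw.2.2⟩
  -- others: every vertex has a neighbour outside any set of size at most 3
  have other : ∀ v ∈ W, ∀ S : Finset (Fin n), S.card ≤ 3 → ∃ p ∈ W, ({v, p} : Finset (Fin n)) ∈ G ∧ p ∉ S := by
    intro v hv S hS
    have h4 := hNc v hv
    have h5 : 0 < (N v \ S).card := by
      have := Finset.le_card_sdiff S (N v)
      omega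
    obtain ⟨p, hp⟩ := Finset.card_pos.mp h5
    simp only [hN, Finset.mem_sdiff, Finset.mem_filter] at hp
    exact ⟨p, hp.1.1, hp.1.2, hp.2⟩
  obtain ⟨x, hx⟩ : W.Nonempty := Finset.card_pos.mp (by omega)
  obtain ⟨y, hy, hxy, -⟩ := other x hx ∅ (by simp)
  obtain ⟨z, hz, hxz, hyz⟩ := common x hx y hy hxy
  -- the main claim, symmetric in y z
  have main : ∀ y ∈ W, ∀ z ∈ W, ({x, y} : Finset (Fin n)) ∈ G → ({x, z} : Finset (Fin n)) ∈ G →
      ({y, z} : Finset (Fin n)) ∈ G → ∀ p ∈ W, ∀ p' ∈ W, ({x, p} : Finset (Fin n)) ∈ G →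
      ({x, p'} : Finset (Fin n)) ∈ G → p ≠ y → p ≠ z → p' ≠ y → p' ≠ z → p ≠ p' →
      ({p, y} : Finset (Fin n)) ∈ G → ({p', y} : Finset (Fin n)) ∈ G → False := by
    intro y hy z hz hxy hxz hyz p hp p' hp' hxp hxp' hpy hpz hp'y hp'z hpp' hpy' hp'y'
    have nz : ∀ r, ({x, r} : Finset (Fin n)) ∈ G → r ≠ y → r ≠ z → ({r, z} : Finset (Fin n)) ∈ G → False := by
      intro r hxr hry hrz hrz'
      by_cases hrp : r = p
      · subst hrp
        exact hBF x p' y r z hxp' hxy hp'y' hxr hxz hrz' (Ne.symm hpp') hp'z (Ne.symm hry) (hne hyz)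
      · exact hBF x p y r z hxp hxy hpy' hxr hxz hrz' (Ne.symm hrp) hpz (Ne.symm hry) (hne hyz)
    obtain ⟨s, hs, hzs, hsS⟩ := other z hz {x, y} (by
      exact le_trans (Finset.card_insert_le _ _) (by simp))
    simp only [Finset.mem_insert, Finset.mem_singleton, not_or] at hsS
    obtain ⟨t, ht, hzt, hst⟩ := common z hz s hs hzs
    by_cases htx : t = x
    · subst htx
      exact nz s (sw hst) hsS.2 (Ne.symm (hne hzs)) (sw hzs)
    · by_cases hty : t = y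
      · subst hty
        have hsx : ({x, s} : Finset (Fin n)) ∉ G := fun h => nz s h hsS.2 (Ne.symm (hne hzs)) (sw hzs)
        have hsp : s ≠ p := by
          rintro rfl
          exact hsx hxp
        exact hBF t z s x p (sw hzt) (sw hst) hzs (sw hxy) (sw hpy') hxp (Ne.symm (hne hxz))
          (Ne.symm hpz) hsS.1 hsp
      · exact hBF z x y s t (sw hxz) (sw hyz) hxy hzs hzt hst (Ne.symm hsS.1) (Ne.symm htx)
          (Ne.symm hsS.2) (Ne.symm hty)
  obtain ⟨p, hp, hxp, hpS⟩ := other x hx {y, z} (by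
      exact le_trans (Finset.card_insert_le _ _) (by simp))
  simp only [Finset.mem_insert, Finset.mem_singleton, not_or] at hpS
  obtain ⟨p', hp', hxp', hpS'⟩ := other x hx {y, z, p} (by
      exact le_trans (Finset.card_insert_le _ _) (Nat.succ_le_succ (le_trans (Finset.card_insert_le _ _) (by simp))))
  simp only [Finset.mem_insert, Finset.mem_singleton, not_or] at hpS'
  have adj : ∀ p ∈ W, ({x, p} : Finset (Fin n)) ∈ G → p ≠ y → p ≠ z →
      ({p, y} : Finset (Fin n)) ∈ G ∨ ({p, z} : Finset (Fin n)) ∈ G := by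
    intro p hp hxp hpy hpz
    obtain ⟨q, hq, hxq, hpq⟩ := common x hx p hp hxp
    by_cases hqy : q = y
    · subst hqy; exact Or.inl hpq
    · by_cases hqz : q = z
      · subst hqz; exact Or.inr hpq
      · exact (hBF x y z p q hxy hxz hyz hxp hxq hpq (Ne.symm hpy) (Ne.symm hqy) (Ne.symm hpz) (Ne.symm hqz)).elim
  have hzy : ({z, y} : Finset (Fin n)) ∈ G := sw hyz
  rcases adj p hp hxp hpS.1 hpS.2 with h | h <;> rcases adj p' hp' hxp' hpS'.1 hpS'.2.1 with h' | h'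
  · exact main y hy z hz hxy hxz hyz p hp p' hp' hxp hxp' hpS.1 hpS.2 hpS'.1 hpS'.2.1 (Ne.symm hpS'.2.2) h h'
  · exact hBF x p y p' z hxp hxy h hxp' hxz h' (Ne.symm hpS'.2.2) hpS.2 (Ne.symm hpS'.1) (hne hyz)
  · exact hBF x p z p' y hxp hxz h hxp' hxy h' (Ne.symm hpS'.2.2) hpS.1 (Ne.symm hpS'.2.1) (hne hzy)
  · exact main z hz y hy hxz hxy hzy p hp p' hp' hxp hxp' hpS.2 hpS.1 hpS'.2.1 hpS'.1 (Ne.symm hpS'.2.2) h h'

theorem EW_le (h2 : ∀ e ∈ G, e.card = 2) (hBF : BF G) : ∀ (k : ℕ) (W : Finset (Fin n)), W.card = k + 5 →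
    EW G W ≤ (k + 5) ^ 2 / 4 + 1 := by
  intro k
  induction k with
  | zero =>
    intro W hW
    exact base5 G h2 hBF W hW
  | succ k ih =>
    intro W hW
    obtain ⟨v, hv, hd⟩ := exists_low G h2 hBF W (by omega)
    rw [EW_erase G h2 W v hv]
    have h1 := ih (W.erase v) (by rw [Finset.card_erase_of_mem hv]; omega)
    rw [hW] at hd
    have h3 : (k + 1 + 5) ^ 2 / 4 = (k + 5) ^ 2 / 4 + (k + 1 + 5) / 2 := by
      rcases Nat.even_or_odd' k with ⟨j, rfl | rfl⟩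
      · have e1 : (2 * j + 1 + 5) ^ 2 = 4 * ((j + 3) ^ 2) := by ring
        have e2 : (2 * j + 5) ^ 2 = 4 * ((j + 2) * (j + 3)) + 1 := by ring
        have e3 : (2 * j + 1 + 5) / 2 = j + 3 := by omega
        have e4 : (4 * ((j + 3) ^ 2)) / 4 = (j + 3) ^ 2 := by omega
        have e5 : (4 * ((j + 2) * (j + 3)) + 1) / 4 = (j + 2) * (j + 3) := by omega
        rw [e1, e2, e3, e4, e5]; ring
      · have e1 : (2 * j + 1 + 1 + 5) ^ 2 = 4 * ((j + 3) * (j + 4)) + 1 := by ring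
        have e2 : (2 * j + 1 + 5) ^ 2 = 4 * ((j + 3) ^ 2) := by ring
        have e3 : (2 * j + 1 + 1 + 5) / 2 = j + 3 := by omega
        have e4 : (4 * ((j + 3) * (j + 4)) + 1) / 4 = (j + 3) * (j + 4) := by omega
        have e5 : (4 * ((j + 3) ^ 2)) / 4 = (j + 3) ^ 2 := by omega
        rw [e1, e2, e3, e4, e5]; ring
    omega

theorem card_le (h2 : ∀ e ∈ G, e.card = 2) (hn : 5 ≤ n)
    (hf : ¬ ∃ φ : Fin 5 ↪ Fin n, ∀ e ∈ bowtie, e.map φ ∈ G) : G.card ≤ n ^ 2 / 4 + 1 := by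
  have h := EW_le G h2 (BF_of_free G h2 hf) (n - 5) Finset.univ (by simp; omega)
  have e1 : n - 5 + 5 = n := by omega
  rw [e1] at h
  have e2 : EW G Finset.univ = G.card := by
    unfold EW
    simp
  omega

end Upper


section Lower

/-- balanced complete bipartite graph on `Fin n` -/
def Bip (n : ℕ) : Finset (Finset (Fin n)) :=
  ((Finset.univ.filter (fun i : Fin n => i.val < n / 2)) ×ˢ
    (Finset.univ.filter (fun j : Fin n => n / 2 ≤ j.val))).image (fun p => {p.1, p.2})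

theorem mem_Bip {n : ℕ} {a b : Fin n} (h : ({a, b} : Finset (Fin n)) ∈ Bip n) :
    (a.val < n / 2 ∧ n / 2 ≤ b.val) ∨ (b.val < n / 2 ∧ n / 2 ≤ a.val) := by
  simp only [Bip, Finset.mem_image, Finset.mem_product, Finset.mem_filter, Finset.mem_univ,
    true_and, Prod.exists] at h
  obtain ⟨i, j, ⟨hi, hj⟩, hij⟩ := h
  have ha : a ∈ ({i, j} : Finset (Fin n)) := by rw [hij]; simp
  have hb : b ∈ ({i, j} : Finset (Fin n)) := by rw [hij]; simp
  have hi' : i ∈ ({a, b} : Finset (Fin n)) := by rw [← hij]; simp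
  have hj' : j ∈ ({a, b} : Finset (Fin n)) := by rw [← hij]; simp
  simp only [Finset.mem_insert, Finset.mem_singleton] at ha hb hi' hj'
  rcases ha with rfl | rfl
  · rcases hb with rfl | rfl
    · rcases hj' with rfl | rfl <;> omega
    · exact Or.inl ⟨hi, hj⟩
  · rcases hb with rfl | rfl
    · exact Or.inr ⟨hi, hj⟩
    · rcases hi' with rfl | rfl <;> omega

theorem Bip_card2 (n : ℕ) : ∀ e ∈ Bip n, e.card = 2 := by
  intro e he
  simp only [Bip, Finset.mem_image, Finset.mem_product, Finset.mem_filter, Finset.mem_univ,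
    true_and, Prod.exists] at he
  obtain ⟨i, j, ⟨hi, hj⟩, rfl⟩ := he
  apply Finset.card_pair
  rintro rfl
  omega

theorem Bip_card (n : ℕ) : (Bip n).card = n / 2 * (n - n / 2) := by
  unfold Bip
  rw [Finset.card_image_of_injOn, Finset.card_product]
  · have h1 : (Finset.univ.filter (fun i : Fin n => i.val < n / 2)).card = n / 2 := by
      rw [Fin.card_filter_val_lt]
      omega
    have h2 : (Finset.univ.filter (fun j : Fin n => n / 2 ≤ j.val)).card = n - n / 2 := by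
      have h3 := Finset.card_filter_add_card_filter_not (s := (Finset.univ : Finset (Fin n)))
        (fun i : Fin n => i.val < n / 2)
      simp only [not_lt, Finset.card_univ, Fintype.card_fin] at h3
      omega
    rw [h1, h2]
  · rintro ⟨a, b⟩ hab ⟨c, d⟩ hcd heq
    simp only [Finset.coe_product, Set.mem_prod, Finset.coe_filter, Finset.mem_univ, true_and,
      Set.mem_ofPred_eq] at hab hcd
    have heq' : ({a, b} : Finset (Fin n)) = {c, d} := heq
    have ha : a ∈ ({c, d} : Finset (Fin n)) := by rw [← heq']; simp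
    have hb : b ∈ ({c, d} : Finset (Fin n)) := by rw [← heq']; simp
    simp only [Finset.mem_insert, Finset.mem_singleton] at ha hb
    rcases ha with rfl | rfl
    · rcases hb with rfl | rfl
      · omega
      · rfl
    · omega

/-- every triangle needs an edge outside the bipartite graph -/
theorem tri_not_Bip {n : ℕ} (a b c : Fin n) :
    ¬ (({a, b} : Finset (Fin n)) ∈ Bip n ∧ ({a, c} : Finset (Fin n)) ∈ Bip n ∧
      ({b, c} : Finset (Fin n)) ∈ Bip n) := by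
  rintro ⟨h1, h2, h3⟩
  have := mem_Bip h1
  have := mem_Bip h2
  have := mem_Bip h3
  omega

theorem map_pair {n : ℕ} (φ : Fin 5 ↪ Fin n) (i j : Fin 5) :
    ({i, j} : Finset (Fin 5)).map φ = {φ i, φ j} := by
  simp [Finset.map_insert, Finset.map_singleton]

theorem Bip_free (n : ℕ) : ¬ ∃ φ : Fin 5 ↪ Fin n, ∀ e ∈ bowtie, e.map φ ∈ Bip n := by
  rintro ⟨φ, h⟩
  have h1 := h {0, 1} (by decide)
  have h2 := h {0, 2} (by decide)
  have h3 := h {1, 2} (by decide)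
  rw [map_pair] at h1 h2 h3
  exact tri_not_Bip _ _ _ ⟨h1, h2, h3⟩

/-- the vertices `0,1,2,3` of the big graph -/
def vv (m : ℕ) (hm : 5 ≤ m) (i : Fin 4) : Fin (2 * m) := ⟨i.val, by omega⟩

def ed1 (m : ℕ) (hm : 5 ≤ m) : Finset (Fin (2 * m)) := {vv m hm 0, vv m hm 1}
def ed2 (m : ℕ) (hm : 5 ≤ m) : Finset (Fin (2 * m)) := {vv m hm 2, vv m hm 3}

/-- bipartite graph plus two disjoint edges on one side -/
def HH (m : ℕ) (hm : 5 ≤ m) : Finset (Finset (Fin (2 * m))) :=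
  insert (ed1 m hm) (insert (ed2 m hm) (Bip (2 * m)))

theorem ed_ne (m : ℕ) (hm : 5 ≤ m) : ed1 m hm ≠ ed2 m hm := by
  intro h
  have : vv m hm 0 ∈ ed2 m hm := by rw [← h]; simp [ed1]
  simp [ed2, vv] at this

theorem ed1_notMem (m : ℕ) (hm : 5 ≤ m) : ed1 m hm ∉ Bip (2 * m) := by
  intro h
  have := mem_Bip h
  simp [vv] at this
  omega

theorem ed2_notMem (m : ℕ) (hm : 5 ≤ m) : ed2 m hm ∉ Bip (2 * m) := by
  intro h
  have := mem_Bip h
  simp [vv] at this
  omega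

theorem HH_card2 (m : ℕ) (hm : 5 ≤ m) : ∀ e ∈ HH m hm, e.card = 2 := by
  intro e he
  simp only [HH, Finset.mem_insert] at he
  rcases he with rfl | rfl | he
  · exact Finset.card_pair (by simp [vv])
  · exact Finset.card_pair (by simp [vv])
  · exact Bip_card2 _ e he

theorem HH_erase_card (m : ℕ) (hm : 5 ≤ m) : ((HH m hm).erase (ed1 m hm)).card = m ^ 2 + 1 := by
  unfold HH
  rw [Finset.erase_insert (by
    simp only [Finset.mem_insert, not_or]
    exact ⟨ed_ne m hm, ed1_notMem m hm⟩), Finset.card_insert_of_notMem (ed2_notMem m hm), Bip_card]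
  have e1 : 2 * m / 2 = m := by omega
  rw [e1]
  have e2 : 2 * m - m = m := by omega
  rw [e2]
  ring

/-- each triangle of a copy uses one of the two special edges -/
theorem tri_uses (m : ℕ) (hm : 5 ≤ m) (φ : Fin 5 ↪ Fin (2 * m)) (h : ∀ e ∈ bowtie, e.map φ ∈ HH m hm)
    (i j k : Fin 5) (hij : ({i, j} : Finset (Fin 5)) ∈ bowtie) (hik : ({i, k} : Finset (Fin 5)) ∈ bowtie)
    (hjk : ({j, k} : Finset (Fin 5)) ∈ bowtie) :
    ∃ e ∈ ({{i, j}, {i, k}, {j, k}} : Finset (Finset (Fin 5))),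
      e.map φ = ed1 m hm ∨ e.map φ = ed2 m hm := by
  by_contra hcon
  push Not at hcon
  have g : ∀ e ∈ ({{i, j}, {i, k}, {j, k}} : Finset (Finset (Fin 5))), e ∈ bowtie → e.map φ ∈ Bip (2 * m) := by
    intro e he heb
    have h1 := h e heb
    obtain ⟨h2, h3⟩ := hcon e he
    simp only [HH, Finset.mem_insert] at h1
    rcases h1 with h1 | h1 | h1
    · exact absurd h1 h2
    · exact absurd h1 h3
    · exact h1
  have g1 := g {i, j} (by simp) hij
  have g2 := g {i, k} (by simp) hik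
  have g3 := g {j, k} (by simp) hjk
  rw [map_pair] at g1 g2 g3
  exact tri_not_Bip _ _ _ ⟨g1, g2, g3⟩

/-- no rainbow copy if the two special edges get the same colour -/
theorem not_rainbow (m : ℕ) (hm : 5 ≤ m) (r : ℕ) (c : {x // x ∈ HH m hm} → Fin r)
    (hc : ∀ x y : {x // x ∈ HH m hm}, x.1 = ed1 m hm → y.1 = ed2 m hm → c x = c y) :
    ¬ ∃ φ : Fin 5 ↪ Fin (2 * m), (∀ e ∈ bowtie, e.map φ ∈ HH m hm) ∧
              ∀ e ∈ bowtie, ∀ f ∈ bowtie, ∀ x y : {x // x ∈ HH m hm},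
                x.1 = e.map φ → y.1 = f.map φ → e ≠ f → c x ≠ c y := by
  rintro ⟨φ, hφ, hr⟩
  obtain ⟨e, he, hee⟩ := tri_uses m hm φ hφ 0 1 2 (by decide) (by decide) (by decide)
  obtain ⟨f, hf, hff⟩ := tri_uses m hm φ hφ 0 3 4 (by decide) (by decide) (by decide)
  have hdisj : ∀ e ∈ ({{0, 1}, {0, 2}, {1, 2}} : Finset (Finset (Fin 5))),
      ∀ f ∈ ({{0, 3}, {0, 4}, {3, 4}} : Finset (Finset (Fin 5))), e ≠ f := by decide
  have hsub1 : ({{0, 1}, {0, 2}, {1, 2}} : Finset (Finset (Fin 5))) ⊆ bowtie := by decide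
  have hsub2 : ({{0, 3}, {0, 4}, {3, 4}} : Finset (Finset (Fin 5))) ⊆ bowtie := by decide
  have hne := hdisj e he f hf
  have heb := hsub1 he
  have hfb := hsub2 hf
  have hinj : e.map φ ≠ f.map φ := fun h => hne (Finset.map_injective φ h)
  rcases hee with h1 | h1 <;> rcases hff with h2 | h2
  · exact hinj (h1.trans h2.symm)
  · exact hr e heb f hfb ⟨e.map φ, hφ e heb⟩ ⟨f.map φ, hφ f hfb⟩ rfl rfl hne (hc _ _ h1 h2)
  · exact hr f hfb e heb ⟨f.map φ, hφ f hfb⟩ ⟨e.map φ, hφ e heb⟩ rfl rfl (Ne.symm hne) (hc _ _ h2 h1)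
  · exact hinj (h1.trans h2.symm)

/-- no rainbow copy if all edges but the first special one get one colour -/
theorem not_rainbow' (m : ℕ) (hm : 5 ≤ m) (r : ℕ) (a : Fin r) (c : {x // x ∈ HH m hm} → Fin r)
    (hc : ∀ x : {x // x ∈ HH m hm}, x.1 ≠ ed1 m hm → c x = a) :
    ¬ ∃ φ : Fin 5 ↪ Fin (2 * m), (∀ e ∈ bowtie, e.map φ ∈ HH m hm) ∧
              ∀ e ∈ bowtie, ∀ f ∈ bowtie, ∀ x y : {x // x ∈ HH m hm},
                x.1 = e.map φ → y.1 = f.map φ → e ≠ f → c x ≠ c y := by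
  rintro ⟨φ, hφ, hr⟩
  have h01 : ({0, 1} : Finset (Fin 5)) ∈ bowtie := by decide
  have h02 : ({0, 2} : Finset (Fin 5)) ∈ bowtie := by decide
  have h12 : ({1, 2} : Finset (Fin 5)) ∈ bowtie := by decide
  have n1 : ({0, 1} : Finset (Fin 5)) ≠ {0, 2} := by decide
  have n2 : ({0, 1} : Finset (Fin 5)) ≠ {1, 2} := by decide
  have n3 : ({0, 2} : Finset (Fin 5)) ≠ {1, 2} := by decide
  have inj : ∀ e f : Finset (Fin 5), e ≠ f → e.map φ ≠ f.map φ := fun e f hne h =>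
    hne (Finset.map_injective φ h)
  by_cases g1 : ({0, 1} : Finset (Fin 5)).map φ = ed1 m hm
  · have g2 : ({0, 2} : Finset (Fin 5)).map φ ≠ ed1 m hm := fun h => inj _ _ n1 (g1.trans h.symm)
    have g3 : ({1, 2} : Finset (Fin 5)).map φ ≠ ed1 m hm := fun h => inj _ _ n2 (g1.trans h.symm)
    exact hr _ h02 _ h12 ⟨_, hφ _ h02⟩ ⟨_, hφ _ h12⟩ rfl rfl n3 ((hc _ g2).trans (hc _ g3).symm)
  · by_cases g2 : ({0, 2} : Finset (Fin 5)).map φ = ed1 m hm
    · have g3 : ({1, 2} : Finset (Fin 5)).map φ ≠ ed1 m hm := fun h => inj _ _ n3 (g2.trans h.symm)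
      exact hr _ h01 _ h12 ⟨_, hφ _ h01⟩ ⟨_, hφ _ h12⟩ rfl rfl n2 ((hc _ g1).trans (hc _ g3).symm)
    · exact hr _ h01 _ h02 ⟨_, hφ _ h01⟩ ⟨_, hφ _ h02⟩ rfl rfl n1 ((hc _ g1).trans (hc _ g2).symm)

open Classical in
theorem count_lower (m : ℕ) (hm : 5 ≤ m) (r : ℕ) (hr : 2 ≤ r) :
    r ^ (m ^ 2 + 1) < Nat.card {c : {x // x ∈ HH m hm} → Fin r //
            ¬ ∃ φ : Fin 5 ↪ Fin (2 * m), (∀ e ∈ bowtie, e.map φ ∈ HH m hm) ∧
              ∀ e ∈ bowtie, ∀ f ∈ bowtie, ∀ x y : {x // x ∈ HH m hm},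
                x.1 = e.map φ → y.1 = f.map φ → e ≠ f → c x ≠ c y} := by
  have h2mem : ed2 m hm ∈ (HH m hm).erase (ed1 m hm) := by
    rw [Finset.mem_erase]
    exact ⟨(ed_ne m hm).symm, by simp [HH]⟩
  -- extension of a colouring of H - e1
  let ext : ({x // x ∈ (HH m hm).erase (ed1 m hm)} → Fin r) → ({x // x ∈ HH m hm} → Fin r) :=
    fun c x => if h : x.1 = ed1 m hm then c ⟨ed2 m hm, h2mem⟩
      else c ⟨x.1, Finset.mem_erase.mpr ⟨h, x.2⟩⟩
  have hext : ∀ c, ∀ x y : {x // x ∈ HH m hm}, x.1 = ed1 m hm → y.1 = ed2 m hm → ext c x = ext c y := by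
    intro c x y hx hy
    have hy' : y.1 ≠ ed1 m hm := by rw [hy]; exact (ed_ne m hm).symm
    simp only [ext, dif_pos hx, dif_neg hy']
    congr 1
    exact Subtype.ext hy.symm
  let one : Fin r := ⟨1, by omega⟩
  let zero : Fin r := ⟨0, by omega⟩
  let cs : {x // x ∈ HH m hm} → Fin r := fun x => if x.1 = ed1 m hm then one else zero
  have hcs : ∀ x : {x // x ∈ HH m hm}, x.1 ≠ ed1 m hm → cs x = zero := by
    intro x hx
    simp only [cs, if_neg hx]
  let Φ : Option ({x // x ∈ (HH m hm).erase (ed1 m hm)} → Fin r) →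
      {c : {x // x ∈ HH m hm} → Fin r //
            ¬ ∃ φ : Fin 5 ↪ Fin (2 * m), (∀ e ∈ bowtie, e.map φ ∈ HH m hm) ∧
              ∀ e ∈ bowtie, ∀ f ∈ bowtie, ∀ x y : {x // x ∈ HH m hm},
                x.1 = e.map φ → y.1 = f.map φ → e ≠ f → c x ≠ c y} := fun o =>
    match o with
    | none => ⟨cs, not_rainbow' m hm r zero cs hcs⟩
    | some c => ⟨ext c, not_rainbow m hm r (ext c) (hext c)⟩
  have h1mem : ed1 m hm ∈ HH m hm := by simp [HH]
  have h2mem' : ed2 m hm ∈ HH m hm := by simp [HH]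
  have hne : ∀ c, ext c ≠ cs := by
    intro c hcc
    have a1 := hext c ⟨ed1 m hm, h1mem⟩ ⟨ed2 m hm, h2mem'⟩ rfl rfl
    rw [hcc] at a1
    simp only [cs, if_true, if_neg (ed_ne m hm).symm, one, zero] at a1
    simp at a1
  have hinj : Function.Injective Φ := by
    intro a b hab
    have hval : (Φ a).1 = (Φ b).1 := by rw [hab]
    cases a with
    | none =>
      cases b with
      | none => rfl
      | some c => exact absurd hval.symm (hne c)
    | some c =>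
      cases b with
      | none => exact absurd hval (hne c)
      | some c' =>
        congr 1
        funext x
        have hx := Finset.mem_erase.mp x.2
        have := congrFun hval ⟨x.1, hx.2⟩
        simp only [Φ, ext, dif_neg hx.1] at this
        exact this
  have hcard := Nat.card_le_card_of_injective Φ hinj
  have h3 : Nat.card (Option ({x // x ∈ (HH m hm).erase (ed1 m hm)} → Fin r)) = r ^ (m ^ 2 + 1) + 1 := by
    rw [Nat.card_eq_fintype_card, Fintype.card_option, Fintype.card_fun, Fintype.card_fin,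
      Fintype.card_coe, HH_erase_card m hm]
  omega

end Lower

/-- The negation of the preceding statement: For k≥2 and a linear k-uniform F with Turán number at least c·n^k, for all large r and large n every n-vertex k-graph has at most r^ex(n,F) r-colourings without a rainbow copy of F, with equality iff it is F-extremal. -/
theorem result :
    ¬ (∀ (k m : ℕ) (F : Finset (Finset (Fin m))) (ex : ℕ → ℕ), 2 ≤ k →
      (∀ e ∈ F, e.card = k) →
      (∀ e ∈ F, ∀ f ∈ F, e ≠ f → (e ∩ f).card ≤ 1) →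
      (∀ n : ℕ, ex n = sSup {t : ℕ | ∃ G : Finset (Finset (Fin n)),
          (∀ e ∈ G, e.card = k) ∧
          (¬ ∃ φ : Fin m ↪ Fin n, ∀ e ∈ F, e.map φ ∈ G) ∧ G.card = t}) →
      (∃ c : ℝ, 0 < c ∧ ∃ N : ℕ, ∀ n ≥ N, c * (n : ℝ) ^ k ≤ (ex n : ℝ)) →
      ∃ r0 : ℕ, ∀ r ≥ r0, ∃ n0 : ℕ, ∀ n ≥ n0, ∀ H : Finset (Finset (Fin n)),
        (∀ e ∈ H, e.card = k) →
        (Nat.card {c : {x // x ∈ H} → Fin r //
            ¬ ∃ φ : Fin m ↪ Fin n, (∀ e ∈ F, e.map φ ∈ H) ∧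
              ∀ e ∈ F, ∀ f ∈ F, ∀ x y : {x // x ∈ H},
                x.1 = e.map φ → y.1 = f.map φ → e ≠ f → c x ≠ c y} ≤ r ^ ex n ∧
        (Nat.card {c : {x // x ∈ H} → Fin r //
            ¬ ∃ φ : Fin m ↪ Fin n, (∀ e ∈ F, e.map φ ∈ H) ∧
              ∀ e ∈ F, ∀ f ∈ F, ∀ x y : {x // x ∈ H},
                x.1 = e.map φ → y.1 = f.map φ → e ≠ f → c x ≠ c y} = r ^ ex n ↔
          ((¬ ∃ φ : Fin m ↪ Fin n, ∀ e ∈ F, e.map φ ∈ H) ∧ H.card = ex n)))) := by
  intro h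
  have h := h 2 5 bowtie _ le_rfl (by decide) (by decide) (fun n => rfl)
    ⟨1 / 8, by norm_num, 2, fun n hn => ?_⟩
  · obtain ⟨r0, hr0⟩ := h
    obtain ⟨n0, hn0⟩ := hr0 (r0 + 2) (by omega)
    have hm : 5 ≤ n0 + 5 := by omega
    have hle := (hn0 (2 * (n0 + 5)) (by omega) (HH (n0 + 5) hm) (HH_card2 _ hm)).1
    have hub : sSup {t : ℕ | ∃ G : Finset (Finset (Fin (2 * (n0 + 5)))),
          (∀ e ∈ G, e.card = 2) ∧
          (¬ ∃ φ : Fin 5 ↪ Fin (2 * (n0 + 5)), ∀ e ∈ bowtie, e.map φ ∈ G) ∧ G.card = t}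
        ≤ (n0 + 5) ^ 2 + 1 := by
      apply csSup_le'
      rintro t ⟨G, hG2, hGf, rfl⟩
      have := card_le G hG2 (by omega) hGf
      have e1 : (2 * (n0 + 5)) ^ 2 / 4 = (n0 + 5) ^ 2 := by
        have : (2 * (n0 + 5)) ^ 2 = 4 * ((n0 + 5) ^ 2) := by ring
        omega
      omega
    have hpow : (r0 + 2) ^ sSup {t : ℕ | ∃ G : Finset (Finset (Fin (2 * (n0 + 5)))),
          (∀ e ∈ G, e.card = 2) ∧
          (¬ ∃ φ : Fin 5 ↪ Fin (2 * (n0 + 5)), ∀ e ∈ bowtie, e.map φ ∈ G) ∧ G.card = t}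
        ≤ (r0 + 2) ^ ((n0 + 5) ^ 2 + 1) := Nat.pow_le_pow_right (by omega) hub
    have hcount := count_lower (n0 + 5) hm (r0 + 2) (by omega)
    omega
  · have h1 : n / 2 * (n - n / 2) ≤ sSup {t : ℕ | ∃ G : Finset (Finset (Fin n)),
          (∀ e ∈ G, e.card = 2) ∧
          (¬ ∃ φ : Fin 5 ↪ Fin n, ∀ e ∈ bowtie, e.map φ ∈ G) ∧ G.card = t} := by
      apply le_csSup
      · refine ⟨(Finset.univ : Finset (Finset (Fin n))).card, ?_⟩
        rintro t ⟨G, -, -, rfl⟩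
        exact Finset.card_le_univ G
      · exact ⟨Bip n, Bip_card2 n, Bip_free n, Bip_card n⟩
    have h2 : (n : ℝ) ^ 2 ≤ 8 * ((n / 2 * (n - n / 2) : ℕ) : ℝ) := by
      have : n ^ 2 ≤ 8 * (n / 2 * (n - n / 2)) := by
        rcases Nat.even_or_odd' n with ⟨j, rfl | rfl⟩
        · have e1 : 2 * j / 2 = j := by omega
          have e2 : 2 * j - j = j := by omega
          rw [e1, e2]; nlinarith
        · have e1 : (2 * j + 1) / 2 = j := by omega
          have e2 : 2 * j + 1 - j = j + 1 := by omega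
          have : 1 ≤ j := by omega
          rw [e1, e2]; nlinarith
      exact_mod_cast this
    have h3 : ((n / 2 * (n - n / 2) : ℕ) : ℝ) ≤ ((sSup {t : ℕ | ∃ G : Finset (Finset (Fin n)),
          (∀ e ∈ G, e.card = 2) ∧
          (¬ ∃ φ : Fin 5 ↪ Fin n, ∀ e ∈ bowtie, e.map φ ∈ G) ∧ G.card = t} : ℕ) : ℝ) := by
      exact_mod_cast h1
    linarith

end Pool.Agent.S11432
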