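import Pool.Statements.S11724
import Pool.Agent.Lib.MP_d6bcd1_co.Examples

set_option autoImplicit false
open Pool Pool.MP_d6bcd1_co
open Pool.Agent.Lib.MP_d6bcd1_co

namespace Pool.Agent.S11724

/-- The negation of the preceding statement: For all positive v,b,k,r with vr=bk and every connected binary design D, D minimizes the sum of reciprocal nontrivial eigenvalues of C over all designs iff its closed-walk counts (Γ₂,Γ₃,…) are lexicographically minimal among connected binary designs. -/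
theorem result :
    ¬ (∀ (v b k r : ℕ), 0 < v → 0 < b → 0 < k → 0 < r → v * r = b * k →
  ∀ (IsDesign : Matrix (Fin v) (Fin b) ℕ → Prop),
    (∀ M, IsDesign M ↔ ((∀ j, ∑ i, M i j = k) ∧ (∀ i, ∑ j, M i j = r))) →
  ∀ (InB : Matrix (Fin v) (Fin b) ℕ → Prop),
    (∀ M, InB M ↔ (IsDesign M ∧ (∀ i j, M i j ≤ 1) ∧
      (SimpleGraph.fromRel (fun i j : Fin v => 0 < (M * M.transpose) i j)).Connected)) →
  ∀ (Γ : Matrix (Fin v) (Fin b) ℕ → ℕ → ℤ),
    (∀ M h, Γ M h = Matrix.trace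
      ((M.map (fun x : ℕ => (x : ℤ)) * (M.map (fun x : ℕ => (x : ℤ))).transpose
        - (r : ℤ) • (1 : Matrix (Fin v) (Fin v) ℤ)) ^ h)) →
  ∀ (ev : Matrix (Fin v) (Fin b) ℕ → Multiset ℝ),
    (∀ M, ev M = (Matrix.charpoly ((r : ℝ) • (1 : Matrix (Fin v) (Fin v) ℝ)
        - (1 / (k : ℝ)) • (M.map (fun x : ℕ => (x : ℝ)) * (M.map (fun x : ℕ => (x : ℝ))).transpose))).roots.erase 0) →
  ∀ D, InB D →
    ((∀ D', IsDesign D' → (0 : ℝ) ∉ ev D' →
        ((0 : ℝ) ∉ ev D ∧ ((ev D).map (fun x => x⁻¹)).sum ≤ ((ev D').map (fun x => x⁻¹)).sum)) ↔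
     (∀ D', InB D' → ∀ t : ℕ, 2 ≤ t →
        (∀ h : ℕ, 2 ≤ h → h < t → Γ D' h = Γ D h) → Γ D t ≤ Γ D' t))) := by
  intro H
  have H1 := H 18 63 2 7 (by norm_num) (by norm_num) (by norm_num) (by norm_num) (by norm_num)
    (fun M => (∀ j, ∑ i, M i j = 2) ∧ (∀ i, ∑ j, M i j = 7)) (fun M => Iff.rfl)
    (fun M => ((∀ j, ∑ i, M i j = 2) ∧ (∀ i, ∑ j, M i j = 7)) ∧ (∀ i j, M i j ≤ 1) ∧
      (SimpleGraph.fromRel (fun i j : Fin 18 => 0 < (M * M.transpose) i j)).Connected)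
    (fun M => Iff.rfl)
    (fun M h => (Xz M ^ h).trace) (fun M h => rfl)
    (fun M => (Cr M).charpoly.roots.erase 0) (fun M => rfl)
  -- a lexicographically minimal design
  have hW1 : ((∀ j, ∑ i, W1 i j = 2) ∧ (∀ i, ∑ j, W1 i j = 7)) ∧ (∀ i j, W1 i j ≤ 1) ∧
      (SimpleGraph.fromRel (fun i j : Fin 18 => 0 < (W1 * W1.transpose) i j)).Connected :=
    ⟨⟨M1_col, M1_row⟩, M1_le, M1_conn⟩
  have hfin : {M : Matrix (Fin 18) (Fin 63) ℕ |
      ((∀ j, ∑ i, M i j = 2) ∧ (∀ i, ∑ j, M i j = 7)) ∧ (∀ i j, M i j ≤ 1) ∧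
      (SimpleGraph.fromRel (fun i j : Fin 18 => 0 < (M * M.transpose) i j)).Connected}.Finite := by
    have h1 : (Set.Iic (fun _ _ => 1 : Fin 18 → Fin 63 → ℕ)).Finite := Set.finite_Iic _
    refine h1.subset ?_
    intro M hM i j
    exact hM.2.1 i j
  obtain ⟨D, hD, hmin⟩ := Set.exists_min_image _
    (fun M : Matrix (Fin 18) (Fin 63) ℕ => (toLex (fun h : ℕ => (Xz M ^ (h + 2)).trace) :
      Lex (ℕ → ℤ))) hfin ⟨W1, hW1⟩
  have hlex : ∀ D' : Matrix (Fin 18) (Fin 63) ℕ,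
      (((∀ j, ∑ i, D' i j = 2) ∧ (∀ i, ∑ j, D' i j = 7)) ∧ (∀ i j, D' i j ≤ 1) ∧
      (SimpleGraph.fromRel (fun i j : Fin 18 => 0 < (D' * D'.transpose) i j)).Connected) →
      ∀ t : ℕ, 2 ≤ t → (∀ h : ℕ, 2 ≤ h → h < t → (Xz D' ^ h).trace = (Xz D ^ h).trace) →
        (Xz D ^ t).trace ≤ (Xz D' ^ t).trace := by
    intro D' hD' t ht hagree
    by_contra hcon
    push Not at hcon
    have h1 := hmin D' hD'
    apply absurd h1
    rw [not_le]
    refine ⟨t - 2, ?_, ?_⟩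
    · intro j hj
      exact hagree (j + 2) (by omega) (by omega)
    · have h2 : t - 2 + 2 = t := by omega
      show (Xz D' ^ (t - 2 + 2)).trace < (Xz D ^ (t - 2 + 2)).trace
      rw [h2]
      exact hcon
  obtain ⟨⟨hcol, hrow⟩, hle, hconn⟩ := hD
  have hA := (H1 D ⟨⟨hcol, hrow⟩, hle, hconn⟩).mpr hlex
  obtain ⟨hs2, hn2⟩ := M2_pinv
  obtain ⟨h0, hsum⟩ := hA W2 ⟨M2_col, M2_row⟩ hn2
  -- second and third closed-walk numbers
  have g2 : (Xz D ^ 2).trace ≤ 126 := by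
    have := hlex W1 hW1 2 le_rfl (by intro h h1 h2; omega)
    rw [M1_tr2] at this
    exact this
  have g2' : (Xz D ^ 2).trace = 126 := by
    apply le_antisymm g2
    rw [trace_sq]
    have hs : ∑ i, ∑ j, Xz D i j = 126 := by
      simp only [Xz_row hcol hrow]
      simp
    rw [← hs]
    apply Finset.sum_le_sum
    intro i _
    apply Finset.sum_le_sum
    intro j _
    rw [Xz_symm j i]
    rcases Xz_01 hcol hrow hle g2 i j with h | h <;> rw [h] <;> norm_num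
  have g3 : (Xz D ^ 3).trace ≤ 0 := by
    have := hlex W1 hW1 3 (by norm_num) (by
      intro h h1 h2
      have : h = 2 := by omega
      rw [this, M1_tr2, g2'])
    rw [M1_tr3] at this
    exact this
  have hb := design_bound hcol hrow hle g2 g3 h0
  rw [hs2] at hsum
  have hfinal := le_trans hb hsum
  norm_num at hfinal

end Pool.Agent.S11724
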