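import Pool.Statements.S12433
import Pool.Agent.Lib.MP_f5b555_co.Main

set_option autoImplicit false
open scoped Classical
open Pool Pool.MP_f5b555_co

namespace Pool.Agent.S12433

/-- For n ≥ 1, 2k < n and λ=(n,n−2,…,n−2k), the strict partitions inside λ have average down-degree equal to that of a random element of a random maximal chain (CDE), and this average is ∣λ∣/(n+1). -/
theorem result :
  ∀ (n k : ℕ), 1 ≤ n → 2 * k < n →
  ∀ (V : (Fin (k+1) → ℕ) → Prop),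
    (∀ μ, V μ ↔ ((∀ i : Fin (k+1), μ i ≤ n - 2 * (i : ℕ)) ∧
        ∀ i j : Fin (k+1), i < j → μ j = 0 ∨ μ j < μ i)) →
  ∀ (D : (Fin (k+1) → ℕ) → ℕ),
    (∀ μ, D μ = (Finset.univ.filter
        (fun i : Fin (k+1) => 0 < μ i ∧ V (Function.update μ i (μ i - 1)))).card) →
  ∀ (N : ℕ), N = ∑ i : Fin (k+1), (n - 2 * (i : ℕ)) →
  ∀ (S : (Fin N → Fin (k+1)) → ℕ → Fin (k+1) → ℕ),
    (∀ w j i, S w j i = (Finset.univ.filter
        (fun t : Fin N => (t : ℕ) < j ∧ w t = i)).card) →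
  ((∑ μ ∈ Finset.univ.filter (fun μ : Fin (k+1) → Fin (n+1) => V (fun i => (μ i : ℕ))),
        (D (fun i => (μ i : ℕ)) : ℚ)) /
      ((Finset.univ.filter (fun μ : Fin (k+1) → Fin (n+1) => V (fun i => (μ i : ℕ)))).card : ℚ)
    =
    (∑ w ∈ Finset.univ.filter (fun w : Fin N → Fin (k+1) =>
          (∀ j : ℕ, j ≤ N → V (S w j)) ∧ ∀ i : Fin (k+1), S w N i = n - 2 * (i : ℕ)),
        ∑ j ∈ Finset.range (N+1), (D (S w j) : ℚ)) /
      (((Finset.univ.filter (fun w : Fin N → Fin (k+1) =>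
          (∀ j : ℕ, j ≤ N → V (S w j)) ∧ ∀ i : Fin (k+1), S w N i = n - 2 * (i : ℕ))).card : ℚ)
        * ((N : ℚ) + 1))
  ∧
  (∑ μ ∈ Finset.univ.filter (fun μ : Fin (k+1) → Fin (n+1) => V (fun i => (μ i : ℕ))),
        (D (fun i => (μ i : ℕ)) : ℚ)) /
      ((Finset.univ.filter (fun μ : Fin (k+1) → Fin (n+1) => V (fun i => (μ i : ℕ)))).card : ℚ)
    = (N : ℚ) / ((n : ℚ) + 1)) := by
  intro n k hn hk V hV D hD N hN S hS
  have hP : ∀ μ, μ ∈ Pool.Agent.Lib.MP_f5b555_co.VS n (k + 1) ↔ V μ := by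
    intro μ
    rw [hV, Pool.Agent.Lib.MP_f5b555_co.mem_VS]
    rfl
  subst hN
  have hDq : ∀ μ, (D μ : ℚ) = Pool.Agent.Lib.MP_f5b555_co.dd
      (Pool.Agent.Lib.MP_f5b555_co.VS n (k + 1)) μ := by
    intro μ
    rw [hD, Finset.card_filter]
    unfold Pool.Agent.Lib.MP_f5b555_co.dd
    push_cast
    refine Finset.sum_congr rfl fun i _ => ?_
    have h1 : (0 < μ i ∧ V (Function.update μ i (μ i - 1))) ↔
        (0 < μ i ∧ Pool.Agent.Lib.MP_f5b555_co.dn μ i ∈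
          Pool.Agent.Lib.MP_f5b555_co.VS n (k + 1)) := by
      rw [hP]
      rfl
    by_cases h : 0 < μ i ∧ V (Function.update μ i (μ i - 1))
    · rw [if_pos h, if_pos (h1.1 h)]
    · rw [if_neg h, if_neg (fun h2 => h (h1.2 h2))]
  -- the set of valid functions
  have hinj : Function.Injective
      (fun (μ : Fin (k + 1) → Fin (n + 1)) (i : Fin (k + 1)) => (μ i : ℕ)) := by
    intro μ ν h
    funext i
    exact Fin.ext (congrFun h i)
  have himg : (Finset.univ.filter (fun μ : Fin (k+1) → Fin (n+1) =>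
      V (fun i => (μ i : ℕ)))).image
      (fun (μ : Fin (k + 1) → Fin (n + 1)) (i : Fin (k + 1)) => (μ i : ℕ)) =
      Pool.Agent.Lib.MP_f5b555_co.VS n (k + 1) := by
    ext μ
    rw [Finset.mem_image, hP]
    constructor
    · rintro ⟨ν, h1, rfl⟩
      exact (Finset.mem_filter.1 h1).2
    · intro h
      have h1 := ((hV μ).1 h).1
      refine ⟨fun i => ⟨μ i, by have := h1 i; omega⟩, ?_, rfl⟩
      rw [Finset.mem_filter]
      exact ⟨Finset.mem_univ _, h⟩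
  have hcard : ((Finset.univ.filter (fun μ : Fin (k+1) → Fin (n+1) =>
      V (fun i => (μ i : ℕ)))).card : ℚ) =
      ((Pool.Agent.Lib.MP_f5b555_co.VS n (k + 1)).card : ℚ) := by
    rw [← himg, Finset.card_image_of_injective _ hinj]
  have hsum : ∑ μ ∈ Finset.univ.filter (fun μ : Fin (k+1) → Fin (n+1) =>
      V (fun i => (μ i : ℕ))), (D (fun i => (μ i : ℕ)) : ℚ) =
      ∑ μ ∈ Pool.Agent.Lib.MP_f5b555_co.VS n (k + 1),
        Pool.Agent.Lib.MP_f5b555_co.dd (Pool.Agent.Lib.MP_f5b555_co.VS n (k + 1)) μ := by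
    conv_rhs => rw [← himg]
    rw [Finset.sum_image (fun a _ b _ h => hinj h)]
    refine Finset.sum_congr rfl fun μ _ => ?_
    rw [hDq, himg]
  have hn1 : (n : ℚ) + 1 ≠ 0 := by positivity
  have hNq := Pool.Agent.Lib.MP_f5b555_co.sum_rows n k hk
  have hcard0 : ((Pool.Agent.Lib.MP_f5b555_co.VS n (k + 1)).card : ℚ) ≠ 0 := by
    have := Finset.card_pos.2 ⟨_, Pool.Agent.Lib.MP_f5b555_co.zero_mem n (k + 1)⟩
    exact_mod_cast this.ne'
  have hU : (∑ μ ∈ Finset.univ.filter (fun μ : Fin (k+1) → Fin (n+1) =>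
      V (fun i => (μ i : ℕ))), (D (fun i => (μ i : ℕ)) : ℚ)) /
      ((Finset.univ.filter (fun μ : Fin (k+1) → Fin (n+1) =>
        V (fun i => (μ i : ℕ)))).card : ℚ) =
      ((∑ i : Fin (k+1), (n - 2 * (i : ℕ)) : ℕ) : ℚ) / ((n : ℚ) + 1) := by
    rw [hcard, hsum, Pool.Agent.Lib.MP_f5b555_co.uniform_sum hk, hNq]
    field_simp
  -- the words
  have hW : ∀ w : Fin (∑ i : Fin (k+1), (n - 2 * (i : ℕ))) → Fin (k + 1),
      S w = Pool.Agent.Lib.MP_f5b555_co.st 0 w := by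
    intro w
    funext j i
    rw [hS]
    unfold Pool.Agent.Lib.MP_f5b555_co.st
    simp
  have hWS : ∀ (f : (Fin (∑ i : Fin (k+1), (n - 2 * (i : ℕ))) → Fin (k + 1)) → ℚ),
      ∑ w ∈ Finset.univ.filter (fun w : Fin (∑ i : Fin (k+1), (n - 2 * (i : ℕ))) → Fin (k+1) =>
          (∀ j : ℕ, j ≤ (∑ i : Fin (k+1), (n - 2 * (i : ℕ))) → V (S w j)) ∧
            ∀ i : Fin (k+1), S w (∑ i : Fin (k+1), (n - 2 * (i : ℕ))) i = n - 2 * (i : ℕ)), f w =
      ∑ w ∈ Pool.Agent.Lib.MP_f5b555_co.WS V (Pool.Agent.Lib.MP_f5b555_co.top n k)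
        (∑ i : Fin (k+1), (n - 2 * (i : ℕ))) 0, f w := by
    intro f
    refine Finset.sum_congr ?_ fun _ _ => rfl
    ext w
    rw [Finset.mem_filter, Pool.Agent.Lib.MP_f5b555_co.mem_WS, hW]
    constructor
    · rintro ⟨_, h1, h2⟩
      exact ⟨h1, funext h2⟩
    · rintro ⟨h1, h2⟩
      exact ⟨Finset.mem_univ _, h1, fun i => congrFun h2 i⟩
  have hcardW : ((Finset.univ.filter (fun w : Fin (∑ i : Fin (k+1), (n - 2 * (i : ℕ))) →
      Fin (k+1) => (∀ j : ℕ, j ≤ (∑ i : Fin (k+1), (n - 2 * (i : ℕ))) → V (S w j)) ∧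
            ∀ i : Fin (k+1), S w (∑ i : Fin (k+1), (n - 2 * (i : ℕ))) i =
              n - 2 * (i : ℕ))).card : ℚ) =
      Pool.Agent.Lib.MP_f5b555_co.Fh (Pool.Agent.Lib.MP_f5b555_co.top n k) := by
    have h1 := hWS (fun _ => 1)
    rw [Finset.sum_const, nsmul_eq_mul, mul_one] at h1
    rw [h1, ← Pool.Agent.Lib.MP_f5b555_co.hh_zero hk V hP]
    unfold Pool.Agent.Lib.MP_f5b555_co.hh Pool.Agent.Lib.MP_f5b555_co.cs
    have h0 : ∑ i, (0 : Fin (k + 1) → ℕ) i = 0 := by simp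
    rw [h0, Nat.sub_zero]
    rfl
  have hsumW := hWS (fun w => ∑ j ∈ Finset.range ((∑ i : Fin (k+1), (n - 2 * (i : ℕ))) + 1),
    (D (S w j) : ℚ))
  have hsumW2 : ∑ w ∈ Pool.Agent.Lib.MP_f5b555_co.WS V (Pool.Agent.Lib.MP_f5b555_co.top n k)
        (∑ i : Fin (k+1), (n - 2 * (i : ℕ))) 0,
        ∑ j ∈ Finset.range ((∑ i : Fin (k+1), (n - 2 * (i : ℕ))) + 1), (D (S w j) : ℚ) =
      (((k : ℚ) + 1) * ((n : ℚ) - k)) / ((n : ℚ) + 1) *
      ((((∑ i, Pool.Agent.Lib.MP_f5b555_co.top n k i : ℕ) : ℚ) + 1) *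
        Pool.Agent.Lib.MP_f5b555_co.Fh (Pool.Agent.Lib.MP_f5b555_co.top n k)) := by
    rw [← Pool.Agent.Lib.MP_f5b555_co.chain_sum hk V hP]
    have h1 := Pool.Agent.Lib.MP_f5b555_co.qq_zero hk V hP
      (Pool.Agent.Lib.MP_f5b555_co.dd (Pool.Agent.Lib.MP_f5b555_co.VS n (k + 1)))
    have h2 : ∑ μ ∈ Pool.Agent.Lib.MP_f5b555_co.VS n (k + 1),
        Pool.Agent.Lib.MP_f5b555_co.Fh μ *
          Pool.Agent.Lib.MP_f5b555_co.hh V (Pool.Agent.Lib.MP_f5b555_co.top n k) μ *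
          Pool.Agent.Lib.MP_f5b555_co.dd (Pool.Agent.Lib.MP_f5b555_co.VS n (k + 1)) μ =
        ∑ μ ∈ Pool.Agent.Lib.MP_f5b555_co.VS n (k + 1),
        Pool.Agent.Lib.MP_f5b555_co.Fh μ *
          (Pool.Agent.Lib.MP_f5b555_co.dd (Pool.Agent.Lib.MP_f5b555_co.VS n (k + 1)) μ *
          Pool.Agent.Lib.MP_f5b555_co.hh V (Pool.Agent.Lib.MP_f5b555_co.top n k) μ) := by
      refine Finset.sum_congr rfl fun μ _ => ?_
      ring
    rw [h2, ← h1]
    unfold Pool.Agent.Lib.MP_f5b555_co.qq Pool.Agent.Lib.MP_f5b555_co.qs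
    have h0 : ∑ i, (0 : Fin (k + 1) → ℕ) i = 0 := by simp
    rw [h0, Nat.sub_zero]
    refine Finset.sum_congr rfl fun w _ => ?_
    refine Finset.sum_congr rfl fun j _ => ?_
    rw [hDq, hW]
    rfl
  have htopsum : ((∑ i, Pool.Agent.Lib.MP_f5b555_co.top n k i : ℕ) : ℚ) =
      ((∑ i : Fin (k+1), (n - 2 * (i : ℕ)) : ℕ) : ℚ) := rfl
  have hF0 := Pool.Agent.Lib.MP_f5b555_co.Fh_top_ne hk
  have hN1 : ((∑ i : Fin (k+1), (n - 2 * (i : ℕ)) : ℕ) : ℚ) + 1 ≠ 0 := by positivity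
  refine ⟨?_, hU⟩
  rw [hU, hsumW, hsumW2, hcardW, htopsum, ← hNq]
  field_simp

end Pool.Agent.S12433
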