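import Pool.Statements.S12624
import Pool.Agent.Lib.MP_fe1391_co.CX42.Asm51
import Pool.Agent.Lib.MP_fe1391_co.CX42.K33C12
import Pool.Agent.Lib.MP_fe1391_co.CX42.FreeM39
import Pool.Agent.Lib.MP_fe1391_co.CX42.Prod81
import Pool.Agent.Lib.MP_fe1391_co.CX42.FinA86

set_option autoImplicit false
open Pool Pool.MP_fe1391_co

namespace Pool.Agent.S12624

/-- The negation of the preceding statement: For every field K and every central hyperplane arrangement in K^l, the module of logarithmic derivations is free iff Psi(A;x,-1) = sum over p of Hilb(D^p(A);x)(-x)^p is a nonzero palindromic integer polynomial. -/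
theorem result :
    ¬ (∀ (K : Type) [Field K] (ℓ : ℕ) (A : Finset (Submodule K (Fin ℓ → K))),
      (∀ H ∈ A, ∃ a : Module.Dual K (Fin ℓ → K), a ≠ 0 ∧ LinearMap.ker a = H) →
      (Module.Free (MvPolynomial (Fin ℓ) K)
          (Submodule.span (MvPolynomial (Fin ℓ) K)
            {θ : Derivation K (MvPolynomial (Fin ℓ) K) (MvPolynomial (Fin ℓ) K) |
              ∀ H ∈ A, ∀ a : Module.Dual K (Fin ℓ → K), LinearMap.ker a = H →
                (∑ i : Fin ℓ, MvPolynomial.C (a (Pi.single i 1)) * MvPolynomial.X i) ∣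
                  θ (∑ i : Fin ℓ, MvPolynomial.C (a (Pi.single i 1)) * MvPolynomial.X i)}) ↔
        ∃ f : Polynomial ℤ, f ≠ 0 ∧ f.reverse = f ∧
          (f : PowerSeries ℤ) =
            ∑ p ∈ Finset.range (ℓ + 1),
              PowerSeries.mk (fun k : ℕ =>
                  ((Module.finrank K
                    (Submodule.span K
                      {θ : AlternatingMap K (MvPolynomial (Fin ℓ) K) (MvPolynomial (Fin ℓ) K) (Fin p) |
                        (∀ (v : Fin p → MvPolynomial (Fin ℓ) K) (j : Fin p)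
                            (u w : MvPolynomial (Fin ℓ) K),
                            θ (Function.update v j (u * w)) =
                              u * θ (Function.update v j w) + w * θ (Function.update v j u)) ∧
                        (∀ H ∈ A, ∀ a : Module.Dual K (Fin ℓ → K), LinearMap.ker a = H →
                            ∀ (v : Fin p → MvPolynomial (Fin ℓ) K) (j : Fin p),
                              v j = (∑ i : Fin ℓ, MvPolynomial.C (a (Pi.single i 1)) * MvPolynomial.X i) →
                              (∑ i : Fin ℓ, MvPolynomial.C (a (Pi.single i 1)) * MvPolynomial.X i) ∣ θ v) ∧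
                        (∀ w : Fin p → Fin ℓ,
                            (θ (fun j => MvPolynomial.X (w j))).IsHomogeneous k)}) : ℕ) : ℤ))
                * (-PowerSeries.X) ^ p)) := by
  intro H
  obtain ⟨ℓ, A, hA, hc⟩ := Pool.Agent.Lib.MP_fe1391_co.CX42.final51 (K := ℚ)
    (Pool.Agent.Lib.MP_fe1391_co.CX12.B9 ℚ) (Pool.Agent.Lib.MP_fe1391_co.CX42.Sai49.B25 ℚ)
    (Pool.Agent.Lib.MP_fe1391_co.CX12.norm9 ℚ) (Pool.Agent.Lib.MP_fe1391_co.CX42.Sai49.norm25 ℚ)
    (Pool.Agent.Lib.MP_fe1391_co.CX12.psi9 (by norm_num))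
    (Pool.Agent.Lib.MP_fe1391_co.CX42.psi25 ℚ (by norm_num) (by norm_num))
    (Pool.Agent.Lib.MP_fe1391_co.CX42.prod81
      Pool.Agent.Lib.MP_fe1391_co.CX42.FinA86.stFin_86 ℚ 4 12 _ _)
  exact hc (H ℚ ℓ A hA)

end Pool.Agent.S12624
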