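import Pool.Statements.S12716
import Pool.Agent.Lib.MP_08e893_gt.Upper

set_option autoImplicit false
open Pool Pool.MP_08e893_gt

namespace Pool.Agent.S12716

/-- The negation of the preceding statement: For every Tychonoff space X and subspace Y, the spread of C_p(Y) (continuous real functions on Y, pointwise topology) equals the spread of the subspace of restrictions to Y of continuous real functions on X. -/
theorem result :
    ¬ (∀ (X : Type) [TopologicalSpace X] [T35Space X] (Y : Set X),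
      (⨆ D : {D : Set (Y → ℝ) //
          D ⊆ Set.range (fun f : C(Y, ℝ) => (f : Y → ℝ)) ∧ DiscreteTopology D},
          Cardinal.mk D.1)
        =
      (⨆ D : {D : Set (Y → ℝ) //
          D ⊆ Set.range (fun f : C(X, ℝ) => fun y : Y => f y.1) ∧ DiscreteTopology D},
          Cardinal.mk D.1)) := by
  intro hall
  have hTT := Pool.Agent.Lib.MP_08e893_gt.TT_nonempty
  obtain ⟨col, hcol⟩ := Pool.Agent.Lib.MP_08e893_gt.combW Pool.Agent.Lib.MP_08e893_gt.TT
  have h := hall Pool.Agent.Lib.MP_08e893_gt.XX (Pool.Agent.Lib.MP_08e893_gt.YY col)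
  have h1 : Cardinal.mk Pool.Agent.Lib.MP_08e893_gt.W2 ≤
      (⨆ D : {D : Set (Pool.Agent.Lib.MP_08e893_gt.YY col → ℝ) //
          D ⊆ Set.range (fun f : C(Pool.Agent.Lib.MP_08e893_gt.YY col, ℝ) =>
            (f : Pool.Agent.Lib.MP_08e893_gt.YY col → ℝ)) ∧ DiscreteTopology D},
          Cardinal.mk D.1) := by
    rw [Pool.Agent.Lib.MP_08e893_gt.DD_card col]
    refine le_ciSup (f := fun D : {D : Set (Pool.Agent.Lib.MP_08e893_gt.YY col → ℝ) //
          D ⊆ Set.range (fun f : C(Pool.Agent.Lib.MP_08e893_gt.YY col, ℝ) =>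
            (f : Pool.Agent.Lib.MP_08e893_gt.YY col → ℝ)) ∧ DiscreteTopology D} =>
          Cardinal.mk D.1) (Cardinal.bddAbove_range _)
      ⟨Pool.Agent.Lib.MP_08e893_gt.DD col, ?_, Pool.Agent.Lib.MP_08e893_gt.DD_discrete col⟩
    rintro _ ⟨α, rfl⟩
    exact ⟨Pool.Agent.Lib.MP_08e893_gt.gg col α, rfl⟩
  rw [h] at h1
  have h2 : (⨆ D : {D : Set (Pool.Agent.Lib.MP_08e893_gt.YY col → ℝ) //
          D ⊆ Set.range (fun f : C(Pool.Agent.Lib.MP_08e893_gt.XX, ℝ) =>
            fun y : Pool.Agent.Lib.MP_08e893_gt.YY col => f y.1) ∧ DiscreteTopology D},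
          Cardinal.mk D.1) ≤ Cardinal.mk Pool.Agent.Lib.MP_08e893_gt.W1 := by
    apply ciSup_le'
    rintro ⟨D, hD1, hD2⟩
    exact Pool.Agent.Lib.MP_08e893_gt.upper col hcol D hD1 hD2
  exact absurd (h1.trans h2) (not_le.mpr Pool.Agent.Lib.MP_08e893_gt.mk_W1_lt_W2)

end Pool.Agent.S12716
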