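import Pool.Statements.S12878
import Pool.Agent.Lib.MP_211c6f_gt.Weird

set_option autoImplicit false
open Filter Topology
open Pool Pool.MP_211c6f_gt

namespace Pool.Agent.S12878

/-- The negation of the preceding statement: For the Lelek fan, any two pairings of dense disjoint sequences of endpoints whose point-pair identifications give Hausdorff quotients yield homeomorphic quotient spaces. -/
theorem result :
    ¬ (∀ (X : Type) [MetricSpace X] [CompactSpace X] [ConnectedSpace X] [PathConnectedSpace X]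
    (v : X) (E : Set X),
    (∀ K M : Set X, IsClosed K → IsConnected K → IsClosed M → IsConnected M →
      IsPreconnected (K ∩ M)) →
    (∀ w : X, (∃ γ : Fin 3 → unitInterval → X,
        (∀ i, Continuous (γ i) ∧ Function.Injective (γ i) ∧ γ i 0 = w) ∧
        ∀ i j, i ≠ j → Set.range (γ i) ∩ Set.range (γ j) = {w}) ↔ w = v) →
    (∀ (x : ℕ → X) (y : X) (S : ℕ → Set X) (T : Set X),
      Tendsto x atTop (𝓝 y) →
      (∀ n, (x n = v ∧ S n = {v}) ∨ ∃ γ : unitInterval → X, Continuous γ ∧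
        Function.Injective γ ∧ γ 0 = v ∧ γ 1 = x n ∧ Set.range γ = S n) →
      ((y = v ∧ T = {v}) ∨ ∃ γ : unitInterval → X, Continuous γ ∧
        Function.Injective γ ∧ γ 0 = v ∧ γ 1 = y ∧ Set.range γ = T) →
      Tendsto (fun n => Metric.hausdorffDist (S n) T) atTop (𝓝 0)) →
    E = {e : X | ∀ γ : unitInterval → X, Continuous γ → Function.Injective γ →
      e ∈ Set.range γ → e = γ 0 ∨ e = γ 1} →
    Dense E →
    ∀ (a b a' b' : ℕ → X) (D D' : Setoid X),
      Function.Injective a → Function.Injective b → (∀ n, a n ∈ E ∧ b n ∈ E) →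
      Disjoint (Set.range a) (Set.range b) → Dense (Set.range a) → Dense (Set.range b) →
      Function.Injective a' → Function.Injective b' → (∀ n, a' n ∈ E ∧ b' n ∈ E) →
      Disjoint (Set.range a') (Set.range b') → Dense (Set.range a') → Dense (Set.range b') →
      D = sInf {s : Setoid X | ∀ n, s.r (a n) (b n)} →
      D' = sInf {s : Setoid X | ∀ n, s.r (a' n) (b' n)} →
      T2Space (Quotient D) → T2Space (Quotient D') →
      Nonempty (Quotient D ≃ₜ Quotient D')) := by
  intro H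
  classical
  have : Infinite (Lelek.Wd (Fin 4)) :=
    Infinite.of_injective (fun n : ℕ => (⟨n, fun _ => 0⟩ : Lelek.Wd (Fin 4)))
      (fun a b h => congrArg Sigma.fst h)
  have : Infinite Lelek.Ix := Sum.infinite_of_left
  obtain ⟨d1⟩ := nonempty_denumerable (Lelek.Wd (Fin 4))
  obtain ⟨d2⟩ := nonempty_denumerable Lelek.Ix
  let e1 : ℕ ≃ Lelek.Wd (Fin 4) := (Denumerable.eqv _).symm
  let e2 : ℕ ≃ Lelek.Ix := (Denumerable.eqv _).symm
  have hr1 : ∀ f : Lelek.Wd (Fin 4) → Lelek.L, Set.range (f ∘ e1) = Set.range f := fun f =>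
    e1.surjective.range_comp f
  have hr2 : ∀ f : Lelek.Ix → Lelek.L, Set.range (f ∘ e2) = Set.range f := fun f =>
    e2.surjective.range_comp f
  have hD1 : sInf {s : Setoid Lelek.L | ∀ n, s.r ((Lelek.A ∘ e1) n) ((Lelek.B ∘ e1) n)} = Lelek.Dg := by
    rw [Lelek.Dg, ← Lelek.pset_eq]
    congr 1
    ext s
    exact ⟨fun h i => by simpa using h (e1.symm i), fun h n => h (e1 n)⟩
  have hD2 : sInf {s : Setoid Lelek.L | ∀ n, s.r ((Lelek.A' ∘ e2) n) ((Lelek.B' ∘ e2) n)} = Lelek.Dw := by
    rw [Lelek.Dw, ← Lelek.pset_eq]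
    congr 1
    ext s
    exact ⟨fun h i => by simpa using h (e2.symm i), fun h n => h (e2 n)⟩
  have htop : ∀ p : Lelek.L, Lelek.IsTop p → ∀ γ : unitInterval → Lelek.L, Continuous γ →
      Function.Injective γ → p ∈ Set.range γ → p = γ 0 ∨ p = γ 1 :=
    fun p hp γ h1 h2 h3 => hp.endpoint h1 h2 h3
  refine Lelek.not_homeo (H Lelek.L Lelek.v
    {e : Lelek.L | ∀ γ : unitInterval → Lelek.L, Continuous γ → Function.Injective γ →
      e ∈ Set.range γ → e = γ 0 ∨ e = γ 1} Lelek.unicoherent ?_ Lelek.smooth rfl ?_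
    (Lelek.A' ∘ e2) (Lelek.B' ∘ e2) (Lelek.A ∘ e1) (Lelek.B ∘ e1) Lelek.Dw Lelek.Dg
    (Lelek.A'_inj.comp e2.injective) (Lelek.B'_inj.comp e2.injective)
    (fun n => ⟨htop _ (Lelek.A'_top _), htop _ (Lelek.B'_top _)⟩)
    (by rw [hr2, hr2]; exact Lelek.A'B'_disj) (by rw [hr2]; exact Lelek.A'_dense)
    (by rw [hr2]; exact Lelek.B'_dense)
    (Lelek.A_inj.comp e1.injective) (Lelek.B_inj.comp e1.injective)
    (fun n => ⟨htop _ (Lelek.A_top _), htop _ (Lelek.B_top _)⟩)
    (by rw [hr1, hr1]; exact Lelek.AB_disj) (by rw [hr1]; exact Lelek.A_dense)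
    (by rw [hr1]; exact Lelek.B_dense) hD2.symm hD1.symm inferInstance inferInstance)
  · intro w
    constructor
    · intro h
      by_contra hw
      exact Lelek.not_ram_L hw h
    · rintro rfl
      exact Lelek.ram_of_q (q := id) continuous_id (fun _ _ _ h => h)
  · exact Lelek.A_dense.mono (by
      rintro _ ⟨s, rfl⟩
      exact htop _ (Lelek.A_top s))

end Pool.Agent.S12878
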