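import Pool.Statements.S13338
import Pool.Agent.Lib.MP_6cd968_gt.Fin

set_option autoImplicit false
open Pool Pool.MP_6cd968_gt

namespace Pool.Agent.S13338

/-- The negation of the preceding statement: For any contractible simplicial complex of dimension ≤2 with a free cocompact simplicial group action, and any connected subgraph Y of its 1-skeleton, every m-sphere (m≥2) in the R-Rips complex of Y's vertices with path metric bounds a ball in the R'-Rips complex, with R' depending only on m and R. -/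
theorem result :
    ¬ (∀ (V : Type) (S : Set (Finset V)),
      (∀ v : V, ({v} : Finset V) ∈ S) →
      (∀ s ∈ S, s.Nonempty ∧ s.card ≤ 3) →
      (∀ s ∈ S, ∀ t : Finset V, t ⊆ s → t.Nonempty → t ∈ S) →
      ContractibleSpace {f : lp (fun _ : V => ℝ) 1 //
        (∀ v, 0 ≤ f v) ∧ ∃ s ∈ S, (∀ v, v ∉ s → f v = 0) ∧ ∑ v ∈ s, f v = 1} →
      ∀ (G : Type) [Group G] [MulAction G V],
      (∀ g : G, ∀ s ∈ S, ∃ t ∈ S, (t : Set V) = (fun v => g • v) '' (s : Set V)) →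
      (∀ g : G, g ≠ 1 → ∀ s ∈ S, (fun v => g • v) '' (s : Set V) ≠ (s : Set V)) →
      (∃ F : Finset (Finset V), ∀ s ∈ S, ∃ g : G, ∃ t ∈ F,
        (s : Set V) = (fun v => g • v) '' (t : Set V)) →
      ∀ Y : (SimpleGraph.fromRel (fun u v : V => ∃ s ∈ S, u ∈ s ∧ v ∈ s)).Subgraph,
      Y.Connected →
      ∀ m : ℕ, 2 ≤ m → ∀ R : ℝ, 0 ≤ R → ∃ R' : ℝ, R ≤ R' ∧
        ∀ γ : EuclideanSpace ℝ (Fin (m + 1)) → lp (fun _ : Y.verts => ℝ) 1,
          ContinuousOn γ (Metric.sphere (0 : EuclideanSpace ℝ (Fin (m + 1))) 1) →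
          Set.MapsTo γ (Metric.sphere (0 : EuclideanSpace ℝ (Fin (m + 1))) 1)
            {f : lp (fun _ : Y.verts => ℝ) 1 | (∀ a, 0 ≤ f a) ∧
              ∃ s : Finset Y.verts, (∀ a, a ∉ s → f a = 0) ∧ ∑ a ∈ s, f a = 1 ∧
                ∀ a ∈ s, ∀ b ∈ s, (Y.coe.dist a b : ℝ) ≤ R} →
          ∃ Γ : EuclideanSpace ℝ (Fin (m + 1)) → lp (fun _ : Y.verts => ℝ) 1,
            ContinuousOn Γ (Metric.closedBall (0 : EuclideanSpace ℝ (Fin (m + 1))) 1) ∧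
            Set.MapsTo Γ (Metric.closedBall (0 : EuclideanSpace ℝ (Fin (m + 1))) 1)
              {f : lp (fun _ : Y.verts => ℝ) 1 | (∀ a, 0 ≤ f a) ∧
                ∃ s : Finset Y.verts, (∀ a, a ∉ s → f a = 0) ∧ ∑ a ∈ s, f a = 1 ∧
                  ∀ a ∈ s, ∀ b ∈ s, (Y.coe.dist a b : ℝ) ≤ R'} ∧
            Set.EqOn Γ γ (Metric.sphere (0 : EuclideanSpace ℝ (Fin (m + 1))) 1)) := by
  intro h
  obtain ⟨R', hR', h2⟩ := @h Pool.Agent.Lib.MP_6cd968_gt.VV Pool.Agent.Lib.MP_6cd968_gt.SS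
    Pool.Agent.Lib.MP_6cd968_gt.SS_single Pool.Agent.Lib.MP_6cd968_gt.SS_card
    Pool.Agent.Lib.MP_6cd968_gt.SS_down Pool.Agent.Lib.MP_6cd968_gt.contractible_XX
    Pool.Agent.Lib.MP_6cd968_gt.GG _ Pool.Agent.Lib.MP_6cd968_gt.act
    Pool.Agent.Lib.MP_6cd968_gt.cond_inv Pool.Agent.Lib.MP_6cd968_gt.cond_free
    Pool.Agent.Lib.MP_6cd968_gt.cond_fin Pool.Agent.Lib.MP_6cd968_gt.YY
    Pool.Agent.Lib.MP_6cd968_gt.YY_connected 2 le_rfl 4 (by norm_num)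
  obtain ⟨γ, g1, g2, g3⟩ := Pool.Agent.Lib.MP_6cd968_gt.main_sphere R'
    (le_trans (by norm_num) hR')
  obtain ⟨Γ, k1, k2, k3⟩ := h2 γ g1 g2
  exact g3 Γ k1 k2 k3

end Pool.Agent.S13338
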