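import Pool.Statements.S14612

set_option autoImplicit false
open Pool Pool.MP_3c695a_lc

namespace Pool.Agent.S14612

open Nat.Partrec (Code)

/-- An r.e. predicate is the projection of a computable one. -/
theorem re_exists {α : Type} [Primcodable α] {p : α → Prop} (hp : REPred p) :
    ∃ f : α → ℕ → Bool, Computable₂ f ∧ ∀ a, p a ↔ ∃ n, f a n = true := by
  obtain ⟨c, hc⟩ := Code.exists_code.1 (Partrec.bind_decode₂_iff.1 hp)
  refine ⟨fun a n => (Code.evaln n c (Encodable.encode a)).isSome, ?_, ?_⟩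
  · have h1 : Primrec fun q : α × ℕ => Code.evaln q.2 c (Encodable.encode q.1) :=
      Code.primrec_evaln.comp
        ((Primrec.snd.pair (Primrec.const c)).pair (Primrec.encode.comp Primrec.fst))
    exact (Primrec.option_isSome.comp h1).to_comp
  · intro a
    have h2 : p a ↔ (Code.eval c (Encodable.encode a)).Dom := by
      rw [hc]
      simp [Part.dom_iff_mem]
    rw [h2, Part.dom_iff_mem]
    constructor
    · rintro ⟨y, hy⟩
      obtain ⟨k, hk⟩ := Code.evaln_complete.1 hy
      exact ⟨k, by rw [Option.mem_def] at hk; simp [hk]⟩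
    · rintro ⟨n, hn⟩
      obtain ⟨y, hy⟩ := Option.isSome_iff_exists.1 hn
      exact ⟨y, Code.evaln_sound hy⟩

/-- A projection of a computable predicate is r.e. -/
theorem exists_re {α : Type} [Primcodable α] {p : α → Prop} (f : α → ℕ → Bool)
    (hf : Computable₂ f) (h : ∀ a, p a ↔ ∃ n, f a n = true) : REPred p := by
  have h1 : Partrec fun a => Nat.rfind fun n => Part.some (f a n) :=
    Partrec.rfind hf.partrec₂
  refine (Partrec.dom_re h1).of_eq fun a => ?_
  rw [h a]
  refine (Nat.rfind_dom (p := fun n => Part.some (f a n))).trans ?_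
  constructor
  · rintro ⟨n, hn, _⟩
    exact ⟨n, by simpa using hn⟩
  · rintro ⟨n, hn⟩
    exact ⟨n, by simpa using hn, fun _ => by simp⟩

theorem re_and {α : Type} [Primcodable α] {p q : α → Prop} (hp : REPred p) (hq : REPred q) :
    REPred fun a => p a ∧ q a := by
  obtain ⟨f, hf, hf'⟩ := re_exists hp
  obtain ⟨g, hg, hg'⟩ := re_exists hq
  refine exists_re (fun a n => (f a n.unpair.1) && (g a n.unpair.2)) ?_ ?_
  · have h1 : Computable fun r : α × ℕ => f r.1 r.2.unpair.1 :=
      hf.comp Computable.fst (Computable.fst.comp (Computable.unpair.comp Computable.snd))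
    have h2 : Computable fun r : α × ℕ => g r.1 r.2.unpair.2 :=
      hg.comp Computable.fst (Computable.snd.comp (Computable.unpair.comp Computable.snd))
    exact (Primrec.and.to_comp).comp h1 h2
  · intro a
    rw [hf', hg']
    constructor
    · rintro ⟨⟨m, hm⟩, ⟨n, hn⟩⟩
      exact ⟨Nat.pair m n, by simp [hm, hn]⟩
    · rintro ⟨n, hn⟩
      rw [Bool.and_eq_true] at hn
      exact ⟨⟨_, hn.1⟩, ⟨_, hn.2⟩⟩

theorem re_or {α : Type} [Primcodable α] {p q : α → Prop} (hp : REPred p) (hq : REPred q) :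
    REPred fun a => p a ∨ q a := by
  obtain ⟨f, hf, hf'⟩ := re_exists hp
  obtain ⟨g, hg, hg'⟩ := re_exists hq
  refine exists_re (fun a n => (f a n) || (g a n)) ?_ ?_
  · have h1 : Computable fun r : α × ℕ => f r.1 r.2 := hf
    have h2 : Computable fun r : α × ℕ => g r.1 r.2 := hg
    exact (Primrec.or.to_comp).comp h1 h2
  · intro a
    rw [hf', hg']
    constructor
    · rintro (⟨m, hm⟩ | ⟨m, hm⟩)
      · exact ⟨m, by simp [hm]⟩
      · exact ⟨m, by simp [hm]⟩
    · rintro ⟨n, hn⟩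
      rw [Bool.or_eq_true] at hn
      rcases hn with hn | hn
      · exact Or.inl ⟨_, hn⟩
      · exact Or.inr ⟨_, hn⟩

theorem re_ex {α : Type} [Primcodable α] {p : α × ℕ → Prop} (hp : REPred p) :
    REPred fun a => ∃ k, p (a, k) := by
  obtain ⟨f, hf, hf'⟩ := re_exists hp
  refine exists_re (fun a n => f (a, n.unpair.1) n.unpair.2) ?_ ?_
  · exact hf.comp (Computable.fst.pair (Computable.fst.comp (Computable.unpair.comp Computable.snd)))
      (Computable.snd.comp (Computable.unpair.comp Computable.snd))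
  · intro a
    constructor
    · rintro ⟨k, hk⟩
      obtain ⟨n, hn⟩ := (hf' _).1 hk
      exact ⟨Nat.pair k n, by simp [hn]⟩
    · rintro ⟨n, hn⟩
      exact ⟨_, (hf' _).2 ⟨_, hn⟩⟩

theorem re_comp {α β : Type} [Primcodable α] [Primcodable β] {p : β → Prop} (hp : REPred p)
    {g : α → β} (hg : Computable g) : REPred fun a => p (g a) :=
  Partrec.comp hp hg

/-- The universal r.e. relation: `W e p` says that the `e`-th code halts on the code of `p`. -/
def W (e : ℕ) (p : ℕ × ℕ) : Prop := ((Denumerable.ofNat Code e).eval (Encodable.encode p)).Dom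

theorem W_re : REPred fun q : ℕ × (ℕ × ℕ) => W q.1 q.2 := by
  have h : Partrec fun q : ℕ × (ℕ × ℕ) =>
      (Denumerable.ofNat Code q.1).eval (Encodable.encode q.2) :=
    Code.eval_part.comp ((Computable.ofNat Code).comp Computable.fst)
      (Computable.encode.comp Computable.snd)
  exact Partrec.dom_re h

theorem W_univ {p : ℕ × ℕ → Prop} (hp : REPred p) : ∃ e, ∀ q, p q ↔ W e q := by
  obtain ⟨c, hc⟩ := Code.exists_code.1 (Partrec.bind_decode₂_iff.1 hp)
  refine ⟨Encodable.encode c, fun a => ?_⟩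
  unfold W
  rw [Denumerable.ofNat_encode, hc]
  simp [Part.dom_iff_mem]

/-- The witness element for the opponent's index `k` and our set number `m`. -/
def z (m k : ℕ) : ℕ := 2 * Nat.pair m k

/-- Block `e` is merged. -/
def merged (e : ℕ) : Prop :=
  ∃ k l, k ≠ l ∧ W e.unpair.2 (k, z (2 * e) k) ∧ W e.unpair.2 (l, z (2 * e + 1) l)

/-- The final equivalence of indices. -/
def eqv (m m' : ℕ) : Prop := m = m' ∨ (m / 2 = m' / 2 ∧ merged (m / 2))

/-- The first c.e. set. -/
def R0 (p : ℕ × ℕ) : Prop := p.2 % 2 = 0 ∨ eqv p.1 (p.2 / 2)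

/-- The second c.e. set. -/
def R1 (p : ℕ × ℕ) : Prop :=
  p.2 % 2 = 0 ∧ (eqv p.1 (p.2 / 2).unpair.1 ∧
    W (p.1 / 2).unpair.1 ((p.2 / 2).unpair.2, p.2))

/-- Our numbering. -/
def S (m : ℕ) : Set ℕ := {x | R0 (m, x) ∧ ¬ R1 (m, x)}

theorem eqv_refl (m : ℕ) : eqv m m := Or.inl rfl

theorem eqv_symm {m m' : ℕ} (h : eqv m m') : eqv m' m := by
  rcases h with h | ⟨h1, h2⟩
  · exact Or.inl h.symm
  · exact Or.inr ⟨h1.symm, h1 ▸ h2⟩

theorem eqv_trans {a b c : ℕ} (h : eqv a b) (h' : eqv b c) : eqv a c := by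
  rcases h with h | ⟨h1, h2⟩
  · exact h ▸ h'
  · rcases h' with h' | ⟨h3, h4⟩
    · exact h' ▸ Or.inr ⟨h1, h2⟩
    · exact Or.inr ⟨h1.trans h3, h2⟩

theorem eqv_div {m m' : ℕ} (h : eqv m m') : m / 2 = m' / 2 := by
  rcases h with h | ⟨h1, _⟩
  · rw [h]
  · exact h1

theorem z_even (m k : ℕ) : z m k % 2 = 0 := by unfold z; omega

theorem z_div (m k : ℕ) : z m k / 2 = Nat.pair m k := by unfold z; omega

theorem mem_marker (m j : ℕ) : 2 * j + 1 ∈ S m ↔ eqv m j := by
  have h1 : (2 * j + 1) % 2 = 1 := by omega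
  have h2 : (2 * j + 1) / 2 = j := by omega
  simp [S, R0, R1, h1, h2]

theorem mem_z (m j k : ℕ) : z j k ∈ S m ↔ ¬ (eqv m j ∧ W (m / 2).unpair.1 (k, z j k)) := by
  simp [S, R0, R1, z_even, z_div]

theorem S_eq_iff (m m' : ℕ) : S m = S m' ↔ eqv m m' := by
  constructor
  · intro h
    have : 2 * m' + 1 ∈ S m' := (mem_marker _ _).2 (eqv_refl _)
    rw [← h] at this
    exact (mem_marker _ _).1 this
  · intro h
    have h2 := eqv_div h
    have h3 : ∀ j, eqv m j ↔ eqv m' j := fun j =>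
      ⟨fun h' => eqv_trans (eqv_symm h) h', fun h' => eqv_trans h h'⟩
    ext x
    simp only [S, R0, R1, Set.mem_ofPred_eq, h3, h2]

theorem R1_R0 {p : ℕ × ℕ} (h : R1 p) : R0 p := Or.inl h.1

/-- Any candidate Friedberg numbering fails. -/
theorem no_friedberg (μ : ℕ → Set ℕ) (hr : Set.range μ = Set.range S) (hi : Function.Injective μ)
    (A B : ℕ × ℕ → Prop) (hA : REPred A) (hB : REPred B)
    (hμ : ∀ p : ℕ × ℕ, p.2 ∈ μ p.1 ↔ A p ∧ ¬ B p) : False := by
  obtain ⟨a, ha⟩ := W_univ hA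
  obtain ⟨b, hb⟩ := W_univ hB
  set e := Nat.pair a b with he
  have h0 : ∀ k x, x ∈ μ k ↔ W a (k, x) ∧ ¬ W b (k, x) := fun k x => by
    rw [hμ (k, x), ha, hb]
  have e1 : e.unpair.1 = a := by simp [he]
  have e2 : e.unpair.2 = b := by simp [he]
  -- locked indices
  have lock : ∀ m k, m / 2 = e → μ k = S m → W b (k, z m k) := by
    intro m k hm hk
    by_contra hB'
    have h1 := h0 k (z m k)
    have h2 := mem_z m m k
    rw [hm, e1] at h2
    rw [hk, h2] at h1
    have h3 := eqv_refl m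
    by_cases h4 : W a (k, z m k)
    · exact (h1.2 ⟨h4, hB'⟩) ⟨h3, h4⟩
    · exact h4 (h1.1 fun h => h4 h.2).1
  have surj : ∀ m, ∃ k, μ k = S m := by
    intro m
    have : S m ∈ Set.range μ := by rw [hr]; exact ⟨m, rfl⟩
    exact this
  have hd1 : 2 * e / 2 = e := by omega
  have hd2 : (2 * e + 1) / 2 = e := by omega
  -- an index whose changes on `z m k` are exhausted can only index the class of `m`
  have only : ∀ m k, m / 2 = e → W b (k, z m k) → μ k = S m := by
    intro m k hm hk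
    have h1 : μ k ∈ Set.range S := by rw [← hr]; exact ⟨k, rfl⟩
    obtain ⟨j, hj⟩ := h1
    have h2 : z m k ∉ μ k := by
      rw [h0]
      exact fun h => h.2 hk
    rw [← hj, mem_z] at h2
    push Not at h2
    rw [← hj]
    exact (S_eq_iff _ _).2 h2.1
  by_cases hmer : merged e
  · obtain ⟨k, l, hkl, hk, hl⟩ := hmer
    rw [e2] at hk hl
    have h1 := only _ _ hd1 hk
    have h2 := only _ _ hd2 hl
    have h3 : S (2 * e) = S (2 * e + 1) := by
      rw [S_eq_iff]
      exact Or.inr ⟨by omega, by rw [hd1]; exact ⟨k, l, hkl, by rw [e2]; exact hk, by rw [e2]; exact hl⟩⟩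
    exact hkl (hi (by rw [h1, h2, h3]))
  · obtain ⟨k, hk⟩ := surj (2 * e)
    obtain ⟨l, hl⟩ := surj (2 * e + 1)
    apply hmer
    refine ⟨k, l, ?_, ?_, ?_⟩
    · rintro rfl
      rw [hk, S_eq_iff] at hl
      rcases hl with hl | hl
      · omega
      · exact hmer (hd1 ▸ hl.2)
    · rw [e2]
      exact lock _ _ hd1 hk
    · rw [e2]
      exact lock _ _ hd2 hl

theorem range_infinite : (Set.range S).Infinite := by
  have h : Function.Injective fun e : ℕ => S (2 * e) := by
    intro e e' h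
    have := eqv_div ((S_eq_iff _ _).1 h)
    omega
  exact (Set.infinite_range_of_injective h).mono (by rintro _ ⟨e, rfl⟩; exact ⟨2 * e, rfl⟩)

theorem comp_pair : Computable fun p : ℕ × ℕ => Nat.pair p.1 p.2 :=
  (Primrec₂.natPair).to_comp

theorem z_comp {α : Type} [Primcodable α] {f g : α → ℕ} (hf : Computable f) (hg : Computable g) :
    Computable fun a => z (f a) (g a) := by
  unfold z
  exact (Primrec.nat_mul.to_comp).comp (Computable.const 2) (comp_pair.comp (hf.pair hg))

theorem merged_re : REPred merged := by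
  have hc1 : Computable fun q : (ℕ × ℕ) × ℕ => q.1.1 := Computable.fst.comp Computable.fst
  have hc2 : Computable fun q : (ℕ × ℕ) × ℕ => q.1.2 := Computable.snd.comp Computable.fst
  have hc3 : Computable fun q : (ℕ × ℕ) × ℕ => q.2 := Computable.snd
  have hd : Computable fun q : (ℕ × ℕ) × ℕ => 2 * q.1.1 :=
    (Primrec.nat_mul.to_comp).comp (Computable.const 2) hc1
  have hd' : Computable fun q : (ℕ × ℕ) × ℕ => 2 * q.1.1 + 1 :=
    (Primrec.nat_add.to_comp).comp hd (Computable.const 1)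
  have hu : Computable fun q : (ℕ × ℕ) × ℕ => q.1.1.unpair.2 :=
    Computable.snd.comp (Computable.unpair.comp hc1)
  have h1 : REPred fun q : (ℕ × ℕ) × ℕ => q.1.2 ≠ q.2 := by
    have : PrimrecPred fun q : (ℕ × ℕ) × ℕ => ¬ (q.1.2 = q.2) :=
      (Primrec.eq.comp (Primrec.snd.comp Primrec.fst) Primrec.snd).not
    exact this.computablePred.to_re
  have h2 : REPred fun q : (ℕ × ℕ) × ℕ => W q.1.1.unpair.2 (q.1.2, z (2 * q.1.1) q.1.2) :=
    re_comp W_re (g := fun q : (ℕ × ℕ) × ℕ => (q.1.1.unpair.2, (q.1.2, z (2 * q.1.1) q.1.2)))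
      (hu.pair (hc2.pair (z_comp hd hc2)))
  have h3 : REPred fun q : (ℕ × ℕ) × ℕ => W q.1.1.unpair.2 (q.2, z (2 * q.1.1 + 1) q.2) :=
    re_comp W_re (g := fun q : (ℕ × ℕ) × ℕ => (q.1.1.unpair.2, (q.2, z (2 * q.1.1 + 1) q.2)))
      (hu.pair (hc3.pair (z_comp hd' hc3)))
  exact (re_ex (re_ex (re_and h1 (re_and h2 h3)))).of_eq fun e => Iff.rfl

theorem eqv_re : REPred fun p : ℕ × ℕ => eqv p.1 p.2 := by
  have hdiv : Primrec fun p : ℕ × ℕ => p.1 / 2 :=
    Primrec.nat_div.comp Primrec.fst (Primrec.const 2)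
  have hdiv' : Primrec fun p : ℕ × ℕ => p.2 / 2 :=
    Primrec.nat_div.comp Primrec.snd (Primrec.const 2)
  have h1 : REPred fun p : ℕ × ℕ => p.1 = p.2 :=
    (Primrec.eq.comp Primrec.fst Primrec.snd).computablePred.to_re
  have h2 : REPred fun p : ℕ × ℕ => p.1 / 2 = p.2 / 2 :=
    (Primrec.eq.comp hdiv hdiv').computablePred.to_re
  have h3 : REPred fun p : ℕ × ℕ => merged (p.1 / 2) := re_comp merged_re hdiv.to_comp
  exact re_or h1 (re_and h2 h3)

theorem even_re : REPred fun p : ℕ × ℕ => p.2 % 2 = 0 := by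
  have hmod : Primrec fun p : ℕ × ℕ => p.2 % 2 :=
    Primrec.nat_mod.comp Primrec.snd (Primrec.const 2)
  exact (Primrec.eq.comp hmod (Primrec.const 0)).computablePred.to_re

theorem R0_re : REPred R0 := by
  have hdiv' : Computable fun p : ℕ × ℕ => p.2 / 2 :=
    (Primrec.nat_div.comp Primrec.snd (Primrec.const 2)).to_comp
  exact re_or even_re (re_comp eqv_re (g := fun p : ℕ × ℕ => (p.1, p.2 / 2))
    (Computable.fst.pair hdiv'))

theorem R1_re : REPred R1 := by
  have hdiv : Computable fun p : ℕ × ℕ => p.1 / 2 :=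
    (Primrec.nat_div.comp Primrec.fst (Primrec.const 2)).to_comp
  have hdiv' : Computable fun p : ℕ × ℕ => p.2 / 2 :=
    (Primrec.nat_div.comp Primrec.snd (Primrec.const 2)).to_comp
  have hu1 : Computable fun p : ℕ × ℕ => (p.2 / 2).unpair.1 :=
    Computable.fst.comp (Computable.unpair.comp hdiv')
  have hu2 : Computable fun p : ℕ × ℕ => (p.2 / 2).unpair.2 :=
    Computable.snd.comp (Computable.unpair.comp hdiv')
  have hv : Computable fun p : ℕ × ℕ => (p.1 / 2).unpair.1 :=
    Computable.fst.comp (Computable.unpair.comp hdiv)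
  refine re_and even_re (re_and ?_ ?_)
  · exact re_comp eqv_re (g := fun p : ℕ × ℕ => (p.1, (p.2 / 2).unpair.1))
      (Computable.fst.pair hu1)
  · exact re_comp W_re (g := fun p : ℕ × ℕ => ((p.1 / 2).unpair.1, ((p.2 / 2).unpair.2, p.2)))
      (hv.pair (hu2.pair Computable.snd))

theorem card_odd (R : ℕ → Prop) (h : R 1 → R 0) :
    Odd (Nat.card {i : Fin (0 + 2) // R i.val}) ↔ R 0 ∧ ¬ R 1 := by
  classical
  rw [Nat.card_eq_fintype_card, Fintype.card_subtype]
  by_cases h1 : R 1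
  · have h0 := h h1
    have : (Finset.univ.filter fun i : Fin (0 + 2) => R i.val) = Finset.univ := by
      ext i
      fin_cases i <;> simp [h0, h1]
    rw [this]
    simp [h1]
  · by_cases h0 : R 0
    · have : (Finset.univ.filter fun i : Fin (0 + 2) => R i.val) = {0} := by
        ext i
        fin_cases i <;> simp [h0, h1]
      rw [this]
      simp [h0, h1]
    · have : (Finset.univ.filter fun i : Fin (0 + 2) => R i.val) = ∅ := by
        ext i
        fin_cases i <;> simp [h0, h1]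
      rw [this]
      simp [h0]

/-- The negation of the preceding statement: For every n, every infinite family of sets of naturals with a positive numbering whose membership relation is (n+2)-c.e. also has an injective numbering whose membership relation is (n+2)-c.e. -/
theorem result :
    ¬ (∀ n : ℕ, ∀ 𝒜 : Set (Set ℕ), 𝒜.Infinite →
    (∃ ν : ℕ → Set ℕ, Set.range ν = 𝒜 ∧
      (∃ R : ℕ → ℕ × ℕ → Prop, (∀ i, REPred (R i)) ∧
        (∀ i j : ℕ, ∀ p : ℕ × ℕ, i ≤ j → R j p → R i p) ∧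
        ∀ p : ℕ × ℕ, (p.2 ∈ ν p.1 ↔ Odd (Nat.card {i : Fin (n + 2) // R i.val p}))) ∧
      REPred (fun p : ℕ × ℕ => ν p.1 = ν p.2)) →
    ∃ μ : ℕ → Set ℕ, Set.range μ = 𝒜 ∧ Function.Injective μ ∧
      (∃ R : ℕ → ℕ × ℕ → Prop, (∀ i, REPred (R i)) ∧
        (∀ i j : ℕ, ∀ p : ℕ × ℕ, i ≤ j → R j p → R i p) ∧
        ∀ p : ℕ × ℕ, (p.2 ∈ μ p.1 ↔ Odd (Nat.card {i : Fin (n + 2) // R i.val p})))) := by
  intro H
  have hS : ∃ R : ℕ → ℕ × ℕ → Prop, (∀ i, REPred (R i)) ∧
        (∀ i j : ℕ, ∀ p : ℕ × ℕ, i ≤ j → R j p → R i p) ∧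
        ∀ p : ℕ × ℕ, (p.2 ∈ S p.1 ↔ Odd (Nat.card {i : Fin (0 + 2) // R i.val p})) := by
    refine ⟨fun i => if i = 0 then R0 else R1, ?_, ?_, ?_⟩
    · intro i
      by_cases hi : i = 0
      · simpa [hi] using R0_re
      · simpa [hi] using R1_re
    · intro i j p hij
      by_cases hi : i = 0
      · by_cases hj : j = 0
        · simp [hi, hj]
        · simpa [hi, hj] using R1_R0
      · have hj : j ≠ 0 := by omega
        simp [hi, hj]
    · intro p
      exact (card_odd (fun i => (if i = 0 then R0 else R1) p) R1_R0).symm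
  obtain ⟨μ, hr, hi, R, hR, hmono, hmem⟩ := H 0 (Set.range S) range_infinite
    ⟨S, rfl, hS, eqv_re.of_eq fun p => (S_eq_iff _ _).symm⟩
  refine no_friedberg μ hr hi (R 0) (R 1) (hR 0) (hR 1) fun p => ?_
  rw [hmem p]
  exact card_odd (fun i => R i p) (hmono 0 1 p (by omega))

end Pool.Agent.S14612
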