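import Pool.Statements.S14632
import Pool.Agent.Lib.MP_40e9ab_lc.Small

set_option autoImplicit false
open Pool Pool.MP_40e9ab_lc

namespace Pool.Agent.S14632

open Cardinal Pool.Agent.Lib.MP_40e9ab_lc

/-- The key counterexample: on `[0,1]`, well-ordered in type continuum, take the sigma-algebra of
all sets that are Borel modulo the sigma-ideal of sets that carry a regressive function with
countable fibres. -/
theorem key :
    ∃ N : Set (Set ℝ),
      (∀ A ∈ N, A ⊆ Set.Icc (0:ℝ) 1) ∧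
      (∀ J : Set ℝ, J.OrdConnected → J ⊆ Set.Icc (0:ℝ) 1 → J ∈ N) ∧
      (∀ A ∈ N, Set.Icc (0:ℝ) 1 \ A ∈ N) ∧
      (∀ f : ℕ → Set ℝ, (∀ n, f n ∈ N) → (⋃ n, f n) ∈ N) ∧
      (∀ P : Set (Set ℝ),
          (∀ p ∈ P, ∃ x ∈ p, ∃ y ∈ p, x ≠ y) →
          P.PairwiseDisjoint id →
          ⋃₀ P = Set.Icc (0:ℝ) 1 →
          ∃ S ∈ N, ∀ p ∈ P, ∃! x, x ∈ S ∧ x ∈ p) ∧
      ∃ A : Set ℝ, A ⊆ Set.Icc (0:ℝ) 1 ∧ A ∉ N := by
  classical
  let κ : Cardinal.{0} := #(Set.Icc (0:ℝ) 1)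
  have hκ : κ = 𝔠 := mk_Icc_real zero_lt_one
  let X : Type := κ.ord.ToType
  have hX : #X = κ := by simp [X]
  have hXκ : #X = #(Set.Icc (0:ℝ) 1) := hX
  obtain ⟨E⟩ : Nonempty (X ≃ Set.Icc (0:ℝ) 1) := Cardinal.eq.1 hXκ
  let hat : Set ℝ → Set X := fun A => {x | (E x : ℝ) ∈ A}
  let I : Set X → Prop := fun A => Small ℵ₀ A
  have Imono : ∀ {A B : Set X}, A ⊆ B → I B → I A := fun h hB => Small.mono h hB
  have Iempty : I ∅ := ⟨id, by simp, by simp⟩
  have IiUnion : ∀ A : ℕ → Set X, (∀ n, I (A n)) → I (⋃ n, A n) := by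
    intro A h
    exact Small.iUnion le_rfl (by simp) A h
  let N : Set (Set ℝ) := {A | A ⊆ Set.Icc (0:ℝ) 1 ∧
    ∃ B : Set ℝ, MeasurableSet B ∧ I (symmDiff (hat A) (hat B))}
  refine ⟨N, fun A hA => hA.1, ?_, ?_, ?_, ?_, ?_⟩
  · intro J hJ hJI
    refine ⟨hJI, J, hJ.measurableSet, ?_⟩
    rw [symmDiff_self]
    exact Iempty
  · rintro A ⟨hA, B, hB, hI⟩
    refine ⟨Set.sdiff_subset, Bᶜ, hB.compl, ?_⟩
    refine Imono ?_ hI
    intro x hx
    have h1 : (E x : ℝ) ∈ Set.Icc (0:ℝ) 1 := (E x).2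
    rw [Set.mem_symmDiff] at hx ⊢
    have e1 : x ∈ hat (Set.Icc (0:ℝ) 1 \ A) ↔ x ∉ hat A := by
      show (E x : ℝ) ∈ Set.Icc (0:ℝ) 1 \ A ↔ ¬ ((E x : ℝ) ∈ A)
      constructor
      · intro h; exact h.2
      · intro h; exact ⟨h1, h⟩
    have e2 : x ∈ hat Bᶜ ↔ x ∉ hat B := Iff.rfl
    rw [e1, e2] at hx
    tauto
  · intro f hf
    refine ⟨Set.iUnion_subset fun n => (hf n).1, ?_⟩
    choose hf1 B hB hI using hf
    refine ⟨⋃ n, B n, MeasurableSet.iUnion hB, ?_⟩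
    refine Imono ?_ (IiUnion _ hI)
    intro x hx
    rw [Set.mem_symmDiff] at hx
    rw [Set.mem_iUnion]
    rcases hx with ⟨h1, h2⟩ | ⟨h1, h2⟩
    · obtain ⟨n, hn⟩ := Set.mem_iUnion.1 (show (E x : ℝ) ∈ ⋃ n, f n from h1)
      refine ⟨n, ?_⟩
      rw [Set.mem_symmDiff]
      exact Or.inl ⟨hn, fun h => h2 (Set.mem_iUnion.2 ⟨n, h⟩)⟩
    · obtain ⟨n, hn⟩ := Set.mem_iUnion.1 (show (E x : ℝ) ∈ ⋃ n, B n from h1)
      refine ⟨n, ?_⟩
      rw [Set.mem_symmDiff]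
      exact Or.inr ⟨hn, fun h => h2 (Set.mem_iUnion.2 ⟨n, h⟩)⟩
  · intro P hP hdisj hcov
    -- choose two comparable points in each part
    have h2 : ∀ p ∈ P, ∃ u v : X, v < u ∧ (E u : ℝ) ∈ p ∧ (E v : ℝ) ∈ p := by
      intro p hp
      obtain ⟨x, hx, y, hy, hxy⟩ := hP p hp
      have hsub : p ⊆ Set.Icc (0:ℝ) 1 := by
        rw [← hcov]; exact Set.subset_sUnion_of_mem hp
      have ex : (E (E.symm ⟨x, hsub hx⟩) : ℝ) = x := by simp
      have ey : (E (E.symm ⟨y, hsub hy⟩) : ℝ) = y := by simp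
      have hne : E.symm ⟨x, hsub hx⟩ ≠ E.symm ⟨y, hsub hy⟩ := by
        intro h
        apply hxy
        rw [← ex, ← ey, h]
      rcases lt_or_gt_of_ne hne with h | h
      · exact ⟨_, _, h, by rw [ey]; exact hy, by rw [ex]; exact hx⟩
      · exact ⟨_, _, h, by rw [ex]; exact hx, by rw [ey]; exact hy⟩
    have huniq : ∀ p ∈ P, ∀ q ∈ P, ∀ x, x ∈ p → x ∈ q → p = q := by
      intro p hp q hq x hxp hxq
      by_contra hne
      exact Set.disjoint_left.1 (hdisj hp hq hne) hxp hxq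
    have hne : Nonempty X := ⟨E.symm ⟨0, by simp⟩⟩
    choose! u v huv hu hv using h2
    refine ⟨(fun p => (E (u p) : ℝ)) '' P, ⟨?_, ∅, MeasurableSet.empty, ?_⟩, ?_⟩
    · rintro _ ⟨p, hp, rfl⟩
      exact (E (u p)).2
    · -- the selector is small
      have hpart : ∀ x : X, ∃ p ∈ P, (E x : ℝ) ∈ p := by
        intro x
        have : (E x : ℝ) ∈ ⋃₀ P := by rw [hcov]; exact (E x).2
        exact this
      choose part hpart1 hpart2 using hpart
      have hpu : ∀ p ∈ P, part (u p) = p := fun p hp =>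
        huniq _ (hpart1 _) _ hp _ (hpart2 _) (hu p hp)
      have hpv : ∀ p ∈ P, part (v p) = p := fun p hp =>
        huniq _ (hpart1 _) _ hp _ (hpart2 _) (hv p hp)
      have hmem : ∀ x, x ∈ symmDiff (hat ((fun p => (E (u p) : ℝ)) '' P)) (hat ∅) →
          ∃ p ∈ P, x = u p := by
        intro x hx
        rw [Set.mem_symmDiff] at hx
        rcases hx with ⟨h1, -⟩ | ⟨h1, -⟩
        · obtain ⟨p, hp, h⟩ : ∃ p, p ∈ P ∧ (E (u p) : ℝ) = (E x : ℝ) := h1
          exact ⟨p, hp, (E.injective (Subtype.ext h)).symm⟩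
        · exact absurd (show (E x : ℝ) ∈ (∅ : Set ℝ) from h1) (by simp)
      refine ⟨fun x => v (part x), ?_, ?_⟩
      · intro x hx
        obtain ⟨p, hp, rfl⟩ := hmem x hx
        show v (part (u p)) < u p
        rw [hpu p hp]
        exact huv p hp
      · intro y
        rw [Cardinal.mk_le_aleph0_iff, Set.countable_coe_iff]
        apply Set.Subsingleton.countable
        rintro x ⟨hx, hxy⟩ x' ⟨hx', hxy'⟩
        obtain ⟨p, hp, rfl⟩ := hmem x hx
        obtain ⟨q, hq, rfl⟩ := hmem x' hx'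
        simp only [hpu p hp, hpu q hq] at hxy hxy'
        have : part (v p) = part (v q) := by rw [hxy, hxy']
        rw [hpv p hp, hpv q hq] at this
        rw [this]
    · intro p hp
      refine ⟨E (u p), ⟨⟨p, hp, rfl⟩, hu p hp⟩, ?_⟩
      rintro y ⟨⟨q, hq, rfl⟩, hyp⟩
      have : q = p := huniq q hq p hp _ (hu q hq) hyp
      rw [this]
  · -- a set outside `N`
    have hX1 : ℵ₀ < #X := by rw [hX, hκ]; exact aleph0_lt_continuum
    obtain ⟨H, T, hH, hT1, hT2⟩ := exists_disjoint_positive (X := X) hX1 (by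
      intro μ _ hμ
      exact mk_rk_lt_le κ μ (by rwa [hX] at hμ))
    have hmeas : #{B : Set ℝ | MeasurableSet B} ≤ #H := by
      refine le_trans ?_ hH
      rw [hX, hκ]
      obtain ⟨b, hb, hgen⟩ :=
        (inferInstance : MeasurableSpace.CountablyGenerated ℝ).isCountablyGenerated
      rw [hgen]
      exact MeasurableSpace.cardinal_measurableSet_le_continuum
        ((Cardinal.le_aleph0_iff_set_countable.2 hb).trans aleph0_le_continuum)
    obtain ⟨g⟩ := hmeas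
    refine ⟨{r | ∃ h : r ∈ Set.Icc (0:ℝ) 1, ∃ B : {B : Set ℝ | MeasurableSet B},
      E.symm ⟨r, h⟩ ∈ T (g B) ∧ r ∉ (B : Set ℝ)}, fun r hr => hr.choose, ?_⟩
    rintro ⟨-, B, hB, hI⟩
    let B' : {B : Set ℝ | MeasurableSet B} := ⟨B, hB⟩
    refine hT2 (g B') (g B').2 (Imono ?_ hI)
    intro x hx
    rw [Set.mem_symmDiff]
    by_cases hxB : (E x : ℝ) ∈ B
    · refine Or.inr ⟨hxB, ?_⟩
      rintro ⟨h1, B'', h2, h3⟩
      have h4 : E.symm ⟨(E x : ℝ), h1⟩ = x := by simp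
      rw [h4] at h2
      have h5 : g B'' = g B' := Subtype.ext (hT1 _ (g B'').2 _ (g B').2 x h2 hx)
      have h6 : B'' = B' := g.injective h5
      rw [h6] at h3
      exact h3 hxB
    · refine Or.inl ⟨⟨(E x).2, B', ?_, hxB⟩, hxB⟩
      have h4 : E.symm ⟨(E x : ℝ), (E x).2⟩ = x := by simp
      rw [h4]
      exact hx

/-- The negation of the preceding statement: Any family of subsets of [0,1] that contains all subintervals, is closed under relative complement and countable unions, and contains a selector for every partition of [0,1] into parts of size at least two, contains every subset of [0,1]. -/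
theorem result :
    ¬ (∀ N : Set (Set ℝ),
      (∀ A ∈ N, A ⊆ Set.Icc (0:ℝ) 1) →
      (∀ J : Set ℝ, J.OrdConnected → J ⊆ Set.Icc (0:ℝ) 1 → J ∈ N) →
      (∀ A ∈ N, Set.Icc (0:ℝ) 1 \ A ∈ N) →
      (∀ f : ℕ → Set ℝ, (∀ n, f n ∈ N) → (⋃ n, f n) ∈ N) →
      (∀ P : Set (Set ℝ),
          (∀ p ∈ P, ∃ x ∈ p, ∃ y ∈ p, x ≠ y) →
          P.PairwiseDisjoint id →
          ⋃₀ P = Set.Icc (0:ℝ) 1 →
          ∃ S ∈ N, ∀ p ∈ P, ∃! x, x ∈ S ∧ x ∈ p) →
      ∀ A : Set ℝ, A ⊆ Set.Icc (0:ℝ) 1 → A ∈ N) := by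
  intro h
  obtain ⟨N, h1, h2, h3, h4, h5, A, hA, hAN⟩ := key
  exact hAN (h N h1 h2 h3 h4 h5 A hA)

end Pool.Agent.S14632
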