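import Pool.Statements.S14749
import Pool.Agent.Lib.MP_5c6631_lc.Claim
import Pool.Agent.Lib.MP_5c6631_lc.Assemble
import Pool.Agent.Lib.MP_5c6631_lc.Realize

set_option autoImplicit false
open Pool Pool.MP_5c6631_lc

namespace Pool.Agent.S14749

/-- For every n, the set of binary words that lie in (ab*)^n and are primitive (not a k-fold repetition of a shorter word for any k ≥ 2) is a context-free language. -/
theorem result :
    ∀ n : ℕ, Language.IsContextFree
      (({w : List Bool |
          (∃ ks : List ℕ, ks.length = n ∧
              w = (ks.map (fun k => true :: List.replicate k false)).flatten) ∧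
          (∀ u : List Bool, ∀ k : ℕ, (List.replicate k u).flatten = w → k = 1)}) :
        Language Bool) := by
  apply Pool.Agent.MP_5c6631_lc.main_of_sys
  · intro n hn x Y A hS
    have : NeZero n := ⟨hn⟩
    exact hS.realize
  · intro n hn x hx
    obtain ⟨Y, A, hS, hA⟩ := Pool.Agent.MP_5c6631_lc.claim_final hn x hx
    exact ⟨Y, A, hS, fun k hk p hp hpn => hA k hk p hp hpn⟩

end Pool.Agent.S14749
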