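import Pool.Statements.S14948
import Pool.Agent.Lib.MP_7df21e_lc.Main

set_option autoImplicit false
open Pool Pool.MP_7df21e_lc

namespace Pool.Agent.S14948

open Pool.Agent.Lib.MP7df21e

/-- The negation of the preceding statement: For every standard Borel space X, hypersmooth Borel equivalence relation E on X and Borel map T preserving E, the relations (some equal iterates are E-related) and (some iterates are E-related) are both hypersmooth. -/
theorem result :
    ¬ (∀ (X : Type) [MeasurableSpace X] [StandardBorelSpace X] (E : Set (X × X)) (T : X → X),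
      MeasurableSet E →
      Equivalence (fun x y => (x, y) ∈ E) →
      (∃ F : ℕ → Set (X × X), Monotone F ∧
        (∀ n, MeasurableSet (F n) ∧ Equivalence (fun x y => (x, y) ∈ F n) ∧
          ∃ (Y : Type) (_ : MeasurableSpace Y) (_ : StandardBorelSpace Y) (f : X → Y),
            Measurable f ∧ ∀ x y, (x, y) ∈ F n ↔ f x = f y) ∧
        E = ⋃ n, F n) →
      Measurable T →
      (∀ x y, (x, y) ∈ E → (T x, T y) ∈ E) →
      ∀ R : Set (X × X),
        (R = {p : X × X | ∃ n : ℕ, (T^[n] p.1, T^[n] p.2) ∈ E} ∨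
         R = {p : X × X | ∃ m n : ℕ, (T^[n] p.1, T^[m] p.2) ∈ E}) →
        ∃ F : ℕ → Set (X × X), Monotone F ∧
          (∀ n, MeasurableSet (F n) ∧ Equivalence (fun x y => (x, y) ∈ F n) ∧
            ∃ (Y : Type) (_ : MeasurableSpace Y) (_ : StandardBorelSpace Y) (f : X → Y),
              Measurable f ∧ ∀ x y, (x, y) ∈ F n ↔ f x = f y) ∧
          R = ⋃ n, F n) := by
  intro hyp
  -- E_1 on rows
  let E : Set (XX × XX) := {p | ∃ r : ℕ, ∀ i, r ≤ i → p.1 i = p.2 i}
  let T : XX → XX := fun a i j => a i (j+1)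
  let G : ℕ → Set (XX × XX) := fun n => {p | ∀ i, n ≤ i → p.1 i = p.2 i}
  have hGm : ∀ n, MeasurableSet (G n) := by
    intro n
    have : G n = ⋂ i : ℕ, ⋂ _ : n ≤ i, {p : XX × XX | p.1 i = p.2 i} := by
      ext p
      simp only [Set.mem_iInter]
      rfl
    rw [this]
    refine MeasurableSet.iInter fun i => MeasurableSet.iInter fun _ => ?_
    exact measurableSet_eq_fun ((measurable_pi_apply i).comp measurable_fst)
      ((measurable_pi_apply i).comp measurable_snd)
  have hEG : E = ⋃ n, G n := by
    ext p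
    rw [Set.mem_iUnion]
    rfl
  have hGmono : Monotone G := by
    intro n m hnm p hp i hi
    exact hp i (hnm.trans hi)
  have hEm : MeasurableSet E := by
    rw [hEG]; exact MeasurableSet.iUnion hGm
  have hEe : Equivalence (fun x y => (x, y) ∈ E) := by
    refine ⟨fun x => ⟨0, fun i _ => rfl⟩, ?_, ?_⟩
    · rintro x y ⟨r, hr⟩
      exact ⟨r, fun i hi => (hr i hi).symm⟩
    · rintro x y z ⟨r, hr⟩ ⟨r', hr'⟩
      exact ⟨max r r', fun i hi => (hr i ((le_max_left _ _).trans hi)).trans
        (hr' i ((le_max_right _ _).trans hi))⟩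
  have hTm : Measurable T := by
    rw [measurable_pi_iff]
    intro i
    rw [measurable_pi_iff]
    intro j
    exact (measurable_pi_apply (j+1)).comp (measurable_pi_apply i)
  have hTE : ∀ x y, (x, y) ∈ E → (T x, T y) ∈ E := by
    rintro x y ⟨r, hr⟩
    refine ⟨r, fun i hi => ?_⟩
    have h1 : x i = y i := hr i hi
    funext j
    change x i (j+1) = y i (j+1)
    rw [h1]
  have hiter : ∀ (n : ℕ) (a : XX) (i j : ℕ), T^[n] a i j = a i (j+n) := by
    intro n
    induction n with
    | zero => intro a i j; rfl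
    | succ n ih =>
      intro a i j
      rw [Function.iterate_succ_apply, ih]
      change a i (j + n + 1) = a i (j + (n+1))
      rw [Nat.add_assoc]
  have hGs : ∀ n, MeasurableSet (G n) ∧ Equivalence (fun x y => (x, y) ∈ G n) ∧
      ∃ (Y : Type) (_ : MeasurableSpace Y) (_ : StandardBorelSpace Y) (f : XX → Y),
        Measurable f ∧ ∀ x y, (x, y) ∈ G n ↔ f x = f y := by
    intro n
    refine ⟨hGm n, ?_, ?_⟩
    · refine ⟨fun x i _ => rfl, ?_, ?_⟩
      · intro x y hxy i hi
        exact (hxy i hi).symm
      · intro x y z hxy hyz i hi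
        exact (hxy i hi).trans (hyz i hi)
    · refine ⟨XX, inferInstance, inferInstance, fun a i => a (n + i), ?_, ?_⟩
      · rw [measurable_pi_iff]
        intro i
        exact measurable_pi_apply (n+i)
      · intro x y
        constructor
        · intro h
          funext i
          exact h (n+i) (by omega)
        · intro h i hi
          have h1 := congrFun h (i - n)
          change x (n + (i - n)) = y (n + (i - n)) at h1
          have h2 : n + (i - n) = i := by omega
          rw [h2] at h1
          exact h1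
  obtain ⟨F, hFmono, hF, hR⟩ := hyp XX E T hEm hEe ⟨G, hGmono, hGs, hEG⟩ hTm hTE
    {p | ∃ m n : ℕ, (T^[n] p.1, T^[m] p.2) ∈ E} (Or.inr rfl)
  -- main contradiction
  have hcode : ∀ n, ∃ g : XX → (ℕ → Bool), Measurable g ∧ ∀ x y, (x, y) ∈ F n ↔ g x = g y := by
    intro n
    obtain ⟨-, -, Y, iY, iS, f, hfm, hf⟩ := hF n
    obtain ⟨g, hgm, hgi⟩ :=
      MeasurableSpace.measurable_injection_nat_bool_of_countablySeparated Y
    exact ⟨g ∘ f, hgm.comp hfm, fun x y => (hf x y).trans (hgi.eq_iff).symm⟩
  choose f hfm hf using hcode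
  refine no_wit f ⟨hfm, ?_, ?_⟩
  · intro n a a' h
    rw [← hf] at h ⊢
    exact hFmono (Nat.le_succ n) h
  · intro a a'
    have h1 : (a, a') ∈ ⋃ n, F n ↔ ∃ n, f n a = f n a' := by
      rw [Set.mem_iUnion]
      exact exists_congr fun n => hf n a a'
    rw [← h1, ← hR]
    constructor
    · rintro ⟨m, n, r, h⟩
      refine ⟨m, n, r, fun i hi => ?_⟩
      funext j
      change T^[n] a i j = T^[m] a' i j
      rw [hiter, hiter]
      exact h i hi j
    · rintro ⟨m, n, r, h⟩
      refine ⟨m, n, r, fun i hi j => ?_⟩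
      have h2 : T^[n] a i = T^[m] a' i := h i hi
      rw [← hiter n a i j, ← hiter m a' i j, h2]

end Pool.Agent.S14948
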