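import Pool.Statements.S16186
import Pool.Agent.Lib.MP_19fd7d_nt.Final
import Pool.Agent.Lib.MP_19fd7d_nt.Primes

set_option autoImplicit false
open Pool Pool.MP_19fd7d_nt Pool.Agent.Lib.MP_19fd7d_nt

namespace Pool.Agent.S16186

/-- The negation of the preceding statement: If F in Q̄ is Galois over a number field K and has (USB) (for each rational map of degree at least 2, some c>0 leaves only finitely many points of F with canonical height below c), then F/K has finite local degree at infinitely many finite primes of K. -/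
theorem result :
    ¬ (∀ h : AlgebraicClosure ℚ → ℝ,
      (∀ β : AlgebraicClosure ℚ, h β =
        Real.log (((sInf {n : ℕ | 0 < n ∧ ∀ i : ℕ, ((n : ℚ) * (minpoly ℚ β).coeff i).den = 1} : ℕ) : ℝ) *
          (Polynomial.map (algebraMap ℚ ℂ) (minpoly ℚ β)).mahlerMeasure) /
          ((minpoly ℚ β).natDegree : ℝ)) →
    ∀ Φ : RatFunc (AlgebraicClosure ℚ) → AlgebraicClosure ℚ × AlgebraicClosure ℚ →
        AlgebraicClosure ℚ × AlgebraicClosure ℚ,
      (∀ (f : RatFunc (AlgebraicClosure ℚ)) (z : AlgebraicClosure ℚ × AlgebraicClosure ℚ),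
        Φ f z =
          (∑ i ∈ Finset.range (max f.num.natDegree f.denom.natDegree + 1),
              f.num.coeff i * z.1 ^ i * z.2 ^ (max f.num.natDegree f.denom.natDegree - i),
           ∑ i ∈ Finset.range (max f.num.natDegree f.denom.natDegree + 1),
              f.denom.coeff i * z.1 ^ i * z.2 ^ (max f.num.natDegree f.denom.natDegree - i))) →
    ∀ (K : IntermediateField ℚ (AlgebraicClosure ℚ)) [NumberField K]
      (F : IntermediateField K (AlgebraicClosure ℚ)),
      IsGalois K F →
      (∀ f : RatFunc (AlgebraicClosure ℚ),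
        2 ≤ max f.num.natDegree f.denom.natDegree →
        ∃ c : ℝ, 0 < c ∧
          Set.Finite {α : AlgebraicClosure ℚ | α ∈ F ∧ ∃ L : ℝ,
            Filter.Tendsto
              (fun n : ℕ => h (((Φ f)^[n] (α, 1)).1 / ((Φ f)^[n] (α, 1)).2) /
                ((max f.num.natDegree f.denom.natDegree : ℕ) : ℝ) ^ n)
              Filter.atTop (nhds L) ∧ L < c}) →
      Set.Infinite {v : IsDedekindDomain.HeightOneSpectrum (NumberField.RingOfIntegers K) |
        ∀ ι : AlgebraicClosure ℚ →ₐ[K] AlgebraicClosure (v.adicCompletion K),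
          FiniteDimensional (v.adicCompletion K)
            (IntermediateField.adjoin (v.adicCompletion K)
              (ι '' (F : Set (AlgebraicClosure ℚ))))}) := by
  intro H
  obtain ⟨q, hq, hmono, hdvd, hbig, hns⟩ := exists_seq
  refine H hA (fun _ => rfl) Phi (fun _ _ => rfl) QQ (FK q) (FK_isGalois q)
    (fun f hf => usb_of_northcott (FK q : Set Qb) (northcott_FF hq hmono hbig) f hf) ?_
  refine (finite_two_mem).subset fun v hv => ?_
  by_contra hv2
  obtain ⟨p, hp, hpv⟩ := exists_prime_mem_asIdeal v
  have hp2 : p ≠ 2 := by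
    rintro rfl
    exact hv2 (by simpa using hpv)
  have ι : AlgebraicClosure ℚ →ₐ[QQ] AlgebraicClosure (v.adicCompletion QQ) := IsAlgClosed.lift
  have hfin := hv ι
  have hc : CharZero (v.adicCompletion QQ) :=
    charZero_of_injective_algebraMap (algebraMap QQ (v.adicCompletion QQ)).injective
  refine local_infinite (k := v.adicCompletion QQ) (Ω := AlgebraicClosure (v.adicCompletion QQ))
    ι.toRingHom hq hdvd (fun N => ⟨max N p, le_max_left _ _, fun y hy => ?_⟩) hfin
  exact hns (max N p) p hp hp2 (le_max_right _ _) (isSquare_of_sq v hp hpv _ y hy)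

end Pool.Agent.S16186
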