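import Pool.Statements.S16500
import Pool.Agent.Lib.MP_325d88_nt.Final
import Pool.Agent.Lib.MP_325d88_nt.RelE

set_option autoImplicit false
open Pool Pool.MP_325d88_nt

namespace Pool.Agent.S16500

/-- The negation of the preceding statement: For every ε>0 and all large k, every block of k consecutive positive integers n+1,…,n+k contains one whose part made of primes below k is at most εk. -/
theorem result :
    ¬ (∀ ε : ℝ, 0 < ε → ∃ K : ℕ, ∀ k : ℕ, K ≤ k → ∀ n : ℕ,
      ∃ i ∈ Finset.Icc 1 k,
        (((∏ p ∈ (Finset.range k).filter (fun p => Nat.Prime p),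
            p ^ ((n + i).factorization p)) : ℕ) : ℝ) ≤ ε * (k : ℝ)) := by
  exact Pool.Agent.Lib.MP_325d88_nt.final Pool.Agent.Lib.MP_325d88_nt.relCount

end Pool.Agent.S16500
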