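import Pool.Statements.S17658

set_option autoImplicit false
open Pool Pool.MP_874039_nt

namespace Pool.Agent.S17658

open Polynomial in
/-- The polynomial over `ZMod 32` with the given list of coefficients (constant term first). -/
noncomputable def ev : List (ZMod 32) → (ZMod 32)[X]
  | [] => 0
  | a :: l => Polynomial.C a + Polynomial.X * ev l

/-- Multiplication by `1 - X` on coefficient lists, with a carry. -/
def mulAux : ZMod 32 → List (ZMod 32) → List (ZMod 32)
  | c, [] => [-c]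
  | c, a :: l => (a - c) :: mulAux a l

/-- Multiplication by `(1 - X) ^ 5` on coefficient lists. -/
def mul5 (l : List (ZMod 32)) : List (ZMod 32) :=
  mulAux 0 (mulAux 0 (mulAux 0 (mulAux 0 (mulAux 0 l))))

/-- Entries of even index of a list. -/
def evens : List (ZMod 32) → List (ZMod 32)
  | [] => []
  | [a] => [a]
  | a :: _ :: l => a :: evens l

/-- Entries of odd index of a list. -/
def odds : List (ZMod 32) → List (ZMod 32)
  | [] => []
  | [_] => []
  | _ :: b :: l => b :: odds l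

/-- The 70 states of the automaton computing the numbers modulo 32. -/
def states : List (List (ZMod 32)) :=
  [[1, 16, 24, 16, 28, 16, 8, 16, 6, 16, 8, 16, 28, 16, 24, 16, 1],
   [11, 14, 3, 8, 22, 20, 30, 8, 31, 14, 31],
   [23, 23, 19, 3, 5, 5, 17, 1],
   [4, 4, 8, 8, 20, 20],
   [16, 0, 0, 0, 16],
   [4, 28, 8, 24, 20, 12],
   [8, 0, 16, 0, 8],
   [24, 0, 16, 0, 24],
   [23, 6, 1, 20, 9, 6, 31],
   [19, 5, 30, 10, 31, 1],
   [6, 8, 4, 8, 6],
   [10, 8, 12, 8, 26],
   [22, 24, 20, 24, 6],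
   [6, 24, 20, 24, 22],
   [26, 8, 12, 8, 10],
   [19, 3, 6, 30, 7, 31],
   [4, 0, 8, 0, 20],
   [12, 16, 8, 16, 12],
   [20, 16, 24, 16, 20],
   [4, 16, 24, 16, 4],
   [28, 16, 8, 16, 28],
   [19, 21, 14, 26, 15, 1],
   [22, 8, 4, 8, 22],
   [23, 9, 6, 18, 19, 21],
   [23, 31, 14, 22, 27, 11],
   [12, 0, 24, 0, 28],
   [23, 25, 22, 2, 3, 21],
   [11, 11, 23, 7, 1, 1, 29, 13],
   [20, 20, 8, 8, 4, 4],
   [20, 12, 8, 24, 4, 28],
   [11, 14, 13, 4, 21, 14, 19],
   [23, 1, 6, 2, 19, 13],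
   [14, 8, 20, 8, 14],
   [2, 8, 28, 8, 18],
   [30, 24, 4, 24, 14],
   [14, 24, 4, 24, 30],
   [18, 8, 28, 8, 2],
   [23, 7, 14, 6, 27, 19],
   [20, 0, 8, 0, 4],
   [23, 17, 22, 18, 3, 13],
   [30, 8, 20, 8, 30],
   [11, 21, 14, 10, 23, 17],
   [11, 19, 22, 30, 31, 15],
   [28, 0, 24, 0, 12],
   [11, 5, 30, 26, 7, 17],
   [1, 18, 1, 24, 2, 12, 10, 24, 29, 18, 21],
   [13, 29, 1, 1, 7, 23, 11, 11],
   [28, 28, 24, 24, 12, 12],
   [28, 4, 24, 8, 12, 20],
   [13, 18, 11, 28, 19, 18, 21],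
   [17, 23, 10, 14, 21, 11],
   [2, 24, 12, 24, 2],
   [17, 1, 2, 10, 13, 21],
   [17, 7, 26, 30, 5, 11],
   [18, 24, 12, 24, 18],
   [13, 19, 2, 6, 1, 23],
   [13, 5, 26, 18, 25, 9],
   [13, 3, 18, 22, 17, 23],
   [1, 17, 5, 5, 3, 19, 23, 23],
   [12, 12, 24, 24, 28, 28],
   [12, 20, 24, 8, 28, 4],
   [1, 26, 23, 12, 31, 26, 9],
   [21, 19, 18, 6, 9, 23],
   [10, 24, 28, 24, 10],
   [21, 5, 10, 18, 1, 9],
   [21, 3, 2, 22, 25, 23],
   [26, 24, 28, 24, 26],
   [1, 31, 10, 30, 5, 19],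
   [1, 25, 2, 26, 29, 13],
   [1, 15, 26, 14, 21, 19]]

theorem states_closed :
    ∀ l ∈ states, evens (mul5 l) ∈ states ∧ odds (mul5 l) ∈ states ∧ l.headD 0 ≠ 0 := by
  decide +kernel

theorem ev_mulAux (l : List (ZMod 32)) : ∀ c : ZMod 32,
    ev (mulAux c l) = (1 - Polynomial.X) * ev l - Polynomial.C c := by
  induction l with
  | nil => intro c; simp [mulAux, ev]
  | cons a l ih =>
    intro c
    simp only [mulAux, ev, ih a, map_sub]
    ring

theorem ev_mul5 (l : List (ZMod 32)) : ev (mul5 l) = (1 - Polynomial.X) ^ 5 * ev l := by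
  simp only [mul5, ev_mulAux, map_zero, sub_zero]
  ring

theorem ev_split : ∀ l : List (ZMod 32),
    ev l = Polynomial.expand (ZMod 32) 2 (ev (evens l))
      + Polynomial.X * Polynomial.expand (ZMod 32) 2 (ev (odds l))
  | [] => by simp [ev, evens, odds]
  | [a] => by simp [ev, evens, odds]
  | a :: b :: l => by
    have ih := ev_split l
    simp only [ev, evens, odds, map_add, map_mul, Polynomial.expand_C, Polynomial.expand_X]
    conv_lhs => rw [ih]
    ring

theorem ev_coeff_zero (l : List (ZMod 32)) : (ev l).coeff 0 = l.headD 0 := by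
  cases l with
  | nil => simp [ev]
  | cons a l => simp [ev]

open Polynomial in
/-- The truncated product of the `(1 - X ^ (2 ^ i)) ^ 5`. -/
noncomputable def A (N : ℕ) : (ZMod 32)[X] :=
  ∏ i ∈ Finset.range N, (1 - Polynomial.X ^ (2 ^ i)) ^ 5

theorem A_succ (N : ℕ) :
    A (N + 1) = (1 - Polynomial.X) ^ 5 * Polynomial.expand (ZMod 32) 2 (A N) := by
  have h : Polynomial.expand (ZMod 32) 2 (A N)
      = ∏ i ∈ Finset.range N, (1 - Polynomial.X ^ (2 ^ (i + 1))) ^ 5 := by
    unfold A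
    rw [map_prod]
    refine Finset.prod_congr rfl fun i _ => ?_
    rw [map_pow, map_sub, map_one, map_pow, Polynomial.expand_X, ← pow_mul, ← pow_succ']
  rw [h, A, Finset.prod_range_succ', mul_comm, pow_zero, pow_one]

theorem coeff_ne_zero (N : ℕ) : ∀ l ∈ states, ∀ n < 2 ^ N, (ev l * A N).coeff n ≠ 0 := by
  induction N with
  | zero =>
    intro l hl n hn
    have hn0 : n = 0 := by simpa using hn
    subst hn0
    simp only [A, Finset.range_zero, Finset.prod_empty, mul_one, ev_coeff_zero]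
    exact (states_closed l hl).2.2
  | succ N ih =>
    intro l hl n hn
    have h := states_closed l hl
    have key : ev l * A (N + 1)
        = Polynomial.expand (ZMod 32) 2 (ev (evens (mul5 l)) * A N)
          + Polynomial.X * Polynomial.expand (ZMod 32) 2 (ev (odds (mul5 l)) * A N) := by
      rw [A_succ, map_mul, map_mul, ← mul_assoc, mul_comm (ev l), ← ev_mul5, ev_split (mul5 l)]
      ring
    rw [key, Polynomial.coeff_add]
    rcases Nat.even_or_odd' n with ⟨k, hk | hk⟩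
    · have hk' : k < 2 ^ N := by rw [pow_succ] at hn; omega
      have e1 : (Polynomial.expand (ZMod 32) 2 (ev (evens (mul5 l)) * A N)).coeff n
          = (ev (evens (mul5 l)) * A N).coeff k := by
        rw [hk, mul_comm 2 k, Polynomial.coeff_expand_mul (by norm_num)]
      have e2 : (Polynomial.X * Polynomial.expand (ZMod 32) 2
          (ev (odds (mul5 l)) * A N)).coeff n = 0 := by
        rcases k with _ | k
        · rw [hk]; simp
        · have : n = (2 * k + 1) + 1 := by omega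
          rw [this, Polynomial.coeff_X_mul, Polynomial.coeff_expand (by norm_num), if_neg]
          omega
      rw [e1, e2, add_zero]
      exact ih _ h.1 k hk'
    · have hk' : k < 2 ^ N := by rw [pow_succ] at hn; omega
      have e1 : (Polynomial.expand (ZMod 32) 2 (ev (evens (mul5 l)) * A N)).coeff n = 0 := by
        rw [Polynomial.coeff_expand (by norm_num), if_neg]
        omega
      have e2 : (Polynomial.X * Polynomial.expand (ZMod 32) 2
          (ev (odds (mul5 l)) * A N)).coeff n = (ev (odds (mul5 l)) * A N).coeff k := by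
        rw [hk, Polynomial.coeff_X_mul, mul_comm 2 k, Polynomial.coeff_expand_mul (by norm_num)]
      rw [e1, e2, zero_add]
      exact ih _ h.2.1 k hk'

/-- The `i`-th factor of the generating function, over `ZMod 32`. -/
noncomputable def g (i : ℕ) : PowerSeries (ZMod 32) :=
  PowerSeries.mk (fun j : ℕ => if 2 ^ i ∣ j then (1 : ZMod 32) else 0)

theorem g_mul (i : ℕ) : g i * (1 - PowerSeries.X ^ (2 ^ i)) = 1 := by
  ext n
  rw [mul_sub, mul_one, map_sub, g, PowerSeries.coeff_mk, PowerSeries.coeff_mul_X_pow',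
    PowerSeries.coeff_one]
  by_cases h : 2 ^ i ≤ n
  · rw [if_pos h, PowerSeries.coeff_mk]
    have hn : n ≠ 0 := by
      have : 0 < 2 ^ i := by positivity
      omega
    have hiff : (2 ^ i ∣ n - 2 ^ i) ↔ (2 ^ i ∣ n) := by
      constructor
      · intro hd
        have := (Nat.dvd_add hd (dvd_refl (2 ^ i)))
        rwa [Nat.sub_add_cancel h] at this
      · intro hd
        exact Nat.dvd_sub hd (dvd_refl _)
    rw [if_neg hn]
    by_cases hd : 2 ^ i ∣ n
    · rw [if_pos hd, if_pos (hiff.2 hd), sub_self]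
    · rw [if_neg hd, if_neg (fun h' => hd (hiff.1 h')), sub_self]
  · rw [if_neg h, sub_zero]
    by_cases hn : n = 0
    · subst hn; simp
    · rw [if_neg hn, if_neg]
      intro hd
      exact h (Nat.le_of_dvd (Nat.pos_of_ne_zero hn) hd)

theorem pow_telescope (y : PowerSeries (ZMod 32)) :
    ((1 - y) ^ 16) * (1 - y) ^ 16 = (1 - y ^ 2) ^ 16 := by
  have h2 : ((2 : ℕ) : PowerSeries (ZMod 32)) ∣ (1 - y) ^ 2 - (1 - y ^ 2) :=
    ⟨y ^ 2 - y, by push_cast; ring⟩
  have h := dvd_sub_pow_of_dvd_sub h2 4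
  have h32 : ((2 : ℕ) : PowerSeries (ZMod 32)) ^ (4 + 1) = 0 := by
    have : ((32 : ℕ) : PowerSeries (ZMod 32)) = 0 := by
      rw [← map_natCast (PowerSeries.C (R := ZMod 32))]
      have h0 : ((32 : ℕ) : ZMod 32) = 0 := by decide
      rw [h0, map_zero]
    have h' : ((2 : ℕ) : PowerSeries (ZMod 32)) ^ (4 + 1) = ((32 : ℕ) : PowerSeries (ZMod 32)) := by
      norm_num
    rw [h', this]
  have h16 : (2 : ℕ) ^ 4 = 16 := by norm_num
  rw [h32, zero_dvd_iff, sub_eq_zero, h16] at h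
  rw [← h]
  ring

theorem telescope (N : ℕ) :
    (1 - PowerSeries.X) ^ 16 * ∏ i ∈ Finset.range N,
      (1 - (PowerSeries.X : PowerSeries (ZMod 32)) ^ (2 ^ i)) ^ 16
      = (1 - PowerSeries.X ^ (2 ^ N)) ^ 16 := by
  induction N with
  | zero => simp
  | succ N ih =>
    rw [Finset.prod_range_succ, ← mul_assoc, ih, pow_telescope, ← pow_mul, ← pow_succ]

theorem product_identity (N : ℕ) :
    (∏ i ∈ Finset.range N, g i) ^ 11 * (1 - PowerSeries.X ^ (2 ^ N)) ^ 16
      = (1 - PowerSeries.X) ^ 16 * ((A N : Polynomial (ZMod 32)) : PowerSeries (ZMod 32)) := by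
  have hA : ((A N : Polynomial (ZMod 32)) : PowerSeries (ZMod 32))
      = ∏ i ∈ Finset.range N, (1 - (PowerSeries.X : PowerSeries (ZMod 32)) ^ (2 ^ i)) ^ 5 := by
    unfold A
    rw [← Polynomial.coeToPowerSeries.ringHom_apply, map_prod]
    refine Finset.prod_congr rfl fun i _ => ?_
    rw [map_pow, map_sub, map_one, map_pow, Polynomial.coeToPowerSeries.ringHom_apply,
      Polynomial.coe_X]
  have hg : (∏ i ∈ Finset.range N, g i) ^ 11
      * ∏ i ∈ Finset.range N, (1 - (PowerSeries.X : PowerSeries (ZMod 32)) ^ (2 ^ i)) ^ 11 = 1 := by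
    rw [← Finset.prod_pow, ← Finset.prod_mul_distrib]
    refine Finset.prod_eq_one fun i _ => ?_
    rw [← mul_pow, g_mul, one_pow]
  have h16 : ∏ i ∈ Finset.range N, (1 - (PowerSeries.X : PowerSeries (ZMod 32)) ^ (2 ^ i)) ^ 16
      = (∏ i ∈ Finset.range N, (1 - (PowerSeries.X : PowerSeries (ZMod 32)) ^ (2 ^ i)) ^ 11)
        * ∏ i ∈ Finset.range N, (1 - (PowerSeries.X : PowerSeries (ZMod 32)) ^ (2 ^ i)) ^ 5 := by
    rw [← Finset.prod_mul_distrib]
    refine Finset.prod_congr rfl fun i _ => ?_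
    rw [← pow_add]
  rw [← telescope, h16, hA]
  calc _ = ((∏ i ∈ Finset.range N, g i) ^ 11
      * ∏ i ∈ Finset.range N, (1 - (PowerSeries.X : PowerSeries (ZMod 32)) ^ (2 ^ i)) ^ 11)
      * ((1 - PowerSeries.X) ^ 16 *
        ∏ i ∈ Finset.range N, (1 - (PowerSeries.X : PowerSeries (ZMod 32)) ^ (2 ^ i)) ^ 5) := by ring
    _ = _ := by rw [hg, one_mul]

/-- The initial state is `(1 - X) ^ 16`. -/
def initState : List (ZMod 32) :=
  [1, 16, 24, 16, 28, 16, 8, 16, 6, 16, 8, 16, 28, 16, 24, 16, 1]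

theorem initState_mem : initState ∈ states := by decide +kernel

theorem initState_eq :
    initState = mulAux 0 (mulAux 0 (mulAux 0 (mulAux 0 (mulAux 0 (mulAux 0 (mulAux 0 (mulAux 0
      (mulAux 0 (mulAux 0 (mulAux 0 (mulAux 0 (mulAux 0 (mulAux 0 (mulAux 0 (mulAux 0
        [1]))))))))))))))) := by
  decide +kernel

theorem ev_initState : ev initState = (1 - Polynomial.X) ^ 16 := by
  rw [initState_eq]
  simp only [ev_mulAux, map_zero, sub_zero]
  simp only [ev, map_one, mul_zero, add_zero]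
  ring

theorem coeff_prod_ne_zero (n : ℕ) :
    PowerSeries.coeff n ((∏ i ∈ Finset.range (n + 1), g i) ^ 11) ≠ 0 := by
  have hlt : n < 2 ^ (n + 1) :=
    lt_trans (Nat.lt_two_pow_self) (Nat.pow_lt_pow_right (by norm_num) (Nat.lt_succ_self n))
  have h1 := coeff_ne_zero (n + 1) initState initState_mem n hlt
  rw [ev_initState] at h1
  have h2 : PowerSeries.coeff n ((1 - PowerSeries.X) ^ 16
      * ((A (n + 1) : Polynomial (ZMod 32)) : PowerSeries (ZMod 32)))
      = ((1 - Polynomial.X) ^ 16 * A (n + 1) : Polynomial (ZMod 32)).coeff n := by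
    rw [← Polynomial.coeff_coe]
    congr 1
    rw [Polynomial.coe_mul, Polynomial.coe_pow, Polynomial.coe_sub, Polynomial.coe_one,
      Polynomial.coe_X]
  rw [← h2, ← product_identity] at h1
  obtain ⟨q, hq⟩ : (PowerSeries.X : PowerSeries (ZMod 32)) ^ (2 ^ (n + 1))
      ∣ (1 - PowerSeries.X ^ (2 ^ (n + 1))) ^ 16 - 1 := by
    have := sub_dvd_pow_sub_pow (1 - (PowerSeries.X : PowerSeries (ZMod 32)) ^ (2 ^ (n + 1))) 1 16
    rw [one_pow] at this
    refine dvd_trans ?_ this
    exact ⟨-1, by ring⟩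
  have hq' : (1 - (PowerSeries.X : PowerSeries (ZMod 32)) ^ (2 ^ (n + 1))) ^ 16
      = 1 + PowerSeries.X ^ (2 ^ (n + 1)) * q := by
    rw [← hq]; ring
  rw [hq', mul_add, mul_one, map_add] at h1
  have h3 : PowerSeries.coeff n ((∏ i ∈ Finset.range (n + 1), g i) ^ 11
      * (PowerSeries.X ^ (2 ^ (n + 1)) * q)) = 0 := by
    rw [mul_left_comm, PowerSeries.coeff_X_pow_mul', if_neg (not_le.2 hlt)]
  rwa [h3, add_zero] at h1

theorem not_dvd (n : ℕ) :
    ¬ 32 ∣ PowerSeries.coeff n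
      ((∏ i ∈ Finset.range (n + 1),
        PowerSeries.mk (fun j : ℕ => if 2 ^ i ∣ j then (1 : ℕ) else 0)) ^ 11) := by
  intro h
  apply coeff_prod_ne_zero n
  have hmap : (∏ i ∈ Finset.range (n + 1), g i) ^ 11
      = PowerSeries.map (Nat.castRingHom (ZMod 32)) ((∏ i ∈ Finset.range (n + 1),
        PowerSeries.mk (fun j : ℕ => if 2 ^ i ∣ j then (1 : ℕ) else 0)) ^ 11) := by
    rw [map_pow, map_prod]
    congr 1
    refine Finset.prod_congr rfl fun i _ => ?_
    ext j
    rw [PowerSeries.coeff_map, g, PowerSeries.coeff_mk, PowerSeries.coeff_mk]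
    split_ifs <;> simp
  rw [hmap, PowerSeries.coeff_map]
  exact (ZMod.natCast_eq_zero_iff _ _).2 h

/-- The negation of the preceding statement: For every positive m with m+1 not a power of 2, the 2-adic valuation of the n-th coefficient of the product over i of (1-x^(2^i))^(-m), the m-colored binary partition count, exceeds any given bound for some n. -/
theorem result :
    ¬ (∀ m : ℕ, 0 < m → (¬ ∃ k : ℕ, m + 1 = 2 ^ k) →
      ∀ B : ℕ, ∃ n : ℕ,
        B < padicValNat 2
          (PowerSeries.coeff n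
            ((∏ i ∈ Finset.range (n + 1),
                PowerSeries.mk (fun j : ℕ => if 2 ^ i ∣ j then (1 : ℕ) else 0)) ^ m))) := by
  intro H
  have hk : ¬ ∃ k : ℕ, 11 + 1 = 2 ^ k := by
    rintro ⟨k, hk⟩
    rcases le_or_gt k 3 with h | h
    · interval_cases k <;> omega
    · have h16 : (2 : ℕ) ^ 4 ≤ 2 ^ k := Nat.pow_le_pow_right (by norm_num) h
      rw [← hk] at h16
      norm_num at h16
  obtain ⟨n, hn⟩ := H 11 (by norm_num) hk 4
  apply not_dvd n
  have h5 : (2 : ℕ) ^ 5 ∣ PowerSeries.coeff n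
      ((∏ i ∈ Finset.range (n + 1),
        PowerSeries.mk (fun j : ℕ => if 2 ^ i ∣ j then (1 : ℕ) else 0)) ^ 11) :=
    dvd_trans (Nat.pow_dvd_pow 2 hn) pow_padicValNat_dvd
  exact h5

end Pool.Agent.S17658
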