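import Pool.Statements.S19333
import Pool.Agent.Lib.MP_55179a_pr.Main
-- import your own Pool.Agent.* helpers here

set_option autoImplicit false
open Pool Pool.MP_55179a_pr

namespace Pool.Agent.S19333

/-- Any function θ such that, for every β>0, ∣S_n∣/n converges in probability to θ(β) under the Domb–Joyce measure (random walk weighted by exp(−β·sum of squared local times)) is non-decreasing on (0,∞). -/
theorem result :
    ∀ θ : ℝ → ℝ,
      (∀ β : ℝ, 0 < β → ∀ ε : ℝ, 0 < ε →
        Filter.Tendsto
          (fun n : ℕ =>
            (∑ ω ∈ Finset.univ.filter (fun ω : Fin n → Bool =>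
                ε < |(|(∑ i : Fin n, (if ω i then (1:ℝ) else -1))| / (n:ℝ)) - θ β|),
              Real.exp (-β * (((Finset.univ.filter (fun p : Fin (n+1) × Fin (n+1) =>
                (∑ i ∈ Finset.univ.filter (fun i : Fin n => (i:ℕ) < (p.1:ℕ)),
                    (if ω i then (1:ℤ) else -1)) =
                (∑ i ∈ Finset.univ.filter (fun i : Fin n => (i:ℕ) < (p.2:ℕ)),
                    (if ω i then (1:ℤ) else -1)))).card : ℕ) : ℝ)))
            /
            (∑ ω : Fin n → Bool,
              Real.exp (-β * (((Finset.univ.filter (fun p : Fin (n+1) × Fin (n+1) =>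
                (∑ i ∈ Finset.univ.filter (fun i : Fin n => (i:ℕ) < (p.1:ℕ)),
                    (if ω i then (1:ℤ) else -1)) =
                (∑ i ∈ Finset.univ.filter (fun i : Fin n => (i:ℕ) < (p.2:ℕ)),
                    (if ω i then (1:ℤ) else -1)))).card : ℕ) : ℝ))))
          Filter.atTop (nhds 0)) →
      MonotoneOn θ (Set.Ioi 0) := by
  exact Pool.Agent.MP_55179a_pr.main

end Pool.Agent.S19333
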