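-- Counterexample to total variation convergence for the two-server queue.
import Pool.Statements.S19536

set_option autoImplicit false
open MeasureTheory
open Pool Pool.MP_a24ad1_pr

namespace Pool.Agent.S19536

/-- The base space: the circle of length one. -/
abbrev Circ : Type := AddCircle (1 : ℝ)

/-- The doubling map. -/
def dbl (x : Circ) : Circ := (2 : ℕ) • x

lemma ergodic_dbl : Ergodic dbl (volume : Measure Circ) :=
  AddCircle.ergodic_nsmul (by norm_num)

instance : IsProbabilityMeasure (volume : Measure Circ) :=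
  ⟨by simp [AddCircle.measure_univ]⟩

open Classical in
/-- The driving function `s : Circ → [0, 1/2)`, with essential supremum `1/2`. -/
noncomputable def s (x : Circ) : ℝ := if x = 0 then 0 else (1 - ‖x‖) / 2

lemma s_nonneg (x : Circ) : 0 ≤ s x := by
  unfold s
  split_ifs
  · exact le_refl _
  · have := AddCircle.norm_le_half_period (1 : ℝ) (x := x) one_ne_zero
    simp only [abs_one] at this
    linarith

lemma s_lt (x : Circ) : s x < 1 / 2 := by
  unfold s
  split_ifs with h
  · norm_num
  · have := norm_pos_iff.mpr h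
    linarith

lemma measurable_s : Measurable s := by
  unfold s
  exact Measurable.ite (measurableSet_singleton 0) measurable_const
    ((measurable_const.sub measurable_norm).div_const 2)

lemma s_pos_measure (ε : ℝ) (hε : 0 < ε) :
    (volume : Measure Circ) {x | 1 / 2 - ε ≤ s x} ≠ 0 := by
  have hsub : Metric.ball (0 : Circ) (2 * ε) ∩ {0}ᶜ ⊆ {x | 1 / 2 - ε ≤ s x} := by
    intro x hx
    obtain ⟨h1, h2⟩ := hx
    have h3 : x ≠ 0 := by simpa using h2
    simp only [Metric.mem_ball, dist_zero_right] at h1
    show 1 / 2 - ε ≤ s x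
    simp only [s, if_neg h3]
    linarith
  have hopen : IsOpen (Metric.ball (0 : Circ) (2 * ε) ∩ {0}ᶜ) :=
    Metric.isOpen_ball.inter isOpen_compl_singleton
  have hne : (Metric.ball (0 : Circ) (2 * ε) ∩ {0}ᶜ).Nonempty := by
    have hpos : 0 < min ε (1 / 4) := lt_min hε (by norm_num)
    have hnorm : ‖((min ε (1 / 4) : ℝ) : Circ)‖ = min ε (1 / 4) := by
      have h := (AddCircle.norm_coe_eq_abs_iff (1 : ℝ) (x := min ε (1 / 4)) one_ne_zero).mpr (by
        rw [abs_of_pos hpos, abs_one]
        exact (min_le_right _ _).trans (by norm_num))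
      rw [h, abs_of_pos hpos]
    refine ⟨((min ε (1 / 4) : ℝ) : Circ), ?_, ?_⟩
    · rw [Metric.mem_ball, dist_zero_right, hnorm]
      have := min_le_left ε (1 / 4)
      linarith
    · intro h
      have h' : ((min ε (1 / 4) : ℝ) : Circ) = 0 := h
      rw [h', norm_zero] at hnorm
      linarith
  have := hopen.measure_pos (volume : Measure Circ) hne
  intro h0
  exact absurd (measure_mono_null hsub h0) this.ne'

/-- Running maximum of `s` along the orbit of the doubling map. -/
noncomputable def runmax : ℕ → Circ → ℝ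
  | 0, _ => 0
  | n + 1, x => max (runmax n x) (s (dbl^[n] x))

lemma runmax_nonneg (n : ℕ) (x : Circ) : 0 ≤ runmax n x := by
  induction n with
  | zero => exact le_refl _
  | succ n ih => exact ih.trans (le_max_left _ _)

lemma runmax_lt (n : ℕ) (x : Circ) : runmax n x < 1 / 2 := by
  induction n with
  | zero => show (0 : ℝ) < 1 / 2; norm_num
  | succ n ih => exact max_lt ih (s_lt _)

lemma measurable_dbl : Measurable dbl := ergodic_dbl.measurable

lemma measurable_runmax (n : ℕ) : Measurable (runmax n) := by
  induction n with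
  | zero => exact measurable_const
  | succ n ih => exact ih.max (measurable_s.comp (measurable_dbl.iterate n))

lemma runmax_mono (x : Circ) : Monotone (fun n => runmax n x) :=
  monotone_nat_of_le_succ (fun _ => le_max_left _ _)

lemma le_runmax (n k : ℕ) (h : k < n) (x : Circ) : s (dbl^[k] x) ≤ runmax n x :=
  (le_max_right (runmax k x) (s (dbl^[k] x))).trans (runmax_mono x h)

/-- By ergodicity, the running maximum gets close to `1/2` almost surely. -/
lemma measure_iUnion (ε : ℝ) (hε : 0 < ε) :
    (volume : Measure Circ) (⋃ n, {x | 1 / 2 - ε ≤ runmax n x}) = 1 := by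
  set F : Set Circ := {x | ∀ k, s (dbl^[k] x) < 1 / 2 - ε} with hF
  have hFmeas : MeasurableSet F := by
    have : F = ⋂ k, {x | s (dbl^[k] x) < 1 / 2 - ε} := by
      ext x
      simp [hF]
    rw [this]
    exact MeasurableSet.iInter fun k =>
      measurableSet_lt (measurable_s.comp (measurable_dbl.iterate k)) measurable_const
  have hFsub : F ⊆ dbl ⁻¹' F := by
    intro x hx k
    have := hx (k + 1)
    rwa [Function.iterate_succ_apply] at this
  have hdich := ergodic_dbl.ae_empty_or_univ_of_ae_le_preimage hFmeas.nullMeasurableSet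
    (Filter.Eventually.of_forall hFsub)
  have hF0 : (volume : Measure Circ) F = 0 := by
    rcases hdich with h | h
    · rw [measure_congr h, measure_empty]
    · exfalso
      have h1 : (volume : Measure Circ) Fᶜ = 0 := by
        have := ae_eq_univ.mp h
        exact this
      refine s_pos_measure ε hε (measure_mono_null ?_ h1)
      intro x hx hxF
      have h2 := hxF 0
      have h3 : 1 / 2 - ε ≤ s x := hx
      simp only [Function.iterate_zero, id_eq] at h2
      linarith
  have hcompl : (⋃ n, {x | 1 / 2 - ε ≤ runmax n x})ᶜ ⊆ F := by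
    intro x hx k
    by_contra hcon
    apply hx
    rw [Set.mem_iUnion]
    exact ⟨k + 1, (not_lt.mp hcon).trans (le_runmax (k + 1) k (Nat.lt_succ_self k) x)⟩
  have hc0 := measure_mono_null hcompl hF0
  have hmeas : MeasurableSet (⋃ n, {x | 1 / 2 - ε ≤ runmax n x}) :=
    MeasurableSet.iUnion fun n => measurableSet_le measurable_const (measurable_runmax n)
  exact (prob_compl_eq_zero_iff hmeas).mp hc0

lemma tendsto_measure (ε : ℝ) (hε : 0 < ε) :
    Filter.Tendsto (fun n => (volume : Measure Circ) {x | 1 / 2 - ε ≤ runmax n x})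
      Filter.atTop (nhds 1) := by
  have h := tendsto_measure_iUnion_atTop (μ := (volume : Measure Circ))
    (s := fun n => {x | 1 / 2 - ε ≤ runmax n x})
    (fun i j hij x hx => le_trans (show 1 / 2 - ε ≤ runmax i x from hx) (runmax_mono x hij))
  rw [measure_iUnion ε hε] at h
  exact h

/-! ### The two-phase system -/

/-- The state space: a phase and a point of the circle. -/
abbrev Om : Type := Bool × Circ

/-- Uniform measure on the phase. -/
noncomputable def nu : Measure Bool := (PMF.uniformOfFintype Bool).toMeasure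

instance : IsProbabilityMeasure nu := by unfold nu; infer_instance

/-- The probability measure on `Om`. -/
noncomputable def mu : Measure Om := nu.prod (volume : Measure Circ)

instance : IsProbabilityMeasure mu := by unfold mu; infer_instance

/-- The shift on `Om`. -/
def theta (p : Om) : Om := (!p.1, if p.1 then dbl p.2 else p.2)

lemma nu_singleton (b : Bool) : nu {b} = 1 / 2 := by
  unfold nu
  rw [PMF.toMeasure_apply_singleton _ _ (measurableSet_singleton _)]
  simp

lemma mp_not : MeasurePreserving (fun b : Bool => !b) nu nu := by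
  refine ⟨measurable_of_finite _, ?_⟩
  refine Measure.ext_of_singleton ?_
  intro b
  rw [Measure.map_apply (measurable_of_finite _) (measurableSet_singleton _)]
  have : (fun b : Bool => !b) ⁻¹' {b} = {!b} := by
    ext c
    cases b <;> cases c <;> simp
  rw [this, nu_singleton, nu_singleton]

lemma measurable_theta : Measurable theta := by
  refine Measurable.prodMk ?_ ?_
  · exact (measurable_of_finite (fun b : Bool => !b)).comp measurable_fst
  · refine Measurable.ite ?_ (measurable_dbl.comp measurable_snd) measurable_snd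
    exact measurable_fst (measurableSet_singleton true)

lemma mp_theta : MeasurePreserving theta mu mu := by
  have hm : Measurable (Function.uncurry (fun (b : Bool) (x : Circ) =>
      if b then dbl x else x)) := by
    have := (measurable_snd.comp measurable_theta)
    exact this
  exact MeasurePreserving.skew_product (f := fun b : Bool => !b) mp_not
    (g := fun (b : Bool) (x : Circ) => if b then dbl x else x) hm
    (Filter.Eventually.of_forall (fun b => by
      cases b
      · simp only [Bool.false_eq_true, if_false]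
        exact Measure.map_id
      · simp only [if_true]
        exact ergodic_dbl.map_eq))

lemma ergodic_theta : Ergodic theta mu := by
  refine ⟨mp_theta, ⟨?_⟩⟩
  intro A hA hinv
  -- the two sections coincide
  have h1 : ∀ x, (false, x) ∈ A ↔ (true, x) ∈ A := by
    intro x
    have : (false, x) ∈ theta ⁻¹' A ↔ (false, x) ∈ A := by rw [hinv]
    rw [← this]
    rfl
  have h2 : ∀ x, (true, x) ∈ A ↔ (false, dbl x) ∈ A := by
    intro x
    have : (true, x) ∈ theta ⁻¹' A ↔ (true, x) ∈ A := by rw [hinv]
    rw [← this]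
    rfl
  set B : Set Circ := {x | (false, x) ∈ A} with hB
  have hBm : MeasurableSet B := measurable_prodMk_left hA
  have hBinv : dbl ⁻¹' B = B := by
    ext x
    show (false, dbl x) ∈ A ↔ (false, x) ∈ A
    rw [h1 x, h2 x]
  have hAB : A = Prod.snd ⁻¹' B := by
    ext ⟨b, x⟩
    cases b
    · rfl
    · exact (h1 x).symm
  have hBc := ergodic_dbl.aeconst_set hBm hBinv
  rw [hAB]
  have hq : Measure.QuasiMeasurePreserving (Prod.snd : Om → Circ) mu volume :=
    Measure.quasiMeasurePreserving_snd
  exact hBc.comp_tendsto hq.tendsto_ae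

/-- Interarrival times. -/
noncomputable def tt (p : Om) : ℝ := if p.1 then 2 - s p.2 else s p.2

/-- Service times. -/
noncomputable def ss (p : Om) : ℝ := if p.1 then 2 else 1

lemma measurable_tt : Measurable tt := by
  refine Measurable.ite (measurable_fst (measurableSet_singleton true)) ?_ ?_
  · exact measurable_const.sub (measurable_s.comp measurable_snd)
  · exact measurable_s.comp measurable_snd

lemma measurable_ss : Measurable ss :=
  Measurable.ite (measurable_fst (measurableSet_singleton true)) measurable_const measurable_const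

lemma tt_nonneg (p : Om) : 0 ≤ tt p := by
  unfold tt
  have h1 := s_nonneg p.2
  have h2 := s_lt p.2
  split_ifs <;> linarith

lemma tt_le (p : Om) : tt p ≤ 2 := by
  unfold tt
  have h1 := s_nonneg p.2
  have h2 := s_lt p.2
  split_ifs <;> linarith

lemma ss_nonneg (p : Om) : 0 ≤ ss p := by
  unfold ss
  split_ifs <;> norm_num

lemma ss_le (p : Om) : ss p ≤ 2 := by
  unfold ss
  split_ifs <;> norm_num

lemma integrable_tt : Integrable tt mu :=
  Integrable.of_bound measurable_tt.aestronglyMeasurable 2
    (Filter.Eventually.of_forall fun p => by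
      rw [Real.norm_of_nonneg (tt_nonneg p)]
      exact tt_le p)

lemma integrable_ss : Integrable ss mu :=
  Integrable.of_bound measurable_ss.aestronglyMeasurable 2
    (Filter.Eventually.of_forall fun p => by
      rw [Real.norm_of_nonneg (ss_nonneg p)]
      exact ss_le p)

/-- Integral of a function on `Om` as the average over the two phases. -/
lemma integral_mu (f : Om → ℝ) (hf : Integrable f mu) :
    ∫ p, f p ∂mu = (1 / 2) * (∫ x, f (false, x)) + (1 / 2) * (∫ x, f (true, x)) := by
  unfold mu at hf ⊢
  rw [integral_prod _ hf, integral_fintype (Integrable.of_finite)]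
  simp only [Fintype.sum_bool, measureReal_def, nu_singleton]
  norm_num
  ring

lemma stability : ∫ p, ss p ∂mu < (((1 : ℕ) : ℝ) + 1) * ∫ p, tt p ∂mu := by
  rw [integral_mu _ integrable_ss, integral_mu _ integrable_tt]
  have hs : Integrable s (volume : Measure Circ) :=
    Integrable.of_bound measurable_s.aestronglyMeasurable 2
      (Filter.Eventually.of_forall fun x => by
        rw [Real.norm_of_nonneg (s_nonneg x)]
        have := s_lt x
        linarith)
  have h1 : ∫ x : Circ, ss (false, x) = 1 := by simp [ss]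
  have h2 : ∫ x : Circ, ss (true, x) = 2 := by simp [ss]
  have h3 : ∫ x : Circ, tt (false, x) = ∫ x, s x := by simp [tt]
  have h4 : ∫ x : Circ, tt (true, x) = 2 - ∫ x, s x := by
    have : (fun x : Circ => tt (true, x)) = fun x => 2 - s x := by
      funext x
      simp [tt]
    rw [this, integral_sub (integrable_const _) hs]
    simp
  rw [h1, h2, h3, h4]
  push_cast
  linarith

/-! ### The Kiefer-Wolfowitz recursion -/

/-- One step of the recursion for two servers. -/
noncomputable def step (v : Fin 2 → ℝ) (σ t : ℝ) : Fin 2 → ℝ :=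
  fun i : Fin 2 =>
    max ((v + (Pi.single 0 σ : Fin 2 → ℝ) - (fun _ : Fin 2 => t))
      (Tuple.sort (v + (Pi.single 0 σ : Fin 2 → ℝ) - (fun _ : Fin 2 => t)) i)) 0

lemma step_eq (v : Fin 2 → ℝ) (σ t : ℝ) (h : v 1 - t ≤ v 0 + σ - t) :
    step v σ t = ![max (v 1 - t) 0, max (v 0 + σ - t) 0] := by
  set u : Fin 2 → ℝ := v + (Pi.single 0 σ : Fin 2 → ℝ) - (fun _ : Fin 2 => t) with hu
  have hu0 : u 0 = v 0 + σ - t := by simp [hu]
  have hu1 : u 1 = v 1 - t := by simp [hu]
  have hmono : Monotone (u ∘ (Equiv.swap (0 : Fin 2) 1)) := by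
    intro i j hij
    fin_cases i <;> fin_cases j <;> simp_all
  have hsort := Tuple.comp_sort_eq_comp_iff_monotone.mpr hmono
  have hval : ∀ i, u (Tuple.sort u i) = u (Equiv.swap (0 : Fin 2) 1 i) := by
    intro i
    exact (congrFun hsort i).symm
  funext i
  show max (u (Tuple.sort u i)) 0 = _
  rw [hval i]
  fin_cases i
  · simp [hu1]
  · simp [hu0]

/-- The two-step map: `(0, a) ↦ (0, max a s)`. -/
lemma two_step (a r : ℝ) (ha : 0 ≤ a) (ha' : a < 1 / 2) (hr : 0 ≤ r) (hr' : r < 1 / 2) :
    step (step ![0, a] 1 r) 2 (2 - r) = ![0, max a r] := by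
  have h1 : step ![0, a] 1 r = ![max (a - r) 0, 1 - r] := by
    rw [step_eq]
    · simp only [Matrix.cons_val_zero, Matrix.cons_val_one]
      rw [zero_add, max_eq_left (a := 1 - r) (by linarith)]
    · simp only [Matrix.cons_val_zero, Matrix.cons_val_one]
      linarith
  have hmax : 0 ≤ max (a - r) 0 := le_max_right _ _
  rw [h1, step_eq]
  · simp only [Matrix.cons_val_zero, Matrix.cons_val_one]
    rw [max_eq_right (a := 1 - r - (2 - r)) (by linarith)]
    have : max (a - r) 0 + 2 - (2 - r) = max a r := by
      rw [← max_add_add_right, ← max_sub_sub_right]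
      congr 1 <;> ring
    rw [this, max_eq_left (ha.trans (le_max_left _ _))]
  · simp only [Matrix.cons_val_zero, Matrix.cons_val_one]
    linarith

/-- The Kiefer-Wolfowitz vectors started from zero. -/
noncomputable def W : ℕ → Om → (Fin 2 → ℝ)
  | 0, _ => 0
  | n + 1, p => step (W n p) (ss (theta^[n] p)) (tt (theta^[n] p))

lemma theta_iter_even (n : ℕ) (x : Circ) : theta^[2 * n] (false, x) = (false, dbl^[n] x) := by
  induction n with
  | zero => rfl
  | succ n ih =>
    rw [show 2 * (n + 1) = 2 * n + 1 + 1 by ring, Function.iterate_succ_apply',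
      Function.iterate_succ_apply', ih, Function.iterate_succ_apply']
    rfl

lemma theta_iter_odd (n : ℕ) (x : Circ) : theta^[2 * n + 1] (false, x) = (true, dbl^[n] x) := by
  rw [Function.iterate_succ_apply', theta_iter_even]
  rfl

lemma W_even (n : ℕ) (x : Circ) : W (2 * n) (false, x) = ![0, runmax n x] := by
  induction n with
  | zero =>
    funext i
    fin_cases i <;> rfl
  | succ n ih =>
    have h1 : W (2 * (n + 1)) (false, x) =
        step (step (W (2 * n) (false, x)) (ss (theta^[2 * n] (false, x)))
          (tt (theta^[2 * n] (false, x))))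
          (ss (theta^[2 * n + 1] (false, x))) (tt (theta^[2 * n + 1] (false, x))) := rfl
    rw [h1, theta_iter_even, theta_iter_odd, ih]
    have e1 : ss (false, dbl^[n] x) = 1 := by simp [ss]
    have e2 : tt (false, dbl^[n] x) = s (dbl^[n] x) := by simp [tt]
    have e3 : ss (true, dbl^[n] x) = 2 := by simp [ss]
    have e4 : tt (true, dbl^[n] x) = 2 - s (dbl^[n] x) := by simp [tt]
    rw [e1, e2, e3, e4, two_step _ _ (runmax_nonneg n x) (runmax_lt n x) (s_nonneg _) (s_lt _)]
    rfl

/-- The test sets. -/
def T (ε : ℝ) : Set (Fin 2 → ℝ) := {v | 1 / 2 - ε ≤ v 1 ∧ v 1 < 1 / 2}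

lemma measurable_T (ε : ℝ) : MeasurableSet (T ε) :=
  (measurableSet_le measurable_const (measurable_pi_apply 1)).inter
    (measurableSet_lt (measurable_pi_apply 1) measurable_const)

lemma lower_bound (ε : ℝ) (n : ℕ) :
    (1 / 2) * (volume : Measure Circ) {x | 1 / 2 - ε ≤ runmax n x} ≤
      mu {p | W (2 * n) p ∈ T ε} := by
  have hsub : ({false} : Set Bool) ×ˢ {x : Circ | 1 / 2 - ε ≤ runmax n x} ⊆
      {p | W (2 * n) p ∈ T ε} := by
    rintro ⟨b, x⟩ ⟨hb, hx⟩
    have hb' : b = false := hb
    subst hb'
    show W (2 * n) (false, x) ∈ T ε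
    rw [W_even]
    refine ⟨?_, ?_⟩
    · simpa using hx
    · simpa using runmax_lt n x
  calc (1 / 2) * (volume : Measure Circ) {x | 1 / 2 - ε ≤ runmax n x}
      = mu (({false} : Set Bool) ×ˢ {x : Circ | 1 / 2 - ε ≤ runmax n x}) := by
        unfold mu
        rw [Measure.prod_prod, nu_singleton]
    _ ≤ _ := measure_mono hsub

/-- The negation of the preceding statement: For any stationary ergodic nonnegative integrable input with E service < m·E interarrival, the Kiefer–Wolfowitz workload vectors started at zero converge in total variation to some probability law. -/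
theorem result :
    ¬ (∀ (Ω : Type) [MeasurableSpace Ω] (μ : Measure Ω) [IsProbabilityMeasure μ]
    (θ : Ω → Ω) (k : ℕ) (t σ : Ω → ℝ) (W : ℕ → Ω → (Fin (k+1) → ℝ)),
    Ergodic θ μ → Integrable t μ → Integrable σ μ →
    (∀ᵐ ω ∂μ, 0 ≤ t ω) → (∀ᵐ ω ∂μ, 0 ≤ σ ω) →
    ∫ ω, σ ω ∂μ < ((k : ℝ) + 1) * ∫ ω, t ω ∂μ →
    (∀ ω, W 0 ω = 0) →
    (∀ (n : ℕ) (ω : Ω), W (n+1) ω =
      (fun i : Fin (k+1) =>
        max ((W n ω + (Pi.single 0 (σ (θ^[n] ω)) : Fin (k+1) → ℝ)
                - (fun _ : Fin (k+1) => t (θ^[n] ω)))
              (Tuple.sort (W n ω + (Pi.single 0 (σ (θ^[n] ω)) : Fin (k+1) → ℝ)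
                - (fun _ : Fin (k+1) => t (θ^[n] ω))) i)) 0)) →
    ∃ π : Measure (Fin (k+1) → ℝ), IsProbabilityMeasure π ∧
      ∀ ε > (0 : ℝ), ∃ N : ℕ, ∀ n ≥ N, ∀ A : Set (Fin (k+1) → ℝ), MeasurableSet A →
        |(μ {ω | W n ω ∈ A}).toReal - (π A).toReal| < ε) := by
  intro H
  obtain ⟨π, hπ, hconv⟩ := H Om mu theta 1 tt ss W ergodic_theta integrable_tt integrable_ss
    (Filter.Eventually.of_forall tt_nonneg) (Filter.Eventually.of_forall ss_nonneg)
    stability (fun _ => rfl) (fun _ _ => rfl)
  -- every test set has limit mass at least `1/2`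
  have hT : ∀ ε > (0 : ℝ), (1 / 2 : ℝ) ≤ (π (T ε)).toReal := by
    intro ε hε
    refine le_of_forall_pos_le_add ?_
    intro δ hδ
    obtain ⟨N, hN⟩ := hconv (δ / 2) (half_pos hδ)
    have h1 : Filter.Tendsto
        (fun n => ((1 / 2) * (volume : Measure Circ) {x | 1 / 2 - ε ≤ runmax n x}).toReal)
        Filter.atTop (nhds (1 / 2)) := by
      have h2 := (tendsto_measure ε hε)
      have h3 := (ENNReal.tendsto_toReal ENNReal.one_ne_top).comp h2
      have h4 := h3.const_mul (1 / 2 : ℝ)
      simp only [ENNReal.toReal_one, mul_one] at h4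
      refine h4.congr (fun n => ?_)
      simp [ENNReal.toReal_mul]
    have h5 : ∀ᶠ n in Filter.atTop, (1 / 2 : ℝ) - δ / 2 <
        ((1 / 2) * (volume : Measure Circ) {x | 1 / 2 - ε ≤ runmax n x}).toReal :=
      h1.eventually (lt_mem_nhds (by linarith))
    obtain ⟨n, hn1, hn2⟩ := (h5.and (Filter.eventually_ge_atTop N)).exists
    have h6 := hN (2 * n) (by omega) (T ε) (measurable_T ε)
    have h7 : ((1 / 2) * (volume : Measure Circ) {x | 1 / 2 - ε ≤ runmax n x}).toReal ≤
        (mu {p | W (2 * n) p ∈ T ε}).toReal :=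
      ENNReal.toReal_mono (measure_ne_top _ _) (lower_bound ε n)
    have h8 := (abs_lt.mp h6).2
    linarith
  -- but the test sets decrease to the empty set
  have hanti : Antitone (fun j : ℕ => T (1 / ((j : ℝ) + 1))) := by
    intro i j hij v hv
    refine ⟨?_, hv.2⟩
    have h1 := hv.1
    have h2 : 1 / ((j : ℝ) + 1) ≤ 1 / ((i : ℝ) + 1) := by
      apply one_div_le_one_div_of_le
      · positivity
      · have : (i : ℝ) ≤ j := by exact_mod_cast hij
        linarith
    linarith
  have hinter : (⋂ j : ℕ, T (1 / ((j : ℝ) + 1))) = ∅ := by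
    ext v
    simp only [Set.mem_iInter, Set.mem_empty_iff_false, iff_false, not_forall]
    by_contra hcon
    push Not at hcon
    have h1 := (hcon 0).2
    obtain ⟨j, hj⟩ := exists_nat_one_div_lt (show (0 : ℝ) < 1 / 2 - v 1 by linarith)
    have h2 := (hcon j).1
    linarith
  have hlim := tendsto_measure_iInter_atTop (μ := π) (s := fun j : ℕ => T (1 / ((j : ℝ) + 1)))
    (fun j => (measurable_T _).nullMeasurableSet) hanti ⟨0, measure_ne_top _ _⟩
  rw [hinter, measure_empty] at hlim
  have hlim' := (ENNReal.tendsto_toReal ENNReal.zero_ne_top).comp hlim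
  simp only [ENNReal.toReal_zero] at hlim'
  have hge : (1 / 2 : ℝ) ≤ 0 :=
    ge_of_tendsto hlim' (Filter.Eventually.of_forall fun j => hT _ (by positivity))
  norm_num at hge

end Pool.Agent.S19536
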